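import Pool.Agent.P.MP_09c11a_nt.W.Base

/-! Statements on symmetric powers and determinants. -/

set_option autoImplicit false
set_option linter.unusedVariables false

namespace Pool.Agent.P.MP_09c11a_nt.W

open Finset Matrix

-- deps:
def S_S1 : Prop :=
  ∀ (N Z : ℕ) (R : Type) [CommRing R] (g h : Matrix (Fin N) (Fin N) R) (i z : Fin N → ℕ),
    z ∈ Sx N Z → sym (g * h) i z = ∑ y ∈ Sx N Z, sym h i y * sym g y z

-- deps: S1
def S_S2 : Prop :=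
  ∀ (N : ℕ) (R : Type) [CommRing R] (c : Fin N → R) (g : Matrix (Fin N) (Fin N) R)
    (i z : Fin N → ℕ),
    sym (diagonal c) i z = (if i = z then ∏ k, c k ^ z k else 0) ∧
    sym (1 : Matrix (Fin N) (Fin N) R) i z = (if i = z then 1 else 0) ∧
    sym (diagonal c * g) i z = (∏ k, c k ^ z k) * sym g i z ∧
    sym (g * diagonal c) i z = (∏ k, c k ^ i k) * sym g i z

-- deps:
def S_S3 : Prop :=
  ∀ (N : ℕ) (R R' : Type) [CommRing R] [CommRing R'] (φ : R →+* R') (g : Matrix (Fin N) (Fin N) R)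
    (i z : Fin N → ℕ), sym (g.map φ) i z = φ (sym g i z)

-- deps:
def S_S5 : Prop :=
  ∀ (N : ℕ) (R : Type) [CommRing R] (g : Matrix (Fin N) (Fin N) R), Up g → ∀ z : Fin N → ℕ,
    sym g z z = ∏ k, g k k ^ z k ∧ ∀ i, sym g i z ≠ 0 → i = z ∨ wt z < wt i

-- deps:
def S_S6 : Prop :=
  ∀ (N : ℕ) (R : Type) [CommRing R] (g : Matrix (Fin N) (Fin N) R) (π : R) (k0 l0 : Fin N),
    (∀ k, k ≠ k0 → π ∣ g k l0) → ∀ i z : Fin N → ℕ, π ^ (i l0 - z k0) ∣ sym g i z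

-- deps:
def S_S7 : Prop :=
  ∀ (N : ℕ) (R : Type) [CommRing R] (g : Matrix (Fin N) (Fin N) R) (i z : Fin N → ℕ),
    (fac i : R) * sym g i z = (fac z : R) * sym gᵀ z i

-- deps: S1 S2 S7
def S_S8 : Prop :=
  ∀ (N Z : ℕ) (g : Matrix (Fin N) (Fin N) ℝ) (ρ : Fin N → ℝ),
    gᵀ * g = diagonal (fun k => ρ k ^ 2) → ∀ i ∈ Sx N Z, ∀ z ∈ Sx N Z,
    sym g i z ^ 2 * fac i ≤ (∏ k, ρ k ^ i k) ^ 2 * fac z

-- deps: S3
def S_S9 : Prop :=
  ∀ (N : ℕ) (R : Type) [CommRing R] (S : Subring R) (g : Matrix (Fin N) (Fin N) R),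
    (∀ k l, g k l ∈ S) → ∀ i z : Fin N → ℕ, sym g i z ∈ S

-- deps:
def S_S10 : Prop :=
  ∀ (N Z : ℕ) (g : Matrix (Fin N) (Fin N) ℝ) (M : ℝ), 0 ≤ M → (∀ k l, |g k l| ≤ M) →
    ∀ i, ∀ z ∈ Sx N Z, |sym g i z| ≤ (N * M) ^ Z

-- deps:
def S_S11 : Prop :=
  ∀ (N : ℕ) (R : Type) [CommRing R] (g : Matrix (Fin N) (Fin N) R) (σ : Equiv.Perm (Fin N))
    (i z : Fin N → ℕ), sym (g.submatrix id σ) i z = sym g (i ∘ σ.symm) z

-- deps:
def S_TAY : Prop :=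
  ∀ (R : Type) [CommRing R] (β η : R) (x M j : ℕ), x ≤ M →
    (x.choose j : R) * (β + η) ^ (x - j) * β ^ (M - x) =
      ∑ k ∈ range (M + 1), (k.choose j : R) * η ^ (k - j) * β ^ (M - k) * (x.choose k : R)

-- deps:
def S_HAT : Prop :=
  ∀ (I C R : Type) [Fintype I] [DecidableEq I] [Fintype C] [DecidableEq C] [CommRing R]
    (ι : C → I) (Q : Matrix I I R) (J : Matrix I C R), Function.Injective ι →
    Q.det * (J.submatrix ι id).det = (hat ι (Q * J) Q).det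

-- deps: HAT
def S_ARB : Prop :=
  ∀ (I C : Type) [Fintype I] [DecidableEq I] [Fintype C] [DecidableEq C]
    (ι : C → I) (Q : Matrix I I ℝ) (J : Matrix I C ℝ) (Γ M : ℝ), Function.Injective ι →
    (∀ σ : C → I, Function.Injective σ → ∏ c, |(Q * J) (σ c) c| ≤ Γ) → 1 ≤ M →
    (∀ r s, |Q r s| ≤ M) → |Q.det * (J.submatrix ι id).det| ≤
      (Fintype.card I).factorial * Γ * M ^ (Fintype.card I - Fintype.card C)

-- deps: HAT
def S_DIV : Prop :=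
  ∀ (I C L R : Type) [Fintype I] [DecidableEq I] [Fintype C] [DecidableEq C] [Fintype L]
    [DecidableEq L] [CommRing R] (ι : C → I) (Q : Matrix I I R) (J : Matrix I C R)
    (M : Matrix I L R) (U : Matrix L C R) (q : R), Function.Injective ι → Q * J = M * U →
    (∀ (σ : C → I) (f : C → L), Function.Injective σ → Function.Injective f →
      q ∣ ∏ c, M (σ c) (f c)) → q ∣ Q.det * (J.submatrix ι id).det

-- deps:
def S_MINOR : Prop :=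
  ∀ (I C F : Type) [Fintype I] [Fintype C] [DecidableEq C] [Field F] (J : Matrix I C F),
    (∀ c : C → F, J *ᵥ c = 0 → c = 0) →
    ∃ ι : C → I, Function.Injective ι ∧ (J.submatrix ι id).det ≠ 0

-- deps: MINOR
def S_MINOR2 : Prop :=
  ∀ (s N : ℕ) (F : Type) [Field F] (M : Matrix (Fin s) (Fin N) F) (i0 : Fin N), Ind M →
    ∃ J : Fin s → Fin N, Function.Injective J ∧ (M.submatrix id J).det ≠ 0 ∧
      ((∃ j, M j i0 ≠ 0) → ∃ j, J j = i0)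

-- deps:
def S_CNT1 : Prop :=
  ∀ r Z : ℕ, 0 < (Sx (r + 2) Z).card ∧ (Sx (r + 2) Z).card ≤ (Z + 1) ^ (r + 2) ∧
    ∀ ψ : (Fin (r + 2) → ℕ) → ℝ, (∀ (σ : Equiv.Perm (Fin (r + 2))) z, ψ (z ∘ σ) = ψ z) →
      ∀ k, ((r : ℝ) + 2) * ∑ z ∈ Sx (r + 2) Z, z k * ψ z = Z * ∑ z ∈ Sx (r + 2) Z, ψ z

-- deps:
def S_GS : Prop :=
  ∀ (r : ℕ) (g : Matrix (Fin (r + 2)) (Fin (r + 2)) ℝ), g.det = 1 →
    ∃ (B : Matrix (Fin (r + 2)) (Fin (r + 2)) ℝ) (lam : Fin (r + 2) → ℝ), Up B ∧ (∀ k, B k k = 1) ∧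
      (g * B)ᵀ * (g * B) = diagonal (fun k => Real.exp (lam k) ^ 2) ∧ ∑ k, lam k = 0 ∧
      lam 0 = Real.log (∑ k, g k 0 ^ 2) / 2

-- deps:
def S_UNIM : Prop :=
  ∀ (r : ℕ) (t : Fin (r + 2) → ℤ), univ.gcd t = 1 →
    ∃ g : Matrix (Fin (r + 2)) (Fin (r + 2)) ℤ, g.det = 1 ∧ ∀ i, g i 0 = t i

end Pool.Agent.P.MP_09c11a_nt.W
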