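import Pool.Agent.P.MP_09c11a_nt.W.IfaceD
import Pool.Agent.P.MP_09c11a_nt.W.IfaceS

/-! Proofs of the steps QM1, QM2, QM3, CNT2, ROWS, NORM, VAC, VAB. -/

set_option autoImplicit false
set_option linter.unusedSectionVars false
set_option linter.unusedVariables false

namespace Pool.Agent.P.MP_09c11a_nt.W

section

open Finset Matrix Dat

theorem qm1_key (hS6 : S_S6) (d : Dat) (Z : ℕ) (R : Type) [CommRing R]
    (B : Fin 2 → Matrix (Fin (d.r + 2)) (Fin (d.r + 2)) R) (hB : ∀ A k, k ≠ 0 → B A k 0 = 0)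
    (r : d.Row Z) (F : Fin 2 → (Fin (d.r + 2) → ℕ) → ℕ → R) :
    ∑ s : d.Row Z, Qm Z B r s * F (rA s) (ri s) (rj s) =
      ∑ y ∈ Sx (d.r + 2) Z, sym (B (rA r)) (ri r) y * F (rA r) y (rj r) := by
  refine (sum_row (d := d) (Z := Z) (fun A y j =>
    (if rA r = A ∧ rj r = j then sym (B (rA r)) (ri r) y else 0) * F A y j)).trans ?_
  rw [Finset.sum_eq_single (rA r) (fun A _ hA => by simp [hA.symm]) (by simp)]
  refine Finset.sum_congr rfl fun y _ => ?_
  by_cases hy : y 0 < ri r 0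
  · have h := hS6 _ R (B (rA r)) 0 0 0 (fun k hk => by rw [hB _ k hk]) (ri r) y
    rw [zero_pow (by omega), zero_dvd_iff] at h
    simp [h]
  · have hj : rj r ∈ range (cc (d.E (rA r)) d.D (y 0)) :=
      mem_range.2 ((lt_cc d.hD).2 ((row_lt r).trans_le (Nat.mul_le_mul_left _ (not_lt.1 hy))))
    rw [Finset.sum_eq_single_of_mem (rj r) hj (fun j _ h => by simp [h.symm])]
    simp

theorem p_QM1 (hS1 : S_S1) (hS6 : S_S6) :
    S_QM1 := by
  intro d Z R _ B h w hB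
  ext r c
  rw [Matrix.mul_apply]
  refine (qm1_key hS6 d Z R B hB r (fun A y j => w A j c * sym (h A) y (cz c))).trans ?_
  change _ = w (rA r) (rj r) c * sym (h (rA r) * B (rA r)) (ri r) (cz c)
  rw [hS1 _ Z R _ _ _ _ c.1.2, Finset.mul_sum]
  exact Finset.sum_congr rfl fun y _ => by ring

end

section

open Finset Matrix Dat

theorem qm2_key (hS6 : S_S6) (d : Dat) (Z : ℕ) (R : Type) [CommRing R]
    (B : Fin 2 → Matrix (Fin (d.r + 2)) (Fin (d.r + 2)) R) (hB : ∀ A k, k ≠ 0 → B A k 0 = 0)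
    (r : d.Row Z) (F : Fin 2 → (Fin (d.r + 2) → ℕ) → ℕ → R) :
    ∑ s : d.Row Z, Qm Z B r s * F (rA s) (ri s) (rj s) =
      ∑ y ∈ Sx (d.r + 2) Z, sym (B (rA r)) (ri r) y * F (rA r) y (rj r) := by
  refine (sum_row (d := d) (Z := Z) (fun A y j =>
    (if rA r = A ∧ rj r = j then sym (B (rA r)) (ri r) y else 0) * F A y j)).trans ?_
  rw [Finset.sum_eq_single (rA r) (fun A _ hA => by simp [hA.symm]) (by simp)]
  refine Finset.sum_congr rfl fun y _ => ?_
  by_cases hy : y 0 < ri r 0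
  · have h := hS6 _ R (B (rA r)) 0 0 0 (fun k hk => by rw [hB _ k hk]) (ri r) y
    rw [zero_pow (by omega), zero_dvd_iff] at h
    simp [h]
  · have hj : rj r ∈ range (cc (d.E (rA r)) d.D (y 0)) :=
      mem_range.2 ((lt_cc d.hD).2 ((row_lt r).trans_le (Nat.mul_le_mul_left _ (not_lt.1 hy))))
    rw [Finset.sum_eq_single_of_mem (rj r) hj (fun j _ h => by simp [h.symm])]
    simp

theorem p_QM2 (hS1 : S_S1) (hS2 : S_S2) (hS6 : S_S6) :
    S_QM2 := by
  intro d Z R _ B B' hB hBB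
  ext r t
  rw [Matrix.mul_apply]
  refine (qm2_key hS6 d Z R B hB r (fun A y j =>
    if A = rA t ∧ j = rj t then sym (B' A) y (ri t) else 0)).trans ?_
  by_cases h : rA r = rA t ∧ rj r = rj t
  · simp only [if_pos h]
    rw [← hS1 _ Z R _ _ _ _ t.1.2.2, hBB, (hS2 _ R 1 1 _ _).2.1, Matrix.one_apply]
    exact if_congr ⟨fun h' => row_ext h.1 h' h.2, fun h' => by rw [h']⟩ rfl rfl
  · simp only [if_neg h]
    rw [Matrix.one_apply_ne fun h' => h (by rw [h']; exact ⟨rfl, rfl⟩)]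
    simp

end

section

open Finset Matrix Dat

theorem p_QM3 (hS5 : S_S5) :
    S_QM3 := by
  intro d Z R _ B hU h1
  have key : ∀ r s : d.Row Z, r ≠ s → wt (ri r) ≤ wt (ri s) → Qm Z B r s = 0 := by
    intro r s hrs hw
    by_contra hne
    have hne' : (if rA r = rA s ∧ rj r = rj s then sym (B (rA r)) (ri r) (ri s) else 0) ≠ 0 := hne
    split_ifs at hne' with h
    · rcases (hS5 _ R _ (hU _) (ri s)).2 _ hne' with h' | h'
      · exact hrs (row_ext h.1 h' h.2)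
      · omega
    · exact hne' rfl
  have hT : (Qm Z B).BlockTriangular fun r => OrderDual.toDual (wt (ri r)) := by
    intro r s h
    have h' : wt (ri r) < wt (ri s) := h
    exact key r s (fun e => by rw [e] at h'; exact lt_irrefl _ h') h'.le
  rw [hT.det]
  refine Finset.prod_eq_one fun a _ => ?_
  have h : (Qm Z B).toSquareBlock (fun r => OrderDual.toDual (wt (ri r))) a = 1 := by
    ext r s
    rw [Matrix.toSquareBlock_def, Matrix.of_apply, Matrix.one_apply]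
    split_ifs with h
    · subst h
      change (if rA r.1 = rA r.1 ∧ rj r.1 = rj r.1 then sym (B (rA r.1)) (ri r.1) (ri r.1) else 0) = 1
      rw [if_pos ⟨rfl, rfl⟩, (hS5 _ R _ (hU _) _).1]
      simp [h1]
    · exact key _ _ (fun e => h (Subtype.ext e))
        (le_of_eq (OrderDual.toDual.injective (r.2.trans s.2.symm)))
  rw [h, Matrix.det_one]

end

section

open Finset Matrix Dat

theorem cnt2_perm {N Z : ℕ} (σ : Equiv.Perm (Fin N)) (F : (Fin N → ℕ) → ℝ) :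
    ∑ z ∈ Sx N Z, F (z ∘ σ) = ∑ z ∈ Sx N Z, F z := by
  refine Finset.sum_nbij' (fun z => z ∘ σ) (fun z => z ∘ σ.symm) ?_ ?_ ?_ ?_ ?_
  · intro z hz
    rw [mem_Sx] at hz ⊢
    rw [← hz]
    exact Equiv.sum_comp σ z
  · intro z hz
    rw [mem_Sx] at hz ⊢
    rw [← hz]
    exact Equiv.sum_comp σ.symm z
  · intro z _
    ext k
    simp
  · intro z _
    ext k
    simp
  · intro z _
    rfl

theorem cnt2_shift {N Y : ℕ} (k : Fin N) (F : (Fin N → ℕ) → ℝ) (h : ∀ z, z k = 0 → F z = 0) :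
    ∑ w ∈ Sx N Y, F (w + Pi.single k 1) = ∑ z ∈ Sx N (Y + 1), F z := by
  refine Finset.sum_of_injOn (fun w => w + Pi.single k 1) ?_ ?_ ?_ ?_
  · intro a _ b _ hab
    exact add_right_cancel hab
  · intro w hw
    have hw' := mem_Sx.1 (Finset.mem_coe.1 hw)
    refine Finset.mem_coe.2 (mem_Sx.2 ?_)
    simp [Finset.sum_add_distrib, hw']
  · intro z hz hn
    refine h z ?_
    by_contra h0
    apply hn
    have he : (z - Pi.single k 1) + Pi.single k 1 = z := by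
      ext l
      by_cases hl : l = k
      · subst hl
        simp
        omega
      · simp [hl]
    refine ⟨z - Pi.single k 1, Finset.mem_coe.2 (mem_Sx.2 ?_), he⟩
    have h1 := mem_Sx.1 hz
    rw [← he] at h1
    simp only [Pi.add_apply, Finset.sum_add_distrib] at h1
    simpa using h1
  · intro w _
    rfl

theorem cnt2_key {N Z : ℕ} {k l : Fin N} (hkl : k ≠ l) :
    ∑ z ∈ Sx N Z, (z k : ℝ) ^ 2 =
      2 * ∑ z ∈ Sx N Z, (z k : ℝ) * z l + ∑ z ∈ Sx N Z, (z l : ℝ) := by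
  have h : ∑ z ∈ Sx N Z, (z k : ℝ) ^ 2 * (z l + 1) = ∑ z ∈ Sx N Z, ((z k : ℝ) + 1) ^ 2 * z l := by
    cases Z with
    | zero =>
      refine Finset.sum_congr rfl fun z hz => ?_
      have h1 := le_of_mem_Sx hz k
      have h2 := le_of_mem_Sx hz l
      rw [Nat.le_zero.1 h1, Nat.le_zero.1 h2]
      simp
    | succ Y =>
      rw [← cnt2_shift k (fun z => (z k : ℝ) ^ 2 * (z l + 1)) (fun z hz => by simp [hz]),
        ← cnt2_shift l (fun z => ((z k : ℝ) + 1) ^ 2 * z l) (fun z hz => by simp [hz])]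
      refine Finset.sum_congr rfl fun w _ => ?_
      simp [hkl, hkl.symm]
  have h1 : ∑ z ∈ Sx N Z, (z k : ℝ) ^ 2 * (z l + 1) =
      ∑ z ∈ Sx N Z, (z k : ℝ) ^ 2 * z l + ∑ z ∈ Sx N Z, (z k : ℝ) ^ 2 := by
    rw [← Finset.sum_add_distrib]
    exact Finset.sum_congr rfl fun z _ => by ring
  have h2 : ∑ z ∈ Sx N Z, ((z k : ℝ) + 1) ^ 2 * z l =
      ∑ z ∈ Sx N Z, (z k : ℝ) ^ 2 * z l + (2 * ∑ z ∈ Sx N Z, (z k : ℝ) * z l +
        ∑ z ∈ Sx N Z, (z l : ℝ)) := by
    rw [Finset.mul_sum, ← Finset.sum_add_distrib, ← Finset.sum_add_distrib]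
    exact Finset.sum_congr rfl fun z _ => by ring
  linarith

theorem p_CNT2 (hCNT1 : S_CNT1) :
    S_CNT2 := by
  intro d Z
  have hN := d.N_pos
  have hNe : d.N = (d.r : ℝ) + 2 := rfl
  have h1 : ∀ k, ∑ z ∈ Sx (d.r + 2) Z, (z k : ℝ) = Z * d.C Z / d.N := by
    intro k
    have h := (hCNT1 d.r Z).2.2 (fun _ => 1) (fun _ _ => rfl) k
    simp only [mul_one, Finset.sum_const, nsmul_eq_mul] at h
    rw [eq_div_iff hN.ne', hNe, mul_comm]
    exact h
  have h3 : ∀ k, ∑ z ∈ Sx (d.r + 2) Z, (z k : ℝ) ^ 2 =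
      2 * (Z * (Z - 1) * d.C Z / (d.N * (d.N + 1))) + Z * d.C Z / d.N := by
    intro k
    have hy : ∀ l ∈ univ.erase k, ∑ z ∈ Sx (d.r + 2) Z, (z k : ℝ) * z l =
        (∑ z ∈ Sx (d.r + 2) Z, (z k : ℝ) ^ 2 - Z * d.C Z / d.N) / 2 := by
      intro l hl
      have h := cnt2_key (N := d.r + 2) (Z := Z) (Finset.ne_of_mem_erase hl).symm
      rw [h1 l] at h
      linarith
    have hs : ∑ l, ∑ z ∈ Sx (d.r + 2) Z, (z k : ℝ) * z l = Z * (Z * d.C Z / d.N) := by
      rw [Finset.sum_comm, ← h1 k, Finset.mul_sum]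
      refine Finset.sum_congr rfl fun z hz => ?_
      rw [← Finset.mul_sum, ← mem_Sx.1 hz, mul_comm]
      simp
    rw [← Finset.add_sum_erase _ _ (mem_univ k), Finset.sum_congr rfl hy] at hs
    simp only [Finset.sum_const, nsmul_eq_mul, Finset.card_erase_of_mem (mem_univ k),
      Finset.card_univ, Fintype.card_fin] at hs
    have hc : ((d.r + 2 - 1 : ℕ) : ℝ) = d.N - 1 := by
      rw [hNe, show d.r + 2 - 1 = d.r + 1 from rfl]
      push_cast
      ring
    rw [hc] at hs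
    have hq : ∑ z ∈ Sx (d.r + 2) Z, (z k : ℝ) * z k = ∑ z ∈ Sx (d.r + 2) Z, (z k : ℝ) ^ 2 :=
      Finset.sum_congr rfl fun z _ => by ring
    rw [hq] at hs
    generalize ∑ z ∈ Sx (d.r + 2) Z, (z k : ℝ) ^ 2 = Q at hs ⊢
    have hN1 : d.N + 1 ≠ 0 := by positivity
    have hs' : Q * (d.N + 1) = 2 * Z * (Z * d.C Z / d.N) + (d.N - 1) * (Z * d.C Z / d.N) := by
      linarith
    have hQ : Q = (2 * Z * (Z * d.C Z / d.N) + (d.N - 1) * (Z * d.C Z / d.N)) / (d.N + 1) :=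
      (eq_div_iff hN1).2 hs'
    rw [hQ]
    field_simp
    ring
  refine ⟨h1, fun k l hkl => ?_, h3⟩
  have h := cnt2_key (N := d.r + 2) (Z := Z) hkl
  rw [h1 l, h3 k] at h
  linarith

end

section

open Finset Matrix Dat

theorem rows_card (d : Dat) (Z : ℕ) (A : Fin 2) : (#{r : d.Row Z | rA r = A} : ℝ) =
    ∑ i ∈ Sx (d.r + 2) Z, (cc (d.E A) d.D (i 0) : ℝ) := by
  rw [Finset.card_filter, Nat.cast_sum]
  have h := sum_row (d := d) (Z := Z) (fun B _ _ => if B = A then (1 : ℝ) else 0)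
  simp only [Nat.cast_ite, Nat.cast_one, Nat.cast_zero]
  rw [h, Finset.sum_eq_single A (fun B _ hB => by simp [hB]) (by simp)]
  simp

theorem rows_card_all (d : Dat) (Z : ℕ) : (Fintype.card (d.Row Z) : ℝ) =
    (#{r : d.Row Z | rA r = 0} : ℝ) + (#{r : d.Row Z | rA r = 1} : ℝ) := by
  have h := sum_row (d := d) (Z := Z) (fun _ _ _ => (1 : ℝ))
  rw [rows_card, rows_card]
  simpa [Fin.sum_univ_two] using h

theorem rows_le_cc (E x : ℕ) {D : ℕ} (hD : 0 < D) : (E : ℝ) / D * x ≤ cc E D x := by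
  have h : (E : ℝ) * x ≤ D * cc E D x := by exact_mod_cast le_cc E x hD
  have hD' : (0 : ℝ) < D := by exact_mod_cast hD
  rw [div_mul_eq_mul_div, div_le_iff₀ hD']
  linarith

theorem rows_cc_le (E x : ℕ) {D : ℕ} (hD : 0 < D) : (cc E D x : ℝ) ≤ (E : ℝ) / D * x + 1 := by
  have h : (D : ℝ) * cc E D x < E * x + D := by exact_mod_cast cc_lt E x hD
  have hD' : (0 : ℝ) < D := by exact_mod_cast hD
  rw [div_mul_eq_mul_div, div_add_one hD'.ne', le_div_iff₀ hD']
  linarith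

theorem p_ROWS (hCNT2 : S_CNT2) :
    S_ROWS := by
  intro d Z
  have hC : 0 ≤ d.C Z := Nat.cast_nonneg _
  have hs : ∀ A, ∑ i ∈ Sx (d.r + 2) Z, (d.E A : ℝ) / d.D * i 0 = d.ρ A * Z * d.C Z := fun A => by
    rw [← Finset.mul_sum, (hCNT2 d Z).1 0, ρ, div_mul_div_comm, mul_assoc, div_mul_eq_mul_div]
  have h2 : ∀ A, d.ρ A * Z * d.C Z ≤ (#{r : d.Row Z | rA r = A} : ℝ) ∧
      (#{r : d.Row Z | rA r = A} : ℝ) ≤ d.ρ A * Z * d.C Z + d.C Z := fun A => by
    rw [rows_card, ← hs]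
    refine ⟨Finset.sum_le_sum fun i _ => rows_le_cc _ _ d.hD, ?_⟩
    refine (Finset.sum_le_sum fun i _ => rows_cc_le _ _ d.hD).trans_eq ?_
    rw [Finset.sum_add_distrib]
    simp [C]
  have h1 : (Fintype.card (d.Row Z) : ℝ) ≤ Fintype.card (d.Col Z) + 3 * d.C Z := by
    rw [rows_card_all, card_col]
    have a0 := (h2 0).2
    have a1 := (h2 1).2
    have a2 := mul_le_mul_of_nonneg_left (d.lt_ll_real Z).le hC
    linarith
  refine ⟨h1, h2, fun hZ => ?_, fun σ ψ M hσ hM hψ => ?_⟩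
  · have hZ' : (1 : ℝ) ≤ Z := by exact_mod_cast hZ
    refine ⟨le_mul_of_one_le_right hC hZ', le_mul_of_one_le_right (by positivity) ?_⟩
    rw [Real.le_log_iff_exp_le (by positivity)]
    linarith [Real.exp_one_lt_d9]
  · classical
    have e1 : ∑ c, ψ (σ c) = ∑ r ∈ univ.image σ, ψ r :=
      (Finset.sum_image fun _ _ _ _ h => hσ h).symm
    have e2 := Finset.sum_add_sum_compl (univ.image σ) ψ
    have e3 : (#(univ.image σ)ᶜ : ℝ) ≤ 3 * d.C Z := by
      have := Finset.card_add_card_compl (univ.image σ)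
      rw [Finset.card_image_of_injective _ hσ, Finset.card_univ] at this
      have h' : (Fintype.card (d.Col Z) : ℝ) + #(univ.image σ)ᶜ = Fintype.card (d.Row Z) := by
        exact_mod_cast this
      linarith
    rw [e1, ← e2, sub_add_cancel_left, abs_neg]
    refine (Finset.abs_sum_le_sum_abs _ _).trans ?_
    refine (Finset.sum_le_card_nsmul _ _ M fun r _ => hψ r).trans ?_
    rw [nsmul_eq_mul]
    exact mul_le_mul_of_nonneg_right e3 hM

end

section

open Finset Matrix Dat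

theorem norm_map {m : Type} (M : Matrix m m ℤ) : M.map (Int.castRingHom ℤ) = M := by
  ext i j; simp

theorem norm_prod (d : Dat) {Z : ℕ} {z : Fin (d.r + 2) → ℕ} (hz : z ∈ Sx (d.r + 2) Z) :
    ∏ k, ((d.a : ℤ) ^ d.e k * (d.b : ℤ) ^ (d.n - d.e k)) ^ z k =
      (d.a : ℤ) ^ d.ez z * (d.b : ℤ) ^ (d.n * Z - d.ez z) := by
  have h : ∑ k, (d.n - d.e k) * z k + d.ez z = d.n * Z := by
    rw [← mem_Sx.1 hz, Dat.ez, ← Finset.sum_add_distrib, Finset.mul_sum]
    exact Finset.sum_congr rfl fun k _ => by rw [← add_mul, Nat.sub_add_cancel (d.elt k).le]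
  rw [← h, Nat.add_sub_cancel, Dat.ez]
  simp only [mul_pow, ← pow_mul, Finset.prod_mul_distrib, Finset.prod_pow_eq_pow_sum]

theorem norm_row (hS2 : S_S2) (d : Dat) (Z : ℕ) (r : d.Row Z) (c : d.Col Z) :
    (d.a : ℤ) ^ (d.n * rj r * (rA r : ℕ)) * d.JX Z ((d.a : ℤ) ^ d.n - (d.b : ℤ) ^ d.n) r c =
      (d.a : ℤ) ^ (d.n * Z * (rA r : ℕ)) * (d.b : ℤ) ^ (d.n * (2 * Z - d.ll Z) * (rA r : ℕ)) *
        d.J Z r c := by
  simp only [Dat.JX, Dat.J, Jg, Matrix.of_apply, norm_map]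
  generalize rA r = A
  generalize rj r = j
  fin_cases A
  · simp [Dat.gy, Dat.gm, Dat.bs, Dat.bt]
  · have e1 : d.gy 1 = Matrix.diagonal
        (fun i => (d.a : ℤ) ^ d.e i * (d.b : ℤ) ^ (d.n - d.e i)) * d.g := rfl
    have e2 : d.gm 1 = d.g := rfl
    have e3 : d.bs 1 = d.a := rfl
    have e4 : d.bt 1 = d.b := rfl
    simp only [Fin.mk_one, e1, e2, e3, e4, mul_one, Nat.cast_one, one_mul,
      add_sub_cancel, (hS2 _ _ _ _ _ _).2.2.1, norm_prod d c.1.2]
    rcases lt_or_ge (cx c) j with h | h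
    · simp [Nat.choose_eq_zero_of_lt h]
    · have h1 := ck_add c
      have h2 := ck_lt' c
      have h3 := cx_le c
      have h4 := d.ll_le Z
      have h5 := ez_le (d := d) c.1.2
      obtain ⟨x, hx⟩ := Nat.exists_eq_add_of_le h
      obtain ⟨y, hy⟩ := Nat.exists_eq_add_of_le h3
      obtain ⟨u, hu⟩ := Nat.exists_eq_add_of_le (h4.trans (by omega : Z ≤ 2 * Z))
      have ha : d.n * j + (d.n * (cx c - j) + d.ez (cz c)) = d.n * Z + ck c := by
        rw [hx, Nat.add_sub_cancel_left, add_comm _ (ck c), h1, hx]; ring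
      have hb : d.n * (2 * Z - cx c) + (d.n * Z - d.ez (cz c)) =
          d.n * (2 * Z - d.ll Z) + (d.n * d.ll Z - ck c) := by
        have k1 : d.n * (2 * Z - cx c) + d.n * cx c = 2 * (d.n * Z) := by
          rw [← mul_add, Nat.sub_add_cancel h3]; ring
        have k2 : d.n * (2 * Z - d.ll Z) + d.n * d.ll Z = 2 * (d.n * Z) := by
          rw [← mul_add, Nat.sub_add_cancel (by omega)]; ring
        change d.ez (cz c) ≤ _ at h5
        omega
      calc _ = ((cx c).choose j : ℤ) * sym d.g (ri r) (cz c) *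
            (d.a : ℤ) ^ (d.n * j + (d.n * (cx c - j) + d.ez (cz c))) *
            (d.b : ℤ) ^ (d.n * (2 * Z - cx c) + (d.n * Z - d.ez (cz c))) := by
            simp only [pow_add, pow_mul]; ring
        _ = _ := by rw [ha, hb]; simp only [pow_add]; ring

theorem p_NORM (hS2 : S_S2) :
    S_NORM := by
  intro d Z ι
  refine ⟨∑ c, d.n * rj (ι c) * (rA (ι c) : ℕ), ∑ c, d.n * Z * (rA (ι c) : ℕ),
    ∑ c, d.n * (2 * Z - d.ll Z) * (rA (ι c) : ℕ), ?_⟩
  rw [← Finset.prod_pow_eq_pow_sum, ← Finset.prod_pow_eq_pow_sum, ← Finset.prod_pow_eq_pow_sum,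
    ← Finset.prod_mul_distrib, Dat.DelX, Dat.Del, ← det_mul_column, ← det_mul_column]
  congr 1
  ext c c'
  exact norm_row hS2 d Z (ι c) c'

end

section

open Finset Matrix Dat

theorem vac_tail0 {x : ℝ} (hx : 0 ≤ x) (M : ℕ) :
    2 * ∑ j ∈ range (M + 1), max (x - j) 0 ≤ 2 * x + x ^ 2 - max (x - M) 0 ^ 2 := by
  induction M with
  | zero => simp [hx]
  | succ M ih =>
    rw [sum_range_succ, mul_add]
    push_cast
    rcases le_total (x - (M + 1)) 0 with h | h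
    · rw [max_eq_right h]
      nlinarith [sq_nonneg (max (x - M) 0)]
    · rw [max_eq_left h]
      rw [max_eq_left (show (0 : ℝ) ≤ x - M by linarith)] at ih
      nlinarith

theorem vac_thr (d : Dat) (Z : ℕ) (m : d.Col Z → ℕ) (hm : Function.Injective fun c => (cz c, m c))
    {x : ℝ} (hx : 0 ≤ x) : ∑ c, max (x - m c) 0 ≤ d.C Z * (x ^ 2 / 2 + x) := by
  classical
  obtain ⟨M, hM⟩ := (Set.finite_range m).bddAbove
  let g : (Fin (d.r + 2) → ℕ) × ℕ → ℝ := fun y => max (x - y.2) 0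
  have h1 : ∑ c, g (cz c, m c) ≤ ∑ y ∈ Sx (d.r + 2) Z ×ˢ range (M + 1), g y := by
    rw [← sum_image (s := univ) (g := fun c => (cz c, m c)) (f := g) hm.injOn]
    refine sum_le_sum_of_subset_of_nonneg (fun y hy => ?_) fun _ _ _ => le_max_right _ _
    obtain ⟨c, -, rfl⟩ := mem_image.1 hy
    exact mem_product.2 ⟨c.1.2, mem_range.2 (Nat.lt_succ_of_le (hM ⟨c, rfl⟩))⟩
  refine h1.trans ?_
  rw [sum_product]
  refine (sum_le_card_nsmul _ _ (x ^ 2 / 2 + x) fun z _ => ?_).trans_eq (nsmul_eq_mul _ _)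
  have := vac_tail0 hx M
  simp only [g]
  nlinarith [sq_nonneg (max (x - M) 0)]

theorem vac_rho (d : Dat) (A : Fin 2) : 0 ≤ d.ρ A := by
  have := d.N_pos
  unfold Dat.ρ; positivity

theorem p_VAC (hROWS : S_ROWS) :
    S_VAC := by
  intro d
  refine ⟨4 * d.n * d.ρ 1, fun Z hZ σ m hσ hm => ?_⟩
  obtain ⟨-, h2, h3, h4⟩ := hROWS d Z
  have hρ := vac_rho d 1
  have hx : 0 ≤ d.ρ 1 * Z := by positivity
  have hn : (0 : ℝ) ≤ d.n := by positivity
  have h5 := h4 σ (fun r => if rA r = 1 then 1 else 0) 1 hσ zero_le_one fun r => by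
    split_ifs <;> simp
  have h6 : ∑ r : d.Row Z, (if rA r = 1 then (1 : ℝ) else 0) = #{r : d.Row Z | rA r = 1} := by simp
  rw [h6] at h5
  have h7 : d.ρ 1 * Z * d.C Z - 3 * d.C Z ≤ ∑ c, (if rA (σ c) = 1 then (1 : ℝ) else 0) := by
    linarith [(abs_le.1 h5).1, (h2 1).1]
  have h8 : ∑ c, d.n * (d.ρ 1 * Z * (if rA (σ c) = 1 then (1 : ℝ) else 0) -
      max (d.ρ 1 * Z - m c) 0) ≤ ∑ c, if rA (σ c) = 1 then (d.n * m c : ℝ) else 0 :=
    sum_le_sum fun c _ => by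
      split_ifs
      · exact mul_le_mul_of_nonneg_left (by linarith [le_max_left (d.ρ 1 * Z - m c) (0 : ℝ)]) hn
      · exact mul_nonpos_of_nonneg_of_nonpos hn
          (by linarith [le_max_right (d.ρ 1 * Z - m c) (0 : ℝ)])
  rw [← mul_sum, sum_sub_distrib, ← mul_sum] at h8
  refine le_trans ?_ h8
  have h9 := vac_thr d Z m hm hx
  have h10 := mul_le_mul_of_nonneg_left h7 hx
  have h11 := mul_le_mul_of_nonneg_left (h3 hZ).2 (mul_nonneg hn hρ)
  have h12 := mul_le_mul_of_nonneg_left (sub_le_sub h10 h9) hn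
  unfold Dat.cA Dat.mt
  nlinarith

end

section

open Finset Matrix Dat

theorem vab_dvd (d : Dat) (Z : ℕ) (ι : d.Col Z → d.Row Z) (hι : Function.Injective ι) (q : ℤ)
    (y : ℝ) (m : d.Col Z → ℕ) (hq : ∀ r c, rA r = 1 → q ^ (d.n * m c) ∣ d.J Z r c)
    (hy : ∀ σ : d.Col Z → d.Row Z, Function.Injective σ →
      y ≤ ∑ c, if rA (σ c) = 1 then (d.n * m c : ℝ) else 0) : q ^ ⌈y⌉₊ ∣ d.Del ι := by
  rw [Dat.Del, det_apply']
  refine Finset.dvd_sum fun s _ => Dvd.dvd.mul_left ?_ _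
  have h1 : ⌈y⌉₊ ≤ ∑ c, if rA (ι (s c)) = 1 then d.n * m c else 0 := by
    rw [Nat.ceil_le]
    refine (hy (ι ∘ s) (hι.comp s.injective)).trans_eq ?_
    push_cast
    rfl
  refine (pow_dvd_pow q h1).trans ?_
  rw [← Finset.prod_pow_eq_pow_sum]
  refine Finset.prod_dvd_prod_of_dvd _ _ fun c _ => ?_
  split_ifs with h
  · exact hq _ _ h
  · simp

theorem p_VAB (hVAC : S_VAC) :
    S_VAB := by
  intro d
  obtain ⟨K, hK⟩ := hVAC d
  refine ⟨K, fun Z hZ ι hι => ⟨_, ?_, ?_, Nat.le_ceil _⟩⟩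
  · refine vab_dvd d Z ι hι _ _ (fun c => cm c) (fun r c h => ?_) fun σ hσ => hK Z hZ σ _ hσ ?_
    · simp only [Dat.J, Jg, Matrix.of_apply, h]
      exact (((pow_dvd_pow (d.a : ℤ) (Nat.le_add_left _ _)).mul_left _).mul_right _).mul_right _
    · intro c c' e
      obtain ⟨e1, e2⟩ := Prod.ext_iff.1 e
      exact Prod.ext (Subtype.ext e1) (Fin.ext e2)
  · refine vab_dvd d Z ι hι _ _ (fun c => d.ll Z - 1 - cm c) (fun r c h => ?_)
      fun σ hσ => hK Z hZ σ _ hσ ?_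
    · simp only [Dat.J, Jg, Matrix.of_apply, h]
      refine ((pow_dvd_pow (d.b : ℤ) ?_).mul_left _).mul_right _
      have h1 := ck_lt c
      have h2 : cm c < d.ll Z := c.2.2
      have h3 : d.n * (d.ll Z - 1 - cm c) + d.n * (cm c + 1) = d.n * d.ll Z := by
        rw [← mul_add]; congr 1; omega
      omega
    · intro c c' e
      obtain ⟨e1, e2⟩ := Prod.ext_iff.1 e
      have h2 : cm c < d.ll Z := c.2.2
      have h3 : cm c' < d.ll Z := c'.2.2
      have e3 : d.ll Z - 1 - cm c = d.ll Z - 1 - cm c' := e2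
      exact Prod.ext (Subtype.ext e1) (Fin.ext (by change cm c = cm c'; omega))

end

end Pool.Agent.P.MP_09c11a_nt.W
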