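import Pool.Agent.P.MP_09c11a_nt.W.IfaceD
import Pool.Agent.P.MP_09c11a_nt.W.IfaceS

/-! Proofs of the steps VXC, VXA, VPC, VPA, ENT. -/

set_option autoImplicit false
set_option linter.unusedSectionVars false
set_option linter.unusedVariables false

namespace Pool.Agent.P.MP_09c11a_nt.W

section

open Finset Matrix Dat

theorem vxc_sum (x : ℝ) (m : ℕ) : ∑ j ∈ range m, (x - j) = m * x - m * (m - 1) / 2 := by
  induction m with
  | zero => simp
  | succ m ih => rw [Finset.sum_range_succ, ih]; push_cast; ring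

theorem vxc_cc {E D x : ℕ} (hD : 0 < D) : cc E D x ≤ E * x :=
  not_lt.1 fun h => absurd ((lt_cc hD).1 h) (not_lt.2 (Nat.le_mul_of_pos_left _ hD))

theorem vxc_swap {N Z : ℕ} {i : Fin N → ℕ} (π : Equiv.Perm (Fin N)) (h : i ∈ Sx N Z) :
    i ∘ π ∈ Sx N Z := by
  rw [mem_Sx] at h ⊢
  rw [← h]; exact Equiv.sum_comp π i

theorem vxc_blk {d : Dat} {Z : ℕ} (r : d.Row Z) : blk r ∈ Sx (d.r + 2) Z := by
  unfold blk
  split_ifs
  · exact r.1.2.2
  · exact vxc_swap _ r.1.2.2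

theorem p_VXC (hROWS : S_ROWS) (hCNT2 : S_CNT2) :
    S_VXC := by
  intro d
  refine ⟨d.cX + 3 * (d.E 0 + d.E 1), fun Z hZ σ f hσ hf => ?_⟩
  obtain ⟨-, -, h4, h5⟩ := hROWS d Z
  obtain ⟨-, h4⟩ := h4 hZ
  obtain ⟨-, h6, -⟩ := hCNT2 d Z
  have hD := d.hD
  have hD' : (0 : ℝ) < d.D := by exact_mod_cast hD
  have hN := d.N_pos
  set c0 : (Fin (d.r + 2) → ℕ) → ℕ := fun i => cc (d.E 0) d.D (i 0) with hc0
  set c1 : (Fin (d.r + 2) → ℕ) → ℕ := fun i => cc (d.E 1) d.D (i 1) with hc1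
  set kap : (Fin (d.r + 2) → ℕ) → ℕ := fun i => c0 i + c1 i with hkap
  have hk : ∀ i ∈ Sx (d.r + 2) Z, kap i ≤ (d.E 0 + d.E 1) * Z := fun i hi => by
    rw [add_mul]
    exact add_le_add ((vxc_cc hD).trans (Nat.mul_le_mul_left _ (le_of_mem_Sx hi 0)))
      ((vxc_cc hD).trans (Nat.mul_le_mul_left _ (le_of_mem_Sx hi 1)))
  have hj : ∀ r : d.Row Z, rj r ≤ (d.E 0 + d.E 1) * Z := fun r => by
    have h1 : rj r ≤ d.E (rA r) * ri r 0 := r.2.2.le.trans (vxc_cc hD)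
    refine h1.trans (Nat.mul_le_mul ?_ (le_of_mem_Sx r.1.2.2 0))
    generalize rA r = A
    fin_cases A <;> simp
  -- the rows
  have hrow := h5 σ (fun r => (kap (blk r) : ℝ) - rj r) ((d.E 0 + d.E 1) * Z) hσ (by positivity)
    (fun r => by
      have h1 : (kap (blk r) : ℝ) ≤ (d.E 0 + d.E 1) * Z := by exact_mod_cast hk _ (vxc_blk r)
      have h2 : (rj r : ℝ) ≤ (d.E 0 + d.E 1) * Z := by exact_mod_cast hj r
      have h3 : (0 : ℝ) ≤ kap (blk r) := Nat.cast_nonneg _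
      have h4 : (0 : ℝ) ≤ rj r := Nat.cast_nonneg _
      rw [abs_le]; constructor <;> linarith)
  have hsum : ∑ r : d.Row Z, ((kap (blk r) : ℝ) - rj r) =
      ∑ i ∈ Sx (d.r + 2) Z, ((c0 i * kap i - c0 i * (c0 i - 1) / 2 : ℝ) +
        (c1 i * kap i - c1 i * (c1 i - 1) / 2)) := by
    refine (sum_row (d := d) (Z := Z) fun A i j =>
      ((kap (if A = 0 then i else i ∘ Equiv.swap 0 1) : ℝ) - j)).trans ?_
    rw [Fin.sum_univ_two, Finset.sum_add_distrib]
    congr 1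
    · exact Finset.sum_congr rfl fun i _ => by rw [if_pos rfl, vxc_sum]
    · refine Finset.sum_bij' (fun i _ => i ∘ Equiv.swap 0 1) (fun i _ => i ∘ Equiv.swap 0 1)
        (fun i hi => vxc_swap _ hi) (fun i hi => vxc_swap _ hi) (fun i _ => ?_) (fun i _ => ?_)
        fun i _ => ?_
      · funext k; simp
      · funext k; simp
      · rw [if_neg (by decide), vxc_sum]
        simp [hc1]
  -- the threshold
  have hth : ∑ c, (kap (blk (σ c)) - f c) ≤
      ∑ i ∈ Sx (d.r + 2) Z, ∑ k ∈ range (kap i), (kap i - k) := by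
    classical
    have hφ : Function.Injective
        fun c => (⟨blk (σ c), f c⟩ : Σ _ : Fin (d.r + 2) → ℕ, ℕ) := fun c c' h => by
      simp only [Sigma.mk.injEq, heq_eq_eq] at h
      exact hf (Prod.ext h.1 h.2)
    rw [Finset.sum_sigma', ← Finset.sum_image (s := univ)
      (f := fun p : Σ _ : Fin (d.r + 2) → ℕ, ℕ => kap p.1 - p.2) hφ.injOn]
    refine Finset.sum_le_sum_of_ne_zero fun p hp h0 => ?_
    obtain ⟨c, -, rfl⟩ := Finset.mem_image.1 hp
    exact Finset.mem_sigma.2 ⟨vxc_blk _, Finset.mem_range.2 (Nat.lt_of_sub_ne_zero h0)⟩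
  have hth' : ∑ c, ((kap (blk (σ c)) : ℝ) - f c) ≤
      ∑ i ∈ Sx (d.r + 2) Z, ((kap i : ℝ) * kap i - kap i * (kap i - 1) / 2) := by
    calc _ ≤ ∑ c, ((kap (blk (σ c)) - f c : ℕ) : ℝ) := Finset.sum_le_sum fun c _ => by
          rcases le_total (f c) (kap (blk (σ c))) with h | h
          · rw [Nat.cast_sub h]
          · exact (sub_nonpos.2 (by exact_mod_cast h)).trans (Nat.cast_nonneg _)
      _ ≤ ∑ i ∈ Sx (d.r + 2) Z, ∑ k ∈ range (kap i), ((kap i - k : ℕ) : ℝ) := by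
          exact_mod_cast hth
      _ = _ := Finset.sum_congr rfl fun i _ => by
          rw [← vxc_sum]
          exact Finset.sum_congr rfl fun k hk => Nat.cast_sub (Finset.mem_range.1 hk).le
  -- the main term
  have hmain : d.cX * (d.C Z * (Z * (Z - 1))) ≤ ∑ i ∈ Sx (d.r + 2) Z, (c0 i : ℝ) * c1 i := by
    calc _ = ∑ i ∈ Sx (d.r + 2) Z, d.E 0 * d.E 1 / (d.D : ℝ) ^ 2 * ((i 0 : ℝ) * i 1) := by
          rw [← Finset.mul_sum, h6 0 1 (by simp)]
          unfold cX; field_simp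
      _ ≤ _ := Finset.sum_le_sum fun i _ => by
          have h0 : (d.E 0 : ℝ) * i 0 ≤ d.D * c0 i := by exact_mod_cast le_cc _ _ hD
          have h1 : (d.E 1 : ℝ) * i 1 ≤ d.D * c1 i := by exact_mod_cast le_cc _ _ hD
          have := mul_le_mul h0 h1 (by positivity) (by positivity)
          rw [div_mul_eq_mul_div, div_le_iff₀ (by positivity)]
          nlinarith
  have hdiff : ∑ i ∈ Sx (d.r + 2) Z, ((c0 i * kap i - c0 i * (c0 i - 1) / 2 : ℝ) +
        (c1 i * kap i - c1 i * (c1 i - 1) / 2)) -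
      ∑ i ∈ Sx (d.r + 2) Z, ((kap i : ℝ) * kap i - kap i * (kap i - 1) / 2) =
      ∑ i ∈ Sx (d.r + 2) Z, (c0 i : ℝ) * c1 i := by
    rw [← Finset.sum_sub_distrib]
    exact Finset.sum_congr rfl fun i _ => by simp only [hkap]; push_cast; ring
  have hsplit : ∑ c, ((f c : ℝ) - rj (σ c)) = ∑ c, ((kap (blk (σ c)) : ℝ) - rj (σ c)) -
      ∑ c, ((kap (blk (σ c)) : ℝ) - f c) := by
    rw [← Finset.sum_sub_distrib]
    exact Finset.sum_congr rfl fun c _ => by ring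
  have hX : 0 ≤ d.cX := by unfold cX; positivity
  have hE : (0 : ℝ) ≤ d.E 0 + d.E 1 := by positivity
  have h7 := mul_le_mul_of_nonneg_left h4 hX
  have h8 := mul_le_mul_of_nonneg_left h4 hE
  have h9 := (abs_le.1 hrow).1
  rw [hsplit, Dat.mt]
  linarith

end

section

open Finset Matrix Dat

theorem vxa_map (hS3 : S_S3) (d : Dat) (Z : ℕ) (ι : d.Col Z → d.Row Z) {R R' : Type} [CommRing R]
    [CommRing R'] (φ : R →+* R') (ξ : R) :
    φ ((d.JX Z ξ).submatrix ι id).det = ((d.JX Z (φ ξ)).submatrix ι id).det := by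
  rw [RingHom.map_det]
  congr 1
  ext r c
  simp only [RingHom.mapMatrix_apply, Matrix.map_apply, submatrix_apply, JX, Jg, of_apply, map_mul,
    map_pow, map_add, map_natCast]
  rw [← hS3]
  congr 2
  ext k l
  simp

theorem vxa_unit {n : ℕ} (M : Matrix (Fin n) (Fin n) ℤ) (h : M.det ≠ 0) :
    IsUnit (M.map (Int.castRingHom (Polynomial ℚ))).det := by
  rw [← RingHom.mapMatrix_apply, ← RingHom.map_det, eq_intCast, ← map_intCast (Polynomial.C (R := ℚ))]
  exact Polynomial.isUnit_C.2 (Int.cast_ne_zero.2 h).isUnit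

theorem vxa_det (r : ℕ) (y : Fin (r + 2) → ℤ) : ((G0 r ℤ).updateCol 1 y).det = y 1 - y 0 := by
  have h := congrArg (fun v => (G0i r ℤ *ᵥ v) 1) (mulVec_cramer (G0 r ℤ) y)
  simp only [mulVec_mulVec, G0i_mul_G0, one_mulVec, G0_det, one_smul, cramer_apply] at h
  exact h.trans ((G0i_mul r (Matrix.of fun k (_ : Unit) => y k) 1 ()).trans (by simp))

theorem vxa_gy (d : Dat) (A : Fin 2) : (d.gy A).det ≠ 0 := by
  have ha : (d.a : ℤ) ≠ 0 := by have := d.hab; omega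
  have hb : (d.b : ℤ) ≠ 0 := by have := d.hb; omega
  fin_cases A
  · simp [gy, G0_det]
  · simp [gy, d.gdet, Finset.prod_eq_zero_iff, ha, hb, -Int.natCast_eq_zero]

/-- The permutation of the columns at the two points. -/
def vxaS (r : ℕ) (A : Fin 2) : Equiv.Perm (Fin (r + 2)) := if A = 0 then 1 else Equiv.swap 0 1

theorem vxa_blk {d : Dat} {Z : ℕ} (r : d.Row Z) : ri r ∘ (vxaS d.r (rA r)).symm = blk r := by
  unfold blk vxaS
  split_ifs <;> rfl

theorem vxa_mem {d : Dat} {Z : ℕ} (r : d.Row Z) : blk r ∈ Sx (d.r + 2) Z := by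
  rw [← vxa_blk, mem_Sx]
  exact (Equiv.sum_comp _ _).trans (mem_Sx.1 r.1.2.2)

theorem p_VXA (hQM1 : S_QM1) (hQM2 : S_QM2) (hDIV : S_DIV) (hS3 : S_S3) (hS11 : S_S11) (hTAY : S_TAY) :
    S_VXA := by
  intro d Z ι y hι hy
  let φ := Int.castRingHom (Polynomial ℚ)
  let P0 := (G0 d.r ℤ).updateCol 1 fun k => d.gy 1 k 0
  let P := P0.map φ
  let h := fun A => (d.gy A).map φ
  let PA := fun A => P.submatrix id (vxaS d.r A)
  have u1 : ∀ A, IsUnit (h A).det := fun A => vxa_unit _ (vxa_gy d A)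
  have u2 : ∀ A, IsUnit (PA A).det := fun A => by
    refine vxa_unit (P0.submatrix id (vxaS d.r A)) ?_
    rw [det_permute', vxa_det]
    exact mul_ne_zero (by simp) (sub_ne_zero.2 (by simpa [gy] using d.yne))
  have c0 : ∀ A k, k ≠ 0 → ((h A)⁻¹ * PA A) k 0 = 0 := fun A k hk => by
    refine Eq.trans ?_ (one_apply_ne hk)
    rw [← nonsing_inv_mul _ (u1 A), mul_apply, mul_apply]
    refine Finset.sum_congr rfl fun l _ => congrArg _ (congrArg φ ?_)
    fin_cases A <;> simp [P0, vxaS, gy]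
  have q2 := hQM2 d Z _ _ (fun A => (PA A)⁻¹ * h A) c0 fun A => by
    rw [Matrix.mul_assoc, mul_nonsing_inv_cancel_left _ _ (u1 A), nonsing_inv_mul _ (u2 A)]
  let M : Matrix (d.Row Z) (d.Ex Z × Fin (2 * Z + 1)) (Polynomial ℚ) := Matrix.of fun r l =>
    if l.1 = ⟨blk r, vxa_mem r⟩ then (l.2.1.choose (rj r) : Polynomial ℚ) *
      (((rA r : ℕ) : Polynomial ℚ) * Polynomial.X) ^ (l.2.1 - rj r) * ((d.bt (rA r) : Polynomial ℚ) ^ d.n) ^
        (2 * Z - l.2.1) else 0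
  let U : Matrix (d.Ex Z × Fin (2 * Z + 1)) (d.Col Z) (Polynomial ℚ) := Matrix.of fun l c =>
    ((cx c).choose l.2.1 : Polynomial ℚ) * sym P l.1.1 (cz c)
  have key := hDIV _ _ _ _ ι (Qm Z fun A => (h A)⁻¹ * PA A) (d.JX Z Polynomial.X) M U
    (Polynomial.X ^ ⌈y⌉₊) hι (by
      refine (hQM1 d Z _ _ h _ c0).trans ?_
      ext1 r c
      simp only [Jg, of_apply, mul_nonsing_inv_cancel_left _ _ (u1 _), PA, mul_apply, M, U]
      rw [hS11, vxa_blk, hTAY _ _ _ _ _ _ (cx_le c), Finset.sum_mul, Finset.sum_range,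
        Fintype.sum_prod_type, Finset.sum_eq_single (⟨blk r, vxa_mem r⟩ : d.Ex Z)
        (fun i _ hi => by simp [hi]) (by simp)]
      simp only [if_true, mul_assoc]) fun σ f hσ hf => by
      by_cases hc : ∀ c, (f c).1 = ⟨blk (σ c), vxa_mem _⟩ ∧ rj (σ c) ≤ (f c).2.1
      · have h1 := hy σ (fun c => (f c).2.1) hσ fun c c' e => hf (Prod.ext (by
          rw [(hc c).1, (hc c').1]; exact Subtype.ext (congrArg Prod.fst e))
          (Fin.ext (congrArg Prod.snd e)))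
        refine (pow_dvd_pow _ ((Nat.ceil_le (n := ∑ c, ((f c).2.1 - rj (σ c)))).2 ?_)).trans ?_
        · rw [Nat.cast_sum]
          exact h1.trans_eq (Finset.sum_congr rfl fun c _ => (Nat.cast_sub (hc c).2).symm)
        · rw [← Finset.prod_pow_eq_pow_sum]
          refine Finset.prod_dvd_prod_of_dvd _ _ fun c _ => ?_
          simp only [M, of_apply, if_pos (hc c).1]
          exact ((pow_dvd_pow_of_dvd (dvd_mul_left _ _) _).mul_left _).mul_right _
      · obtain ⟨c, hc⟩ := not_forall.1 hc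
        rw [Finset.prod_eq_zero (mem_univ c)]
        · exact dvd_zero _
        · simp only [M, of_apply]
          split_ifs with e
          · simp [Nat.choose_eq_zero_of_lt (not_le.1 fun h => hc ⟨e, h⟩)]
          · rfl
  rw [(isUnit_det_of_right_inverse q2).dvd_mul_left,
    ← Polynomial.map_X (Int.castRingHom ℚ), ← Polynomial.map_pow] at key
  have k2 := vxa_map hS3 d Z ι (Polynomial.mapRingHom (Int.castRingHom ℚ)) Polynomial.X
  rw [Polynomial.coe_mapRingHom] at k2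
  rw [← k2, Polynomial.map_dvd_map _ Int.cast_injective (Polynomial.monic_X_pow _)] at key
  have k3 := map_dvd (Polynomial.evalRingHom ((d.a : ℤ) ^ d.n - (d.b : ℤ) ^ d.n)) key
  rwa [vxa_map hS3, map_pow, Polynomial.coe_evalRingHom, Polynomial.eval_X] at k3

end

section

open Finset Matrix Dat

theorem vpc_tail0 {x v : ℝ} (hx : 0 ≤ x) (hv : 0 < v) (M : ℕ) :
    2 * v * ∑ j ∈ range (M + 1), max (x - v * j) 0 ≤ 2 * v * x + x ^ 2 - max (x - v * M) 0 ^ 2 := by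
  induction M with
  | zero => simp [hx]
  | succ M ih =>
    rw [sum_range_succ, mul_add]
    push_cast
    rcases le_total (x - v * (M + 1)) 0 with h | h
    · rw [max_eq_right h]
      nlinarith [sq_nonneg (max (x - v * M) 0)]
    · rw [max_eq_left h]
      rw [max_eq_left (show (0 : ℝ) ≤ x - v * M by linarith)] at ih
      nlinarith [sq_nonneg v]

theorem vpc_tail {x v : ℝ} (hx : 0 ≤ x) (hv : 0 < v) (M : ℕ) :
    ∑ j ∈ range (M + 1), max (x - v * j) 0 ≤ x ^ 2 / (2 * v) + x := by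
  have h := vpc_tail0 hx hv M
  rw [div_add' _ _ _ (by positivity), le_div_iff₀ (by positivity)]
  nlinarith [sq_nonneg (max (x - v * M) 0)]

theorem vpc_low (d : Dat) (Z : ℕ) (f : d.Col Z → d.Ex Z × ℕ) (hf : Function.Injective f) {k : ℝ}
    (hk : 0 ≤ k) : k * Fintype.card (d.Col Z) -
      ∑ z ∈ Sx (d.r + 2) Z, ((k + z 0) ^ 2 / (2 * d.v) + (k + z 0)) ≤
      ∑ c, (d.v * (f c).2 - (f c).1.1 0 : ℝ) := by
  classical
  have hv : (0 : ℝ) < d.v := by exact_mod_cast d.hv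
  obtain ⟨M, hM⟩ := (Set.finite_range fun c => (f c).2).bddAbove
  let g : d.Ex Z × ℕ → ℝ := fun y => max (k + y.1.1 0 - d.v * y.2) 0
  have h1 : ∑ c, g (f c) ≤ ∑ y ∈ univ ×ˢ range (M + 1), g y := by
    rw [← sum_image (s := univ) (g := f) (f := g) hf.injOn]
    refine sum_le_sum_of_subset_of_nonneg (fun y hy => ?_) fun _ _ _ => le_max_right _ _
    obtain ⟨c, -, rfl⟩ := mem_image.1 hy
    exact mem_product.2 ⟨mem_univ _, mem_range.2 (Nat.lt_succ_of_le (hM ⟨c, rfl⟩))⟩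
  have h2 : ∑ y ∈ univ ×ˢ range (M + 1), g y ≤
      ∑ z ∈ Sx (d.r + 2) Z, ((k + z 0) ^ 2 / (2 * d.v) + (k + z 0)) := by
    rw [sum_product, ← sum_coe_sort (Sx (d.r + 2) Z)]
    exact sum_le_sum fun z _ => vpc_tail (x := k + z.1 0) (by positivity) hv M
  have h3 : ∑ c, (k - g (f c)) ≤ ∑ c, (d.v * (f c).2 - (f c).1.1 0 : ℝ) :=
    sum_le_sum fun c _ => by
      have := le_max_left (k + (f c).1.1 0 - d.v * (f c).2) (0 : ℝ)
      simp only [g]
      linarith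
  rw [sum_sub_distrib, sum_const, card_univ, nsmul_eq_mul] at h3
  linarith

theorem vpc_one (v i : ℝ) (n : ℕ) :
    ∑ j ∈ range n, (v * j - i) = v * (n * (n - 1)) / 2 - n * i := by
  induction n with
  | zero => simp
  | succ n ih =>
    rw [sum_range_succ, ih]
    push_cast
    ring

theorem vpc_rows (d : Dat) (Z : ℕ) :
    ∑ r : d.Row Z, (d.v * rj r - ri r 0 : ℝ) ≤ ∑ A, ∑ z ∈ Sx (d.r + 2) Z,
      ((d.v * ((d.E A : ℝ) / d.D) ^ 2 / 2 - d.E A / d.D) * (z 0 : ℝ) ^ 2 +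
        d.v * (d.E A / d.D) / 2 * z 0) := by
  rw [sum_row (d := d) (Z := Z) fun _ i j => (d.v * j - i 0 : ℝ)]
  refine sum_le_sum fun A _ => sum_le_sum fun z _ => ?_
  rw [vpc_one]
  have hD : (0 : ℝ) < d.D := by exact_mod_cast d.hD
  have hv : (0 : ℝ) ≤ d.v := by positivity
  have h1 : (d.E A : ℝ) / d.D * z 0 ≤ cc (d.E A) d.D (z 0) := by
    rw [div_mul_eq_mul_div, div_le_iff₀' hD]
    exact_mod_cast le_cc (d.E A) (z 0) d.hD
  have h2 : (cc (d.E A) d.D (z 0) : ℝ) ≤ (d.E A : ℝ) / d.D * z 0 + 1 := by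
    rw [div_mul_eq_mul_div, div_add_one hD.ne', le_div_iff₀' hD]
    exact_mod_cast (cc_lt (d.E A) (z 0) d.hD).le
  have h0 : (0 : ℝ) ≤ z 0 := by positivity
  have h3 : (0 : ℝ) ≤ (d.E A : ℝ) / d.D * z 0 := by positivity
  have h4 : (0 : ℝ) ≤ cc (d.E A) d.D (z 0) := by positivity
  generalize (cc (d.E A) d.D (z 0) : ℝ) = c at h1 h2 h4
  generalize (d.E A : ℝ) / d.D = e at h1 h2 h3
  generalize (z 0 : ℝ) = i at h0 h1 h2 h3
  have h5 : c * (c - 1) ≤ (e * i) ^ 2 + e * i := by nlinarith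
  have h6 := mul_le_mul_of_nonneg_left h5 hv
  have h7 := mul_le_mul_of_nonneg_right h1 h0
  nlinarith

theorem vpc_abs (d : Dat) (Z : ℕ) (r : d.Row Z) :
    |(d.v * rj r - ri r 0 : ℝ)| ≤ (d.v * (d.E 0 + d.E 1) + 1) * Z := by
  have h1 := row_lt r
  have h2 : ri r 0 ≤ Z := le_of_mem_Sx r.1.2.2 0
  have h3 : d.E (rA r) ≤ d.E 0 + d.E 1 := by
    generalize rA r = A
    fin_cases A <;> simp
  have h4 : rj r ≤ (d.E 0 + d.E 1) * Z :=
    (Nat.le_mul_of_pos_left _ d.hD).trans (h1.le.trans (Nat.mul_le_mul h3 h2))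
  have h5 : (rj r : ℝ) ≤ (d.E 0 + d.E 1) * Z := by exact_mod_cast h4
  have h6 : (ri r 0 : ℝ) ≤ Z := by exact_mod_cast h2
  have hv : (0 : ℝ) ≤ d.v := by positivity
  have h7 := mul_le_mul_of_nonneg_left h5 hv
  have h8 : (0 : ℝ) ≤ d.v * rj r := by positivity
  have h9 : (0 : ℝ) ≤ ri r 0 := by positivity
  rw [abs_le]
  constructor <;> nlinarith

theorem vpc_kappa (d : Dat) : 0 ≤ d.κ := by
  have hD : (0 : ℝ) < d.D := by exact_mod_cast d.hD
  have hN := N_pos d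
  have h : (d.D : ℝ) ≤ d.v * (d.E 0 + d.E 1) := by exact_mod_cast d.hW
  have e : d.κ = (d.v * (d.E 0 + d.E 1) - d.D) / (d.D * d.N) := by
    unfold κ ρ
    field_simp
  rw [e]
  exact div_nonneg (by linarith) (by positivity)

theorem p_VPC (hROWS : S_ROWS) (hCNT2 : S_CNT2) :
    S_VPC := by
  intro d
  obtain ⟨L, hL⟩ : ∃ L : ℝ, L = -(2 * d.κ) - (1 / d.N - 2 / (d.N * (d.N + 1))) / (2 * d.v) -
      1 / d.N - 3 * (d.v * (d.E 0 + d.E 1) + 1) -
      ∑ A, ((d.v * ((d.E A : ℝ) / d.D) ^ 2 / 2 - d.E A / d.D) *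
        (1 / d.N - 2 / (d.N * (d.N + 1))) + d.v * (d.E A / d.D) / 2 / d.N) := ⟨_, rfl⟩
  refine ⟨|L|, fun Z hZ σ f hσ hf => ?_⟩
  obtain ⟨-, -, r1, r2⟩ := hROWS d Z
  obtain ⟨c1, -, c2⟩ := hCNT2 d Z
  obtain ⟨r3, r4⟩ := r1 hZ
  have hD : (0 : ℝ) < d.D := by exact_mod_cast d.hD
  have hv : (0 : ℝ) < d.v := by exact_mod_cast d.hv
  have hN := N_pos d
  have hC : 0 ≤ d.C Z := by unfold C; positivity
  have hk : 0 ≤ d.κ * Z := mul_nonneg (vpc_kappa d) (by positivity)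
  have h1 := vpc_low d Z f hf hk
  have h2 := (abs_le.1 (r2 σ (fun r => (d.v * rj r - ri r 0 : ℝ)) _ hσ (by positivity)
    (vpc_abs d Z))).2
  have h3 := vpc_rows d Z
  have h4 : d.κ * Z * (d.C Z * (Z * (d.ρ 0 + d.ρ 1) - 1)) ≤ d.κ * Z * Fintype.card (d.Col Z) := by
    rw [card_col]
    exact mul_le_mul_of_nonneg_left
      (mul_le_mul_of_nonneg_left (by linarith [lt_ll_real d Z]) hC) hk
  have h5 : ∑ z ∈ Sx (d.r + 2) Z, ((d.κ * Z + z 0) ^ 2 / (2 * d.v) + (d.κ * Z + z 0)) =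
      ((d.κ * Z) ^ 2 / (2 * d.v) + d.κ * Z) * d.C Z +
        (d.κ * Z / d.v + 1) * ∑ z ∈ Sx (d.r + 2) Z, (z 0 : ℝ) +
        1 / (2 * d.v) * ∑ z ∈ Sx (d.r + 2) Z, (z 0 : ℝ) ^ 2 := by
    rw [mul_sum, mul_sum, C, mul_comm _ ((Sx (d.r + 2) Z).card : ℝ), ← nsmul_eq_mul, ← sum_const,
      ← sum_add_distrib, ← sum_add_distrib]
    refine sum_congr rfl fun z _ => ?_
    field_simp
    ring
  simp only [sum_add_distrib, ← mul_sum] at h3
  rw [c1, c2] at h3 h5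
  have h6 : -(|L| * d.er Z) ≤ L * (d.C Z * Z) := by
    have a1 := mul_le_mul_of_nonneg_left r4 (abs_nonneg L)
    have a2 := mul_le_mul_of_nonneg_right (neg_abs_le L) (show 0 ≤ d.C Z * Z by positivity)
    linarith
  have h7 : d.cP * d.mt Z + L * (d.C Z * Z) =
      d.κ * Z * (d.C Z * (Z * (d.ρ 0 + d.ρ 1) - 1)) -
      (((d.κ * Z) ^ 2 / (2 * d.v) + d.κ * Z) * d.C Z +
        (d.κ * Z / d.v + 1) * (Z * d.C Z / d.N) + 1 / (2 * d.v) *
          (2 * (Z * (Z - 1) * d.C Z / (d.N * (d.N + 1))) + Z * d.C Z / d.N)) -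
      (∑ A, (d.v * ((d.E A : ℝ) / d.D) ^ 2 / 2 - d.E A / d.D) *
          (2 * (Z * (Z - 1) * d.C Z / (d.N * (d.N + 1))) + Z * d.C Z / d.N) +
        ∑ A, d.v * (d.E A / d.D) / 2 * (Z * d.C Z / d.N)) -
      3 * d.C Z * ((d.v * (d.E 0 + d.E 1) + 1) * Z) := by
    rw [hL]
    unfold cP Dat.mt
    simp only [Fin.sum_univ_two]
    field_simp
    ring
  rw [sum_sub_distrib]
  linarith

end

section

open Finset Matrix Dat

theorem vpa_dvd (d : Dat) (A : Fin 2) (k : Fin (d.r + 2)) (hk : k ≠ 0) :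
    (d.p : ℤ) ∣ (G0i d.r ℤ * d.gy A) k 0 := by
  rw [G0i_mul, if_neg hk]
  fin_cases A
  · simp [gy, G0]
  · simpa [gy, Matrix.diagonal_mul] using d.cong k

theorem p_VPA (hDIV : S_DIV) (hS1 : S_S1) (hS6 : S_S6) (hTAY : S_TAY) :
    S_VPA := by
  classical
  intro d Z ι y hι hy
  set η : ℤ := (d.a : ℤ) ^ d.n - (d.b : ℤ) ^ d.n with hη
  let M : Matrix (d.Row Z) (d.Ex Z × Fin (2 * Z + 1)) ℤ := Matrix.of fun r q =>
    ((q.2.1.choose (rj r) : ℤ) * (((rA r : ℕ) : ℤ) * η) ^ (q.2.1 - rj r) *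
      ((d.bt (rA r) : ℤ) ^ d.n) ^ (2 * Z - q.2.1)) * sym (G0i d.r ℤ * d.gy (rA r)) (ri r) q.1.1
  let U : Matrix (d.Ex Z × Fin (2 * Z + 1)) (d.Col Z) ℤ := Matrix.of fun q c =>
    ((cx c).choose q.2.1 : ℤ) * sym (G0 d.r ℤ) q.1.1 (cz c)
  have key : (1 : Matrix (d.Row Z) (d.Row Z) ℤ) * d.JX Z η = M * U := by
    rw [Matrix.one_mul]
    ext r c
    have e1 : (d.gy (rA r)).map (Int.castRingHom ℤ) = G0 d.r ℤ * (G0i d.r ℤ * d.gy (rA r)) := by
      rw [← Matrix.mul_assoc, G0_mul_G0i, Matrix.one_mul]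
      ext i j
      simp
    rw [Matrix.mul_apply, Fintype.sum_prod_type]
    simp only [JX, Jg, Matrix.of_apply, M, U]
    rw [e1, hS1 _ Z _ _ _ _ _ c.1.2, hTAY _ _ _ _ _ _ (cx_le c), ← Finset.sum_coe_sort (Sx _ Z),
      Finset.mul_sum]
    refine Finset.sum_congr rfl fun i _ => ?_
    rw [Finset.sum_mul, ← Fin.sum_univ_eq_sum_range
      (fun k => (k.choose (rj r) : ℤ) * (((rA r : ℕ) : ℤ) * η) ^ (k - rj r) *
        ((d.bt (rA r) : ℤ) ^ d.n) ^ (2 * Z - k) * ((cx c).choose k : ℤ) *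
        (sym (G0i d.r ℤ * d.gy (rA r)) (ri r) i.1 * sym (G0 d.r ℤ) i.1 (cz c)))]
    exact Finset.sum_congr rfl fun k _ => by ring
  have h := hDIV _ _ _ ℤ ι 1 (d.JX Z η) M U ((d.p : ℤ) ^ ⌈y⌉₊) hι key fun σ f hσ hf => ?_
  · rwa [Matrix.det_one, one_mul] at h
  by_cases h0 : ∃ c, (f c).2.1 < rj (σ c)
  · obtain ⟨c, hc⟩ := h0
    rw [Finset.prod_eq_zero (mem_univ c)]
    · exact dvd_zero _
    · simp only [M, Matrix.of_apply]
      rw [Nat.choose_eq_zero_of_lt hc]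
      simp
  have h1 : ∀ c, rj (σ c) ≤ (f c).2.1 := fun c => not_lt.1 fun h => h0 ⟨c, h⟩
  have h2 : ⌈y⌉₊ ≤ ∑ c, (d.v * ((f c).2.1 - rj (σ c)) + (ri (σ c) 0 - (f c).1.1 0)) := by
    refine Nat.ceil_le.2 ((hy σ (fun c => ((f c).1, (f c).2.1)) hσ fun c c' e => hf ?_).trans ?_)
    · exact Prod.ext (Prod.ext_iff.1 e).1 (Fin.ext (Prod.ext_iff.1 e).2)
    rw [Nat.cast_sum]
    refine Finset.sum_le_sum fun c _ => ?_
    have h3 : (ri (σ c) 0 : ℝ) ≤ (ri (σ c) 0 - (f c).1.1 0 : ℕ) + (f c).1.1 0 := by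
      exact_mod_cast le_tsub_add
    rw [Nat.cast_add, Nat.cast_mul, Nat.cast_sub (h1 c)]
    linarith
  refine (pow_dvd_pow _ h2).trans ?_
  rw [← Finset.prod_pow_eq_pow_sum]
  refine Finset.prod_dvd_prod_of_dvd _ _ fun c _ => ?_
  simp only [M, Matrix.of_apply]
  rw [pow_add, pow_mul]
  exact mul_dvd_mul (Dvd.dvd.mul_right (Dvd.dvd.mul_left
    (pow_dvd_pow_of_dvd (d.pv.mul_left _) _) _) _)
    (hS6 _ _ _ _ 0 0 (vpa_dvd d _) _ _)

end

section

open Finset Matrix Dat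

theorem entChoose (x j : ℕ) (M : ℝ) (hM : 0 < M) :
    (x.choose j : ℝ) ≤ Real.exp (x / M + j * Real.log M) := by
  have h1 : (x.choose j : ℝ) * (1 / M) ^ j ≤ (1 / M + 1) ^ x := by
    by_cases hj : j ≤ x
    · rw [add_pow]
      have := Finset.single_le_sum (f := fun m => (1 / M) ^ m * (1 : ℝ) ^ (x - m) * (x.choose m : ℝ))
        (s := range (x + 1)) (fun m _ => by positivity) (a := j) (mem_range.2 (by omega))
      simpa [mul_comm] using this
    · rw [Nat.choose_eq_zero_of_lt (by omega)]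
      simp only [Nat.cast_zero, zero_mul]
      positivity
  have h2 : (1 / M + 1) ^ x ≤ Real.exp (x / M) := by
    have : (x : ℝ) / M = x * (1 / M) := by ring
    rw [this, Real.exp_nat_mul]
    exact pow_le_pow_left₀ (by positivity) (Real.add_one_le_exp _) _
  have h3 : Real.exp (j * Real.log M) = M ^ j := by
    rw [Real.exp_nat_mul, Real.exp_log hM]
  rw [Real.exp_add, h3]
  have h4 : (x.choose j : ℝ) = (x.choose j : ℝ) * (1 / M) ^ j * M ^ j := by
    rw [mul_assoc, ← mul_pow, one_div, inv_mul_cancel₀ hM.ne', one_pow, mul_one]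
  rw [h4]
  exact mul_le_mul_of_nonneg_right (h1.trans h2) (by positivity)

theorem entFacPos {N : ℕ} (z : Fin N → ℕ) : (0 : ℝ) < (fac z : ℝ) := by
  have : 0 < fac z := Finset.prod_pos fun k _ => Nat.factorial_pos _
  exact_mod_cast this

theorem entSym (hS8 : S_S8) {N Z : ℕ} (g : Matrix (Fin N) (Fin N) ℝ) (l : Fin N → ℝ)
    (hg : gᵀ * g = diagonal (fun k => Real.exp (l k) ^ 2)) (i z : Fin N → ℕ)
    (hi : i ∈ Sx N Z) (hz : z ∈ Sx N Z) :
    |sym g i z| ≤ Real.exp (∑ k, i k * l k + (Real.log (fac z) - Real.log (fac i)) / 2) := by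
  have h := hS8 N Z g (fun k => Real.exp (l k)) hg i hi z hz
  have hi0 := entFacPos i
  have hz0 := entFacPos z
  have e1 : ∏ k, Real.exp (l k) ^ i k = Real.exp (∑ k, i k * l k) := by
    rw [Real.exp_sum]
    exact Finset.prod_congr rfl fun k _ => (Real.exp_nat_mul _ _).symm
  have e2 : Real.exp ((Real.log (fac z) - Real.log (fac i)) / 2) ^ 2 = fac z / fac i := by
    rw [← Real.exp_nat_mul]
    have : ((2 : ℕ) : ℝ) * ((Real.log (fac z) - Real.log (fac i)) / 2) =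
        Real.log (fac z) - Real.log (fac i) := by push_cast; ring
    rw [this, Real.exp_sub, Real.exp_log hz0, Real.exp_log hi0]
  refine abs_le_of_sq_le_sq' ?_ (Real.exp_pos _).le |> abs_le.2
  rw [Real.exp_add, mul_pow, e2, ← e1, ← mul_div_assoc, le_div_iff₀ hi0]
  exact h

theorem entBs (d : Dat) (A : Fin 2) : (0 : ℝ) < d.bs A := by
  have h1 := d.hb
  have h2 := d.hab
  have : 0 < d.bs A := by
    fin_cases A
    · simp [bs]
    · simp only [bs, Fin.mk_one, Matrix.cons_val_one, Matrix.cons_val_fin_one]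
      omega
  exact_mod_cast this

theorem entBt (d : Dat) (A : Fin 2) : (0 : ℝ) < d.bt A := by
  have h1 := d.hb
  have : 0 < d.bt A := by
    fin_cases A
    · simp [bt]
    · simp only [bt, Fin.mk_one, Matrix.cons_val_one, Matrix.cons_val_fin_one]
      omega
  exact_mod_cast this

theorem p_ENT (hS8 : S_S8) :
    S_ENT := by
  intro d Z h lam hh r c
  have h1 := entChoose (cx c) (rj r) d.N d.N_pos
  have h2 := entSym hS8 (h (rA r)) (lam (rA r)) (hh _) (ri r) (cz c) r.1.2.2 c.1.2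
  have h3 : (d.bs (rA r) : ℝ) ^ ck c = Real.exp (ck c * Real.log (d.bs (rA r))) := by
    rw [Real.exp_nat_mul, Real.exp_log (entBs d _)]
  have h4 : (d.bt (rA r) : ℝ) ^ (d.n * d.ll Z - ck c) =
      Real.exp ((d.n * d.ll Z - ck c : ℕ) * Real.log (d.bt (rA r))) := by
    rw [Real.exp_nat_mul, Real.exp_log (entBt d _)]
  have h5 : ent lam r c = (cx c / d.N + rj r * Real.log d.N) + ck c * Real.log (d.bs (rA r)) +
      (d.n * d.ll Z - ck c : ℕ) * Real.log (d.bt (rA r)) + (∑ k, ri r k * lam (rA r) k +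
        (Real.log (fac (cz c)) - Real.log (fac (ri r))) / 2) := by
    unfold ent; ring
  rw [h5, Real.exp_add, Real.exp_add, Real.exp_add, ← h3, ← h4]
  simp only [Jg, Matrix.of_apply]
  have b1 := entBs d (rA r)
  have b2 := entBt d (rA r)
  rw [abs_mul, abs_of_nonneg (by positivity)]
  gcongr

end

end Pool.Agent.P.MP_09c11a_nt.W
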