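import Pool.Agent.P.MP_09c11a_nt.W.BaseF
import Pool.Agent.P.MP_09c11a_nt.W.IfaceS

/-! Statements for the zero lemma. -/

set_option autoImplicit false
set_option linter.unusedVariables false

namespace Pool.Agent.P.MP_09c11a_nt.W

open Finset Matrix WithZero Polynomial Pool.Agent.P.MP_6f117a_ag

/-- `G` is a combination of the products `(b1 X + b3) ^ i * b2 ^ (m - i)` with coefficients of
absolute value at most `exp β`. -/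
def Bin {K : Type} [Field K] [Algebra ℂ K] (P : Pl K) (b1 b2 b3 : K) (m : ℕ) (β : ℤ) (G : K[X]) :
    Prop :=
  ∃ y : Fin (m + 1) → K, Bd P β y ∧
    G = ∑ i, C (y i * b2 ^ (m - (i : ℕ))) * (C b1 * X + C b3) ^ (i : ℕ)

/-- An adelic triangular two by two matrix. -/
def Tri {K : Type} [Field K] [Algebra ℂ K] (b1 b2 b3 : Pl K → K) : Prop :=
  (∀ P, b1 P ≠ 0 ∧ b2 P ≠ 0) ∧ {P : Pl K | ¬(P.v (b1 P) = 1 ∧ P.v (b2 P) = 1 ∧ P.v (b3 P) ≤ 1)}.Finite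

-- deps:
def S_TRI1 : Prop :=
  ∀ (K : Type) [Field K] [Algebra ℂ K] [FF ℂ K] (P : Pl K) (R : ℕ) (A : Matrix (Fin R) (Fin R) K)
    (y β : ℤ) (V : Submodule ℂ (Fin R → K)) [FiniteDimensional ℂ V], Up A → (∀ i, A i i ≠ 0) →
    (∀ i j, P.v (A i j) * exp β ≤ exp y) → (∀ G ∈ V, Bd P y G) →
    ∃ W ≤ V, (∀ G ∈ W, ∃ w, Bd P β w ∧ G = A *ᵥ w) ∧
      (Module.finrank ℂ V : ℤ) ≤ Module.finrank ℂ W + ∑ i, (y - β - lg P (A i i))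

-- deps:
def S_RIE : Prop :=
  ∀ (K : Type) [Field K] [Algebra ℂ K] [FF ℂ K] (T : K), Transcendental ℂ T → ∃ c : ℤ,
    ∀ y : Pl K → ℤ, Fs y → ∃ V : Submodule ℂ K, FiniteDimensional ℂ V ∧
      (∀ x ∈ V, ∀ P : Pl K, P.v x ≤ exp (y P)) ∧ tot y - c ≤ Module.finrank ℂ V

-- deps: RIE TRI1
def S_COUNT : Prop :=
  ∀ (K : Type) [Field K] [Algebra ℂ K] [FF ℂ K] (T : K), Transcendental ℂ T → ∃ c : ℤ,
    ∀ (R : ℕ) (A : Pl K → Matrix (Fin R) (Fin R) K) (b : Pl K → ℤ), (∀ P, Up (A P)) →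
      (∀ P i, A P i i ≠ 0) → {P | ¬Uni P (A P)}.Finite → Fs b →
      R * c < R * tot b + tot (fun P => ∑ i, lg P (A P i i)) →
      ∃ G : Fin R → K, G ≠ 0 ∧ ∀ P, ∃ w, Bd P (b P) w ∧ G = A P *ᵥ w

-- deps:
def S_RES1 : Prop :=
  ∀ (K K' : Type) [Field K] [Algebra ℂ K] [Field K'] [Algebra ℂ K'] [FF ℂ K'] (φ : K →ₐ[ℂ] K')
    (T : K), Transcendental ℂ T → ∀ P : Pl K',
    ∃ (Q : Pl K) (e : ℕ), 0 < e ∧ ∀ x, P.v (φ x) = Q.v x ^ e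

-- deps:
def S_DEG : Prop :=
  ∀ (K K' : Type) [Field K] [Algebra ℂ K] [Field K'] [Algebra ℂ K'] [FF ℂ K'] (φ : K →ₐ[ℂ] K')
    (T : K), Transcendental ℂ T →
    ∃ d : ℕ, 0 < d ∧ ∀ x : K, Transcendental ℂ x → dg (φ x) = d * dg x

-- deps: RES1 DEG RIE
def S_RES : Prop :=
  ∀ (K K' : Type) [Field K] [Algebra ℂ K] [FF ℂ K] [Field K'] [Algebra ℂ K'] [FF ℂ K']
    (φ : K →ₐ[ℂ] K') (T : K), Transcendental ℂ T → Nonempty (Res φ)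

-- deps:
def S_FFFIN : Prop :=
  ∀ (K K' : Type) [Field K] [Algebra ℂ K] [FF ℂ K] [Field K'] [Algebra ℂ K'] [Algebra K K']
    [IsScalarTower ℂ K K'] [FiniteDimensional K K'] (T : K), Transcendental ℂ T → FF ℂ K'

-- deps: FFFIN
def S_FFEXT : Prop :=
  ∀ (K : Type) [Field K] [Algebra ℂ K] [FF ℂ K] (T : K) (G : K[X]), Transcendental ℂ T →
    ∃ (K' : Type) (_ : Field K') (_ : Algebra ℂ K') (_ : FF ℂ K') (φ : K →ₐ[ℂ] K'),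
      (G.map (φ : K →+* K')).Splits

-- deps: FFEXT
def S_BASEF : Prop :=
  ∀ (n D : ℕ) (a : Fin 2 → ℂ), 0 < D →
    ∃ (K : Type) (_ : Field K) (_ : Algebra ℂ K) (_ : FF ℂ K) (T : K) (s : Fin 2 → K),
      Transcendental ℂ T ∧ ∀ A, s A ^ D = T ^ n - algebraMap ℂ K (a A)

-- deps: FFFIN
def S_GALX : Prop :=
  ∀ (K : Type) [Field K] [Algebra ℂ K] [FF ℂ K] (τ : K), Transcendental ℂ τ →
    ∃ (K' : Type) (_ : Field K') (_ : Algebra ℂ K') (_ : FF ℂ K') (φ : K →ₐ[ℂ] K'), Gal (φ τ)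

-- deps:
def S_IWA : Prop :=
  ∀ (K : Type) [Field K] [Algebra ℂ K] (P : Pl K) (N : ℕ) (M : Matrix (Fin N) (Fin N) K),
    M.det ≠ 0 → ∃ κ B : Matrix (Fin N) (Fin N) K, M = κ * B ∧ Uni P κ ∧ Up B

-- deps:
def S_STEPF : Prop :=
  ∀ (K : Type) [Field K] [Algebra ℂ K] (N : ℕ) (A : Ad K N) (F : Frame A) (k k' : Fin N) (ρ : K),
    (k' : ℕ) = k + 1 → ∃ F' : Frame A, ∀ P,
      (∀ j, j ≠ k → j ≠ k' → F'.B P j j = F.B P j j) ∧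
      P.v (F'.B P k k) = max (P.v (F.B P k k * ρ + F.B P k k')) (P.v (F.B P k' k')) ∧
      P.v (F'.B P k k * F'.B P k' k') = P.v (F.B P k k * F.B P k' k')

-- deps: MINOR RES
def S_FRLOW : Prop :=
  ∀ (K : Type) [Field K] [Algebra ℂ K] [FF ℂ K] (N : ℕ) (A : Ad K N) (T : K), A.Ok →
    Transcendental ℂ T → ∃ c : ℝ, ∀ (K' : Type) [Field K'] [Algebra ℂ K'] [FF ℂ K']
      (φ : K →ₐ[ℂ] K') (F : Frame (A.map φ)) (s : ℕ),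
      -c * dg (φ T) ≤ ∑ k : Fin N with k.1 < s, (F.ht k : ℝ)

-- deps: COUNT
def S_BIN : Prop :=
  ∀ (K : Type) [Field K] [Algebra ℂ K] [FF ℂ K] (T : K), Transcendental ℂ T → ∃ c : ℤ,
    ∀ b1 b2 b3 : Pl K → K, Tri b1 b2 b3 → ∀ m : ℕ, ∃ (G : K[X]) (b : Pl K → ℤ), G ≠ 0 ∧ Fs b ∧
      (∀ P, Bin P (b1 P) (b2 P) (b3 P) m (b P) G) ∧
      2 * tot b ≤ c - m * (tot (fun P => lg P (b1 P)) + tot fun P => lg P (b2 P))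

-- deps:
def S_GAUSS : Prop :=
  ∀ (K : Type) [Field K] [Algebra ℂ K] (P : Pl K) (b1 b2 b3 c : K) (m : ℕ) (β : ℤ)
    (s : Multiset K), b1 ≠ 0 → b2 ≠ 0 → c ≠ 0 →
    Bin P b1 b2 b3 m β (C c * (s.map fun ρ => X - C ρ).prod) →
    Multiset.card s ≤ m ∧
      lg P c + (s.map fun ρ => lgm P (b1 * ρ + b3) b2 - lg P b1).sum - m * lg P b2 ≤ β

-- deps: GAUSS
def S_ROOT : Prop :=
  ∀ (K : Type) [Field K] [Algebra ℂ K] [FF ℂ K] (b1 b2 b3 : Pl K → K) (m : ℕ) (G : K[X])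
    (b : Pl K → ℤ), Tri b1 b2 b3 → G ≠ 0 → G.Splits → Fs b →
    (∀ P, Bin P (b1 P) (b2 P) (b3 P) m (b P) G) →
    m * tot (fun P => lg P (b1 P)) ≤
        tot b + m * (tot (fun P => lg P (b1 P)) + tot fun P => lg P (b2 P)) ∨
      ∃ ρ : K, m * tot (fun P => lgm P (b1 P * ρ + b3 P) (b2 P)) ≤
        tot b + m * (tot (fun P => lg P (b1 P)) + tot fun P => lg P (b2 P))

-- deps: BIN FFEXT RES ROOT STEPF
def S_STEPG : Prop :=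
  ∀ (K : Type) [Field K] [Algebra ℂ K] [FF ℂ K] (N : ℕ) (A : Ad K N) (T : K) (F : Frame A)
    (k k' : Fin N) (δ : ℝ), A.Ok → Transcendental ℂ T → (k' : ℕ) = k + 1 → 0 < δ →
    (F.ht k' : ℝ) + δ * dg T < F.ht k →
    ∃ (K' : Type) (_ : Field K') (_ : Algebra ℂ K') (_ : FF ℂ K') (φ : K →ₐ[ℂ] K')
      (F' : Frame (A.map φ)),
      (∀ j, j ≠ k → j ≠ k' → (F'.ht j : ℝ) / dg (φ T) = F.ht j / dg T) ∧
      ((F'.ht k : ℝ) + F'.ht k') / dg (φ T) = (F.ht k + F.ht k') / dg T ∧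
      (F'.ht k : ℝ) / dg (φ T) ≤ F.ht k / dg T - δ / 4

-- deps: IWA FRLOW STEPG
def S_INF : Prop :=
  ∀ (K : Type) [Field K] [Algebra ℂ K] [FF ℂ K] (N : ℕ) (A : Ad K N) (T : K) (δ : ℝ), A.Ok →
    Transcendental ℂ T → 0 < δ →
    ∃ (K' : Type) (_ : Field K') (_ : Algebra ℂ K') (_ : FF ℂ K') (φ : K →ₐ[ℂ] K')
      (F : Frame (A.map φ)), ∀ k k' : Fin N, (k' : ℕ) = k + 1 →
        (F.ht k : ℝ) ≤ F.ht k' + δ * dg (φ T)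

-- deps: S1 S2 S5 S9
def S_LEAD : Prop :=
  ∀ (K : Type) [Field K] [Algebra ℂ K] [FF ℂ K] (N Z : ℕ) (A : Ad K N) (F : Frame A)
    (c : (Fin N → ℕ) → K) (b : Pl K → ℤ), A.Ok → (∃ z ∈ Sx N Z, c z ≠ 0) → Fs b →
    (∀ P, ∀ i ∈ Sx N Z, P.v (act Z (A.loc P) c i) ≤ exp (b P)) →
    ∃ z ∈ Sx N Z, 0 ≤ tot b + ∑ k, z k * F.ht k

-- deps:
def S_LAST : Prop :=
  ∀ (K : Type) [Field K] [Algebra ℂ K] (N : ℕ) (A : Ad K N) (F : Frame A) (k : Fin N),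
    (k : ℕ) + 1 = N → ∃ lam : Fin N → K, lam ≠ 0 ∧
      ∀ P, Bd P (-lg P (F.B P k k)) (lam ᵥ* A.loc P)

-- deps: INF LEAD LAST RES S3
def S_TP : Prop :=
  ∀ (K : Type) [Field K] [Algebra ℂ K] [FF ℂ K] (N Z : ℕ) (A : Ad K N) (T : K) (μ : ℝ)
    (c : (Fin N → ℕ) → K) (b : Pl K → ℤ), 0 < N → A.Ok → Transcendental ℂ T → LinB A T μ →
    (∃ z ∈ Sx N Z, c z ≠ 0) → Fs b →
    (∀ P, ∀ i ∈ Sx N Z, P.v (act Z (A.loc P) c i) ≤ exp (b P)) → Z * μ * dg T ≤ (tot b : ℤ)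

-- deps:
def S_SPI : Prop :=
  ∀ (s N : ℕ) (μ ν : Matrix (Fin s) (Fin N) ℂ[X]) (q : ℂ[X]) (M : Matrix (Fin s) (Fin s) ℂ[X]),
    Ind μ → q ≠ 0 → q • μ = M * ν → M.det ≠ 0 ∧ Ind ν

-- deps:
def S_PK : Prop :=
  ∀ (N n : ℕ) (e : Fin N → ℕ), 0 < n → Function.Injective e → (∀ i, e i < n) →
    (∀ w i m, (pk n e w).coeff (e i + n * m) = (w i).coeff m) ∧
    (∀ w k, (pk n e w).coeff k ≠ 0 → ∃ i m, k = e i + n * m) ∧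
    (∀ w, pk n e w = 0 ↔ w = 0) ∧
    (∀ (q : ℂ[X]) w, pk n e (q • w) = expand ℂ n q * pk n e w) ∧
    (∀ w w', pk n e (w + w') = pk n e w + pk n e w') ∧
    ∀ (s : ℕ) (x : Fin s → ℂ[X]) (μ : Matrix (Fin s) (Fin N) ℂ[X]),
      pk n e (x ᵥ* μ) = ∑ j, expand ℂ n (x j) * pk n e (μ j)

-- deps: PK
def S_RED1 : Prop :=
  ∀ (s N n : ℕ) (e : Fin N → ℕ) (μ : Matrix (Fin s) (Fin N) ℂ[X]), 0 < n → Function.Injective e →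
    (∀ i, e i < n) → Ind μ →
    ¬Function.Injective (fun j => (pk n e (μ j)).natTrailingDegree % n) →
    ∃ ν, Sp μ ν ∧ ∑ j, wd n e (ν j) < ∑ j, wd n e (μ j)

-- deps: PK
def S_RED2 : Prop :=
  ∀ (s N n : ℕ) (e : Fin N → ℕ) (μ : Matrix (Fin s) (Fin N) ℂ[X]), 0 < n → Function.Injective e →
    (∀ i, e i < n) → Ind μ → ¬Function.Injective (fun j => (pk n e (μ j)).natDegree % n) →
    ∃ ν, Sp μ ν ∧ ∑ j, wd n e (ν j) < ∑ j, wd n e (μ j)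

-- deps: PK
def S_RED3 : Prop :=
  ∀ (s N n : ℕ) (e : Fin N → ℕ) (μ : Matrix (Fin s) (Fin N) ℂ[X]) (a : ℂ), 0 < n →
    Function.Injective e → (∀ i, e i < n) → Ind μ → a ≠ 0 → ¬Ind (μ.map (eval a)) →
    ∃ ν, Sp μ ν ∧ ∑ j, wd n e (ν j) < ∑ j, wd n e (μ j)

-- deps: SPI RED1 RED2 RED3
def S_RED : Prop :=
  ∀ (s N n : ℕ) (e : Fin N → ℕ) (μ : Matrix (Fin s) (Fin N) ℂ[X]), 0 < n → Function.Injective e →
    (∀ i, e i < n) → Ind μ → ∃ ν, Sp μ ν ∧ Red n e ν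

-- deps: MINOR
def S_FSGAL : Prop :=
  ∀ (K : Type) [Field K] [Algebra ℂ K] (N : ℕ) (τ : K) (lam : Fin N → K), Transcendental ℂ τ →
    Gal τ → lam ≠ 0 →
    ∃ (s : ℕ) (σ : Fin s → K ≃ₐ[ℂ] K) (M : Matrix (Fin s) (Fin s) K)
      (μ : Matrix (Fin s) (Fin N) ℂ[X]), 0 < s ∧ s ≤ N ∧ (∀ j, σ j τ = τ) ∧ M.det ≠ 0 ∧ Ind μ ∧
      ∀ j i, σ j (lam i) = (M * μ.map (aeval τ)) j i

-- deps: PK
def S_FSL0 : Prop :=
  ∀ (K : Type) [Field K] [Algebra ℂ K] (P : Pl K) (T : K) (s N n : ℕ) (e : Fin N → ℕ)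
    (μ : Matrix (Fin s) (Fin N) ℂ[X]), 0 < n → Function.Injective e → (∀ i, e i < n) →
    Red n e μ → T ≠ 0 → P.v T < 1 → ∃ J : Fin s → Fin N,
      P.v ((μ.map (aeval (T ^ n)) * diagonal fun i => T ^ e i).submatrix id J).det =
        P.v T ^ ∑ j, (pk n e (μ j)).natTrailingDegree

-- deps: PK
def S_FSLI : Prop :=
  ∀ (K : Type) [Field K] [Algebra ℂ K] (P : Pl K) (T : K) (s N n : ℕ) (e : Fin N → ℕ)
    (μ : Matrix (Fin s) (Fin N) ℂ[X]), 0 < n → Function.Injective e → (∀ i, e i < n) →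
    Red n e μ → 1 < P.v T → ∃ J : Fin s → Fin N,
      P.v ((μ.map (aeval (T ^ n)) * diagonal fun i => T ^ e i).submatrix id J).det =
        P.v T ^ ∑ j, (pk n e (μ j)).natDegree

-- deps: MINOR2
def S_FSL1 : Prop :=
  ∀ (K : Type) [Field K] [Algebra ℂ K] (P : Pl K) (τ : K) (a : ℂ) (s N : ℕ)
    (μ : Matrix (Fin s) (Fin N) ℂ[X]) (g : Matrix (Fin N) (Fin N) ℂ) (i0 : Fin N),
    P.v (τ - algebraMap ℂ K a) < 1 → Ind (μ.map (eval a)) → g.det ≠ 0 →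
    ∃ J : Fin s → Fin N, Function.Injective J ∧
      P.v ((μ.map (aeval τ) * g.map (algebraMap ℂ K)).submatrix id J).det = 1 ∧
      ((∃ j, (μ.map (eval a) * g) j i0 ≠ 0) → ∃ j, J j = i0)

-- deps: PK FSL0 FSLI FSL1
def S_LOC1 : Prop :=
  ∀ (K : Type) [Field K] [Algebra ℂ K] [FF ℂ K] (r s : ℕ) (z : Zd K r)
    (μ : Matrix (Fin s) (Fin (r + 2)) ℂ[X]) (ε : Fin 2 → ℤ), Red z.n z.e μ →
    (∀ A, ε A = 0 ∨ (ε A = 1 ∧ ∃ j, (μ.map (eval (z.a A)) * z.g A) j 0 ≠ 0)) → ∀ P : Pl K,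
    ∃ J : Fin s → Fin (r + 2),
      exp ((∑ j, (pk z.n z.e (μ j)).natDegree : ℕ) * max (lg P z.T) 0 -
          (∑ j, (pk z.n z.e (μ j)).natTrailingDegree : ℕ) * max (-lg P z.T) 0 +
          ∑ A, ε A * z.E A * max (-lg P (z.s A)) 0) ≤
        P.v ((μ.map (aeval (z.T ^ z.n)) * z.ad.loc P).submatrix id J).det

-- deps: PK LOC1
def S_LOCG : Prop :=
  ∀ (K : Type) [Field K] [Algebra ℂ K] [FF ℂ K] (r s : ℕ) (z : Zd K r)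
    (μ : Matrix (Fin s) (Fin (r + 2)) ℂ[X]), s ≤ r + 2 → Red z.n z.e μ →
    ∃ γ : Pl K → ℤ, Fs γ ∧ (∀ P, ∃ J : Fin s → Fin (r + 2),
      exp (γ P) ≤ P.v ((μ.map (aeval (z.T ^ z.n)) * z.ad.loc P).submatrix id J).det) ∧
      (s * ((z.E 0 + z.E 1) * z.n * dg z.T) : ℤ) ≤ z.D * (r + 2) * tot γ

-- deps:
def S_CONJ : Prop :=
  ∀ (K : Type) [Field K] [Algebra ℂ K] (r : ℕ) (z : Zd K r) (σ : K ≃ₐ[ℂ] K)
    (lam : Fin (r + 2) → K) (b : Pl K → ℤ), σ (z.T ^ z.n) = z.T ^ z.n → Fs b →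
    (∀ P, Bd P (b P) (lam ᵥ* z.ad.loc P)) →
    ∃ b' : Pl K → ℤ, Fs b' ∧ tot b' = tot b ∧
      ∀ P, Bd P (b' P) ((fun i => σ (lam i)) ᵥ* z.ad.loc P)

-- deps: FSGAL RED SPI LOCG CONJ
def S_FS0 : Prop :=
  ∀ (K : Type) [Field K] [Algebra ℂ K] [FF ℂ K] (r : ℕ) (z : Zd K r) (lam : Fin (r + 2) → K)
    (b : Pl K → ℤ), Gal (z.T ^ z.n) → lam ≠ 0 → Fs b → (∀ P, Bd P (b P) (lam ᵥ* z.ad.loc P)) →
    ((z.E 0 + z.E 1) * z.n * dg z.T : ℤ) ≤ z.D * (r + 2) * tot b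

-- deps: FS0 GALX RES
def S_FS : Prop :=
  ∀ (K : Type) [Field K] [Algebra ℂ K] [FF ℂ K] (r : ℕ) (z : Zd K r),
    LinB z.ad z.T ((z.E 0 + z.E 1) * z.n / (z.D * (r + 2)))

-- deps: S2 S3
def S_ZLB : Prop :=
  ∀ (K : Type) [Field K] [Algebra ℂ K] (r Z l : ℕ) (z : Zd K r) (f : (Fin (r + 2) → ℕ) → ℂ[X]),
    (∀ y ∈ Sx (r + 2) Z, ∀ x ∈ (f y).support,
      z.n * Z ≤ ∑ k, z.e k * y k + z.n * x ∧ ∑ k, z.e k * y k + z.n * x < z.n * Z + z.n * l) →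
    (∀ A, ∀ i ∈ Sx (r + 2) Z, ∀ j, z.D * j < z.E A * i 0 →
      (hasseDeriv j (∑ y ∈ Sx (r + 2) Z, C (sym (z.g A) i y) * f y)).eval (z.a A) = 0) →
    ∀ P : Pl K, ∀ i ∈ Sx (r + 2) Z,
      P.v (act Z (z.ad.loc P) (fun y => (z.T ^ (z.n * Z))⁻¹ * aeval (z.T ^ z.n) (f y)) i) ≤
        exp (((z.n * l : ℕ) - 1) * max (lg P z.T) 0)

-- deps: TP FS ZLB
def S_ZL : Prop :=
  ∀ (K : Type) [Field K] [Algebra ℂ K] [FF ℂ K] (r Z l : ℕ) (z : Zd K r)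
    (f : (Fin (r + 2) → ℕ) → ℂ[X]), l * (z.D * (r + 2)) ≤ Z * (z.E 0 + z.E 1) →
    (∀ y ∈ Sx (r + 2) Z, ∀ x ∈ (f y).support,
      z.n * Z ≤ ∑ k, z.e k * y k + z.n * x ∧ ∑ k, z.e k * y k + z.n * x < z.n * Z + z.n * l) →
    (∀ A, ∀ i ∈ Sx (r + 2) Z, ∀ j, z.D * j < z.E A * i 0 →
      (hasseDeriv j (∑ y ∈ Sx (r + 2) Z, C (sym (z.g A) i y) * f y)).eval (z.a A) = 0) →
    ∀ y ∈ Sx (r + 2) Z, f y = 0

end Pool.Agent.P.MP_09c11a_nt.W
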