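import Pool.Agent.P.MP_09c11a_nt.W.IfaceD
import Pool.Agent.P.MP_09c11a_nt.W.IfaceS
import Pool.Agent.P.MP_09c11a_nt.W.PD1
import Pool.Agent.P.MP_09c11a_nt.W.IfaceZ

/-! Proofs of the steps ARA, ARC1, ARC2, ARC3, ARC4, AR, INJ. -/

set_option autoImplicit false
set_option linter.unusedSectionVars false
set_option linter.unusedVariables false

namespace Pool.Agent.P.MP_09c11a_nt.W

section

open Finset Matrix Dat

theorem ara_fact (R : ℕ) (X L : ℝ) (hL : 0 ≤ L) (h1 : (R : ℝ) ≤ X) (h2 : (R : ℝ) ≤ Real.exp L) :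
    Real.log R.factorial ≤ X * L := by
  have h3 : (R.factorial : ℝ) ≤ Real.exp L ^ R :=
    (by exact_mod_cast Nat.factorial_le_pow R : (R.factorial : ℝ) ≤ (R : ℝ) ^ R).trans
      (pow_le_pow_left₀ (Nat.cast_nonneg R) h2 R)
  have h4 := Real.log_le_log (by exact_mod_cast R.factorial_pos) h3
  rw [Real.log_pow, Real.log_exp] at h4
  exact h4.trans (mul_le_mul_of_nonneg_right h1 hL)

theorem ara_det (d : Dat) (A : Fin 2) : ((d.gm A).map (Int.castRingHom ℝ)).det = 1 := by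
  rw [← RingHom.mapMatrix_apply, ← RingHom.map_det]
  fin_cases A
  · simp [gm, G0_det]
  · simp [gm, d.gdet]

theorem p_ARA (hQM1 : S_QM1) (hQM3 : S_QM3) (hARB : S_ARB) (hGS : S_GS) (hENT : S_ENT) (hS3 : S_S3) (hS10 : S_S10) (hROWS : S_ROWS) (hCNT1 : S_CNT1) :
    S_ARA := by
  intro d
  choose B lam hU h1 hO hS h0 using fun A => hGS d.r _ (ara_det d A)
  obtain ⟨M, hM1, hM⟩ : ∃ M : ℝ, 1 ≤ M ∧ ∀ A k l, |B A k l| ≤ M := by
    obtain ⟨M, hM⟩ := (Set.finite_range fun q : Fin 2 × Fin (d.r + 2) × Fin (d.r + 2) =>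
      |B q.1 q.2.1 q.2.2|).bddAbove
    exact ⟨max 1 M, le_max_left _ _, fun A k l => (hM ⟨(A, k, l), rfl⟩).trans (le_max_right _ _)⟩
  have hN : (2 : ℝ) ≤ d.N := by unfold N; linarith [Nat.cast_nonneg (α := ℝ) d.r]
  have hNM : 1 ≤ d.N * M := one_le_mul_of_one_le_of_one_le (by linarith) hM1
  have hlog : 0 ≤ Real.log (d.N * M) := Real.log_nonneg hNM
  refine ⟨4 * (d.N + 2) + 3 * Real.log (d.N * M), lam, hS, fun A => by rw [h0]; rfl, ?_⟩
  intro Z hZ ι Γ hι hne hΓ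
  set w : Fin 2 → ℕ → d.Col Z → ℝ := fun A j c => ((cx c).choose j : ℝ) * (d.bs A : ℝ) ^ ck c *
    (d.bt A : ℝ) ^ (d.n * d.ll Z - ck c) with hw
  have hJ : (d.J Z).map (Int.castRingHom ℝ) =
      Jg (fun A => (d.gm A).map (Int.castRingHom ℝ)) w := by
    ext r c
    simp only [Dat.J, Jg, Matrix.map_apply, Matrix.of_apply, hw, hS3 _ _ _ (Int.castRingHom ℝ)]
    simp
  have hD : (d.Del ι : ℝ) =
      ((Jg (fun A => (d.gm A).map (Int.castRingHom ℝ)) w).submatrix ι id).det := by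
    rw [← hJ, Matrix.submatrix_map, ← RingHom.mapMatrix_apply, ← RingHom.map_det]; rfl
  have hb := hARB (d.Row Z) (d.Col Z) ι (Qm Z B) (Jg (fun A => (d.gm A).map (Int.castRingHom ℝ)) w)
    (Real.exp Γ) ((d.N * M) ^ Z) hι (fun σ hσ => by
      rw [hQM1 d Z ℝ B _ w fun A k hk => hU A k 0 (Fin.pos_iff_ne_zero.2 hk)]
      refine (Finset.prod_le_prod (fun c _ => abs_nonneg _)
        fun c _ => hENT d Z _ lam hO (σ c) c).trans ?_
      rw [← Real.exp_sum]
      exact Real.exp_le_exp.2 (hΓ σ hσ)) (one_le_pow₀ hNM) (fun r s => by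
      simp only [Qm, Matrix.of_apply]
      split_ifs
      · have := hS10 (d.r + 2) Z (B (rA r)) M (by linarith) (hM _) (ri r) (ri s) s.1.2.2
        simpa [N] using this
      · rw [abs_zero]; positivity)
  rw [hQM3 d Z ℝ B hU h1, one_mul, ← hD] at hb
  obtain ⟨r1, -, r3, -⟩ := hROWS d Z
  obtain ⟨r3, r4⟩ := r3 hZ
  have hC : 0 ≤ d.C Z := Nat.cast_nonneg _
  have hZ' : (1 : ℝ) ≤ Z := by exact_mod_cast hZ
  have hl : 0 ≤ Real.log ((Z : ℝ) + 2) := Real.log_nonneg (by linarith)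
  have c1 : (Fintype.card (d.Col Z) : ℝ) ≤ d.C Z * Z := by
    rw [card_col]
    exact mul_le_mul_of_nonneg_left (by exact_mod_cast d.ll_le Z) hC
  have c2 : ((Fintype.card (d.Row Z) - Fintype.card (d.Col Z) : ℕ) : ℝ) ≤ 3 * d.C Z := by
    rcases le_total (Fintype.card (d.Col Z)) (Fintype.card (d.Row Z)) with h | h
    · rw [Nat.cast_sub h]; linarith
    · rw [Nat.sub_eq_zero_of_le h, Nat.cast_zero]; linarith
  have c3 : d.C Z ≤ ((Z : ℝ) + 2) ^ (d.r + 2) := by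
    have h : d.C Z ≤ ((Z : ℝ) + 1) ^ (d.r + 2) := by
      unfold C; exact_mod_cast (hCNT1 d.r Z).2.1
    exact h.trans (pow_le_pow_left₀ (by linarith) (by linarith) _)
  have c4 : (Fintype.card (d.Row Z) : ℝ) ≤ Real.exp ((d.N + 2) * Real.log (Z + 2)) := by
    have e : d.N + 2 = ((d.r + 2 + 2 : ℕ) : ℝ) := by unfold N; push_cast; ring
    rw [e, Real.exp_nat_mul, Real.exp_log (by linarith), pow_add]
    calc _ ≤ d.C Z * (Z + 3) := by linarith
      _ ≤ _ := mul_le_mul c3 (by nlinarith) (by linarith) (by positivity)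
  have c5 := ara_fact _ (4 * (d.C Z * Z)) _ (mul_nonneg (by linarith) hl) (by linarith) c4
  have hp : (0 : ℝ) < |(d.Del ι : ℝ)| := abs_pos.2 (by exact_mod_cast hne)
  have hf : (0 : ℝ) < (Fintype.card (d.Row Z)).factorial := by exact_mod_cast Nat.factorial_pos _
  have hq : (0 : ℝ) < d.N * M := by linarith
  have c6 := Real.log_le_log hp hb
  rw [Real.log_mul (by positivity) (by positivity), Real.log_mul hf.ne' (Real.exp_ne_zero _),
    Real.log_exp, Real.log_pow, Real.log_pow] at c6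
  have c7 := mul_le_mul_of_nonneg_right c2 (mul_nonneg (by linarith : (0 : ℝ) ≤ Z) hlog)
  have c8 := mul_le_mul_of_nonneg_right r4 hlog
  have e : d.er Z = d.C Z * Z * Real.log (Z + 2) := rfl
  have c9 : 4 * (d.C Z * Z) * ((d.N + 2) * Real.log (Z + 2)) = 4 * (d.N + 2) * d.er Z := by
    rw [e]; ring
  linarith only [c5, c6, c7, c8, c9]

end

section

open Finset Matrix Dat

theorem p_ARC1 (hROWS : S_ROWS) :
    S_ARC1 := by
  intro d
  have hb : (1 : ℝ) ≤ d.b := by exact_mod_cast d.hb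
  have hab : (d.b : ℝ) ≤ d.a := by exact_mod_cast d.hab.le
  have lb : 0 ≤ Real.log d.b := Real.log_nonneg hb
  have lab : 0 ≤ Real.log d.a - Real.log d.b := sub_nonneg.2 (Real.log_le_log (by linarith) hab)
  refine ⟨d.n * (d.ρ 0 + d.ρ 1) * Real.log d.a, fun Z hZ σ hσ => ?_⟩
  obtain ⟨-, h2, h3, -⟩ := hROWS d Z
  have hρ := vac_rho d 1
  have hρ0 := vac_rho d 0
  have hx : 0 ≤ d.ρ 1 * Z := by positivity
  have hn : (0 : ℝ) ≤ d.n := by positivity
  have hl := d.ll_le_real Z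
  have hm : Function.Injective fun c : d.Col Z => (cz c, d.ll Z - 1 - cm c) := fun c c' h => by
    have h1 : cz c = cz c' := congrArg Prod.fst h
    have h2 : d.ll Z - 1 - cm c = d.ll Z - 1 - cm c' := congrArg Prod.snd h
    have h3 : cm c < d.ll Z := c.2.2
    have h4 : cm c' < d.ll Z := c'.2.2
    exact Prod.ext (Subtype.ext h1) (Fin.ext (show cm c = cm c' by omega))
  have h9 := vac_thr d Z _ hm hx
  have h7 : ∑ c, (if rA (σ c) = 1 then (1 : ℝ) else 0) ≤ d.ρ 1 * Z * d.C Z + d.C Z := by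
    refine le_trans ?_ (h2 1).2
    rw [sum_boole, Nat.cast_le]
    exact card_le_card_of_injOn σ (fun c hc => by simpa using hc) hσ.injOn
  have h8 : ∑ c, (ck c * Real.log (d.bs (rA (σ c))) +
      (d.n * d.ll Z - ck c : ℕ) * Real.log (d.bt (rA (σ c)))) ≤
      ∑ c, ((d.n * (Z * (d.ρ 0 + d.ρ 1)) * Real.log d.b + d.n * (d.ρ 0 * Z) *
        (Real.log d.a - Real.log d.b)) * (if rA (σ c) = 1 then (1 : ℝ) else 0) +
        d.n * (Real.log d.a - Real.log d.b) * max (d.ρ 1 * Z - (d.ll Z - 1 - cm c : ℕ)) 0) :=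
    sum_le_sum fun c _ => by
      have e0 := le_max_right (d.ρ 1 * Z - (d.ll Z - 1 - cm c : ℕ)) (0 : ℝ)
      split_ifs with h
      · have e1 := le_max_left (d.ρ 1 * Z - (d.ll Z - 1 - cm c : ℕ)) (0 : ℝ)
        have e2 : ((d.ll Z - 1 - cm c : ℕ) : ℝ) = d.ll Z - 1 - cm c := by
          have : cm c < d.ll Z := c.2.2
          rw [Nat.cast_sub (by omega), Nat.cast_sub (by omega), Nat.cast_one]
        have e3 : (ck c : ℝ) ≤ d.n * (cm c + 1) := by exact_mod_cast (ck_lt c).le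
        have e4 : (ck c : ℝ) ≤ d.n * (d.ρ 0 * Z + max (d.ρ 1 * Z - (d.ll Z - 1 - cm c : ℕ)) 0) :=
          e3.trans (mul_le_mul_of_nonneg_left (by linarith) hn)
        rw [h, Nat.cast_sub (ck_lt' c).le]
        simp only [Dat.bs, Dat.bt, Matrix.cons_val_one, Matrix.cons_val_zero]
        push_cast
        nlinarith [mul_le_mul_of_nonneg_right e4 lab,
          mul_le_mul_of_nonneg_right (mul_le_mul_of_nonneg_left hl hn) lb]
      · have h0 : rA (σ c) = 0 := by omega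
        rw [h0]
        simp only [Dat.bs, Dat.bt, Matrix.cons_val_zero, Nat.cast_one, Real.log_one, mul_zero,
          add_zero, zero_add]
        positivity
  refine h8.trans ?_
  rw [sum_add_distrib, ← mul_sum, ← mul_sum]
  have h10 := mul_le_mul_of_nonneg_left h7 (show 0 ≤ d.n * (Z * (d.ρ 0 + d.ρ 1)) * Real.log d.b +
    d.n * (d.ρ 0 * Z) * (Real.log d.a - Real.log d.b) by positivity)
  have h11 := mul_le_mul_of_nonneg_left h9 (mul_nonneg hn lab)
  have h12 := mul_le_mul_of_nonneg_left (h3 hZ).2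
    (show 0 ≤ d.n * (d.ρ 0 + d.ρ 1) * Real.log d.a by
      have : 0 ≤ Real.log d.a := by linarith
      positivity)
  unfold Dat.cA Dat.mt
  linarith

end

section

open Finset Matrix Dat

theorem arc2_tri (m : ℕ) (x : ℝ) (hx : 0 ≤ x) (h : (m : ℝ) < x + 1) :
    ∑ j ∈ range m, (j : ℝ) ≤ (x ^ 2 + x) / 2 := by
  have h1 : ∀ m : ℕ, ∑ j ∈ range m, (j : ℝ) = m * (m - 1) / 2 := fun m => by
    induction m with
    | zero => simp
    | succ m ih => rw [sum_range_succ, ih]; push_cast; ring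
  rw [h1]
  rcases Nat.eq_zero_or_pos m with rfl | hm
  · simp only [Nat.cast_zero, zero_mul, zero_div]; positivity
  · have : (1 : ℝ) ≤ m := by exact_mod_cast hm
    nlinarith

theorem arc2_cc (E x : ℕ) {D : ℕ} (hD : 0 < D) : (cc E D x : ℝ) < E / D * x + 1 := by
  have h : (D : ℝ) * cc E D x < E * x + D := by exact_mod_cast cc_lt E x hD
  have hD' : (0 : ℝ) < D := by exact_mod_cast hD
  rw [div_mul_eq_mul_div, div_add_one hD'.ne', lt_div_iff₀ hD']
  linarith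

theorem p_ARC2 (hROWS : S_ROWS) (hCNT2 : S_CNT2) :
    S_ARC2 := by
  intro d
  have hN := d.N_pos
  have hD : (0 : ℝ) < d.D := by exact_mod_cast d.hD
  have hL : 0 ≤ Real.log d.N := Real.log_nonneg (by
    have : (0 : ℝ) ≤ d.r := Nat.cast_nonneg _
    unfold Dat.N; linarith)
  refine ⟨Real.log d.N * ∑ A, ((d.E A / d.D) ^ 2 + d.E A / d.D) / (2 * d.N), fun Z hZ σ hσ => ?_⟩
  obtain ⟨h1, -, h2⟩ := hCNT2 d Z
  obtain ⟨-, -, h3, -⟩ := hROWS d Z
  obtain ⟨-, h3⟩ := h3 hZ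
  have hC : 0 ≤ d.C Z := Nat.cast_nonneg _
  have hZ0 : (0 : ℝ) ≤ Z := Nat.cast_nonneg _
  have a1 : ∑ c : d.Col Z, (cx c : ℝ) / d.N ≤ 2 * (d.ρ 0 + d.ρ 1) / d.N * d.mt Z := by
    have b1 : ∑ c : d.Col Z, (cx c : ℝ) ≤ Fintype.card (d.Col Z) * (2 * Z) := by
      have := Finset.sum_le_card_nsmul (univ : Finset (d.Col Z)) (fun c => (cx c : ℝ)) (2 * Z)
        fun c _ => by exact_mod_cast cx_le c
      simpa only [nsmul_eq_mul, card_univ] using this
    rw [card_col] at b1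
    have b2 : d.C Z * d.ll Z * (2 * Z) ≤ d.C Z * (Z * (d.ρ 0 + d.ρ 1)) * (2 * Z) := by
      have := d.ll_le_real Z
      gcongr
    rw [← Finset.sum_div, div_mul_eq_mul_div]
    refine div_le_div_of_nonneg_right (b1.trans (b2.trans_eq ?_)) hN.le
    unfold Dat.mt; ring
  have a2 : ∑ c : d.Col Z, (rj (σ c) : ℝ) ≤ ∑ r : d.Row Z, (rj r : ℝ) := by
    rw [← Finset.sum_image (s := univ) (g := σ) (f := fun r => (rj r : ℝ))
      fun x _ y _ h => hσ h]
    exact Finset.sum_le_sum_of_subset_of_nonneg (subset_univ _) fun _ _ _ => Nat.cast_nonneg _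
  have a3 : ∀ A, ∑ i ∈ Sx (d.r + 2) Z, ∑ j ∈ range (cc (d.E A) d.D (i 0)), (j : ℝ) ≤
      (d.E A : ℝ) ^ 2 / (d.D ^ 2 * (d.N * (d.N + 1))) * d.mt Z +
        ((d.E A / d.D) ^ 2 + d.E A / d.D) / (2 * d.N) * d.er Z := fun A => by
    have b1 : ∑ i ∈ Sx (d.r + 2) Z, ∑ j ∈ range (cc (d.E A) d.D (i 0)), (j : ℝ) ≤
        ∑ i ∈ Sx (d.r + 2) Z, (((d.E A : ℝ) / d.D) ^ 2 / 2 * (i 0 : ℝ) ^ 2 +
          (d.E A : ℝ) / d.D / 2 * i 0) :=
      Finset.sum_le_sum fun i _ =>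
        (arc2_tri _ _ (by positivity) (arc2_cc (d.E A) (i 0) d.hD)).trans_eq (by ring)
    rw [sum_add_distrib, ← mul_sum, ← mul_sum, h1, h2] at b1
    have b2 : ((d.E A / d.D) ^ 2 + d.E A / d.D) / (2 * d.N) * (d.C Z * Z) ≤
        ((d.E A / d.D) ^ 2 + d.E A / d.D) / (2 * d.N) * d.er Z := by gcongr
    have b3 : 0 ≤ ((d.E A : ℝ) / d.D) ^ 2 * (Z * d.C Z / (d.N * (d.N + 1))) := by positivity
    have b4 : ((d.E A : ℝ) / d.D) ^ 2 / 2 *
          (2 * (Z * (Z - 1) * d.C Z / (d.N * (d.N + 1))) + Z * d.C Z / d.N) +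
        (d.E A : ℝ) / d.D / 2 * (Z * d.C Z / d.N) =
        (d.E A : ℝ) ^ 2 / (d.D ^ 2 * (d.N * (d.N + 1))) * d.mt Z +
          ((d.E A / d.D) ^ 2 + d.E A / d.D) / (2 * d.N) * (d.C Z * Z) -
          ((d.E A : ℝ) / d.D) ^ 2 * (Z * d.C Z / (d.N * (d.N + 1))) := by
      unfold Dat.mt; field_simp; ring
    linarith
  rw [sum_row (fun _ _ j => (j : ℝ))] at a2
  have a4 := a2.trans (Finset.sum_le_sum fun A _ => a3 A)
  rw [sum_add_distrib, ← sum_mul, ← sum_mul, Fin.sum_univ_two, ← add_div] at a4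
  have a5 := mul_le_mul_of_nonneg_right a4 hL
  rw [sum_add_distrib, ← sum_mul]
  linarith

end

section

open Finset Matrix Dat

theorem arc3_cc (E x : ℕ) {D : ℕ} (hD : 0 < D) (φ M : ℝ) (h : |φ| ≤ M) :
    (cc E D x : ℝ) * φ ≤ E / D * (x * φ) + M := by
  have h1 : (D : ℝ) * cc E D x < E * x + D := by exact_mod_cast cc_lt E x hD
  have h2 : (E : ℝ) * x ≤ D * cc E D x := by exact_mod_cast le_cc E x hD
  have hD' : (0 : ℝ) < D := by exact_mod_cast hD
  have h3 : (cc E D x : ℝ) - E * x / D ≤ 1 := by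
    rw [sub_le_iff_le_add, add_comm, div_add_one hD'.ne', le_div_iff₀ hD']; linarith
  have h4 : 0 ≤ (cc E D x : ℝ) - E * x / D := by
    rw [sub_nonneg, div_le_iff₀ hD']; linarith
  have h5 : ((cc E D x : ℝ) - E * x / D) * φ ≤ 1 * M :=
    (mul_le_mul_of_nonneg_left ((le_abs_self φ).trans h) h4).trans
      (mul_le_mul_of_nonneg_right h3 ((abs_nonneg φ).trans h))
  have h6 : (E : ℝ) / D * (x * φ) = E * x / D * φ := by ring
  linarith

theorem p_ARC3 (hROWS : S_ROWS) (hCNT2 : S_CNT2) :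
    S_ARC3 := by
  intro d lam hlam
  have hN := d.N_pos
  have hD : (0 : ℝ) < d.D := by exact_mod_cast d.hD
  obtain ⟨L, hL⟩ : ∃ L, L = ∑ A, ∑ k, |lam A k| := ⟨_, rfl⟩
  have hL1 : ∀ A k, |lam A k| ≤ L := fun A k => by
    rw [hL]
    exact (Finset.single_le_sum (f := fun k => |lam A k|) (fun _ _ => abs_nonneg _)
      (mem_univ k)).trans (Finset.single_le_sum (f := fun A => ∑ k, |lam A k|)
        (fun _ _ => Finset.sum_nonneg fun _ _ => abs_nonneg _) (mem_univ A))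
  have hL0 : 0 ≤ L := (abs_nonneg _).trans (hL1 0 0)
  refine ⟨3 * L + ∑ A, (L + |d.E A / d.D * lam A 0 / (d.N + 1)|), fun Z hZ σ hσ => ?_⟩
  obtain ⟨-, h1, h2⟩ := hCNT2 d Z
  obtain ⟨-, -, h3, h4⟩ := hROWS d Z
  obtain ⟨-, h3⟩ := h3 hZ
  have hC : 0 ≤ d.C Z := Nat.cast_nonneg _
  have hZ0 : (0 : ℝ) ≤ Z := Nat.cast_nonneg _
  have a0 : ∀ A, ∀ i ∈ Sx (d.r + 2) Z, |∑ k, (i k : ℝ) * lam A k| ≤ Z * L := fun A i hi => by
    refine (Finset.abs_sum_le_sum_abs _ _).trans ?_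
    rw [← mem_Sx.1 hi, Nat.cast_sum, sum_mul]
    exact Finset.sum_le_sum fun k _ => by
      rw [abs_mul, Nat.abs_cast]
      exact mul_le_mul_of_nonneg_left (hL1 A k) (Nat.cast_nonneg _)
  have a1 := (le_abs_self _).trans (h4 σ (fun r => ∑ k, (ri r k : ℝ) * lam (rA r) k) (Z * L) hσ
    (by positivity) fun r => a0 _ _ r.1.2.2)
  rw [sum_row (fun A i _ => ∑ k, (i k : ℝ) * lam A k)] at a1
  have a3 : ∀ A, ∑ i ∈ Sx (d.r + 2) Z, ∑ j ∈ range (cc (d.E A) d.D (i 0)),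
      ∑ k, (i k : ℝ) * lam A k ≤ d.E A * lam A 0 / (d.D * (d.N * (d.N + 1))) * d.mt Z +
        (L + |d.E A / d.D * lam A 0 / (d.N + 1)|) * d.er Z := fun A => by
    have b1 : ∑ i ∈ Sx (d.r + 2) Z, ∑ j ∈ range (cc (d.E A) d.D (i 0)),
        ∑ k, (i k : ℝ) * lam A k ≤ ∑ i ∈ Sx (d.r + 2) Z,
          ((d.E A : ℝ) / d.D * (i 0 * ∑ k, (i k : ℝ) * lam A k) + Z * L) :=
      Finset.sum_le_sum fun i hi => by
        rw [sum_const, card_range, nsmul_eq_mul]
        exact arc3_cc _ _ d.hD _ _ (a0 A i hi)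
    have b2 : ∑ i ∈ Sx (d.r + 2) Z, (i 0 : ℝ) * ∑ k, (i k : ℝ) * lam A k =
        (Z * (Z - 1) * d.C Z / (d.N * (d.N + 1)) + Z * d.C Z / d.N) * lam A 0 := by
      have c1 : ∀ k, ∑ i ∈ Sx (d.r + 2) Z, (i 0 : ℝ) * (i k * lam A k) =
          Z * (Z - 1) * d.C Z / (d.N * (d.N + 1)) * lam A k + if k = 0 then
            (Z * (Z - 1) * d.C Z / (d.N * (d.N + 1)) + Z * d.C Z / d.N) * lam A 0 else 0 := by
        intro k
        simp only [← mul_assoc, ← sum_mul]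
        split_ifs with hk
        · subst hk
          simp only [← sq]
          rw [h2]; ring
        · rw [h1 0 k (Ne.symm hk), add_zero]
      simp only [mul_sum]
      rw [sum_comm, Finset.sum_congr rfl fun k _ => c1 k, sum_add_distrib, ← mul_sum, hlam]
      simp
    rw [sum_add_distrib, ← mul_sum, b2, sum_const, nsmul_eq_mul] at b1
    have b3 : (L + d.E A / d.D * lam A 0 / (d.N + 1)) * (d.C Z * Z) ≤
        (L + |d.E A / d.D * lam A 0 / (d.N + 1)|) * d.er Z :=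
      (mul_le_mul_of_nonneg_right (by linarith [le_abs_self (d.E A / d.D * lam A 0 / (d.N + 1))])
        (by positivity)).trans (mul_le_mul_of_nonneg_left h3 (by positivity))
    have b4 : (d.E A : ℝ) / d.D *
          ((Z * (Z - 1) * d.C Z / (d.N * (d.N + 1)) + Z * d.C Z / d.N) * lam A 0) +
        d.C Z * (Z * L) = d.E A * lam A 0 / (d.D * (d.N * (d.N + 1))) * d.mt Z +
          (L + d.E A / d.D * lam A 0 / (d.N + 1)) * (d.C Z * Z) := by
      unfold Dat.mt; field_simp; ring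
    exact b1.trans (b4.trans_le (by linarith))
  have a4 := Finset.sum_le_sum (s := univ) fun A _ => a3 A
  rw [sum_add_distrib, ← sum_mul, ← sum_mul, Fin.sum_univ_two (f := fun A => d.E A * lam A 0 / _),
    ← add_div] at a4
  have a5 : 3 * L * (d.C Z * Z) ≤ 3 * L * d.er Z := by gcongr
  linarith

end

section

open Finset Matrix Dat

theorem arc4_nonneg {N : ℕ} (z : Fin N → ℕ) : 0 ≤ Real.log (fac z) := Real.log_natCast_nonneg _

theorem arc4_le {N Z : ℕ} {z : Fin N → ℕ} (hz : z ∈ Sx N Z) :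
    Real.log (fac z) ≤ Z * Real.log (Z + 2) := by
  have h : fac z ≤ (Z + 2) ^ Z := by
    calc fac z ≤ ∏ k, (Z + 2) ^ z k := Finset.prod_le_prod' fun k _ =>
          (Nat.factorial_le_pow _).trans
            (Nat.pow_le_pow_left ((le_of_mem_Sx hz k).trans (Nat.le_add_right _ _)) _)
      _ = _ := by rw [Finset.prod_pow_eq_pow_sum, mem_Sx.1 hz]
  have h0 : 0 < fac z := Finset.prod_pos fun k _ => Nat.factorial_pos _
  rw [← Real.log_pow]
  exact Real.log_le_log (by exact_mod_cast h0) (by exact_mod_cast h)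

theorem arc4_le_cc (E x : ℕ) {D : ℕ} (hD : 0 < D) : (E : ℝ) / D * x ≤ cc E D x := by
  have h : (E : ℝ) * x ≤ D * cc E D x := by exact_mod_cast le_cc E x hD
  have hD' : (0 : ℝ) < D := by exact_mod_cast hD
  rw [div_mul_eq_mul_div, div_le_iff₀ hD']
  linarith

theorem p_ARC4 (hROWS : S_ROWS) (hCNT1 : S_CNT1) :
    S_ARC4 := by
  intro d Z hZ σ hσ
  have hN := d.N_pos
  have hM : 0 ≤ Z * Real.log (Z + 2) :=
    mul_nonneg (Nat.cast_nonneg _) (Real.log_nonneg (by linarith [Nat.cast_nonneg (α := ℝ) Z]))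
  have h1 := (hROWS d Z).2.2.2 σ (fun r => Real.log (fac (ri r))) _ hσ hM fun r => by
    rw [abs_of_nonneg (arc4_nonneg _)]
    exact arc4_le r.1.2.2
  have h2 := (hCNT1 d.r Z).2.2 (fun z => Real.log (fac z)) (fun τ z => by
    rw [show fac (z ∘ τ) = fac z from Equiv.prod_comp τ fun k => (z k).factorial]) 0
  have h3 := sum_col (d := d) (Z := Z) fun z _ => Real.log (fac z)
  have h4 := sum_row (d := d) (Z := Z) fun _ z _ => Real.log (fac z)
  simp only [Finset.sum_const, Finset.card_range, nsmul_eq_mul] at h3 h4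
  rw [← Finset.mul_sum] at h3
  have hS : 0 ≤ ∑ z ∈ Sx (d.r + 2) Z, Real.log (fac z) :=
    Finset.sum_nonneg fun z _ => arc4_nonneg z
  have h5 : ∀ A, d.ρ A * Z * ∑ z ∈ Sx (d.r + 2) Z, Real.log (fac z) ≤
      ∑ z ∈ Sx (d.r + 2) Z, (cc (d.E A) d.D (z 0) : ℝ) * Real.log (fac z) := fun A => by
    calc _ = (d.E A : ℝ) / d.D * ∑ z ∈ Sx (d.r + 2) Z, (z 0 : ℝ) * Real.log (fac z) := by
          rw [mul_assoc, ← h2, ρ, ← div_div, ← mul_assoc]
          exact congrArg (· * _) (div_mul_cancel₀ _ hN.ne')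
      _ ≤ _ := by
          rw [Finset.mul_sum]
          refine Finset.sum_le_sum fun z _ => ?_
          rw [← mul_assoc]
          exact mul_le_mul_of_nonneg_right (arc4_le_cc _ _ d.hD) (arc4_nonneg z)
  rw [Fin.sum_univ_two] at h4
  have h6 := mul_le_mul_of_nonneg_right (d.ll_le_real Z) hS
  have h7 := (abs_le.1 h1).1
  have a0 := h5 0
  have a1 := h5 1
  rw [Finset.sum_sub_distrib, h3, er]
  rw [h4] at h7
  linarith

end

section

open Finset Matrix Dat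

theorem p_AR (hARA : S_ARA) (hARC1 : S_ARC1) (hARC2 : S_ARC2) (hARC3 : S_ARC3) (hARC4 : S_ARC4) :
    S_AR := by
  intro d
  obtain ⟨K, lam, h0, h1, h⟩ := hARA d
  obtain ⟨K1, k1⟩ := hARC1 d
  obtain ⟨K2, k2⟩ := hARC2 d
  obtain ⟨K3, k3⟩ := hARC3 d lam h0
  refine ⟨K + K1 + K2 + K3 + 3 / 2, fun Z hZ ι hι hne => ?_⟩
  have := h Z hZ ι (d.cR * d.mt Z + (K1 + K2 + K3 + 3 / 2) * d.er Z) hι hne fun σ hσ => by
    have a1 := k1 Z hZ σ hσ
    have a2 := k2 Z hZ σ hσ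
    have a3 := k3 Z hZ σ hσ
    have a4 := hARC4 d Z hZ σ hσ
    rw [h1, h1] at a3
    rw [sum_add_distrib] at a1 a2
    simp only [ent, sum_add_distrib, ← sum_div, Dat.cR] at a2 ⊢
    linarith
  linarith

end

section

open Finset Matrix Dat Polynomial Pool.Agent.P.MP_6f117a_ag

theorem inj_gy (d : Dat) (A : Fin 2) :
    d.gy A = Matrix.diagonal (fun i => (d.bs A : ℤ) ^ d.e i * (d.bt A : ℤ) ^ (d.n - d.e i)) *
      d.gm A := by
  fin_cases A <;> simp [gy, gm, bs, bt]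

theorem inj_bs (d : Dat) (A : Fin 2) : d.bs A ≠ 0 := by
  have := d.hb; have := d.hab
  fin_cases A <;> simp [bs]; omega

theorem inj_bt (d : Dat) (A : Fin 2) : d.bt A ≠ 0 := by
  have := d.hb
  fin_cases A <;> simp [bt]; omega

theorem inj_gm_det (d : Dat) (A : Fin 2) : (d.gm A).det = 1 := by
  fin_cases A
  · simpa [gm] using G0_det (R := ℤ) d.r
  · simpa [gm] using d.gdet

theorem inj_gm_ne (d : Dat) (A : Fin 2) (i : Fin (d.r + 2)) : d.gm A i 0 ≠ 0 := by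
  fin_cases A
  · simp [gm, G0]
  · simpa [gm] using d.tne i

theorem inj_prod {d : Dat} {Z : ℕ} (α β : ℂ) (hβ : β ≠ 0) (q : d.Col Z) :
    (∏ k, (α ^ d.e k * β ^ (d.n - d.e k)) ^ cz q k) * ((α / β) ^ d.n) ^ cx q * β ^ (d.n * d.ll Z) =
      α ^ (d.n * Z) * (α ^ ck q * β ^ (d.n * d.ll Z - ck q)) := by
  have h1 := ck_add q
  have h2 := ck_lt' q
  have h3 : ∑ k, (d.n - d.e k) * cz q k + d.ez (cz q) = d.n * Z := by
    rw [ez, ← Finset.sum_add_distrib]
    refine Eq.trans ?_ (congrArg (d.n * ·) (mem_Sx.1 q.1.2))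
    rw [Finset.mul_sum]
    refine Finset.sum_congr rfl fun k _ => ?_
    rw [← add_mul, Nat.sub_add_cancel (d.elt k).le]
  have h4 : ∏ k, (α ^ d.e k * β ^ (d.n - d.e k)) ^ cz q k =
      α ^ d.ez (cz q) * β ^ (∑ k, (d.n - d.e k) * cz q k) := by
    simp only [mul_pow, ← pow_mul, Finset.prod_mul_distrib, Finset.prod_pow_eq_pow_sum, ez]
  obtain ⟨t, ht⟩ := Nat.exists_eq_add_of_le h2.le
  generalize ∑ k, (d.n - d.e k) * cz q k = w at h3 h4
  have h5 : d.n * cx q = w + ck q := by omega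
  have h6 : α ^ d.ez (cz q) * α ^ (d.n * cx q) = α ^ (d.n * Z) * α ^ ck q := by
    rw [← pow_add, ← pow_add, ← h1, add_comm]
  rw [h4, ← pow_mul, div_pow, ht, Nat.add_sub_cancel_left, ← mul_assoc, ← h6, h5, pow_add β w,
    pow_add β (ck q)]
  field_simp

theorem p_INJ (hZL : S_ZL) (hBASEF : S_BASEF) (hS2 : S_S2) (hS3 : S_S3) :
    S_INJ := by
  classical
  intro d Z c hc
  have hs : ∀ A, (d.bs A : ℂ) ≠ 0 := fun A => Nat.cast_ne_zero.2 (inj_bs d A)
  have ht : ∀ A, (d.bt A : ℂ) ≠ 0 := fun A => Nat.cast_ne_zero.2 (inj_bt d A)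
  let u : Fin 2 → ℂ := fun A => ((d.bs A : ℂ) / d.bt A) ^ d.n
  have hu : ∀ A, u A ≠ 0 := fun A => pow_ne_zero _ (div_ne_zero (hs A) (ht A))
  have hu01 : u 0 ≠ u 1 := by
    intro h
    have hb : (d.b : ℂ) ≠ 0 := Nat.cast_ne_zero.2 d.hb.ne'
    simp only [u, bs, bt, Matrix.cons_val_zero, Matrix.cons_val_one, Nat.cast_one, div_one,
      one_pow, div_pow] at h
    rw [eq_div_iff (pow_ne_zero _ hb), one_mul] at h
    have h' : d.b ^ d.n = d.a ^ d.n := by exact_mod_cast h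
    exact (Nat.pow_lt_pow_left d.hab d.hn.ne').ne h'
  obtain ⟨K, _, _, _, T, s, hT, hsT⟩ := hBASEF d.n d.D u d.hD
  have hdi : ∀ A i, (d.bs A : ℤ) ^ d.e i * (d.bt A : ℤ) ^ (d.n - d.e i) ≠ 0 := fun A i =>
    mul_ne_zero (pow_ne_zero _ (Nat.cast_ne_zero.2 (inj_bs d A)))
      (pow_ne_zero _ (Nat.cast_ne_zero.2 (inj_bt d A)))
  let z : Zd K d.r :=
    { n := d.n, D := d.D, E := d.E, e := d.e, a := u
      g := fun A => (d.gy A).map (Int.castRingHom ℂ), T := T, s := s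
      hn := d.hn, hD := d.hD, einj := d.einj, elt := d.elt, ane := hu, a01 := hu01
      gdet := fun A => by
        rw [← RingHom.mapMatrix_apply, ← RingHom.map_det, inj_gy, det_mul, det_diagonal,
          inj_gm_det, mul_one, eq_intCast, Int.cast_ne_zero]
        exact Finset.prod_ne_zero_iff.2 fun i _ => hdi A i
      gne := fun A i => by
        rw [Matrix.map_apply, inj_gy, Matrix.diagonal_mul, eq_intCast, Int.cast_ne_zero]
        exact mul_ne_zero (hdi A i) (inj_gm_ne d A i)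
      hE := d.hE, hT := hT, hs := hsT }
  let f : (Fin (d.r + 2) → ℕ) → ℂ[X] := fun y =>
    if h : y ∈ Sx (d.r + 2) Z then
      ∑ m : Fin (d.ll Z), monomial (cx ((⟨y, h⟩, m) : d.Col Z)) (c (⟨y, h⟩, m)) else 0
  have hf : ∀ y : d.Ex Z, f y.1 =
      ∑ m : Fin (d.ll Z), monomial (cx ((y, m) : d.Col Z)) (c (y, m)) := fun y => dif_pos y.2
  have h0 := hZL K d.r Z (d.ll Z) z f (Nat.div_mul_le_self _ _) ?_ ?_
  · funext q
    obtain ⟨y, m⟩ := q
    have h1 := congrArg (fun p : ℂ[X] => p.coeff (cx ((y, m) : d.Col Z))) (h0 y.1 y.2)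
    simp only [hf, Polynomial.finsetSum_coeff, Polynomial.coeff_monomial,
      Polynomial.coeff_zero] at h1
    rw [Finset.sum_eq_single m (fun m' _ hm => if_neg fun h => hm (Fin.ext (by
      simpa [cx, cz, cm] using h))) (by simp), if_pos rfl] at h1
    exact h1
  · intro y hy x hx
    rw [hf ⟨y, hy⟩, Polynomial.mem_support_iff, Polynomial.finsetSum_coeff] at hx
    obtain ⟨m, _, hm⟩ := Finset.exists_ne_zero_of_sum_ne_zero hx
    rw [Polynomial.coeff_monomial] at hm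
    have hx' : cx ((⟨y, hy⟩, m) : d.Col Z) = x := by_contra fun h => hm (if_neg h)
    have h1 := ck_add ((⟨y, hy⟩, m) : d.Col Z)
    have h2 := ck_lt' ((⟨y, hy⟩, m) : d.Col Z)
    rw [hx'] at h1
    change d.n * Z ≤ d.ez y + d.n * x ∧ d.ez y + d.n * x < d.n * Z + d.n * d.ll Z
    change _ = d.ez y + d.n * x at h1
    omega
  · intro A i hi j hj
    let ρ : d.Row Z := ⟨(A, ⟨i, hi⟩), ⟨j, (lt_cc d.hD).2 hj⟩⟩
    have h1 := congrFun hc ρ
    rw [Matrix.mulVec, dotProduct, Pi.zero_apply] at h1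
    have h2 : (hasseDeriv j (∑ y ∈ Sx (d.r + 2) Z, Polynomial.C (sym (z.g A) i y) * f y)).eval
        (z.a A) = ∑ q : d.Col Z, sym (z.g A) i (cz q) *
          (((cx q).choose j : ℂ) * c q * u A ^ (cx q - j)) := by
      rw [← Finset.sum_coe_sort (Sx (d.r + 2) Z), Fintype.sum_prod_type, map_sum,
        Polynomial.eval_finsetSum]
      refine Finset.sum_congr rfl fun y _ => ?_
      rw [← Polynomial.smul_eq_C_mul, map_smul, hf, map_sum, Polynomial.eval_smul,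
        Polynomial.eval_finsetSum, smul_eq_mul, Finset.mul_sum]
      refine Finset.sum_congr rfl fun m _ => ?_
      rw [Polynomial.hasseDeriv_monomial, Polynomial.eval_monomial]
    rw [h2]
    refine (mul_eq_zero.1 (?_ : _ * (u A ^ j * (d.bt A : ℂ) ^ (d.n * d.ll Z)) = 0)).resolve_right
      (mul_ne_zero (pow_ne_zero _ (hu A)) (pow_ne_zero _ (ht A)))
    rw [Finset.sum_mul, ← mul_zero ((d.bs A : ℂ) ^ (d.n * Z)), ← h1, Finset.mul_sum]
    refine Finset.sum_congr rfl fun q _ => ?_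
    have h3 := inj_prod (d.bs A : ℂ) (d.bt A : ℂ) (ht A) q
    have h4 : sym (z.g A) i (cz q) =
        (∏ k, ((d.bs A : ℂ) ^ d.e k * (d.bt A : ℂ) ^ (d.n - d.e k)) ^ cz q k) *
          ((sym (d.gm A) i (cz q) : ℤ) : ℂ) := by
      change sym ((d.gy A).map (Int.castRingHom ℂ)) i (cz q) = _
      rw [hS3, inj_gy, (hS2 _ _ _ _ _ _).2.2.1, eq_intCast]
      push_cast; rfl
    have h5 : ((cx q).choose j : ℂ) * (u A ^ (cx q - j) * u A ^ j) =
        ((cx q).choose j : ℂ) * u A ^ cx q := by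
      rcases lt_or_ge (cx q) j with h | h
      · simp [Nat.choose_eq_zero_of_lt h]
      · rw [← pow_add, Nat.sub_add_cancel h]
    have h6 : ((d.J Z).map (Int.castRingHom ℂ)) ρ q = ((cx q).choose j : ℂ) *
        (d.bs A : ℂ) ^ ck q * (d.bt A : ℂ) ^ (d.n * d.ll Z - ck q) *
          ((sym (d.gm A) i (cz q) : ℤ) : ℂ) := by
      simp [Dat.J, Jg, ρ, rA, ri, rj]
    rw [h4, h6]
    change _ * u A ^ cx q * _ = _ at h3
    linear_combination
      ((∏ k, ((d.bs A : ℂ) ^ d.e k * (d.bt A : ℂ) ^ (d.n - d.e k)) ^ cz q k) *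
        ((sym (d.gm A) i (cz q) : ℤ) : ℂ) * c q * (d.bt A : ℂ) ^ (d.n * d.ll Z)) * h5 +
      (((cx q).choose j : ℂ) * ((sym (d.gm A) i (cz q) : ℤ) : ℂ) * c q) * h3

end

end Pool.Agent.P.MP_09c11a_nt.W
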