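import Pool.Agent.P.MP_09c11a_nt.W.IfaceD
import Pool.Agent.P.MP_09c11a_nt.W.IfaceS

/-! Proofs of the steps LOW, COMB, KEY, PIG, CORE, FINAL. -/

set_option autoImplicit false
set_option linter.unusedSectionVars false
set_option linter.unusedVariables false

namespace Pool.Agent.P.MP_09c11a_nt.W

section

open Finset Matrix Dat

theorem low_pow {a b : ℤ} (hb : 0 ≤ b) (hab : b < a) (m : ℕ) : a ^ m ≤ a ^ (m + 1) - b ^ (m + 1) := by
  have h1 : b ^ m ≤ a ^ m := pow_le_pow_left₀ hb hab.le m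
  have h2 : 0 ≤ a ^ m := pow_nonneg (hb.trans hab.le) m
  have h3 : b ^ m * b ≤ a ^ m * b := mul_le_mul_of_nonneg_right h1 hb
  have h4 : a ^ m * (b + 1) ≤ a ^ m * a := mul_le_mul_of_nonneg_left hab h2
  rw [pow_succ, pow_succ]; linarith

theorem low_cop {a b q : ℤ} {n : ℕ} (hn : 0 < n) (h : IsCoprime a b) (hq : q ∣ a ^ n - b ^ n) :
    IsCoprime q a ∧ IsCoprime q b := by
  obtain ⟨m, rfl⟩ := Nat.exists_eq_succ_of_ne_zero hn.ne'
  constructor
  · refine IsCoprime.of_isCoprime_of_dvd_left ?_ hq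
    have h1 : IsCoprime (-b ^ (m + 1)) a := (h.symm.pow_left).neg_left
    have := h1.add_mul_right_left (a ^ m)
    rwa [show -b ^ (m + 1) + a ^ m * a = a ^ (m + 1) - b ^ (m + 1) by ring] at this
  · refine IsCoprime.of_isCoprime_of_dvd_left ?_ hq
    have h1 : IsCoprime (a ^ (m + 1)) b := h.pow_left
    have := h1.add_mul_right_left (-b ^ m)
    rwa [show a ^ (m + 1) + -b ^ m * b = a ^ (m + 1) - b ^ (m + 1) by ring] at this

theorem p_LOW (hINJ : S_INJ) (hMINOR : S_MINOR) (hNORM : S_NORM) (hVAB : S_VAB) (hVXA : S_VXA) (hVXC : S_VXC) (hVPA : S_VPA) (hVPC : S_VPC) (hAR : S_AR) :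
    S_LOW := by
  classical
  intro d
  obtain ⟨K1, h1⟩ := hVAB d
  obtain ⟨K2, h2⟩ := hVXC d
  obtain ⟨K3, h3⟩ := hVPC d
  obtain ⟨K4, h4⟩ := hAR d
  obtain ⟨w, hw⟩ := d.pv
  have hb : (0 : ℤ) < d.b := by exact_mod_cast d.hb
  have hab : (d.b : ℤ) < d.a := by exact_mod_cast d.hab
  have ha : (0 : ℤ) < d.a := hb.trans hab
  have hp : (0 : ℤ) < d.p := by exact_mod_cast d.hp.pos
  have hpp : Prime (d.p : ℤ) := Nat.prime_iff_prime_int.1 d.hp
  have hcop : IsCoprime (d.a : ℤ) d.b := Nat.isCoprime_iff_coprime.2 d.cop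
  obtain ⟨m, hm⟩ := Nat.exists_eq_succ_of_ne_zero d.hn.ne'
  have hlo : (d.a : ℤ) ^ m ≤ d.p ^ d.v * w := by rw [← hw, hm]; exact low_pow hb.le hab m
  have hw0 : 0 < w := (mul_pos_iff_of_pos_left (pow_pos hp _)).1 ((pow_pos ha m).trans_le hlo)
  have hpw : IsCoprime w (d.p : ℤ) := ((hpp.coprime_iff_not_dvd).2 fun h => d.pv' (by
    rw [hw, pow_succ]; exact mul_dvd_mul_left _ h)).symm
  obtain ⟨hwa, hwb⟩ := low_cop d.hn hcop (q := w) (by rw [hw]; exact dvd_mul_left _ _)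
  obtain ⟨hpa, hpb⟩ := low_cop d.hn hcop (q := d.p) ((dvd_pow_self _ d.hv.ne').trans d.pv)
  have ra : (0 : ℝ) < d.a := by exact_mod_cast ha
  have rb : (0 : ℝ) < d.b := by exact_mod_cast hb
  have rp : (0 : ℝ) < d.p := by exact_mod_cast hp
  have rw0 : (0 : ℝ) < w := by exact_mod_cast hw0
  have la : 0 ≤ Real.log d.a := Real.log_natCast_nonneg _
  have lb : 0 ≤ Real.log d.b := Real.log_natCast_nonneg _
  have lp : 0 ≤ Real.log d.p := Real.log_natCast_nonneg _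
  have lw : 0 ≤ Real.log w := Real.log_intCast_nonneg _
  have hlw : (d.n - 1) * Real.log d.a - d.v * Real.log d.p ≤ Real.log w := by
    have h : (d.a : ℝ) ^ m ≤ d.p ^ d.v * w := by exact_mod_cast hlo
    have := Real.log_le_log (pow_pos ra m) h
    rw [Real.log_mul (pow_pos rp _).ne' rw0.ne', Real.log_pow, Real.log_pow] at this
    rw [hm]; push_cast; linarith
  refine ⟨K4 + K1 * (Real.log d.a + Real.log d.b) + K2 * Real.log w + K3 * Real.log d.p,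
    fun Z hZ => ?_⟩
  obtain ⟨ι, hι, hD⟩ := hMINOR _ _ ℂ _ (hINJ d Z)
  have hD0 : d.Del ι ≠ 0 := fun h => hD (by
    have e : ((d.J Z).map (Int.castRingHom ℂ)).submatrix ι id =
      (Int.castRingHom ℂ).mapMatrix ((d.J Z).submatrix ι id) := rfl
    rw [e, ← RingHom.map_det]
    have : ((d.J Z).submatrix ι id).det = 0 := h
    convert map_zero (Int.castRingHom ℂ))
  obtain ⟨E, ea, eb, hE⟩ := h1 Z hZ ι hι
  have hX := hVXA d Z ι _ hι (h2 Z hZ)
  have hP := hVPA d Z ι _ hι (h3 Z hZ)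
  obtain ⟨s, t, u, hN⟩ := hNORM d Z ι
  set x := ⌈d.cX * d.mt Z - K2 * d.er Z⌉₊ with hx
  set y := ⌈d.cP * d.mt Z - K3 * d.er Z⌉₊ with hy
  have tr : ∀ q : ℤ, IsCoprime q d.a → IsCoprime q d.b → q ∣ d.DelX ι → q ∣ d.Del ι :=
    fun q qa qb h => (qa.pow_right.mul_right qb.pow_right).dvd_of_dvd_mul_left
      (hN ▸ h.mul_left _)
  have ew : w ^ x ∣ d.Del ι := tr _ hwa.pow_left hwb.pow_left
    ((pow_dvd_pow_of_dvd (by rw [hw]; exact dvd_mul_left _ _) x).trans hX)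
  have ep : (d.p : ℤ) ^ y ∣ d.Del ι := tr _ hpa.pow_left hpb.pow_left hP
  have e1 : (d.a : ℤ) ^ E * d.b ^ E ∣ d.Del ι := hcop.pow.mul_dvd ea eb
  have e2 : w ^ x * (d.p : ℤ) ^ y ∣ d.Del ι := hpw.pow.mul_dvd ew ep
  have e3 : w ^ x * (d.p : ℤ) ^ y * (d.a ^ E * d.b ^ E) ∣ d.Del ι :=
    ((hwa.pow.mul_right hwb.pow).mul_left (hpa.pow.mul_right hpb.pow)).mul_dvd e2 e1
  have e4 : (w : ℝ) ^ x * d.p ^ y * (d.a ^ E * d.b ^ E) ≤ |(d.Del ι : ℝ)| := by
    exact_mod_cast Int.le_of_dvd (abs_pos.2 hD0) ((dvd_abs _ _).2 e3)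
  have e5 := (Real.log_le_log (by positivity) e4).trans (h4 Z hZ ι hι hD0)
  rw [Real.log_mul (by positivity) (by positivity), Real.log_mul (by positivity) (by positivity),
    Real.log_mul (by positivity) (by positivity), Real.log_pow, Real.log_pow, Real.log_pow,
    Real.log_pow] at e5
  have f1 := mul_le_mul_of_nonneg_right hE (add_nonneg la lb)
  have f2 := mul_le_mul_of_nonneg_right (Nat.le_ceil (d.cX * d.mt Z - K2 * d.er Z)) lw
  have f3 := mul_le_mul_of_nonneg_right (Nat.le_ceil (d.cP * d.mt Z - K3 * d.er Z)) lp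
  have hN0 := d.N_pos
  have f4 := mul_le_mul_of_nonneg_left hlw
    (show 0 ≤ d.cX * d.mt Z by unfold cX Dat.mt C; positivity)
  rw [← hx] at f2
  rw [← hy] at f3
  linarith

end

section

open Finset Matrix Dat

theorem comb_lim {x K : ℝ} (h : ∀ Z : ℕ, 1 ≤ Z → x * Z ≤ K * Real.log (Z + 2)) : x ≤ 0 := by
  refine not_lt.1 fun hx => ?_
  have h0 : Filter.Tendsto (fun Z : ℕ => (Z : ℝ) + 2) Filter.atTop Filter.atTop :=
    Filter.tendsto_atTop_add_const_right _ _ tendsto_natCast_atTop_atTop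
  have hc : 0 < x / (4 * (|K| + 1)) := by positivity
  have h1 := (Real.isLittleO_log_id_atTop.comp_tendsto h0).bound hc
  obtain ⟨Z, hZ, hZ2⟩ := (h1.and (Filter.eventually_ge_atTop 2)).exists
  have r2 : (2 : ℝ) ≤ Z := by exact_mod_cast hZ2
  have l0 : 0 ≤ Real.log (Z + 2) := Real.log_nonneg (by linarith)
  simp only [Function.comp, id, Real.norm_eq_abs] at hZ
  rw [abs_of_nonneg l0, abs_of_nonneg (show (0 : ℝ) ≤ Z + 2 by linarith), div_mul_eq_mul_div,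
    le_div_iff₀ (by positivity)] at hZ
  have h2 := h Z (by omega)
  have h3 := mul_le_mul_of_nonneg_right (le_abs_self K) l0
  nlinarith [mul_le_mul_of_nonneg_left r2 hx.le]

theorem p_COMB (hLOW : S_LOW) (hCNT1 : S_CNT1) :
    S_COMB := by
  intro d
  obtain ⟨K, h⟩ := hLOW d
  refine sub_nonpos.1 (comb_lim (K := K) fun Z hZ => ?_)
  have h1 := h Z hZ
  have hC : 0 < d.C Z := by unfold C; exact_mod_cast (hCNT1 d.r Z).1
  have hZ' : (0 : ℝ) < Z := by exact_mod_cast hZ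
  unfold Dat.mt er at h1
  refine le_of_mul_le_mul_left ?_ (mul_pos hC hZ')
  linarith

end

section

open Finset Matrix Dat

theorem key_alg {n v N x0 x1 la lb lp l0 l1 lN lτ : ℝ} (hv : 0 < v) (hN : 2 ≤ N) (h0 : 0 ≤ x0)
    (h1 : 0 ≤ x1) (hp : 0 ≤ lp) (e0 : l0 = lN / 2) (e1 : l1 ≤ lN / 2 + lτ)
    (h : n * (x1 / N) ^ 2 / 2 * (la + lb) + x0 * x1 / (N * (N + 1)) * ((n - 1) * la - v * lp) +
      ((v * (x0 / N + x1 / N) - 1 / N) * (x0 / N + x1 / N) -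
        (v * (x0 / N + x1 / N) - 1 / N) ^ 2 / (2 * v) - (v * (x0 / N + x1 / N) - 1 / N) / (v * N) -
        1 / (v * (N * (N + 1))) + ((x0 - v * x0 ^ 2 / 2) * (2 / (N * (N + 1))) +
          (x1 - v * x1 ^ 2 / 2) * (2 / (N * (N + 1))))) * lp ≤
      n * (x0 / N * (x1 / N) + (x1 / N) ^ 2 / 2) * la + n * (x1 / N) ^ 2 / 2 * lb +
        (x0 * l0 + x1 * l1) / (N * (N + 1)) + 2 * (x0 / N + x1 / N) / N +
        lN * ((x0 ^ 2 + x1 ^ 2) / (N * (N + 1)))) :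
    (v * x0 + v * x1 - 1 / 2 - ((v * x0) ^ 2 + (v * x1) ^ 2) / 2) * lp ≤
      v * x0 * (v * x1) * (n / (v * N) + 1 / v) * la + (v * x0 + v * x1) / 2 * lN + v * x1 * lτ +
        3 * (v * x0 + v * x1) + ((v * x0) ^ 2 + (v * x1) ^ 2) * lN / v := by
  have hN0 : 0 < N := by linarith
  have hN1 : 0 < N + 1 := by linarith
  have h2 := mul_nonneg (mul_pos hv (mul_pos hN0 hN1)).le (sub_nonneg.2 h)
  have h3 : 0 ≤ (v * x0 + v * x1 - 1) ^ 2 / (2 * N) * lp := by positivity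
  have h4 : 0 ≤ v * x1 * (lN / 2 + lτ - l1) := mul_nonneg (by positivity) (sub_nonneg.2 e1)
  have h5 : 0 ≤ (v * x0 + v * x1) * ((N - 2) / N) :=
    mul_nonneg (by positivity) (div_nonneg (sub_nonneg.2 hN) hN0.le)
  rw [← sub_nonneg]
  refine (add_nonneg (add_nonneg (add_nonneg h2 h3) h4) h5).trans_eq ?_
  subst e0
  field_simp
  ring

theorem p_KEY (hCOMB : S_COMB) :
    S_KEY := by
  intro d τ hτ
  have h := hCOMB d
  have hD : (d.D : ℝ) ≠ 0 := Nat.cast_ne_zero.2 d.hD.ne'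
  have hN := d.N_pos
  have e0 : d.lt 0 = Real.log d.N / 2 := by simp [Dat.lt, Dat.gm, G0, Dat.N]
  have t1 : ∀ i, (1 : ℝ) ≤ |(d.g i 0 : ℝ)| := fun i => by exact_mod_cast Int.one_le_abs (d.tne i)
  have t2 : ∀ i, |(d.g i 0 : ℝ)| ≤ τ := fun i => by exact_mod_cast hτ i
  have t3 : (0 : ℝ) < τ := one_pos.trans_le ((t1 0).trans (t2 0))
  have e1 : d.lt 1 ≤ Real.log d.N / 2 + Real.log τ := by
    have a1 : ∑ k, (d.g k 0 : ℝ) ^ 2 ≤ d.N * τ ^ 2 := by
      refine (Finset.sum_le_card_nsmul _ _ ((τ : ℝ) ^ 2) fun k _ => ?_).trans_eq (by simp [Dat.N])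
      rw [← sq_abs]
      exact pow_le_pow_left₀ (abs_nonneg _) (t2 k) 2
    have a2 : 0 < ∑ k, (d.g k 0 : ℝ) ^ 2 := Finset.sum_pos (fun k _ => by
      rw [← sq_abs]; exact pow_pos (one_pos.trans_le (t1 k)) 2) Finset.univ_nonempty
    have a3 := Real.log_le_log a2 a1
    rw [Real.log_mul hN.ne' (by positivity), Real.log_pow] at a3
    have a4 : d.lt 1 = Real.log (∑ k, (d.g k 0 : ℝ) ^ 2) / 2 := rfl
    rw [a4]
    push_cast at a3
    linarith
  unfold Ineq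
  rw [mul_div_assoc (d.v : ℝ) (d.E 0), mul_div_assoc (d.v : ℝ) (d.E 1)]
  refine key_alg (lb := Real.log d.b) (Nat.cast_pos.2 d.hv) (by unfold Dat.N; linarith [d.r.cast_nonneg (α := ℝ)])
    (by positivity) (by positivity) (Real.log_natCast_nonneg _) e0 e1 ?_
  have hv : (d.v : ℝ) ≠ 0 := Nat.cast_ne_zero.2 d.hv.ne'
  have hN1 : d.N + 1 ≠ 0 := by positivity
  convert h using 1
  · simp only [Dat.cA, Dat.cX, Dat.cP, Dat.κ, Dat.ρ, Fin.sum_univ_two]
    field_simp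
  · simp only [Dat.cA, Dat.cR, Dat.ρ]
    field_simp

end

section

open Finset Matrix Dat

lemma pig_fib {a b p n r τ : ℕ} (hp : p.Prime) (ha : ¬p ∣ a) (hb : ¬p ∣ b) (hτ : τ < p)
    (h : (r + 2) * (p - 1) ≤ n * τ) :
    ∃ (S : Finset (ℕ × ℕ)) (c : ZMod p), S.card = r + 2 ∧ ∀ x ∈ S, x.1 < n ∧ 1 ≤ x.2 ∧ x.2 ≤ τ ∧
      (a : ZMod p) ^ x.1 * (b : ZMod p) ^ (n - x.1) * x.2 = c := by
  have := Fact.mk hp
  have h1 : (univ.erase (0 : ZMod p)).card = p - 1 := by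
    rw [card_erase_of_mem (mem_univ _), card_univ, ZMod.card]
  obtain ⟨c, -, hc⟩ := Finset.exists_le_card_fiber_of_mul_le_card_of_maps_to
    (s := range n ×ˢ Icc 1 τ) (t := univ.erase (0 : ZMod p)) (n := r + 2)
    (f := fun x => (a : ZMod p) ^ x.1 * (b : ZMod p) ^ (n - x.1) * x.2)
    (fun x hx => by
      simp only [mem_product, mem_range, mem_Icc] at hx
      refine mem_erase.2 ⟨mul_ne_zero (mul_ne_zero (pow_ne_zero _ ?_) (pow_ne_zero _ ?_)) ?_,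
        mem_univ _⟩
      · exact fun h => ha ((ZMod.natCast_eq_zero_iff _ _).1 h)
      · exact fun h => hb ((ZMod.natCast_eq_zero_iff _ _).1 h)
      · exact fun h => absurd (Nat.le_of_dvd (by omega) ((ZMod.natCast_eq_zero_iff _ _).1 h))
          (by omega))
    ⟨1, mem_erase.2 ⟨one_ne_zero, mem_univ _⟩⟩
    (by rw [h1, card_product, card_range, Nat.card_Icc, mul_comm]; simpa using h)
  obtain ⟨S, hS, hS2⟩ := exists_subset_card_eq hc
  refine ⟨S, c, hS2, fun x hx => ?_⟩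
  have := hS hx
  simp only [mem_filter, mem_product, mem_range, mem_Icc] at this
  exact ⟨this.1.1, this.1.2.1, this.1.2.2, this.2⟩

lemma pig_gap {a b n r τ e e' t t' : ℕ} (hb : 0 < b) (hab : b < a) (hc : a.Coprime b)
    (he : e ≤ e') (he' : e' < n) (ht : 1 ≤ t) (htτ : t ≤ τ) (hτ : τ < a ^ (r + 1))
    (h : a ^ e * b ^ (n - e) * t = a ^ e' * b ^ (n - e') * t') : e' ≤ e + r := by
  obtain ⟨δ, rfl⟩ := Nat.exists_eq_add_of_le he
  have h1 : n - e = n - (e + δ) + δ := by omega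
  have h2 : a ^ e * b ^ (n - (e + δ)) * (b ^ δ * t) = a ^ e * b ^ (n - (e + δ)) * (a ^ δ * t') := by
    rw [h1, pow_add, pow_add] at h
    linarith only [h]
  have h3 := Nat.eq_of_mul_eq_mul_left (by have : 0 < a := by omega
                                           positivity) h2
  have h4 : a ^ δ ∣ t := (Nat.Coprime.pow δ δ hc).dvd_of_dvd_mul_left ⟨t', h3⟩
  have h5 : a ^ δ < a ^ (r + 1) := (Nat.le_of_dvd ht h4).trans_lt (htτ.trans_lt hτ)
  have := (Nat.pow_lt_pow_iff_right (by omega : 1 < a)).1 h5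
  omega

lemma pig_enum {a b p n r τ : ℕ} (hb : 0 < b) (hab : b < a) (hc : a.Coprime b) (hp : p.Prime)
    (ha' : ¬p ∣ a) (hb' : ¬p ∣ b) (hτ : τ < p) (h : (r + 2) * (p - 1) ≤ n * τ)
    (hτ' : τ < a ^ (r + 1)) :
    ∃ (e t : Fin (r + 2) → ℕ) (c : ZMod p), Function.Injective e ∧
      (∀ i, e i < n ∧ 1 ≤ t i ∧ t i ≤ τ ∧
        (a : ZMod p) ^ e i * (b : ZMod p) ^ (n - e i) * t i = c) ∧
      a ^ e 1 * b ^ (n - e 1) * t 1 ≠ a ^ e 0 * b ^ (n - e 0) * t 0 := by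
  have := Fact.mk hp
  obtain ⟨S, c, hS, H⟩ := pig_fib (r := r) hp ha' hb' hτ h
  let σ : Fin (r + 2) ≃ S := (S.equivFinOfCardEq hS).symm
  have H' := fun i => H _ (σ i).2
  have hinj : Function.Injective fun i => (σ i).1.1 := by
    intro i j hij
    have hij' : (σ i).1.1 = (σ j).1.1 := hij
    obtain ⟨-, i1, i2, i3⟩ := H' i
    obtain ⟨-, j1, j2, j3⟩ := H' j
    rw [hij', ← j3] at i3
    have h0 : (a : ZMod p) ^ (σ j).1.1 * (b : ZMod p) ^ (n - (σ j).1.1) ≠ 0 :=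
      mul_ne_zero (pow_ne_zero _ fun h => ha' ((ZMod.natCast_eq_zero_iff _ _).1 h))
        (pow_ne_zero _ fun h => hb' ((ZMod.natCast_eq_zero_iff _ _).1 h))
    have h1 := (ZMod.natCast_eq_natCast_iff' _ _ _).1 (mul_left_cancel₀ h0 i3)
    rw [Nat.mod_eq_of_lt (by omega), Nat.mod_eq_of_lt (by omega)] at h1
    exact σ.injective (Subtype.ext (Prod.ext hij' h1))
  have hex : ∃ i, a ^ (σ i).1.1 * b ^ (n - (σ i).1.1) * (σ i).1.2 ≠
      a ^ (σ 0).1.1 * b ^ (n - (σ 0).1.1) * (σ 0).1.2 := by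
    by_contra hcon
    push Not at hcon
    obtain ⟨m, -, hm⟩ := exists_min_image univ (fun i => (σ i).1.1) ⟨0, mem_univ _⟩
    have h1 : univ.image (fun i => (σ i).1.1) ⊆ Icc (σ m).1.1 ((σ m).1.1 + r) := by
      intro x hx
      obtain ⟨i, -, rfl⟩ := mem_image.1 hx
      exact mem_Icc.2 ⟨hm i (mem_univ _), pig_gap hb hab hc (hm i (mem_univ _)) (H' i).1
        (H' m).2.1 (H' m).2.2.1 hτ' ((hcon m).trans (hcon i).symm)⟩
    have h2 := card_le_card h1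
    rw [card_image_of_injective _ hinj, card_univ, Fintype.card_fin, Nat.card_Icc] at h2
    omega
  obtain ⟨i, hi⟩ := hex
  have hi0 : i ≠ 0 := fun h => hi (by rw [h])
  refine ⟨fun j => (σ (Equiv.swap 1 i j)).1.1, fun j => (σ (Equiv.swap 1 i j)).1.2, c,
    hinj.comp (Equiv.swap 1 i).injective, fun j => H' _, ?_⟩
  simp only [Equiv.swap_apply_left]
  rwa [Equiv.swap_apply_of_ne_of_ne (Fin.zero_ne_one) hi0.symm]

theorem p_PIG (hUNIM : S_UNIM) :
    S_PIG := by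
  intro a b p n r τ hb hab hc hp ha' hb' hτ h hτ'
  have := Fact.mk hp
  obtain ⟨e, t, c, he, H, hne⟩ := pig_enum (r := r) hb hab hc hp ha' hb' hτ h hτ'
  obtain ⟨s, hs, hs1⟩ := Finset.extract_gcd (s := univ) (fun i => (t i : ℤ)) ⟨0, mem_univ _⟩
  set γ : ℤ := univ.gcd fun i => (t i : ℤ) with hγ
  have hs' := fun i => hs i (mem_univ i)
  obtain ⟨g, hg, hg0⟩ := hUNIM r s hs1
  have ht0 : ∀ i, (t i : ℤ) ≠ 0 := fun i => by have := (H i).2.1; omega
  have hs0 : ∀ i, s i ≠ 0 := fun i h0 => ht0 i (by rw [hs' i, h0, mul_zero])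
  have hγ0 : (γ : ZMod p) ≠ 0 := by
    intro h0
    have h1 : (p : ℤ) ∣ t 0 := ((ZMod.intCast_zmod_eq_zero_iff_dvd _ _).1 h0).trans ⟨_, hs' 0⟩
    have h2 := Nat.le_of_dvd (H 0).2.1 (Int.natCast_dvd_natCast.1 h1)
    have := (H 0).2.2.1
    omega
  refine ⟨e, g, he, fun i => (H i).1, hg, fun i => by rw [hg0]; exact hs0 i, fun i => ?_,
    fun i => ?_, fun h0 => hne ?_⟩
  · rw [hg0]
    have h1 : |s i| ≤ (t i : ℤ) := Int.le_of_dvd (by have := (H i).2.1; omega)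
      ((abs_dvd _ _).2 ⟨γ, by rw [hs' i, mul_comm]⟩)
    exact h1.trans (by exact_mod_cast (H i).2.2.1)
  · rw [← ZMod.intCast_zmod_eq_zero_iff_dvd, hg0, hg0]
    refine mul_left_cancel₀ hγ0 ?_
    have h1 : ∀ j, ((t j : ℕ) : ZMod p) = γ * s j := fun j => by
      have := congrArg (Int.cast : ℤ → ZMod p) (hs' j)
      simpa using this
    have h2 := (H i).2.2.2.trans (H 0).2.2.2.symm
    rw [h1, h1] at h2
    push_cast
    linear_combination h2
  · rw [hg0, hg0] at h0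
    zify
    rw [hs' 1, hs' 0]
    linear_combination γ * h0

end

section

open Finset Matrix Dat

theorem p_CORE (hPIG : S_PIG) (hKEY : S_KEY) :
    S_CORE := by
  intro a b p n v r τ D E0 E1 hb hab cop hp hn hv pv pv' hD hE hW hτ h1 h2
  have hd : (p : ℤ) ∣ (a : ℤ) ^ n - (b : ℤ) ^ n := (dvd_pow_self _ hv.ne').trans pv
  have ha' : p ∣ a → p ∣ b := fun h => hp.dvd_of_dvd_pow (n := n) (by
    have := dvd_sub ((Int.natCast_dvd_natCast.2 h).trans (dvd_pow_self _ hn.ne')) hd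
    rw [sub_sub_cancel] at this
    exact_mod_cast this)
  have hb' : p ∣ b → p ∣ a := fun h => hp.dvd_of_dvd_pow (n := n) (by
    have := dvd_add hd ((Int.natCast_dvd_natCast.2 h).trans (dvd_pow_self _ hn.ne'))
    rw [sub_add_cancel] at this
    exact_mod_cast this)
  have hc : p ∣ a → p ∣ b → False := fun h h' =>
    hp.one_lt.ne' (Nat.eq_one_of_dvd_coprimes cop h h')
  obtain ⟨e, g, g1, g2, g3, g4, g5, g6, g7⟩ := hPIG a b p n r τ hb hab cop hp
    (fun h => hc h (ha' h)) (fun h => hc (hb' h) h) hτ h1 h2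
  exact hKEY ⟨a, b, p, n, v, D, r, ![E0, E1], e, g, hb, hab, cop, hp, hn, hv, hD, g1, g2, g3, g4,
    g6, g7, pv, pv', hE, hW⟩ τ g5

end

section

open Finset Matrix Dat

theorem final_pow (m : ℕ) : m + 3 < 2 ^ (m + 2) := by
  induction m with
  | zero => norm_num
  | succ k ih => rw [pow_succ]; omega

theorem final_real (la L lN x y v : ℝ) (hla : 0 ≤ la) (hL : 8000 * (la + 9) < L)
    (hx : x ≤ 1 / 2) (hy : y ≤ 1) (hN : lN ≤ 2 + 0.31 * L) (hv : lN / v ≤ 1 / 0.69)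
    (h : ((0.845 : ℝ) + 0.535 - 1 / 2 - (0.845 ^ 2 + 0.535 ^ 2) / 2) * L ≤
      0.845 * 0.535 * (x + y) * la + (0.845 + 0.535) / 2 * lN + 0.535 * lN +
        3 * (0.845 + 0.535) + (0.845 ^ 2 + 0.535 ^ 2) * lN / v) : False := by
  have h1 : (x + y) * la ≤ 3 / 2 * la := mul_le_mul_of_nonneg_right (by linarith) hla
  rw [mul_div_assoc, mul_assoc _ (x + y)] at h
  norm_num at h hv hN
  linarith

theorem p_FINAL (hCORE : S_CORE) :
    S_FINAL := by
  intro a b hb hba hab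
  refine ⟨max a ⌈Real.exp (8000 * (Real.log a + 9))⌉₊, fun p hp hP => ?_⟩
  have hap : a < p := lt_of_le_of_lt (le_max_left _ _) hP
  have hep : Real.exp (8000 * (Real.log a + 9)) < p :=
    lt_of_le_of_lt (Nat.le_ceil _) (by exact_mod_cast lt_of_le_of_lt (le_max_right _ _) hP)
  have hp0 : (0 : ℝ) < p := by exact_mod_cast hp.pos
  have hp1 : (1 : ℝ) ≤ p := by exact_mod_cast hp.pos
  have hL : 8000 * (Real.log a + 9) < Real.log p := by
    rw [Real.lt_log_iff_exp_lt hp0]; exact hep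
  have hla : 0 ≤ Real.log a := Real.log_natCast_nonneg a
  have : Fact p.Prime := ⟨hp⟩
  obtain ⟨n, hn⟩ : ∃ n, n = p - 1 := ⟨_, rfl⟩
  rw [← hn]
  obtain ⟨v, hv⟩ : ∃ v, v = padicValNat p (a ^ n - b ^ n) := ⟨_, rfl⟩
  rw [← hv]
  by_contra hc
  push Not at hc
  have hn0 : 0 < n := by have := hp.two_le; omega
  have hnp : n + 1 = p := by have := hp.two_le; omega
  have hlt : b ^ n < a ^ n := Nat.pow_lt_pow_left hba hn0.ne'
  have hd : p ^ v ∣ a ^ n - b ^ n := hv ▸ pow_padicValNat_dvd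
  have hnd : ¬ p ^ (v + 1) ∣ a ^ n - b ^ n := hv ▸ pow_succ_padicValNat_not_dvd (by omega)
  have hq : Real.log p ≤ (p : ℝ) ^ (0.69 : ℝ) / 0.69 :=
    Real.log_le_rpow_div hp0.le (by norm_num)
  have hq3 : (3 : ℝ) < (p : ℝ) ^ (0.69 : ℝ) := by
    rw [le_div_iff₀ (by norm_num)] at hq
    linarith
  have hv0 : (0 : ℝ) < v := by linarith
  have hv1 : 0 < v := by exact_mod_cast hv0
  have hvn : v < n := by
    have h1 : p ^ v ≤ a ^ n - b ^ n := Nat.le_of_dvd (by omega) hd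
    have h2 : a ^ n < p ^ n := Nat.pow_lt_pow_left hap hn0.ne'
    exact (Nat.pow_lt_pow_iff_right hp.one_lt).1 (by omega)
  obtain ⟨N, hN⟩ : ∃ N, N = (2 * n + v - 1) / v := ⟨_, rfl⟩
  have hN1 : v * N ≤ 2 * n + v - 1 := hN ▸ Nat.mul_div_le _ _
  have hN2 : 2 * n + v - 1 < v * (N + 1) := hN ▸ Nat.lt_mul_div_succ _ hv1
  have hN3 : 2 * n ≤ v * N := by rw [mul_add] at hN2; omega
  have hN4 : 3 ≤ N := by
    by_contra h
    have : v * N ≤ v * 2 := Nat.mul_le_mul_left _ (by omega)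
    omega
  obtain ⟨m, rfl⟩ : ∃ m, N = m + 3 := ⟨N - 3, by omega⟩
  have hsplit : (p : ℝ) ^ (0.69 : ℝ) * (p : ℝ) ^ (0.31 : ℝ) = p := by
    rw [← Real.rpow_add hp0]; norm_num
  have h31 : (1 : ℝ) ≤ (p : ℝ) ^ (0.31 : ℝ) := Real.one_le_rpow hp1 (by norm_num)
  have hNr : ((m + 3 : ℕ) : ℝ) ≤ 3 * (p : ℝ) ^ (0.31 : ℝ) := by
    have h1 : v * (m + 3) ≤ 2 * p + v := by omega
    have h2 : (v : ℝ) * ((m + 3 : ℕ) : ℝ) ≤ 2 * p + v := by exact_mod_cast h1
    have h3 : (p : ℝ) ≤ v * (p : ℝ) ^ (0.31 : ℝ) := by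
      calc (p : ℝ) = (p : ℝ) ^ (0.69 : ℝ) * (p : ℝ) ^ (0.31 : ℝ) := hsplit.symm
        _ ≤ _ := mul_le_mul_of_nonneg_right hc.le (by linarith)
    have h4 : (v : ℝ) ≤ v * (p : ℝ) ^ (0.31 : ℝ) := le_mul_of_one_le_right hv0.le h31
    refine le_of_mul_le_mul_left ?_ hv0
    linarith
  have hNp : m + 3 < p := by
    have : ((m + 3 : ℕ) : ℝ) < p := by
      calc ((m + 3 : ℕ) : ℝ) ≤ 3 * (p : ℝ) ^ (0.31 : ℝ) := hNr
        _ < (p : ℝ) ^ (0.69 : ℝ) * (p : ℝ) ^ (0.31 : ℝ) :=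
          mul_lt_mul_of_pos_right hq3 (by linarith)
        _ = p := hsplit
    exact_mod_cast this
  have hcast : ((a ^ n - b ^ n : ℕ) : ℤ) = (a : ℤ) ^ n - (b : ℤ) ^ n := by
    rw [Nat.cast_sub hlt.le]; push_cast; rfl
  have key := hCORE a b p n v (m + 1) (m + 3) (200 * v) 169 107 hb hba hab hp hn0 hv1
    (by rw [← hcast]; exact_mod_cast hd)
    (by rw [← hcast]; exact_mod_cast hnd)
    (by omega) (by nlinarith) (by omega) hNp (by rw [← hn]; exact (mul_comm _ _).le)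
    (lt_of_lt_of_le (final_pow m) (Nat.pow_le_pow_left (by omega) _))
  have e0 : (v : ℝ) * (169 : ℕ) / (200 * v : ℕ) = 0.845 := by
    push_cast; field_simp; norm_num
  have e1 : (v : ℝ) * (107 : ℕ) / (200 * v : ℕ) = 0.535 := by
    push_cast; field_simp; norm_num
  have e2 : ((m + 1 : ℕ) : ℝ) + 2 = ((m + 3 : ℕ) : ℝ) := by push_cast; ring
  rw [e0, e1, e2] at key
  have hN0 : (0 : ℝ) < ((m + 3 : ℕ) : ℝ) := by positivity
  refine final_real (Real.log a) (Real.log p) (Real.log ((m + 3 : ℕ) : ℝ))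
    (n / (v * ((m + 3 : ℕ) : ℝ))) (1 / v) v hla hL ?_ ?_ ?_ ?_ key
  · rw [div_le_iff₀ (by positivity)]
    have : (2 : ℝ) * n ≤ v * ((m + 3 : ℕ) : ℝ) := by exact_mod_cast hN3
    linarith
  · rw [div_le_one hv0]; linarith
  · have h1 := Real.log_le_log hN0 hNr
    rw [Real.log_mul (by norm_num) (by positivity), Real.log_rpow hp0] at h1
    have h2 := Real.log_le_sub_one_of_pos (show (0 : ℝ) < 3 by norm_num)
    linarith
  · have h1 : Real.log ((m + 3 : ℕ) : ℝ) ≤ Real.log p :=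
      Real.log_le_log hN0 (by exact_mod_cast hNp.le)
    rw [div_le_iff₀ hv0]
    have h2 : (p : ℝ) ^ (0.69 : ℝ) / 0.69 ≤ 1 / 0.69 * v := by
      rw [one_div_mul_eq_div]; exact div_le_div_of_nonneg_right hc.le (by norm_num)
    linarith

end

end Pool.Agent.P.MP_09c11a_nt.W
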