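import Pool.Agent.P.MP_09c11a_nt.W.IfaceS

/-! Proofs of the steps ARB, DIV, MINOR, MINOR2, CNT1, GS, UNIM. -/

set_option autoImplicit false
set_option linter.unusedSectionVars false
set_option linter.unusedVariables false

namespace Pool.Agent.P.MP_09c11a_nt.W

section

open Finset Matrix

theorem arb_in {I C R : Type} [Fintype C] [DecidableEq I] [CommRing R] {ι : C → I}
    (hι : Function.Injective ι) (A : Matrix I C R) (Q : Matrix I I R) (r : I) (c : C) :
    hat ι A Q r (ι c) = A r c := by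
  have h : ∃ d, ι d = ι c := ⟨c, rfl⟩
  simp only [hat, of_apply, dif_pos h, hι h.choose_spec]

theorem p_ARB (hHAT : S_HAT) :
    S_ARB := by
  intro I C _ _ _ _ ι Q J Γ M hι hΓ hM hQ
  rw [hHAT I C ℝ ι Q J hι, det_apply']
  refine (abs_sum_le_sum_abs _ _).trans ?_
  rw [← Fintype.card_perm, mul_assoc, ← nsmul_eq_mul, ← card_univ]
  refine sum_le_card_nsmul _ _ _ fun s _ => ?_
  have hs : |((Equiv.Perm.sign s : ℤ) : ℝ)| = 1 := by
    rcases Int.units_eq_one_or (Equiv.Perm.sign s) with h | h <;> simp [h]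
  rw [abs_mul, hs, one_mul, abs_prod, ← prod_mul_prod_compl (univ.image ι),
    prod_image fun a _ b _ h => hι h]
  have h1 := hΓ (fun c => s (ι c)) (s.injective.comp hι)
  refine mul_le_mul ?_ ?_ (prod_nonneg fun _ _ => abs_nonneg _)
    ((prod_nonneg fun _ _ => abs_nonneg _).trans h1)
  · simpa only [arb_in hι] using h1
  · have hc : (univ.image ι)ᶜ.card = Fintype.card I - Fintype.card C := by
      rw [card_compl, card_image_of_injective univ hι, card_univ]
    rw [← hc, ← prod_const]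
    refine prod_le_prod (fun _ _ => abs_nonneg _) fun t ht => ?_
    have h : ¬∃ c, ι c = t := by simpa using ht
    simp only [hat, of_apply, dif_neg h]
    exact hQ _ _

end

section

open Finset Matrix

section

variable {I C R : Type} [Fintype I] [DecidableEq I] [Fintype C] [DecidableEq C] [CommRing R]
  {ι : C → I}

theorem div_in (hι : Function.Injective ι) (A : Matrix I C R) (Q : Matrix I I R) (r : I) (c : C) :
    hat ι A Q r (ι c) = A r c := by
  have h : ∃ c', ι c' = ι c := ⟨c, rfl⟩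
  rw [hat, Matrix.of_apply, dif_pos h, hι h.choose_spec]

theorem div_prod (hι : Function.Injective ι) (A : Matrix I C R) (Q : Matrix I I R) (σ : I → I) :
    ∏ i, hat ι A Q (σ i) i = (∏ c, A (σ (ι c)) c) * ∏ i ∈ (univ.image ι)ᶜ, Q (σ i) i := by
  rw [← Finset.prod_mul_prod_compl (univ.image ι), Finset.prod_image fun a _ b _ h => hι h]
  congr 1
  · exact Finset.prod_congr rfl fun c _ => div_in hι A Q _ c
  · refine Finset.prod_congr rfl fun i hi => ?_
    rw [hat, Matrix.of_apply, dif_neg]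
    simpa using hi

end

theorem p_DIV (hHAT : S_HAT) :
    S_DIV := by
  intro I C L R _ _ _ _ _ _ _ ι Q J M U q hι hQ hq
  rw [hHAT I C R ι Q J hι, hQ]
  have key : (hat ι (M * U) Q).det =
      ∑ f : C → L, (∏ c, U (f c) c) * (hat ι (M.submatrix id f) Q).det := by
    simp only [det_apply', div_prod hι, Finset.mul_sum, Matrix.mul_apply]
    rw [Finset.sum_comm]
    refine Finset.sum_congr rfl fun σ _ => ?_
    rw [Finset.prod_univ_sum, Fintype.piFinset_univ, Finset.sum_mul, Finset.mul_sum]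
    refine Finset.sum_congr rfl fun f _ => ?_
    rw [Finset.prod_mul_distrib]
    simp only [submatrix_apply, id]
    ring
  rw [key]
  refine Finset.dvd_sum fun f _ => Dvd.dvd.mul_left ?_ _
  by_cases hf : Function.Injective f
  · rw [det_apply']
    refine Finset.dvd_sum fun σ _ => Dvd.dvd.mul_left ?_ _
    rw [div_prod hι]
    exact Dvd.dvd.mul_right (hq (fun c => σ (ι c)) f (σ.injective.comp hι) hf) _
  · obtain ⟨a, b, hab, hne⟩ := Function.not_injective_iff.1 hf
    rw [det_zero_of_column_eq (i := ι a) (j := ι b) (fun h => hne (hι h)) fun k => by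
      rw [div_in hι, div_in hι, submatrix_apply, submatrix_apply, hab]]
    exact dvd_zero q

end

section

open Finset Matrix

theorem p_MINOR :
    S_MINOR := by
  intro I C F _ _ _ _ J h
  classical
  have hinj : Function.Injective J.mulVec := by
    intro x y hxy
    refine sub_eq_zero.mp (h _ ?_)
    rw [Matrix.mulVec_sub, hxy, sub_self]
  have hcol : LinearIndependent F Jᵀ.row := by
    rw [row_transpose]
    exact Matrix.mulVec_injective_iff.mp hinj
  have hrk : J.rank = Fintype.card C := by rw [← rank_transpose, hcol.rank_matrix]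
  obtain ⟨κ, a, ha, hsp, hli⟩ := exists_linearIndependent' F J.row
  have : Finite κ := Finite.of_injective a ha
  have := Fintype.ofFinite κ
  have hc : Fintype.card κ = Fintype.card C := by
    rw [← finrank_span_eq_card hli, hsp, ← rank_eq_finrank_span_row, hrk]
  let e : C ≃ κ := Fintype.equivOfCardEq hc.symm
  refine ⟨a ∘ e, ha.comp e.injective, ?_⟩
  have h2 : LinearIndependent F (J.submatrix (a ∘ e) id).row := hli.comp e e.injective
  exact ((isUnit_iff_isUnit_det _).mp (linearIndependent_rows_iff_isUnit.mp h2)).ne_zero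

end

section

open Finset Matrix

theorem p_MINOR2 (hMINOR : S_MINOR) :
    S_MINOR2 := by
  intro s N F _ M i0 hM
  classical
  have hinj : ∀ J : Fin s → Fin N, (M.submatrix id J).det ≠ 0 → Function.Injective J := by
    intro J hJ i j hij
    by_contra hne
    exact hJ (det_zero_of_column_eq hne fun k => by simp [hij])
  obtain ⟨J, -, hJ⟩ := hMINOR (Fin N) (Fin s) F Mᵀ fun c hc => hM c (by rwa [mulVec_transpose] at hc)
  have hJ' : (M.submatrix id J).det ≠ 0 := by
    rw [← det_transpose]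
    exact hJ
  by_cases h0 : ∃ j, M j i0 ≠ 0
  · have hc : cramer (M.submatrix id J) (fun j => M j i0) ≠ 0 := by
      intro hc
      have h1 := mulVec_cramer (M.submatrix id J) fun j => M j i0
      rw [hc, mulVec_zero] at h1
      obtain ⟨j, hj⟩ := h0
      have h2 := congrFun h1 j
      simp only [Pi.zero_apply, Pi.smul_apply, smul_eq_mul] at h2
      exact mul_ne_zero hJ' hj h2.symm
    obtain ⟨j, hj⟩ := Function.ne_iff.mp hc
    rw [cramer_apply] at hj
    have e : M.submatrix id (Function.update J j i0) =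
        (M.submatrix id J).updateCol j fun k => M k i0 := by
      ext k l
      by_cases hl : l = j
      · subst hl; simp
      · simp [updateCol_ne hl, Function.update_of_ne hl]
    have h3 : (M.submatrix id (Function.update J j i0)).det ≠ 0 := by rw [e]; exact hj
    exact ⟨_, hinj _ h3, h3, fun _ => ⟨j, by simp⟩⟩
  · exact ⟨J, hinj _ hJ', hJ', fun h => absurd h h0⟩

end

section

open Finset Matrix

theorem cnt1_perm {N Z : ℕ} (σ : Equiv.Perm (Fin N)) (F : (Fin N → ℕ) → ℝ) :
    ∑ z ∈ Sx N Z, F (z ∘ σ) = ∑ z ∈ Sx N Z, F z := by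
  refine Finset.sum_nbij' (fun z => z ∘ σ) (fun z => z ∘ σ.symm) ?_ ?_ ?_ ?_ ?_
  · intro z hz
    rw [mem_Sx] at hz ⊢
    rw [← hz]
    exact Equiv.sum_comp σ z
  · intro z hz
    rw [mem_Sx] at hz ⊢
    rw [← hz]
    exact Equiv.sum_comp σ.symm z
  · intro z _
    ext k
    simp
  · intro z _
    ext k
    simp
  · intro z _
    rfl

theorem p_CNT1 :
    S_CNT1 := by
  intro r Z
  refine ⟨?_, ?_, ?_⟩
  · refine Finset.card_pos.2 ⟨Pi.single 0 Z, ?_⟩
    rw [mem_Sx]
    simp
  · have h : Sx (r + 2) Z ⊆ Fintype.piFinset (fun _ : Fin (r + 2) => range (Z + 1)) := by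
      intro z hz
      rw [Fintype.mem_piFinset]
      intro k
      exact Finset.mem_range.2 (Nat.lt_succ_of_le (le_of_mem_Sx hz k))
    refine (Finset.card_le_card h).trans_eq ?_
    simp
  · intro ψ hψ k
    have h1 : ∀ l, ∑ z ∈ Sx (r + 2) Z, (z l : ℝ) * ψ z = ∑ z ∈ Sx (r + 2) Z, (z k : ℝ) * ψ z := by
      intro l
      rw [← cnt1_perm (Equiv.swap k l) (fun z => (z k : ℝ) * ψ z)]
      refine Finset.sum_congr rfl fun z _ => ?_
      rw [hψ]
      simp
    have h2 : ∑ l, ∑ z ∈ Sx (r + 2) Z, (z l : ℝ) * ψ z = Z * ∑ z ∈ Sx (r + 2) Z, ψ z := by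
      rw [Finset.sum_comm, Finset.mul_sum]
      refine Finset.sum_congr rfl fun z hz => ?_
      rw [← Finset.sum_mul, ← mem_Sx.1 hz]
      simp
    rw [← h2, Finset.sum_congr rfl fun l _ => h1 l]
    simp

end

section

open Finset Matrix InnerProductSpace

theorem gs_span {N : ℕ} {E : Type} [AddCommGroup E] [Module ℝ E] (f : Fin N → E) (k : Fin N)
    {v : E} (hv : v ∈ Submodule.span ℝ (f '' Set.Iio k)) :
    ∃ c : Fin N → ℝ, (∀ l, k ≤ l → c l = 0) ∧ v = ∑ l, c l • f l := by
  induction hv using Submodule.span_induction with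
  | mem x hx =>
    obtain ⟨i, hi, rfl⟩ := hx
    refine ⟨Pi.single i 1, fun l hl => ?_, ?_⟩
    · rw [Pi.single_apply, if_neg]
      rintro rfl
      exact absurd hi (not_lt.2 hl)
    · rw [Finset.sum_eq_single i (fun b _ hb => by simp [hb]) (by simp)]
      simp
  | zero => exact ⟨0, fun _ _ => rfl, by simp⟩
  | add x y _ _ hx hy =>
    obtain ⟨c, hc, rfl⟩ := hx
    obtain ⟨d, hd, rfl⟩ := hy
    exact ⟨c + d, fun l hl => by simp [hc l hl, hd l hl], by
      simp [add_smul, Finset.sum_add_distrib]⟩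
  | smul a x _ hx =>
    obtain ⟨c, hc, rfl⟩ := hx
    exact ⟨a • c, fun l hl => by simp [hc l hl], by simp [Finset.smul_sum, mul_smul]⟩

theorem gs_coef {N : ℕ} {E : Type} [NormedAddCommGroup E] [InnerProductSpace ℝ E]
    (f : Fin N → E) (k : Fin N) :
    ∃ c : Fin N → ℝ, (∀ l, k < l → c l = 0) ∧ c k = 1 ∧ gramSchmidt ℝ f k = ∑ l, c l • f l := by
  have h : gramSchmidt ℝ f k - f k ∈ Submodule.span ℝ (f '' Set.Iio k) := by
    rw [← span_gramSchmidt_Iio ℝ f k, gramSchmidt_def, sub_sub_cancel_left]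
    refine Submodule.neg_mem _ (Submodule.sum_mem _ fun i hi => ?_)
    have h1 : (ℝ ∙ gramSchmidt ℝ f i) ≤ Submodule.span ℝ (gramSchmidt ℝ f '' Set.Iio k) :=
      Submodule.span_mono (by
        rintro _ rfl
        exact ⟨i, Finset.mem_Iio.1 hi, rfl⟩)
    exact h1 (Submodule.starProjection_apply_mem _ _)
  obtain ⟨c, hc, e⟩ := gs_span f k h
  refine ⟨c + Pi.single k 1, fun l hl => ?_, ?_, ?_⟩
  · simp [hc l hl.le, hl.ne']
  · simp [hc k le_rfl]
  · have e2 : ∑ l, (Pi.single k (1 : ℝ) : Fin N → ℝ) l • f l = f k := by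
      rw [Finset.sum_eq_single k (fun b _ hb => by simp [hb]) (by simp)]
      simp
    simp only [Pi.add_apply, add_smul, Finset.sum_add_distrib]
    rw [← e, e2, sub_add_cancel]

theorem p_GS :
    S_GS := by
  intro r g hg
  classical
  set f : Fin (r + 2) → EuclideanSpace ℝ (Fin (r + 2)) := fun k => WithLp.toLp 2 fun i => g i k
    with hf
  choose c hc0 hc1 hc using gs_coef f
  set B : Matrix (Fin (r + 2)) (Fin (r + 2)) ℝ := Matrix.of fun l k => c k l with hB
  have hup : Up B := fun k l h => hc0 l k h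
  have hdiag : ∀ k, B k k = 1 := fun k => hc1 k
  have hdet : B.det = 1 := by
    have h : B.det = ∏ k, B k k := det_of_isUpperTriangular fun _ _ hl => hup _ _ hl
    rw [h]
    exact Finset.prod_eq_one fun k _ => hdiag k
  have hgB : ∀ i k, (g * B) i k = gramSchmidt ℝ f k i := fun i k => by
    rw [hc k, Matrix.mul_apply]
    simp [hf, hB, mul_comm]
  have hin : ∀ k l, ((g * B)ᵀ * (g * B)) k l = inner ℝ (gramSchmidt ℝ f k) (gramSchmidt ℝ f l) :=
    fun k l => by
      rw [Matrix.mul_apply, PiLp.inner_apply]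
      refine Finset.sum_congr rfl fun i _ => ?_
      rw [Matrix.transpose_apply, hgB, hgB]
      simp [mul_comm]
  have hD : (g * B)ᵀ * (g * B) = diagonal fun k => ‖gramSchmidt ℝ f k‖ ^ 2 := by
    ext k l
    rw [hin, Matrix.diagonal_apply]
    split_ifs with h
    · rw [h, real_inner_self_eq_norm_sq]
    · exact gramSchmidt_orthogonal ℝ f h
  have hprod : ∏ k, ‖gramSchmidt ℝ f k‖ ^ 2 = 1 := by
    rw [← det_diagonal, ← hD, det_mul, det_transpose, det_mul, hg, hdet]
    simp
  have hne : ∀ k, ‖gramSchmidt ℝ f k‖ ≠ 0 := fun k h => by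
    have := Finset.prod_ne_zero_iff.1 (hprod.symm ▸ one_ne_zero : ∏ k, ‖gramSchmidt ℝ f k‖ ^ 2 ≠ 0)
      k (mem_univ k)
    exact this (by rw [h]; simp)
  have hpos : ∀ k, 0 < ‖gramSchmidt ℝ f k‖ := fun k => lt_of_le_of_ne (norm_nonneg _) (hne k).symm
  refine ⟨B, fun k => Real.log ‖gramSchmidt ℝ f k‖, hup, hdiag, ?_, ?_, ?_⟩
  · rw [hD]
    congr 1
    funext k
    rw [Real.exp_log (hpos k)]
  · have h1 := congrArg Real.log hprod
    rw [Real.log_prod fun k _ => pow_ne_zero _ (hne k), Real.log_one] at h1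
    simp only [Real.log_pow, ← Finset.mul_sum] at h1
    simpa using h1
  · have h0 : gramSchmidt ℝ f 0 = f 0 := by
      rw [hc 0, Finset.sum_eq_single 0 (fun b _ hb => by
        rw [hc0 0 b (Fin.pos_iff_ne_zero.2 hb), zero_smul]) (by simp), hc1, one_smul]
    have h2 : ∑ k, g k 0 ^ 2 = ‖f 0‖ ^ 2 := by
      rw [EuclideanSpace.norm_sq_eq]
      simp [hf]
    show Real.log ‖gramSchmidt ℝ f 0‖ = _
    rw [h0, h2, Real.log_pow]
    simp

end

section

open Finset Matrix

theorem unim_basis (r : ℕ) (t : Fin (r + 2) → ℤ) (h : univ.gcd t = 1) :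
    ∃ b : Module.Basis (Fin (r + 2)) ℤ (Fin (r + 2) → ℤ), b 0 = t := by
  classical
  obtain ⟨x, hx⟩ := Finset.gcd_eq_sum_mul univ t
  rw [h] at hx
  let φ : (Fin (r + 2) → ℤ) →ₗ[ℤ] ℤ :=
    { toFun := fun z => ∑ i, z i * x i
      map_add' := by intro u v; simp [add_mul, Finset.sum_add_distrib]
      map_smul' := by intro c u; simp [Finset.mul_sum, mul_assoc] }
  have hφ : φ t = 1 := hx.symm
  obtain ⟨n, ⟨b⟩⟩ := Submodule.nonempty_basis_of_pid (Pi.basisFun ℤ (Fin (r + 2))) (LinearMap.ker φ)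
  have hli : ∀ (c : ℤ), ∀ y ∈ LinearMap.ker φ, c • t + y = 0 → c = 0 := by
    intro c y hy hc
    have h1 := congrArg φ hc
    rw [map_add, map_smul, hφ, LinearMap.mem_ker.1 hy, map_zero] at h1
    simpa using h1
  have hsp : ∀ z : Fin (r + 2) → ℤ, ∃ c : ℤ, z + c • t ∈ LinearMap.ker φ := by
    intro z
    refine ⟨-φ z, ?_⟩
    rw [LinearMap.mem_ker, map_add, map_smul, hφ]
    simp
  let B := Module.Basis.mkFinCons t b hli hsp
  have hn : n + 1 = r + 2 := by
    have h1 := Module.finrank_eq_card_basis B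
    simpa using h1.symm
  obtain rfl : n = r + 1 := by omega
  refine ⟨B, ?_⟩
  simp [B, Module.Basis.coe_mkFinCons]

theorem p_UNIM :
    S_UNIM := by
  classical
  intro r t h
  obtain ⟨b, hb⟩ := unim_basis r t h
  let g : Matrix (Fin (r + 2)) (Fin (r + 2)) ℤ := (Pi.basisFun ℤ (Fin (r + 2))).toMatrix b
  have hg : ∀ i, g i 0 = t i := by
    intro i
    simp [g, Module.Basis.toMatrix_apply, hb]
  have hu : IsUnit g.det := by
    have := (Pi.basisFun ℤ (Fin (r + 2))).isUnit_det b
    rwa [Module.Basis.det_apply] at this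
  rcases Int.isUnit_iff.1 hu with h1 | h1
  · exact ⟨g, h1, hg⟩
  · refine ⟨g.updateCol 1 ((-1 : ℤ) • fun i => g i 1), ?_, ?_⟩
    · rw [Matrix.det_updateCol_smul, Matrix.updateCol_eq_self, h1]; norm_num
    · intro i
      rw [Matrix.updateCol_ne (by exact Fin.zero_ne_one), hg]

end

end Pool.Agent.P.MP_09c11a_nt.W
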