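import Pool.Agent.P.MP_09c11a_nt.W.IfaceZ

/-! Proofs of the steps TRI1, RIE, COUNT, RES1, DEG, RES, FFFIN, FFEXT, BASEF, GALX. -/

set_option autoImplicit false
set_option linter.unusedSectionVars false
set_option linter.unusedVariables false

namespace Pool.Agent.P.MP_09c11a_nt.W

section

open Finset Matrix WithZero Polynomial Pool.Agent.P.MP_6f117a_ag Module

theorem tri1_step {K E : Type} [Field K] [Algebra ℂ K] [FF ℂ K] [AddCommGroup E] [Module ℂ E]
    (P : Pl K) (z : ℤ) (a : ℕ) (f : E →ₗ[ℂ] K) (V : Submodule ℂ E) [FiniteDimensional ℂ V]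
    (h : ∀ x ∈ V, P.v (f x) ≤ exp (z + a)) :
    finrank ℂ V ≤ finrank ℂ (V ⊓ (P.le z).comap f : Submodule ℂ E) + a := by
  have h1 := step_nat P z a (V.map f) (by rintro _ ⟨x, hx, rfl⟩; exact h x hx)
  set U : Submodule ℂ E := V ⊓ (P.le z).comap f with hU
  have : FiniteDimensional ℂ U := Submodule.finiteDimensional_of_le inf_le_left
  have h2 := LinearMap.finrank_range_add_finrank_ker (f.domRestrict V)
  have h3 := LinearMap.finrank_range_add_finrank_ker (f.domRestrict U)
  rw [LinearMap.range_domRestrict] at h2 h3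
  have h4 : U.map f = V.map f ⊓ P.le z := by
    ext y
    constructor
    · rintro ⟨x, ⟨h5, h6⟩, rfl⟩
      exact ⟨⟨x, h5, rfl⟩, h6⟩
    · rintro ⟨⟨x, h5, rfl⟩, h6⟩
      exact ⟨x, ⟨h5, h6⟩, rfl⟩
  have h5 : finrank ℂ (LinearMap.ker (f.domRestrict V)) ≤
      finrank ℂ (LinearMap.ker (f.domRestrict U)) := by
    rw [← Submodule.finrank_map_subtype_eq, ← Submodule.finrank_map_subtype_eq U]
    refine Submodule.finrank_mono ?_
    rintro _ ⟨x, hx, rfl⟩
    have hx : f x = 0 := hx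
    exact ⟨⟨x, x.2, by simp [hx]⟩, hx, rfl⟩
  rw [h4] at h3
  omega

theorem p_TRI1 :
    S_TRI1 := by
  intro K _ _ _ P R A y β V _ hA hne hv hV
  have hdet : IsUnit A.det :=
    isUnit_iff_ne_zero.2 (by rw [hA.det]; exact Finset.prod_ne_zero_iff.2 fun i _ => hne i)
  let w : (Fin R → K) →ₗ[ℂ] (Fin R → K) := (Matrix.mulVecLin A⁻¹).restrictScalars ℂ
  have hw : ∀ G, G = A *ᵥ w G := fun G => by
    change G = A *ᵥ (A⁻¹ *ᵥ G)
    rw [mulVec_mulVec, mul_nonsing_inv _ hdet, one_mulVec]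
  have key : ∀ n : ℕ, n ≤ R → ∃ W ≤ V, (∀ G ∈ W, ∀ i : Fin R, R - n ≤ i → P.v (w G i) ≤ exp β) ∧
      (finrank ℂ V : ℤ) ≤ finrank ℂ W +
        ∑ i ∈ univ.filter (fun i : Fin R => R - n ≤ i), (y - β - lg P (A i i)) := by
    intro n
    induction n with
    | zero =>
      refine fun _ => ⟨V, le_rfl, fun G _ i hi => absurd i.2 (by omega), ?_⟩
      rw [Finset.filter_false_of_mem fun i _ => by have := i.2; omega]
      simp
    | succ n ih =>
      intro hn
      obtain ⟨W, h1, h2, h3⟩ := ih (by omega)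
      have : FiniteDimensional ℂ W := Submodule.finiteDimensional_of_le h1
      let k : Fin R := ⟨R - (n + 1), by omega⟩
      have hk : (k : ℕ) = R - (n + 1) := rfl
      have ha : 0 ≤ y - β - lg P (A k k) := by
        have := hv k k
        rw [← exp_lg P (hne k), ← exp_add, exp_le_exp] at this
        omega
      let f : (Fin R → K) →ₗ[ℂ] K := (LinearMap.proj k : (Fin R → K) →ₗ[ℂ] K) ∘ₗ w
      have h4 := tri1_step P β (y - β - lg P (A k k)).toNat f W fun G hG => by
        change P.v (w G k) ≤ _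
        have e : A k k * w G k = G k - ∑ i ∈ univ.erase k, A k i * w G i := by
          rw [eq_sub_iff_add_eq, Finset.add_sum_erase univ (fun i => A k i * w G i) (mem_univ k)]
          exact (congrFun (hw G) k).symm
        have h5 : P.v (A k k * w G k) ≤ exp y := by
          rw [e]
          refine P.v.map_sub_le (hV G (h1 hG) k) (P.v.map_sum_le fun i hi => ?_)
          rcases lt_or_gt_of_ne (Finset.ne_of_mem_erase hi) with h | h
          · rw [hA k i h]; simp
          · rw [map_mul]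
            exact (mul_le_mul' le_rfl (h2 G hG i (by have : (k : ℕ) < i := h; omega))).trans (hv k i)
        rw [map_mul, ← exp_lg P (hne k), mul_comm, ← le_mul_inv_iff₀ exp_pos, ← WithZero.exp_neg,
          ← exp_add] at h5
        refine h5.trans (exp_le_exp.2 ?_)
        omega
      refine ⟨W ⊓ (P.le β).comap f, inf_le_left.trans h1, fun G hG i hi => ?_, ?_⟩
      · by_cases e : i = k
        · subst e; exact hG.2
        · exact h2 G hG.1 i (by have := Fin.val_ne_of_ne e; omega)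
      · have e : univ.filter (fun i : Fin R => R - (n + 1) ≤ i) =
            insert k (univ.filter fun i : Fin R => R - n ≤ i) := by
          ext i
          simp only [mem_filter, mem_univ, true_and, mem_insert, Fin.ext_iff]
          omega
        rw [e, Finset.sum_insert (by simp only [mem_filter, mem_univ, true_and]; omega)]
        omega
  obtain ⟨W, h1, h2, h3⟩ := key R le_rfl
  refine ⟨W, h1, fun G hG => ⟨w G, fun i => h2 G hG i (by omega), hw G⟩, ?_⟩
  rwa [Finset.filter_true_of_mem fun i _ => by omega] at h3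

end

section

open Finset Matrix WithZero Polynomial Pool.Agent.P.MP_6f117a_ag

open scoped IntermediateField

theorem rie_q {K : Type} [Field K] [Algebra ℂ K] [FF ℂ K] {T : K} (hT : Transcendental ℂ T)
    (y : Pl K → ℤ) (S : Finset (Pl K)) : ∃ q : ℂ[X], q ≠ 0 ∧
      ∀ P ∈ S, P.v T ≤ 1 → y P ≤ -lg P (aeval T q) := by
  classical
  induction S using Finset.induction_on with
  | empty => exact ⟨1, one_ne_zero, by simp⟩
  | insert P S _ ih =>
    obtain ⟨q, h0, h⟩ := ih
    by_cases hP : P.v T ≤ 1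
    swap
    · exact ⟨q, h0, by simpa [hP] using h⟩
    obtain ⟨a, ha⟩ := P.res hP
    have a0 := trans_ne (trans_sub hT a)
    have e : aeval T (X - C a) = T - algebraMap ℂ K a := by simp
    refine ⟨q * (X - C a) ^ (y P).toNat, mul_ne_zero h0 (pow_ne_zero _ (X_sub_C_ne_zero a)),
      fun Q hQ hQ' => ?_⟩
    rw [map_mul, map_pow, e, lg_mul Q (aeval_ne hT h0) (pow_ne_zero _ a0), lg_pow]
    rcases mem_insert.1 hQ with rfl | hQ
    · have h1 := (lg_neg_iff Q a0).2 ha
      have h2 := (lg_le_iff Q (aeval_ne hT h0) (β := 0)).2 (Reg.aeval T q Q hP)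
      nlinarith [Int.self_le_toNat (y Q), Int.natCast_nonneg (y Q).toNat]
    · have h2 := (lg_le_iff Q a0 (β := 0)).2 (e ▸ Reg.aeval T (X - C a) Q hQ')
      nlinarith [h Q hQ hQ', Int.natCast_nonneg (y P).toNat]

theorem p_RIE :
    S_RIE := by
  classical
  intro K _ _ _ T hT
  have := FF.fin T hT
  let g := Module.finBasis ℂ⟮T⟯ K
  let c0 : Pl K → ℤ := fun P => ∑ i, max (lg P (g i)) 0
  have hc : Fs c0 := fs_sum _ _ fun i _ => fs_pole _
  have hc1 : ∀ P i, max (lg P (g i)) 0 ≤ c0 P := fun P i =>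
    single_le_sum (f := fun i => max (lg P (g i)) 0) (fun _ _ => le_max_right _ _) (mem_univ i)
  have hc0 : ∀ P, 0 ≤ c0 P := fun P => sum_nonneg fun _ _ => le_max_right _ _
  refine ⟨tot c0, fun y hy => ?_⟩
  obtain ⟨q, h0, hq⟩ := rie_q hT y hy.toFinset
  have q0 := aeval_ne hT h0
  have T0 := trans_ne hT
  obtain ⟨k, hk⟩ := Finite.exists_le fun P : (fs_pole T).toFinset =>
    (y P + lg P.1 (aeval T q)).toNat
  let y' : Pl K → ℤ := fun P => -lg P (aeval T q) + (k * max (lg P T) 0 + c0 P)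
  have f1 : Fs fun P : Pl K => (k : ℤ) * max (lg P T) 0 := (fs_pole T).mul fun _ => k
  have hy' : Fs y' := (fs_lg _).neg.add (f1.add hc)
  have t : tot y' = k * dg T + tot c0 := by
    rw [tot_add (fs_lg _).neg (f1.add hc), tot_neg, tot_lg, tot_add f1 hc, tot_mul _ (fs_pole T),
      tot_pole hT, neg_zero, zero_add]
  have hle : ∀ P, y P ≤ y' P := fun P => by
    have h1 := hc0 P
    have h3 : 0 ≤ (k : ℤ) * max (lg P T) 0 := by positivity
    rcases le_or_gt (P.v T) 1 with h | h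
    · by_cases e : y P = 0
      · have := (lg_le_iff P q0 (β := 0)).2 (Reg.aeval T q P h)
        simp only [y']; omega
      · have := hq P ((Set.Finite.mem_toFinset hy).2 e) h
        simp only [y']; omega
    · have h2 := (lg_pos_iff P T0).2 h
      have h4 := hk ⟨P, (Set.Finite.mem_toFinset _).2 (lt_max_of_lt_left h2).ne'⟩
      have h5 : (k : ℤ) * 1 ≤ k * max (lg P T) 0 :=
        mul_le_mul_of_nonneg_left (le_max_of_le_left h2) (by positivity)
      simp only [y'] at h4 ⊢; omega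
  let u : ℂ⟮T⟯ˣ := Units.mk0 (pol ℂ T q) fun e => q0 (by rw [← coe_pol, e]; rfl)
  have hg : LinearIndependent ℂ⟮T⟯ fun i => (aeval T q)⁻¹ * g i := by
    simpa [u, Units.smul_def, IntermediateField.smul_def, coe_pol, Pi.smul_def'] using
      g.linearIndependent.units_smul fun _ => u⁻¹
  let A := Submodule.span ℂ (Set.range fun p : Fin (k + 1) × Fin _ =>
    T ^ (p.1 : ℕ) * ((aeval T q)⁻¹ * g p.2))
  have : FiniteDimensional ℂ A := FiniteDimensional.span_of_finite ℂ (Set.finite_range _)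
  have hA : ∀ P : Pl K, A ≤ P.le (y' P) := fun P => Submodule.span_le.2 (by
    rintro _ ⟨p, rfl⟩
    have g0 := g.ne_zero p.2
    refine (lg_le_iff P (mul_ne_zero (pow_ne_zero _ T0) (mul_ne_zero (inv_ne_zero q0) g0))).1 ?_
    rw [lg_mul P (pow_ne_zero _ T0) (mul_ne_zero (inv_ne_zero q0) g0), lg_mul P (inv_ne_zero q0) g0,
      lg_pow, lg_inv]
    have h1 := (le_max_left _ _).trans (hc1 P p.2)
    have h2 : ((p.1 : ℕ) : ℤ) * lg P T ≤ k * max (lg P T) 0 :=
      (mul_le_mul_of_nonneg_left (le_max_left _ _) (by positivity)).trans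
        (mul_le_mul_of_nonneg_right (by exact_mod_cast Nat.lt_succ_iff.1 p.1.2) (le_max_right _ _))
    simp only [y']; omega)
  obtain ⟨W, h1, h2, h3⟩ := step_many (hy'.sub hy).toFinset y y' A (fun P _ => hle P)
    fun P _ => hA P
  have hz : ∀ P, P ∉ (hy'.sub hy).toFinset → y' P - y P = 0 := fun P hP =>
    by_contra fun e => hP ((Set.Finite.mem_toFinset _).2 e)
  refine ⟨W, Submodule.finiteDimensional_of_le h1, fun x hx P => ?_, ?_⟩
  · by_cases e : P ∈ (hy'.sub hy).toFinset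
    · exact h2 P e hx
    · rw [← show y' P = y P from sub_eq_zero.1 (hz P e)]
      exact hA P (h1 hx)
  · rw [← tot_eq_sum _ hz, tot_sub hy' hy, t, finrank_fam hT hg] at h3
    simp only [dg] at h3
    push_cast at h3
    nlinarith [Int.natCast_nonneg (Module.finrank ℂ⟮T⟯ K)]

end

section

open Finset Matrix WithZero Polynomial Pool.Agent.P.MP_6f117a_ag

theorem count_pi {K : Type} [Field K] [Algebra ℂ K] (R : ℕ) (V0 : Submodule ℂ K)
    [FiniteDimensional ℂ V0] : ∃ V : Submodule ℂ (Fin R → K), FiniteDimensional ℂ V ∧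
      (∀ G ∈ V, ∀ i, G i ∈ V0) ∧ Module.finrank ℂ V = R * Module.finrank ℂ V0 := by
  refine ⟨LinearMap.range (V0.subtype.compLeft (Fin R)), inferInstance, ?_, ?_⟩
  · rintro _ ⟨G, rfl⟩ i
    exact (G i).2
  · have h : Function.Injective (V0.subtype.compLeft (Fin R)) := fun G G' e =>
      _root_.funext fun i => Subtype.ext (congrFun e i)
    rw [LinearMap.finrank_range_of_inj h, Module.finrank_pi_fintype]
    simp

theorem p_COUNT (hRIE : S_RIE) (hTRI1 : S_TRI1) :
    S_COUNT := by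
  classical
  intro K _ _ _ T hT
  obtain ⟨c, hc⟩ := hRIE K T hT
  refine ⟨c, fun R A b hup hne hfin hb hlt => ?_⟩
  set y : Pl K → ℤ := fun P => b P + ∑ r : Fin R × Fin R, max (lg P (A P r.1 r.2)) 0 with hy
  set S : Finset (Pl K) := (hfin.union hb).toFinset with hS
  have hoff : ∀ P, P ∉ S → Uni P (A P) ∧ b P = 0 := fun P hP => by
    simpa [hS, not_or] using hP
  have hy0 : ∀ P, P ∉ S → y P = 0 := fun P hP => by
    have h := hoff P hP
    simp only [hy, h.2, zero_add]
    refine Finset.sum_eq_zero fun r _ => max_eq_right ?_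
    rcases eq_or_ne (A P r.1 r.2) 0 with e | e
    · simp [lg, e]
    · exact (lg_le_iff P e).2 (h.1.1 _ _)
  have hle : ∀ P i j, P.v (A P i j) * exp (b P) ≤ exp (y P) := fun P i j => by
    rcases eq_or_ne (A P i j) 0 with e | e
    · simp [e]
    · rw [← exp_lg P e, ← exp_add, exp_le_exp, hy, add_comm]
      exact add_le_add le_rfl ((le_max_left _ 0).trans (Finset.single_le_sum
        (f := fun r : Fin R × Fin R => max (lg P (A P r.1 r.2)) 0)
        (fun _ _ => le_max_right _ _) (mem_univ (i, j))))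
  obtain ⟨V0, _, hV0, hd0⟩ := hc y (fs_of_finite S.finite_toSet hy0)
  obtain ⟨V, _, hV, hd⟩ := count_pi R V0
  have key : ∀ S' : Finset (Pl K), ∃ W ≤ V,
      (∀ G ∈ W, ∀ P ∈ S', ∃ w, Bd P (b P) w ∧ G = A P *ᵥ w) ∧
      (Module.finrank ℂ V : ℤ) ≤
        Module.finrank ℂ W + ∑ P ∈ S', ∑ i, (y P - b P - lg P (A P i i)) := by
    intro S'
    induction S' using Finset.induction_on with
    | empty => exact ⟨V, le_rfl, by simp, by simp⟩
    | insert P S' hP ih =>
      obtain ⟨W, hW, h1, h2⟩ := ih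
      have := Submodule.finiteDimensional_of_le hW
      obtain ⟨W', hW', h3, h4⟩ := hTRI1 K P R (A P) (y P) (b P) W (hup P) (hne P) (hle P)
        fun G hG i => hV0 _ (hV G (hW hG) i) P
      refine ⟨W', hW'.trans hW, fun G hG Q hQ => ?_, by rw [sum_insert hP]; omega⟩
      rcases mem_insert.1 hQ with rfl | hQ
      exacts [h3 G hG, h1 G (hW' hG) Q hQ]
  obtain ⟨W, hW, h1, h2⟩ := key S
  have hpos : 0 < Module.finrank ℂ W := by
    have e : ∑ P ∈ S, ∑ i, (y P - b P - lg P (A P i i)) =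
        R * tot y - R * tot b - tot fun P => ∑ i, lg P (A P i i) := by
      rw [tot_eq_sum S hy0, tot_eq_sum S fun P hP => (hoff P hP).2,
        tot_eq_sum S fun P hP => Finset.sum_eq_zero fun i _ =>
          lg_of_v ((hoff P hP).1.diag (hup P) i),
        Finset.mul_sum, Finset.mul_sum, ← Finset.sum_sub_distrib, ← Finset.sum_sub_distrib]
      refine Finset.sum_congr rfl fun P _ => ?_
      simp only [Finset.sum_sub_distrib, sum_const, card_univ, Fintype.card_fin, nsmul_eq_mul]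
    rw [e, hd, Nat.cast_mul] at h2
    have := mul_le_mul_of_nonneg_left hd0 (Int.natCast_nonneg R)
    rw [mul_sub] at this
    omega
  have hbot : W ≠ ⊥ := by
    rintro rfl
    simp at hpos
  obtain ⟨G, hG, hG0⟩ := (Submodule.ne_bot_iff W).1 hbot
  refine ⟨G, hG0, fun P => ?_⟩
  by_cases hP : P ∈ S
  · exact h1 G hG P hP
  · have h := hoff P hP
    refine ⟨(A P)⁻¹ *ᵥ G, Bd.mulVec (fun i => ?_) h.1.inv.1, ?_⟩
    · rw [h.2, ← hy0 P hP]
      exact hV0 _ (hV G (hW hG) i) P
    · rw [Matrix.mulVec_mulVec, Matrix.mul_nonsing_inv _ (isUnit_iff_ne_zero.2 h.1.det_ne),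
        Matrix.one_mulVec]

end

section

open Finset Matrix WithZero Polynomial Pool.Agent.P.MP_6f117a_ag
open scoped IntermediateField

theorem res1_nontriv {K K' : Type} [Field K] [Algebra ℂ K] [Field K'] [Algebra ℂ K'] [FF ℂ K']
    (φ : K →ₐ[ℂ] K') (T : K) (hT : Transcendental ℂ T) (P : Pl K') : ∃ x, 1 < P.v (φ x) := by
  by_contra h
  simp only [not_exists, not_lt] at h
  have hfin := FF.fin (φ T) (trans_map φ hT)
  have hle : ℂ⟮φ T⟯ ≤ φ.fieldRange :=
    IntermediateField.adjoin_simple_le_iff.2 ⟨T, rfl⟩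
  let ψ : ℂ⟮φ T⟯ →+* P.v.integer := (algebraMap ℂ⟮φ T⟯ K').codRestrict _ fun y => by
    obtain ⟨x, hx⟩ := hle y.2
    have hx' : φ x = algebraMap ℂ⟮φ T⟯ K' y := hx
    rw [← hx']
    exact h x
  let _ := ψ.toAlgebra
  have : IsScalarTower ℂ⟮φ T⟯ P.v.integer K' := .of_algebraMap_eq fun _ => rfl
  obtain ⟨z, hz⟩ := P.surj (exp 1)
  have h1 : P.v z ≤ 1 := (Valuation.integer.integers P.v).mem_of_integral
    (Algebra.IsIntegral.isIntegral (R := ℂ⟮φ T⟯) z).tower_top
  rw [hz, ← exp_zero, exp_le_exp] at h1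
  omega

theorem res1_root {K : Type} [Field K] (w : Valuation K ℤᵐ⁰) (h : ∃ x, 1 < w x) :
    ∃ e : ℕ, 0 < e ∧ (∃ x, w x = exp (e : ℤ)) ∧ ∀ x, ∃ u : ℤᵐ⁰, u ^ e = w x := by
  let H : AddSubgroup ℤ :=
    { carrier := {n | ∃ x, w x = exp n}
      add_mem' := by
        rintro a b ⟨x, hx⟩ ⟨y, hy⟩
        exact ⟨x * y, by rw [map_mul, hx, hy, exp_add]⟩
      zero_mem' := ⟨1, by simp⟩
      neg_mem' := by
        rintro a ⟨x, hx⟩
        exact ⟨x⁻¹, by rw [map_inv₀, hx, WithZero.exp_neg]⟩ }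
  obtain ⟨a, ha⟩ := Int.subgroup_cyclic H
  have hm : ∀ n, (∃ x, w x = exp n) ↔ a ∣ n := fun n => by
    have : n ∈ H ↔ a ∣ n := by
      rw [ha, AddSubgroup.mem_closure_singleton]
      exact ⟨fun ⟨k, hk⟩ => ⟨k, by rw [← hk, smul_eq_mul, mul_comm]⟩,
        fun ⟨k, hk⟩ => ⟨k, by rw [hk, smul_eq_mul, mul_comm]⟩⟩
    exact this
  refine ⟨a.natAbs, Int.natAbs_pos.2 ?_, (hm _).2 (Int.dvd_natAbs.2 dvd_rfl), fun x => ?_⟩
  · rintro rfl
    obtain ⟨x, hx⟩ := h
    have h0 : w x ≠ 0 := (lt_trans zero_lt_one hx).ne'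
    have h1 := (hm _).1 ⟨x, (exp_log h0).symm⟩
    rw [← exp_log h0, zero_dvd_iff.1 h1, exp_zero] at hx
    exact lt_irrefl _ hx
  · by_cases h0 : w x = 0
    · refine ⟨0, ?_⟩
      rw [h0, zero_pow]
      rintro h2
      obtain ⟨y, hy⟩ := h
      have h3 : w y ≠ 0 := (lt_trans zero_lt_one hy).ne'
      have h1 := (hm _).1 ⟨y, (exp_log h3).symm⟩
      rw [Int.natAbs_eq_zero.1 h2] at h1
      rw [← exp_log h3, zero_dvd_iff.1 h1, exp_zero] at hy
      exact lt_irrefl _ hy
    · obtain ⟨k, hk⟩ := Int.natAbs_dvd.2 ((hm _).1 ⟨x, (exp_log h0).symm⟩)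
      exact ⟨exp k, by rw [← WithZero.exp_nsmul, nsmul_eq_mul, ← hk, exp_log h0]⟩

theorem p_RES1 :
    S_RES1 := by
  intro K K' _ _ _ _ _ φ T hT P
  obtain ⟨e, he, ⟨x0, hx0⟩, hr⟩ :=
    res1_root (P.v.comap φ.toRingHom) (res1_nontriv φ T hT P)
  choose g hg using hr
  have hg' : ∀ x, g x ^ e = P.v (φ x) := hg
  have hle : ∀ a b : ℤᵐ⁰, a ^ e ≤ b ^ e → a ≤ b := fun a b h =>
    (pow_le_pow_iff_left₀ zero_le zero_le he.ne').1 h
  have hinj : ∀ a b : ℤᵐ⁰, a ^ e = b ^ e → a = b := fun a b h =>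
    le_antisymm (hle _ _ h.le) (hle _ _ h.ge)
  let v : Valuation K ℤᵐ⁰ :=
    { toFun := g
      map_zero' := hinj _ _ (by rw [hg', map_zero, map_zero, zero_pow he.ne'])
      map_one' := hinj _ _ (by rw [hg', map_one, map_one, one_pow])
      map_mul' := fun x y => hinj _ _ (by rw [mul_pow, hg', hg', hg', map_mul, map_mul])
      map_add_le_max' := fun x y => by
        rcases le_max_iff.1 (P.v.map_add (φ x) (φ y)) with h | h
        · exact le_max_of_le_left (hle _ _ (by rw [hg', hg', map_add]; exact h))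
        · exact le_max_of_le_right (hle _ _ (by rw [hg', hg', map_add]; exact h)) }
  have hv : ∀ x, v x ^ e = P.v (φ x) := hg'
  have h1 : v x0 = exp 1 := hinj _ _ (by
    rw [hv, ← WithZero.exp_nsmul, nsmul_eq_mul, mul_one]; exact hx0)
  refine ⟨⟨v, fun u => ?_, fun c => hle _ _ ?_⟩, e, he, fun x => (hv x).symm⟩
  · by_cases hu : u = 0
    · exact ⟨0, by rw [map_zero, hu]⟩
    · exact ⟨x0 ^ log u, by rw [map_zpow₀, h1, ← WithZero.exp_zsmul, smul_eq_mul, mul_one, exp_log hu]⟩
  · rw [hv, one_pow, AlgHom.commutes]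
    exact P.triv c

end

section

open Finset Matrix WithZero Polynomial Pool.Agent.P.MP_6f117a_ag
open scoped IntermediateField

theorem deg_equiv {K K' : Type} [Field K] [Algebra ℂ K] [Field K'] [Algebra ℂ K'] [Algebra K K']
    [IsScalarTower ℂ K K'] (x : K) :
    ∃ e : ℂ⟮x⟯ ≃+* ℂ⟮algebraMap K K' x⟯,
      ∀ y, algebraMap _ K' (e y) = algebraMap ℂ⟮x⟯ K' y := by
  have h : ℂ⟮x⟯.map (IsScalarTower.toAlgHom ℂ K K') = ℂ⟮algebraMap K K' x⟯ := by
    rw [IntermediateField.adjoin_map, Set.image_singleton]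
    rfl
  exact ⟨((ℂ⟮x⟯.equivMap (IsScalarTower.toAlgHom ℂ K K')).trans
    (IntermediateField.equivOfEq h)).toRingEquiv, fun y => rfl⟩

theorem deg_finrank {K K' : Type} [Field K] [Algebra ℂ K] [Field K'] [Algebra ℂ K'] [Algebra K K']
    [IsScalarTower ℂ K K'] (x : K) :
    Module.finrank ℂ⟮algebraMap K K' x⟯ K' = Module.finrank ℂ⟮x⟯ K * Module.finrank K K' := by
  obtain ⟨e, he⟩ := deg_equiv (K' := K') x
  rw [Module.finrank_mul_finrank]
  exact (Algebra.finrank_eq_of_equiv_equiv e (RingEquiv.refl K') (RingHom.ext he)).symm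

theorem p_DEG :
    S_DEG := by
  intro K K' _ _ _ _ _ φ T hT
  let : Algebra K K' := φ.toRingHom.toAlgebra
  have : IsScalarTower ℂ K K' := .of_algebraMap_eq fun c => (φ.commutes c).symm
  have h := deg_finrank (K := K) (K' := K')
  have h1 := FF.fin (φ T) (trans_map φ hT)
  have h2 : 0 < Module.finrank ℂ⟮φ T⟯ K' := Module.finrank_pos
  refine ⟨Module.finrank K K', ?_, fun x _ => (h x).trans (mul_comm _ _)⟩
  have h3 : 0 < Module.finrank ℂ⟮T⟯ K * Module.finrank K K' := h2.trans_eq (h T)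
  exact Nat.pos_of_mul_pos_left h3

end

section

open Finset Matrix WithZero Polynomial Pool.Agent.P.MP_6f117a_ag

theorem res_fun (hRIE : S_RIE) {K : Type} [Field K] [Algebra ℂ K] [FF ℂ K] {T : K}
    (hT : Transcendental ℂ T) (Q : Pl K) :
    ∃ f : K, Transcendental ℂ f ∧ ∀ P : Pl K, P ≠ Q → lg P f ≤ 0 := by
  classical
  obtain ⟨c, hc⟩ := hRIE K T hT
  obtain ⟨V, hV, h1, h2⟩ := hc (fun P => if P = Q then c + 2 else 0)
    (fs_of_finite (Set.finite_singleton Q) fun P hP => if_neg hP)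
  rw [tot_eq_sum {Q} fun P hP => if_neg (by simpa using hP), sum_singleton, if_pos rfl] at h2
  obtain ⟨f, hf, ht⟩ : ∃ f ∈ V, Transcendental ℂ f := by
    by_contra h
    have h3 : V ≤ Submodule.span ℂ {1} := fun x hx => by
      obtain ⟨a, rfl⟩ := (const_or_trans (L := ℂ) x).resolve_right fun e => h ⟨x, hx, e⟩
      exact Submodule.mem_span_singleton.2 ⟨a, (Algebra.algebraMap_eq_smul_one a).symm⟩
    have h4 := Submodule.finrank_mono h3
    rw [finrank_span_singleton one_ne_zero] at h4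
    omega
  exact ⟨f, ht, fun P hP => (lg_le_iff P (trans_ne ht)).2 (by simpa [hP] using h1 f hf P)⟩

theorem p_RES (hRES1 : S_RES1) (hDEG : S_DEG) (hRIE : S_RIE) :
    S_RES := by
  classical
  intro K K' _ _ _ _ _ _ φ T hT
  choose ρ e he hv using hRES1 K K' φ T hT
  obtain ⟨d, hd, hdeg⟩ := hDEG K K' φ T hT
  have hl : ∀ P x, lg P (φ x) = e P * lg (ρ P) x := fun P x => by
    rw [lg, hv, log_pow, nsmul_eq_mul]; rfl
  have fib : ∀ Q, {P | ρ P = Q}.Finite := fun Q =>
    (finite_supp (L := ℂ) ((map_ne_zero φ).2 Q.π_ne)).subset fun P hP h => by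
      have h1 := lg_of_v h
      rw [hl, show ρ P = Q from hP, lg, Q.v_π, log_exp] at h1
      have := he P
      omega
  have key : ∀ Q, ∑ P ∈ (fib Q).toFinset, (e P : ℤ) = d := fun Q => by
    obtain ⟨f, ht, hf⟩ := res_fun hRIE hT Q
    have h1 := tot_pole ht
    rw [tot_eq_sum {Q} fun P hP => max_eq_right (hf P (by simpa using hP)), sum_singleton] at h1
    have h2 := tot_pole (trans_map φ ht)
    rw [tot_eq_sum (fib Q).toFinset fun P hP => max_eq_right (by
      rw [hl]
      exact mul_nonpos_of_nonneg_of_nonpos (Int.natCast_nonneg _) (hf _ (by simpa using hP))),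
      hdeg f ht, sum_congr rfl (g := fun P => (e P : ℤ) * dg f) fun P hP => by
        rw [hl, show ρ P = Q by simpa using hP, ← h1,
          mul_max_of_nonneg _ _ (Int.natCast_nonneg _), mul_zero], ← sum_mul] at h2
    have h3 : (dg f : ℤ) ≠ 0 := by exact_mod_cast (dg_pos ht).ne'
    exact mul_right_cancel₀ h3 (by exact_mod_cast h2)
  refine ⟨⟨ρ, e, d, he, hd, hv, fib, fun f hf => ?_, hdeg⟩⟩
  have h0 : ∀ Q, Q ∉ hf.toFinset → f Q = 0 := fun Q hQ => by_contra fun h => hQ (hf.mem_toFinset.2 h)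
  rw [tot_eq_sum hf.toFinset h0, tot_eq_sum (hf.toFinset.biUnion fun Q => (fib Q).toFinset)
    fun P hP => by
      rw [h0 (ρ P) fun h => hP (mem_biUnion.2 ⟨_, h, by simp⟩), mul_zero],
    sum_biUnion fun Q _ Q' _ hQ => disjoint_left.2 fun P h h' => hQ (by
      simp only [Set.Finite.mem_toFinset, Set.mem_ofPred_eq] at h h'
      rw [← h, h']), mul_sum]
  refine sum_congr rfl fun Q _ => ?_
  rw [← key Q, sum_mul]
  exact sum_congr rfl fun P hP => by rw [show ρ P = Q by simpa using hP]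

end

section

open Finset Matrix WithZero Polynomial Pool.Agent.P.MP_6f117a_ag
open scoped IntermediateField

theorem p_FFFIN :
    S_FFFIN := by
  intro K K' _ _ _ _ _ _ _ _ T hT
  have h1 := FF.fin T hT
  have h2 : IsTranscendenceBasis ℂ fun _ : Fin 1 => T :=
    isTranscendenceBasis_iff_algebraicIndependent_isAlgebraic.2
      ⟨algebraicIndependent_unique_type_iff.2 hT, by
        rw [Set.range_const, ← IntermediateField.isAlgebraic_adjoin_iff_top]; infer_instance⟩
  have h3 : Algebra.trdeg ℂ K = 1 := by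
    have := h2.lift_cardinalMk_eq_trdeg.symm
    simpa using this
  have h4 : Algebra.EssFiniteType ℂ ℂ⟮T⟯ :=
    IntermediateField.essFiniteType_iff.2 (IntermediateField.fg_adjoin_of_finite (Set.finite_singleton T))
  have h5 : Algebra.EssFiniteType ℂ K := .comp ℂ ℂ⟮T⟯ K
  have h6 : Algebra.EssFiniteType ℂ K' := .comp ℂ K K'
  refine FF.of_fg (IntermediateField.fg_top_iff.2 h6) ?_
  rw [← trdeg_add_eq ℂ K (A := K'), h3, trdeg_eq_zero_iff.2 inferInstance, add_zero]

end

section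

open Finset Matrix WithZero Polynomial Pool.Agent.P.MP_6f117a_ag

theorem p_FFEXT (hFFFIN : S_FFFIN) :
    S_FFEXT := by
  intro K _ _ _ T G hT
  let K' : Type := G.SplittingField
  exact ⟨K', inferInstance, inferInstance, hFFFIN K K' T hT, IsScalarTower.toAlgHom ℂ K K',
    SplittingField.splits G⟩

end

section

open Finset Matrix WithZero Polynomial Pool.Agent.P.MP_6f117a_ag

theorem basef_rat : FF ℂ (RatFunc ℂ) := by
  have hs : Transcendental ℂ (RatFunc.X : RatFunc ℂ) := RatFunc.transcendental_X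
  have h := RatFunc.adjoin_X (K := ℂ)
  refine FF.of_fg ⟨{RatFunc.X}, by simpa using h⟩ ?_
  have : IsTranscendenceBasis ℂ fun _ : PUnit.{1} => (RatFunc.X : RatFunc ℂ) :=
    isTranscendenceBasis_iff_algebraicIndependent_isAlgebraic.2
      ⟨algebraicIndependent_unique_type_iff.2 hs, by
        rw [Set.range_const, ← IntermediateField.isAlgebraic_adjoin_iff_top, h]
        infer_instance⟩
  simpa using this.cardinalMk_eq_trdeg.symm.le

theorem basef_root {F : Type} [Field F] {D : ℕ} (hD : 0 < D) (c : F)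
    (h : (X ^ D - C c : F[X]).Splits) : ∃ s : F, s ^ D = c := by
  obtain ⟨s, hs⟩ := h.exists_eval_eq_zero (by
    rw [degree_X_pow_sub_C hD]; exact_mod_cast hD.ne')
  exact ⟨s, by simpa [sub_eq_zero] using hs⟩

theorem basef_roots {F K : Type} [Field F] [Field K] (φ : F →+* K) {D : ℕ} (hD : 0 < D)
    (c : Fin 2 → F) (h : ((∏ A, (X ^ D - C (c A)) : F[X]).map φ).Splits) (A : Fin 2) :
    ∃ s : K, s ^ D = φ (c A) := by
  refine basef_root hD _ (h.of_dvd ?_ ?_)
  · exact ((monic_prod_of_monic _ _ fun A _ => monic_X_pow_sub_C (c A) hD.ne').map _).ne_zero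
  · have := Polynomial.map_dvd φ
      (Finset.dvd_prod_of_mem (fun A => (X ^ D - C (c A) : F[X])) (mem_univ A))
    rwa [Polynomial.map_sub, Polynomial.map_pow, map_X, map_C] at this

theorem p_BASEF (hFFEXT : S_FFEXT) :
    S_BASEF := by
  intro n D a hD
  have := basef_rat
  have hs : Transcendental ℂ (RatFunc.X : RatFunc ℂ) := RatFunc.transcendental_X
  let c : Fin 2 → RatFunc ℂ := fun A => RatFunc.X ^ n - algebraMap ℂ _ (a A)
  obtain ⟨K, _, _, _, φ, h⟩ := hFFEXT (RatFunc ℂ) RatFunc.X (∏ A, (X ^ D - C (c A))) hs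
  have h2 : ∀ A, ∃ s : K, s ^ D = φ (c A) := basef_roots _ hD c h
  choose s hs' using h2
  refine ⟨K, inferInstance, inferInstance, inferInstance, φ RatFunc.X, s, trans_map φ hs,
    fun A => ?_⟩
  rw [hs', map_sub, map_pow, AlgHom.commutes]

end

section

open Finset Matrix WithZero Polynomial Pool.Agent.P.MP_6f117a_ag

theorem p_GALX (hFFFIN : S_FFFIN) :
    S_GALX := by
  intro K _ _ _ τ hτ
  let F : IntermediateField ℂ K := IntermediateField.adjoin ℂ {τ}
  have : FiniteDimensional F K := FF.fin τ hτ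
  let K' : Type := IntermediateField.normalClosure F K (AlgebraicClosure K)
  have : FiniteDimensional F K' := inferInstance
  have : Algebra.IsAlgebraic F (AlgebraicClosure K) := Algebra.IsAlgebraic.trans F K _
  have : IsAlgClosure F (AlgebraicClosure K) := ⟨inferInstance, inferInstance⟩
  have : IsGalois F K' := ⟨⟩
  let : Algebra ℂ K' := ((algebraMap K K').comp (algebraMap ℂ K)).toAlgebra
  have : IsScalarTower ℂ K K' := IsScalarTower.of_algebraMap_eq fun _ => rfl
  have : IsScalarTower ℂ F K' := IsScalarTower.of_algebraMap_eq fun _ => rfl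
  have : FiniteDimensional K K' := Module.Finite.of_restrictScalars_finite F K K'
  refine ⟨K', inferInstance, inferInstance, hFFFIN K K' τ hτ, IsScalarTower.toAlgHom ℂ K K',
    fun x hx => ?_⟩
  let t : F := ⟨τ, IntermediateField.mem_adjoin_simple_self ℂ τ⟩
  have ht : IsScalarTower.toAlgHom ℂ K K' τ = algebraMap F K' t := rfl
  have h1 : x ∈ (⊥ : IntermediateField F K') :=
    (IsGalois.mem_bot_iff_fixed x).2 fun σ => hx (σ.restrictScalars ℂ) (by
      rw [ht]; exact σ.commutes t)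
  obtain ⟨y, rfl⟩ := IntermediateField.mem_bot.1 h1
  obtain ⟨p, q, hy⟩ := (IntermediateField.mem_adjoin_simple_iff ℂ (y : K)).1 y.2
  have e : algebraMap F K' y = IsScalarTower.toAlgHom ℂ K K' (y : K) := rfl
  rcases eq_or_ne q 0 with rfl | hq
  · exact ⟨0, 1, one_ne_zero, by rw [e, hy]; simp⟩
  · refine ⟨p, q, hq, ?_⟩
    have hq' : aeval τ q ≠ 0 := fun h => hτ ⟨q, hq, h⟩
    rw [e, aeval_algHom_apply, aeval_algHom_apply, ← map_mul, hy, div_mul_cancel₀ _ hq']

end

end Pool.Agent.P.MP_09c11a_nt.W
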