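import Pool.Agent.P.MP_09c11a_nt.W.IfaceZ
import Pool.Agent.P.MP_09c11a_nt.W.IfaceS

/-! Proofs of the steps IWA, STEPF, FRLOW, BIN, GAUSS. -/

set_option autoImplicit false
set_option linter.unusedSectionVars false
set_option linter.unusedVariables false

namespace Pool.Agent.P.MP_09c11a_nt.W

section

open Finset Matrix WithZero Polynomial Pool.Agent.P.MP_6f117a_ag

section

variable {K : Type} [Field K] [Algebra ℂ K] (P : Pl K) {N : ℕ}

theorem iwa_perm (σ : Equiv.Perm (Fin N)) : Uni P (σ.permMatrix K) := by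
  refine ⟨fun i j => ?_, ?_⟩
  · rw [Equiv.Perm.permMatrix, PEquiv.toMatrix_apply]; split_ifs <;> simp
  · rw [det_permutation]
    rcases Int.units_eq_one_or (Equiv.Perm.sign σ) with e | e <;> simp [e]

theorem iwa_elim (M : Matrix (Fin N) (Fin N) K) (k : Fin N)
    (h : ∀ i j, j < k → j < i → M i j = 0) (hm : ∀ i, k ≤ i → P.v (M i k) ≤ P.v (M k k)) :
    ∃ L : Matrix (Fin N) (Fin N) K, Uni P L ∧ ∀ i j, j ≤ k → j < i → (L * M) i j = 0 := by
  let E : Matrix (Fin N) (Fin N) K := of fun i j => if j = k ∧ k < i then M i k / M k k else 0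
  have hc : ∀ i, k ≤ i → M i k / M k k * M k k = M i k := fun i hi => by
    rcases eq_or_ne (M k k) 0 with e | e
    · have := hm i hi
      rw [e, map_zero, le_zero_iff, map_eq_zero] at this
      rw [e, this, mul_zero]
    · exact div_mul_cancel₀ _ e
  refine ⟨1 - E, ⟨fun i j => ?_, ?_⟩, fun i j h1 h2 => ?_⟩
  · refine P.v.map_sub_le ((uni_one P).1 i j) ?_
    simp only [E, of_apply]
    split_ifs with e
    · rw [map_div₀]; exact div_le_one_of_le₀ (hm i e.2.le) zero_le
    · simp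
  · rw [det_of_isLowerTriangular (1 - E) fun i j hij => ?_]
    · rw [prod_eq_one fun i _ => ?_, map_one]
      simp only [E, Matrix.sub_apply, one_apply_eq, of_apply]
      rw [if_neg fun e => e.2.ne' e.1, sub_zero]
    · have hij' : i < j := hij
      simp only [E, Matrix.sub_apply, one_apply_ne hij'.ne, of_apply]
      rw [if_neg fun e => (e.2.trans hij').ne' e.1, sub_zero]
  · rw [Matrix.sub_mul, Matrix.one_mul, Matrix.sub_apply, Matrix.mul_apply,
      sum_eq_single k (fun l _ hl => by simp [E, hl]) (by simp)]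
    rcases h1.eq_or_lt with rfl | h1
    · simp only [E, of_apply, h2, and_self, if_true]
      rw [hc i h2.le, sub_self]
    · rw [h i j h1 h2, h k j h1 h1, mul_zero, sub_zero]

theorem iwa_step (M : Matrix (Fin N) (Fin N) K) (k : Fin N)
    (h : ∀ i j, j < k → j < i → M i j = 0) :
    ∃ L : Matrix (Fin N) (Fin N) K, Uni P L ∧ ∀ i j, j ≤ k → j < i → (L * M) i j = 0 := by
  obtain ⟨i₀, h0, hm⟩ := exists_max_image (univ.filter fun i => k ≤ i) (fun i => P.v (M i k))
    ⟨k, by simp⟩
  simp only [mem_filter, mem_univ, true_and] at h0 hm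
  have e : (Equiv.swap k i₀).permMatrix K * M = M.submatrix (Equiv.swap k i₀) id :=
    PEquiv.toMatrix_toPEquiv_mul _ _
  obtain ⟨L, h1, h2⟩ := iwa_elim P (M.submatrix (Equiv.swap k i₀) id) k
    (fun i j hj hi => h _ j hj (by
      rw [Equiv.swap_apply_def]; split_ifs
      exacts [hj.trans_le h0, hj, hi]))
    (fun i hi => by
      simp only [submatrix_apply, id, Equiv.swap_apply_left]
      refine hm _ ?_
      rw [Equiv.swap_apply_def]; split_ifs
      exacts [h0, le_rfl, hi])
  exact ⟨L * _, h1.mul (iwa_perm P _), by rwa [Matrix.mul_assoc, e]⟩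

theorem iwa_ind (M : Matrix (Fin N) (Fin N) K) (k : ℕ) :
    ∃ L : Matrix (Fin N) (Fin N) K, Uni P L ∧ ∀ i j : Fin N, (j : ℕ) < k → j < i → (L * M) i j = 0 := by
  induction k with
  | zero => exact ⟨1, uni_one P, fun i j h => absurd h (Nat.not_lt_zero _)⟩
  | succ k ih =>
    obtain ⟨L, h1, h2⟩ := ih
    by_cases hk : k < N
    · obtain ⟨L', h3, h4⟩ := iwa_step P (L * M) ⟨k, hk⟩ h2
      exact ⟨L' * L, h3.mul h1, fun i j hj hi => by
        rw [Matrix.mul_assoc]; exact h4 i j (Nat.le_of_lt_succ hj) hi⟩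
    · exact ⟨L, h1, fun i j hj hi => h2 i j (by omega) hi⟩

end

theorem p_IWA :
    S_IWA := by
  intro K _ _ P N M _
  obtain ⟨L, h1, h2⟩ := iwa_ind P M N
  exact ⟨L⁻¹, L * M,
    (Matrix.nonsing_inv_mul_cancel_left _ _ (isUnit_iff_ne_zero.2 h1.det_ne)).symm, h1.inv,
    fun i j h => h2 i j j.2 h⟩

end

section

open Finset Matrix WithZero Polynomial Pool.Agent.P.MP_6f117a_ag

section

variable {K : Type} [Field K] [Algebra ℂ K] {N : ℕ} {k k' : Fin N}

/-- Upper triangular except at the entry `(k', k)`. -/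
def stepf_Al (k k' : Fin N) (M : Matrix (Fin N) (Fin N) K) : Prop :=
  ∀ i j, j < i → ¬(i = k' ∧ j = k) → M i j = 0

theorem stepf_det_swap (h : k ≠ k') : (Matrix.swap K k k').det = -1 := by
  rw [Matrix.swap, det_permutation, Equiv.Perm.sign_swap h]; simp

theorem stepf_uni_swap (P : Pl K) (h : k ≠ k') : Uni P (Matrix.swap K k k') := by
  refine ⟨fun i j => ?_, by rw [stepf_det_swap h]; simp⟩
  rw [← Matrix.mul_one (Matrix.swap K k k')]
  by_cases h1 : i = k
  · rw [h1, swap_mul_apply_left]; exact (uni_one P).1 _ _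
  · by_cases h2 : i = k'
    · rw [h2, swap_mul_apply_right]; exact (uni_one P).1 _ _
    · rw [swap_mul_of_ne h1 h2]; exact (uni_one P).1 _ _

theorem stepf_uni_tr (P : Pl K) (h : k' ≠ k) {c : K} (hc : P.v c ≤ 1) :
    Uni P (transvection k' k c) := by
  refine ⟨fun i j => ?_, by rw [det_transvection_of_ne _ _ h]; simp⟩
  rw [← Matrix.mul_one (transvection k' k c)]
  by_cases h1 : i = k'
  · rw [h1, transvection_mul_apply_same]
    refine P.v.map_add_le ((uni_one P).1 _ _) ?_
    rw [map_mul]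
    exact mul_le_one' hc ((uni_one P).1 _ _)
  · rw [transvection_mul_apply_of_ne _ _ _ _ h1]; exact (uni_one P).1 _ _

theorem stepf_loc1 (P : Pl K) (hk : (k' : ℕ) = k + 1) {M : Matrix (Fin N) (Fin N) K}
    (hM : stepf_Al k k' M) (h0 : M k k ≠ 0) (hle : P.v (M k' k) ≤ P.v (M k k)) :
    ∃ κ B : Matrix (Fin N) (Fin N) K, M = κ * B ∧ Uni P κ ∧ Up B ∧
      (∀ j, j ≠ k → j ≠ k' → B j j = M j j) ∧ B k k = M k k ∧
      B k k * B k' k' = M k k * M k' k' - M k' k * M k k' := by
  have hne : k' ≠ k := fun h => by rw [h] at hk; omega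
  refine ⟨transvection k' k (M k' k / M k k), transvection k' k (-(M k' k / M k k)) * M,
    ?_, stepf_uni_tr P hne ?_, fun i j hij => ?_, fun j _ h2 => ?_, ?_, ?_⟩
  · rw [← Matrix.mul_assoc, transvection_mul_transvection_same _ _ hne, add_neg_cancel,
      transvection_zero, Matrix.one_mul]
  · rw [map_div₀]
    exact div_le_one_of_le₀ hle zero_le
  · by_cases h1 : i = k'
    · subst h1
      rw [transvection_mul_apply_same]
      by_cases h2 : j = k
      · subst h2; field_simp; ring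
      · have hj : j < k := by
          rw [Fin.lt_def] at hij ⊢
          have : (j : ℕ) ≠ k := fun h => h2 (Fin.ext h)
          omega
        rw [hM i j hij fun h => h2 h.2, hM k j hj fun h => h2 h.2]; simp
    · rw [transvection_mul_apply_of_ne _ _ _ _ h1]
      exact hM i j hij fun h => h1 h.1
  · exact transvection_mul_apply_of_ne _ _ _ _ h2 _ _
  · exact transvection_mul_apply_of_ne _ _ _ _ hne.symm _ _
  · rw [transvection_mul_apply_of_ne _ _ _ _ hne.symm, transvection_mul_apply_same]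
    field_simp; ring

theorem stepf_loc2 (P : Pl K) (hk : (k' : ℕ) = k + 1) {M : Matrix (Fin N) (Fin N) K}
    (hM : stepf_Al k k' M) (h0 : M k' k ≠ 0) :
    ∃ κ B : Matrix (Fin N) (Fin N) K, M = κ * B ∧ Uni P κ ∧ Up B ∧
      (∀ j, j ≠ k → j ≠ k' → B j j = M j j) ∧
      P.v (B k k) = max (P.v (M k k)) (P.v (M k' k)) ∧
      P.v (B k k * B k' k') = P.v (M k k * M k' k' - M k' k * M k k') := by
  have hne : k' ≠ k := fun h => by rw [h] at hk; omega
  rcases le_total (P.v (M k' k)) (P.v (M k k)) with hle | hle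
  · have h1 : M k k ≠ 0 := fun h => v_ne P h0 (by simpa [h] using hle)
    obtain ⟨κ, B, e, u, b, c1, c2, c3⟩ := stepf_loc1 P hk hM h1 hle
    exact ⟨κ, B, e, u, b, c1, by rw [c2, max_eq_left hle], by rw [c3]⟩
  · have hM' : stepf_Al k k' (Matrix.swap K k k' * M) := by
      intro i j hij hn
      by_cases h1 : i = k
      · subst h1
        rw [swap_mul_apply_left]
        exact hM k' j (by rw [Fin.lt_def] at hij ⊢; omega) fun h => hij.ne h.2
      · by_cases h2 : i = k'
        · subst h2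
          have h3 : j ≠ k := fun h => hn ⟨rfl, h⟩
          have hj : j < k := by
            rw [Fin.lt_def] at hij ⊢
            have : (j : ℕ) ≠ k := fun h => h3 (Fin.ext h)
            omega
          rw [swap_mul_apply_right]
          exact hM k j hj fun h => h3 h.2
        · rw [swap_mul_of_ne h1 h2]
          exact hM i j hij hn
    obtain ⟨κ, B, e, u, b, c1, c2, c3⟩ := stepf_loc1 P hk hM'
      (by rw [swap_mul_apply_left]; exact h0)
      (by rw [swap_mul_apply_left, swap_mul_apply_right]; exact hle)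
    simp only [swap_mul_apply_left, swap_mul_apply_right] at c2 c3
    refine ⟨Matrix.swap K k k' * κ, B, ?_, (stepf_uni_swap P hne.symm).mul u, b,
      fun j h1 h2 => (c1 j h1 h2).trans (swap_mul_of_ne h1 h2 _), by rw [c2, max_eq_right hle], ?_⟩
    · rw [Matrix.mul_assoc, ← e, ← Matrix.mul_assoc, swap_mul_self, Matrix.one_mul]
    · rw [c3, ← P.v.map_neg, neg_sub]

end

theorem p_STEPF :
    S_STEPF := by
  intro K _ _ N A F k k' ρ hk
  have hne : k' ≠ k := fun h => by rw [h] at hk; omega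
  have hlt : k < k' := by rw [Fin.lt_def]; omega
  set E : Matrix (Fin N) (Fin N) K := Matrix.swap K k k' * transvection k' k ρ with hE
  have e1 : ∀ (B : Matrix (Fin N) (Fin N) K) i, (B * E) i k = B i k * ρ + B i k' := fun B i => by
    rw [hE, ← Matrix.mul_assoc, mul_transvection_apply_same, mul_swap_apply_left,
      mul_swap_apply_right]; ring
  have e2 : ∀ (B : Matrix (Fin N) (Fin N) K) i, (B * E) i k' = B i k := fun B i => by
    rw [hE, ← Matrix.mul_assoc, mul_transvection_apply_of_ne _ _ _ _ hne, mul_swap_apply_right]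
  have e3 : ∀ (B : Matrix (Fin N) (Fin N) K) i j, j ≠ k → j ≠ k' → (B * E) i j = B i j :=
    fun B i j h1 h2 => by
      rw [hE, ← Matrix.mul_assoc, mul_transvection_apply_of_ne _ _ _ _ h1, mul_swap_of_ne h1 h2]
  have hdet : E.det ≠ 0 := by
    rw [hE, det_mul, stepf_det_swap hne.symm, det_transvection_of_ne _ _ hne]; simp
  have hal : ∀ P, stepf_Al k k' (F.B P * E) := by
    intro P i j hij hn
    by_cases h1 : j = k
    · subst h1
      have h3 : (i : ℕ) ≠ k' := fun h => hn ⟨Fin.ext h, rfl⟩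
      rw [e1, F.up P i j hij, F.up P i k' (by rw [Fin.lt_def] at hij ⊢; omega)]; simp
    · by_cases h2 : j = k'
      · subst h2
        rw [e2]; exact F.up P i k (hlt.trans hij)
      · rw [e3 _ _ _ h1 h2]; exact F.up P i j hij
  have hkk : ∀ P, (F.B P * E) k' k = F.B P k' k' := fun P => by
    rw [e1, F.up P k' k hlt]; simp
  choose κ B h1 h2 h3 h4 h5 h6 using fun P => stepf_loc2 P hk (hal P)
    (by rw [hkk]; exact F.ne P k')
  refine ⟨⟨F.X * E, fun P => F.κ P * κ P, B, ?_, fun P => ?_, fun P => (F.uni P).mul (h2 P), h3⟩,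
    fun P => ⟨fun j a b => (h4 P j a b).trans (e3 _ _ _ a b), ?_, ?_⟩⟩
  · rw [det_mul]; exact mul_ne_zero F.det hdet
  · rw [← Matrix.mul_assoc (A.loc P), Matrix.mul_assoc _ (κ P), ← h1 P,
      ← Matrix.mul_assoc _ (F.B P), ← F.eq P]
  · rw [h5, hkk, e1]
  · rw [h6, hkk, e2, e2, F.up P k' k hlt, mul_zero, zero_sub, P.v.map_neg, mul_comm]

end

section

open Finset Matrix WithZero Polynomial Pool.Agent.P.MP_6f117a_ag

theorem frlow_sum {K : Type} [Field K] {N : ℕ} (s : ℕ) (f : Fin N → K)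
    (h : ∀ k, ¬k.1 < s → f k = 0) : ∑ k, f k = ∑ k : {k : Fin N // k.1 < s}, f k := by
  rw [← Fintype.sum_subtype_add_sum_subtype (fun k : Fin N => k.1 < s) f,
    Finset.sum_eq_zero (s := univ) fun (k : {k : Fin N // ¬k.1 < s}) _ => h k k.2, add_zero]

theorem frlow_bd {K : Type} [Field K] [Algebra ℂ K] [FF ℂ K] {N : ℕ} {A : Ad K N} (hA : A.Ok) :
    ∃ m : Pl K → ℤ, Fs m ∧ (∀ P, 0 ≤ m P) ∧ ∀ P i j, P.v (A.loc P i j) ≤ exp (m P) := by
  refine ⟨fun P => ∑ q : Fin N × Fin N, max (lg P (A.loc P q.1 q.2)) 0,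
    fs_of_finite hA.finite fun P hP => sum_eq_zero fun q _ => max_eq_right ?_,
    fun P => sum_nonneg fun q _ => le_max_right _ _, fun P i j => ?_⟩
  · rcases eq_or_ne (A.loc P q.1 q.2) 0 with h | h
    · simp [h, lg]
    · exact (lg_le_iff P h).2 ((not_not.1 hP : Uni P _).1 _ _)
  · rcases eq_or_ne (A.loc P i j) 0 with h | h
    · simp [h]
    · exact (lg_le_iff P h).1 ((le_max_left _ 0).trans (single_le_sum
        (f := fun q : Fin N × Fin N => max (lg P (A.loc P q.1 q.2)) 0)
        (fun q _ => le_max_right _ _) (mem_univ (i, j))))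

theorem frlow_main (hMINOR : S_MINOR) {K : Type} [Field K] [Algebra ℂ K] [FF ℂ K] {N : ℕ}
    {A : Ad K N} (hA : A.Ok) {m : Pl K → ℤ} (h1 : Fs m) (h2 : ∀ P, 0 ≤ m P)
    (h3 : ∀ P i j, P.v (A.loc P i j) ≤ exp (m P)) (F : Frame A) (s : ℕ) :
    0 ≤ N * tot m + ∑ k : {k : Fin N // k.1 < s}, F.ht k := by
  obtain ⟨ι, -, hι⟩ := hMINOR (Fin N) {k : Fin N // k.1 < s} K (F.X.submatrix id Subtype.val)
    fun c hc => by
      have := Matrix.eq_zero_of_mulVec_eq_zero F.det
        (v := fun k => if h : k.1 < s then c ⟨k, h⟩ else 0) (funext fun i => by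
          rw [Matrix.mulVec, dotProduct, frlow_sum s _ fun k hk => by rw [dif_neg hk, mul_zero]]
          refine Eq.trans (sum_congr rfl fun k _ => ?_) (congrFun hc i)
          rw [dif_pos k.2]; rfl)
      funext k
      simpa [k.2] using congrFun this k
  have e : ∀ P, ((F.X.submatrix id Subtype.val).submatrix ι id).det =
      ((A.loc P * F.κ P).submatrix ι Subtype.val).det *
        ∏ k : {k : Fin N // k.1 < s}, F.B P k k := fun P => by
    have : (F.X.submatrix id Subtype.val).submatrix ι id =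
        (A.loc P * F.κ P).submatrix ι Subtype.val * (F.B P).submatrix Subtype.val
          (Subtype.val : {k : Fin N // k.1 < s} → Fin N) := by
      ext i j
      rw [F.eq P]
      exact frlow_sum s _ fun k hk =>
        mul_eq_zero_of_right _ (F.up P k j (Fin.lt_def.2 (j.2.trans_le (not_lt.1 hk))))
    rw [this, det_mul, det_of_isUpperTriangular (M := (F.B P).submatrix Subtype.val Subtype.val)
      fun k l hl => F.up P k.1 l.1 hl]
    rfl
  have key : ∀ P, lg P ((F.X.submatrix id Subtype.val).submatrix ι id).det ≤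
      N * m P + ∑ k : {k : Fin N // k.1 < s}, lg P (F.B P k k) := fun P => by
    have h0 := left_ne_zero_of_mul (e P ▸ hι)
    have hn := fun (k : {k : Fin N // k.1 < s}) (_ : k ∈ univ) => F.ne P k.1
    rw [e P, lg_mul P h0 (prod_ne_zero_iff.2 hn), lg_prod P _ _ hn]
    refine add_le_add_left (((lg_le_iff P h0).2 (v_det_le P _ (fun _ => m P) fun i j => ?_)).trans ?_) _
    · simpa using v_mul_le P _ _ (h3 P) (F.uni P).1 (ι i) j
    · rw [sum_const, nsmul_eq_mul, card_univ]
      refine mul_le_mul_of_nonneg_right ?_ (h2 P)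
      exact_mod_cast (Fintype.card_subtype_le _).trans_eq (Fintype.card_fin N)
  have hk := fun (k : {k : Fin N // k.1 < s}) (_ : k ∈ univ) => F.fs hA k.1
  have hs := fs_sum univ _ hk
  have := tot_le (fs_lg _) ((h1.mul fun _ => N).add hs) key
  rwa [tot_lg, tot_add (h1.mul fun _ => N) hs, tot_mul _ h1, tot_sum _ _ hk] at this

theorem p_FRLOW (hMINOR : S_MINOR) (hRES : S_RES) :
    S_FRLOW := by
  intro K _ _ _ N A T hA hT
  obtain ⟨m, h1, h2, h3⟩ := frlow_bd hA
  refine ⟨N * tot m / dg T, fun K' _ _ _ φ F s => ?_⟩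
  obtain ⟨R⟩ := hRES K K' φ T hT
  have h := frlow_main hMINOR (hA.map φ) (R.fs h1)
    (fun P => mul_nonneg (Int.natCast_nonneg _) (h2 _))
    (fun P i j => by rw [R.loc_map]; exact R.le_exp P (h3 _ i j)) F s
  rw [R.sum m h1, ← Finset.sum_subtype (univ.filter fun k : Fin N => k.1 < s) (by simp) F.ht] at h
  have h0 : (dg T : ℝ) ≠ 0 := Nat.cast_ne_zero.2 (dg_pos hT).ne'
  have h4 : (0 : ℝ) ≤ N * (R.d * tot m) + ∑ k : Fin N with k.1 < s, (F.ht k : ℝ) := by
    exact_mod_cast h
  rw [R.deg T hT, Nat.cast_mul]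
  have : -(N * (tot m : ℝ) / dg T) * (R.d * dg T) = -(N * (R.d * tot m)) := by field_simp
  linarith

end

section

open Finset Matrix WithZero Polynomial Pool.Agent.P.MP_6f117a_ag

section

variable {K : Type} [Field K] [Algebra ℂ K]

/-- The coefficients of the products `(b1 X + b3) ^ j * b2 ^ (m - j)`. -/
noncomputable def binA (b1 b2 b3 : K) (m : ℕ) : Matrix (Fin (m + 1)) (Fin (m + 1)) K :=
  fun i j => b2 ^ (m - (j : ℕ)) * ((C b1 * X + C b3) ^ (j : ℕ)).coeff i

theorem bin_zero (b1 b3 : K) {i j : ℕ} (h : j < i) : ((C b1 * X + C b3) ^ j).coeff i = 0 :=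
  coeff_eq_zero_of_natDegree_lt
    (((natDegree_pow_le_of_le j natDegree_linear_le).trans_eq (mul_one j)).trans_lt h)

theorem bin_up (b1 b2 b3 : K) (m : ℕ) : Up (binA b1 b2 b3 m) := fun k l h => by
  rw [binA, bin_zero b1 b3 (show (l : ℕ) < k from h), mul_zero]

theorem bin_diag (b1 b2 b3 : K) (m : ℕ) (j : Fin (m + 1)) :
    binA b1 b2 b3 m j j = b2 ^ (m - (j : ℕ)) * b1 ^ (j : ℕ) := by
  have h := coeff_pow_of_natDegree_le (m := (j : ℕ)) (natDegree_linear_le (a := b1) (b := b3))
  rw [mul_one] at h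
  rw [binA, h]
  simp

theorem bin_le (P : Pl K) {b1 b3 : K} (h1 : P.v b1 ≤ 1) (h3 : P.v b3 ≤ 1) (i j : ℕ) :
    P.v (((C b1 * X + C b3) ^ j).coeff i) ≤ 1 := by
  have e : (C b1 * X + C b3) ^ j = ((C (⟨b1, h1⟩ : P.v.integer) * X +
      C (⟨b3, h3⟩ : P.v.integer)) ^ j).map P.v.integer.subtype := by
    simp
  rw [e, coeff_map]
  exact (Valuation.mem_integer_iff _ _).1 (Subtype.prop _)

theorem bin_uni (P : Pl K) {b1 b2 b3 : K} (h1 : P.v b1 = 1) (h2 : P.v b2 = 1) (h3 : P.v b3 ≤ 1)
    (m : ℕ) : Uni P (binA b1 b2 b3 m) := by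
  refine ⟨fun i j => ?_, ?_⟩
  · rw [binA, map_mul, map_pow, h2, one_pow, one_mul]
    exact bin_le P h1.le h3 _ _
  · rw [(bin_up b1 b2 b3 m).det, map_prod]
    exact Finset.prod_eq_one fun j _ => by
      rw [bin_diag, map_mul, map_pow, map_pow, h1, h2, one_pow, one_pow, one_mul]

theorem bin_sum (m : ℕ) (x y : ℤ) :
    2 * ∑ j : Fin (m + 1), (((m - (j : ℕ) : ℕ) : ℤ) * y + (j : ℕ) * x) = (m + 1) * m * (x + y) := by
  have h : (∑ i ∈ range (m + 1), (i : ℤ)) * 2 = (m + 1) * m := by
    have h0 := Finset.sum_range_id_mul_two (m + 1)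
    rw [Nat.add_sub_cancel] at h0
    have h1 := congrArg (Nat.cast : ℕ → ℤ) h0
    push_cast at h1
    exact h1
  rw [Fin.sum_univ_eq_sum_range (fun j => ((m - j : ℕ) : ℤ) * y + (j : ℕ) * x) (m + 1),
    Finset.sum_congr rfl (g := fun j : ℕ => (m : ℤ) * y + (j : ℤ) * (x - y)) fun j hj => by
      rw [Nat.cast_sub (Nat.lt_succ_iff.1 (mem_range.1 hj))]; ring,
    sum_add_distrib, ← Finset.sum_mul (range (m + 1)) (fun j : ℕ => (j : ℤ)), sum_const,
    card_range, nsmul_eq_mul]
  push_cast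
  linear_combination (x - y) * h

theorem bin_lg (P : Pl K) {b1 b2 : K} (b3 : K) (h1 : b1 ≠ 0) (h2 : b2 ≠ 0) (m : ℕ) :
    2 * ∑ j, lg P (binA b1 b2 b3 m j j) = (m + 1) * m * (lg P b1 + lg P b2) := by
  rw [← bin_sum]
  congr 1
  exact Finset.sum_congr rfl fun j _ => by
    rw [bin_diag, lg_mul P (pow_ne_zero _ h2) (pow_ne_zero _ h1), lg_pow, lg_pow]

theorem bin_coeff {m : ℕ} (G : Fin (m + 1) → K) (i : Fin (m + 1)) :
    (∑ k : Fin (m + 1), monomial (k : ℕ) (G k)).coeff i = G i := by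
  rw [finsetSum_coeff, Finset.sum_eq_single i (fun k _ hk => by
    rw [coeff_monomial, if_neg fun e => hk (Fin.ext e)]) (by simp), coeff_monomial, if_pos rfl]

theorem bin_eq (b1 b2 b3 : K) (m : ℕ) (w : Fin (m + 1) → K) :
    ∑ k : Fin (m + 1), monomial (k : ℕ) ((binA b1 b2 b3 m *ᵥ w) k) =
      ∑ i, C (w i * b2 ^ (m - (i : ℕ))) * (C b1 * X + C b3) ^ (i : ℕ) := by
  ext n
  rcases lt_or_ge n (m + 1) with h | h
  · rw [show n = ((⟨n, h⟩ : Fin (m + 1)) : ℕ) from rfl, bin_coeff, finsetSum_coeff,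
      Matrix.mulVec, dotProduct]
    exact Finset.sum_congr rfl fun j _ => by rw [coeff_C_mul, binA]; ring
  · rw [finsetSum_coeff, finsetSum_coeff, Finset.sum_eq_zero fun k _ => by
      rw [coeff_monomial, if_neg (k.2.trans_le h).ne], Finset.sum_eq_zero fun k _ => by
      rw [coeff_C_mul, bin_zero b1 b3 (k.2.trans_le h), mul_zero]]

end

theorem p_BIN (hCOUNT : S_COUNT) :
    S_BIN := by
  intro K _ _ _ T hT
  classical
  obtain ⟨c, hc⟩ := hCOUNT K T hT
  obtain ⟨P₀, -⟩ := exists_pole hT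
  refine ⟨2 * c + 3, fun b1 b2 b3 h m => ?_⟩
  have f1 : Fs fun P => lg P (b1 P) := fs_of_finite h.2 fun P hP => lg_of_v (not_not.1 hP).1
  have f2 : Fs fun P => lg P (b2 P) := fs_of_finite h.2 fun P hP => lg_of_v (not_not.1 hP).2.1
  have fu : {P | ¬Uni P (binA (b1 P) (b2 P) (b3 P) m)}.Finite :=
    h.2.subset fun P hP h' => hP (bin_uni P h'.1 h'.2.1 h'.2.2 m)
  have f3 : Fs fun P => ∑ j, lg P (binA (b1 P) (b2 P) (b3 P) m j j) :=
    fs_of_finite fu fun P hP => Finset.sum_eq_zero fun j _ =>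
      lg_of_v ((not_not.1 hP : Uni P _).diag (bin_up _ _ _ m) j)
  have e := tot_mul 2 f3
  rw [funext fun P => bin_lg P (b3 P) (h.1 P).1 (h.1 P).2 m, tot_mul _ (f1.add f2),
    tot_add f1 f2] at e
  generalize tot (fun P => lg P (b1 P)) + tot (fun P => lg P (b2 P)) = S at e ⊢
  obtain ⟨β, h1, h2⟩ : ∃ β : ℤ, 2 * c + 2 ≤ 2 * β + m * S ∧ 2 * β ≤ 2 * c + 3 - m * S :=
    ⟨c - m * S / 2 + 1, by omega, by omega⟩
  have fb : Fs fun P => if P = P₀ then β else 0 :=
    fs_of_finite (Set.finite_singleton P₀) fun P hP => if_neg hP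
  have tb : tot (fun P => if P = P₀ then β else 0) = β := by
    rw [tot_eq_sum {P₀} fun P hP => if_neg (by simpa using hP)]
    simp
  obtain ⟨G, hG, H⟩ := hc (m + 1) (fun P => binA (b1 P) (b2 P) (b3 P) m) _
    (fun P => bin_up _ _ _ m) (fun P j => by
      rw [bin_diag]; exact mul_ne_zero (pow_ne_zero _ (h.1 P).2) (pow_ne_zero _ (h.1 P).1))
    fu fb (by
      rw [tb]
      push_cast
      have h3 : (0 : ℤ) ≤ m := Int.natCast_nonneg m
      nlinarith [mul_le_mul_of_nonneg_left h1 (show (0 : ℤ) ≤ m + 1 by omega)])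
  refine ⟨∑ k : Fin (m + 1), monomial (k : ℕ) (G k), _, fun e => hG (funext fun i => ?_), fb,
    fun P => ?_, by rw [tb]; exact h2⟩
  · rw [← bin_coeff G i, e, coeff_zero, Pi.zero_apply]
  · obtain ⟨w, hw, e⟩ := H P
    exact ⟨w, hw, by rw [e, bin_eq]⟩

end

section

open Finset Matrix WithZero Polynomial Pool.Agent.P.MP_6f117a_ag

theorem gauss1 {K : Type} [Field K] (v : Valuation K ℤᵐ⁰) (f : K[X]) (u w : K) (M T : ℤᵐ⁰)
    (h : ∀ n, M * v (((C u * X - C w) * f).coeff n) ≤ T) (n : ℕ) :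
    M * max (v u) (v w) * v (f.coeff n) ≤ T := by
  have e0 : ((C u * X - C w) * f).coeff 0 = -(w * f.coeff 0) := by simp
  have e1 : ∀ n, ((C u * X - C w) * f).coeff (n + 1) = u * f.coeff n - w * f.coeff (n + 1) := by
    intro n
    rw [sub_mul, coeff_sub, mul_assoc, coeff_C_mul, coeff_C_mul, coeff_X_mul]
  rcases le_total (v w) (v u) with hc | hc
  · rw [max_eq_left hc]
    have key : ∀ k n, f.natDegree < n + k → M * v u * v (f.coeff n) ≤ T := by
      intro k
      induction k with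
      | zero =>
        intro n hn
        rw [coeff_eq_zero_of_natDegree_lt (n := n) hn, map_zero, mul_zero]
        exact zero_le
      | succ k ih =>
        intro n hn
        have h1 := ih (n + 1) (by omega)
        have h2 := h (n + 1)
        rw [e1] at h2
        have e : u * f.coeff n = (u * f.coeff n - w * f.coeff (n + 1)) + w * f.coeff (n + 1) := by
          ring
        rw [mul_assoc, ← map_mul, e]
        refine (mul_le_mul_right (v.map_add _ _) M).trans ?_
        rw [mul_max]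
        refine max_le h2 (le_trans ?_ h1)
        rw [map_mul, mul_assoc]
        gcongr
    exact key (f.natDegree + 1) n (by omega)
  · rw [max_eq_right hc]
    induction n with
    | zero =>
      have h2 := h 0
      rwa [e0, v.map_neg, map_mul, ← mul_assoc] at h2
    | succ n ih =>
      have h2 := h (n + 1)
      rw [e1] at h2
      have e : w * f.coeff (n + 1) = u * f.coeff n - (u * f.coeff n - w * f.coeff (n + 1)) := by
        ring
      rw [mul_assoc, ← map_mul, e]
      refine (mul_le_mul_right (v.map_sub _ _) M).trans ?_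
      rw [mul_max]
      refine max_le (le_trans ?_ ih) h2
      rw [map_mul, mul_assoc]
      gcongr

theorem gauss2 {K : Type} [Field K] (v : Valuation K ℤᵐ⁰) (u : K) (w : K → K) (T : ℤᵐ⁰)
    (s : Multiset K) : ∀ f : K[X],
    (∀ n, v (((s.map fun ρ => C u * X - C (w ρ)).prod * f).coeff n) ≤ T) → ∀ n,
      (s.map fun ρ => max (v u) (v (w ρ))).prod * v (f.coeff n) ≤ T := by
  induction s using Multiset.induction_on with
  | empty => intro f h n; simpa using h n
  | cons a s ih =>
    intro f h n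
    rw [Multiset.map_cons, Multiset.prod_cons, mul_comm (max _ _)]
    refine gauss1 v f u (w a) _ T (ih _ fun k => ?_) n
    have := h k
    rwa [Multiset.map_cons, Multiset.prod_cons, mul_comm (C u * X - C (w a)), mul_assoc] at this

theorem gauss3 {I : Type} (s : Multiset I) (g : I → ℤ) :
    (s.map fun i => (exp (g i) : ℤᵐ⁰)).prod = exp (s.map g).sum := by
  induction s using Multiset.induction_on with
  | empty => simp
  | cons a s ih => simp only [Multiset.map_cons, Multiset.prod_cons, Multiset.sum_cons, ih, exp_add]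

theorem p_GAUSS :
    S_GAUSS := by
  intro K _ _ P b1 b2 b3 c m β s h1 h2 hc ⟨y, hy, hG⟩
  constructor
  · have hd := congrArg natDegree hG
    rw [natDegree_C_mul hc, natDegree_multiset_prod_X_sub_C_eq_card] at hd
    rw [hd]
    refine natDegree_sum_le_of_forall_le _ _ fun i _ => (natDegree_C_mul_le _ _).trans ?_
    refine natDegree_pow_le.trans ?_
    have : (C b1 * X + C b3).natDegree ≤ 1 := natDegree_linear_le
    have hi := i.2
    nlinarith
  · have hq := congrArg (fun g : K[X] => g.comp (C (b2 / b1) * X - C (b3 / b1))) hG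
    have hl : (C b1 * X + C b3).comp (C (b2 / b1) * X - C (b3 / b1)) = C b2 * X := by
      rw [add_comp, mul_comp, C_comp, C_comp, X_comp, mul_sub, ← mul_assoc, ← C_mul, ← C_mul,
        mul_div_cancel₀ _ h1, mul_div_cancel₀ _ h1, sub_add_cancel]
    have hr : ∀ ρ : K, (X - C ρ).comp (C (b2 / b1) * X - C (b3 / b1)) =
        C (b2 / b1) * X - C ((b1 * ρ + b3) / b1) := by
      intro ρ
      rw [sub_comp, X_comp, C_comp, sub_sub, ← C_add]
      congr 2
      field_simp
      ring
    simp only [mul_comp, C_comp, multiset_prod_comp, Multiset.map_map, Function.comp_def, hr,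
      Polynomial.sum_comp, pow_comp, hl] at hq
    have hb : ∀ n, P.v (((s.map fun ρ => C (b2 / b1) * X - C ((b1 * ρ + b3) / b1)).prod *
        C c).coeff n) ≤ exp β * P.v b2 ^ m := by
      intro n
      rw [mul_comm, hq, finsetSum_coeff]
      refine P.v.map_sum_le fun i _ => ?_
      rw [mul_pow, ← C_pow, ← mul_assoc, ← C_mul, mul_assoc, ← pow_add,
        Nat.sub_add_cancel (Nat.lt_succ_iff.mp i.2), coeff_C_mul_X_pow]
      split_ifs
      · rw [map_mul, map_pow]
        exact mul_le_mul_left (hy i) _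
      · rw [map_zero]; exact zero_le
    have h3 := gauss2 P.v (b2 / b1) (fun ρ => (b1 * ρ + b3) / b1) _ s (C c) hb 0
    have hm : ∀ ρ : K, max (P.v (b2 / b1)) (P.v ((b1 * ρ + b3) / b1)) =
        exp (lgm P (b1 * ρ + b3) b2 - lg P b1) := by
      intro ρ
      have h0 : max (P.v (b1 * ρ + b3)) (P.v b2) ≠ 0 :=
        (lt_of_lt_of_le (zero_lt_iff.mpr (v_ne P h2)) (le_max_right _ _)).ne'
      rw [exp_sub, exp_lg P h1, lgm, exp_log h0, map_div₀, map_div₀, max_comm, div_eq_mul_inv,
        div_eq_mul_inv, div_eq_mul_inv, max_mul]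
    simp only [hm] at h3
    rw [gauss3, coeff_C_zero, ← exp_lg P hc, ← exp_add, ← map_pow, ← exp_lg P (pow_ne_zero m h2),
      ← exp_add, exp_le_exp, lg_pow] at h3
    linarith

end

end Pool.Agent.P.MP_09c11a_nt.W
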