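import Pool.Agent.P.MP_09c11a_nt.W.IfaceZ
import Pool.Agent.P.MP_09c11a_nt.W.IfaceS

/-! Proofs of the steps ROOT, STEPG, INF, LEAD, LAST, TP, SPI, PK. -/

set_option autoImplicit false
set_option linter.unusedSectionVars false
set_option linter.unusedVariables false

namespace Pool.Agent.P.MP_09c11a_nt.W

section

open Finset Matrix WithZero Polynomial Pool.Agent.P.MP_6f117a_ag

theorem root_tot {K : Type} [Field K] [Algebra ℂ K] (s : Multiset K) (f : K → Pl K → ℤ)
    (h : ∀ ρ, Fs (f ρ)) : Fs (fun P => (s.map fun ρ => f ρ P).sum) ∧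
      tot (fun P => (s.map fun ρ => f ρ P).sum) = (s.map fun ρ => tot (f ρ)).sum := by
  induction s using Multiset.induction_on with
  | empty => simpa using ⟨fs_zero, tot_zero⟩
  | cons a s ih =>
    simp only [Multiset.map_cons, Multiset.sum_cons]
    exact ⟨(h a).add ih.1, by rw [tot_add (h a) ih.1, ih.2]⟩

theorem p_ROOT (hGAUSS : S_GAUSS) :
    S_ROOT := by
  intro K _ _ _ b1 b2 b3 m G b hT hG hS hb hB
  rcases isEmpty_or_nonempty (Pl K) with hE | ⟨⟨P₀⟩⟩
  · left; simp [tot, finsum_of_isEmpty]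
  have hc : G.leadingCoeff ≠ 0 := leadingCoeff_ne_zero.2 hG
  have h := fun P => hGAUSS K P (b1 P) (b2 P) (b3 P) G.leadingCoeff m (b P) G.roots (hT.1 P).1
    (hT.1 P).2 hc (hS.eq_prod_roots ▸ hB P)
  have f1 : Fs fun P => lg P (b1 P) := fs_of_finite hT.2 fun P hP => lg_of_v (not_not.1 hP).1
  have f2 : Fs fun P => lg P (b2 P) := fs_of_finite hT.2 fun P hP => lg_of_v (not_not.1 hP).2.1
  have f3 : ∀ ρ : K, Fs fun P => lgm P (b1 P * ρ + b3 P) (b2 P) := fun ρ =>
    fs_of_finite (hT.2.union (finite_gt ρ)) fun P hP => by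
      simp only [Set.mem_union, not_or, Set.mem_ofPred_eq, not_not] at hP
      have : P.v (b1 P * ρ + b3 P) ≤ 1 :=
        P.v.map_add_le (by rw [map_mul, hP.1.1, one_mul]; exact hP.2) hP.1.2.2
      rw [lgm, hP.1.2.1, max_eq_right this, log_one]
  obtain ⟨f4, e4⟩ := root_tot G.roots (fun ρ P => lgm P (b1 P * ρ + b3 P) (b2 P) - lg P (b1 P))
    fun ρ => (f3 ρ).sub f1
  have k := tot_le (((fs_lg G.leadingCoeff).add f4).sub (f2.mul fun _ => m)) hb fun P => (h P).2
  rw [tot_sub ((fs_lg _).add f4) (f2.mul fun _ => m), tot_add (fs_lg _) f4, tot_lg, e4,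
    tot_mul _ f2] at k
  simp only [tot_sub (f3 _) f1] at k
  by_contra hn
  simp only [not_or, not_exists, not_le] at hn
  obtain ⟨n1, n2⟩ := hn
  have k2 := Multiset.card_nsmul_le_sum (s := G.roots.map fun ρ =>
      (m : ℤ) * (tot (fun P => lgm P (b1 P * ρ + b3 P) (b2 P)) - tot fun P => lg P (b1 P)))
    (a := tot b + m * (tot fun P => lg P (b2 P)) + 1) fun x hx => by
      obtain ⟨ρ, -, rfl⟩ := Multiset.mem_map.1 hx
      linarith [n2 ρ]
  rw [Multiset.sum_map_mul_left, Multiset.card_map, nsmul_eq_mul] at k2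
  have hd : (Multiset.card G.roots : ℤ) ≤ m := by exact_mod_cast (h P₀).1
  rcases Nat.eq_zero_or_pos m with rfl | hm
  · have : G.roots = 0 := Multiset.card_eq_zero.1 (Nat.le_zero.1 (h P₀).1)
    simp only [this, Multiset.map_zero, Multiset.sum_zero, Nat.cast_zero] at k n1
    linarith
  · have hm' : (0 : ℤ) < m := by exact_mod_cast hm
    nlinarith

end

section

open Finset Matrix WithZero Polynomial Pool.Agent.P.MP_6f117a_ag

theorem stepg_tri {K : Type} [Field K] [Algebra ℂ K] [FF ℂ K] {N : ℕ} {A : Ad K N} (F : Frame A)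
    (hA : A.Ok) (k k' : Fin N) :
    Tri (fun P => F.B P k k) (fun P => F.B P k' k') (fun P => F.B P k k') :=
  ⟨fun P => ⟨F.ne P k, F.ne P k'⟩, (F.finite hA).subset fun P hP hu =>
    hP ⟨Uni.diag hu (F.up P) k, Uni.diag hu (F.up P) k', hu.1 k k'⟩⟩

theorem stepg_bin {K K' : Type} [Field K] [Algebra ℂ K] [Field K'] [Algebra ℂ K']
    {φ : K →ₐ[ℂ] K'} (ℛ : Res φ) (P : Pl K') {b1 b2 b3 : K} {m : ℕ} {β : ℤ} {G : K[X]}
    (h : Bin (ℛ.ρ P) b1 b2 b3 m β G) :
    Bin P (φ b1) (φ b2) (φ b3) m (ℛ.e P * β) (G.map (φ : K →+* K')) := by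
  obtain ⟨y, hy, rfl⟩ := h
  refine ⟨fun i => φ (y i), fun i => ℛ.le_exp P (hy i), ?_⟩
  rw [Polynomial.map_sum]
  refine Finset.sum_congr rfl fun i _ => ?_
  simp [Polynomial.map_mul, Polynomial.map_pow]

theorem stepg_sum {K : Type} [Field K] [Algebra ℂ K] [FF ℂ K] {N : ℕ} {A : Ad K N} (F : Frame A)
    (hA : A.Ok) (k k' : Fin N) :
    F.ht k + F.ht k' = tot fun P => lg P (F.B P k k * F.B P k' k') := by
  rw [Frame.ht, Frame.ht, ← tot_add (F.fs hA k) (F.fs hA k')]
  exact congrArg tot (funext fun P => (lg_mul P (F.ne P k) (F.ne P k')).symm)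

theorem p_STEPG (hBIN : S_BIN) (hFFEXT : S_FFEXT) (hRES : S_RES) (hROOT : S_ROOT) (hSTEPF : S_STEPF) :
    S_STEPG := by
  intro K _ _ _ N A T F k k' δ hA hT hk hδ hlt
  obtain ⟨c, hc⟩ := hBIN K T hT
  have hg : (0 : ℝ) < dg T := Nat.cast_pos.2 (dg_pos hT)
  obtain ⟨m, hm⟩ := exists_nat_gt (max (2 * (c : ℝ) / (δ * dg T)) 0)
  have hm0 : (0 : ℝ) < m := (le_max_right _ _).trans_lt hm
  have hm1 : 2 * (c : ℝ) < m * (δ * dg T) :=
    (div_lt_iff₀ (mul_pos hδ hg)).1 ((le_max_left _ _).trans_lt hm)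
  obtain ⟨G, b, hG, hb, hBin, htot⟩ := hc _ _ _ (stepg_tri F hA k k') m
  change 2 * tot b ≤ c - m * (F.ht k + F.ht k') at htot
  obtain ⟨K', _, _, _, φ, hsp⟩ := hFFEXT K T G hT
  obtain ⟨ℛ⟩ := hRES K K' φ T hT
  have hA' := hA.map φ
  have hd : (0 : ℝ) < ℛ.d := Nat.cast_pos.2 ℛ.dpos
  have hdg : (dg (φ T) : ℝ) = ℛ.d * dg T := by rw [ℛ.deg T hT]; push_cast; rfl
  have hroot := hROOT K' _ _ _ m (G.map (φ : K →+* K')) (fun P => ℛ.e P * b (ℛ.ρ P))
    (stepg_tri (ℛ.frame F) hA' k k') (Polynomial.map_ne_zero hG) hsp (ℛ.fs hb)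
    (fun P => stepg_bin ℛ P (hBin _))
  rw [ℛ.sum b hb] at hroot
  change m * (ℛ.frame F).ht k ≤ _ + m * ((ℛ.frame F).ht k + (ℛ.frame F).ht k') ∨
    ∃ ρ : K', _ ≤ _ + m * ((ℛ.frame F).ht k + (ℛ.frame F).ht k') at hroot
  rw [ℛ.frame_ht F hA, ℛ.frame_ht F hA] at hroot
  have htot' : 2 * (tot b : ℝ) ≤ c - m * (F.ht k + F.ht k') := by exact_mod_cast htot
  rcases hroot with h | ⟨ρ, h⟩
  · exfalso
    have h' : (m : ℝ) * (ℛ.d * F.ht k) ≤ ℛ.d * tot b + m * (ℛ.d * F.ht k + ℛ.d * F.ht k') := by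
      exact_mod_cast h
    have h1 : (0 : ℝ) ≤ ℛ.d * (tot b + m * F.ht k') := by linarith
    have h2 : (0 : ℝ) ≤ tot b + m * F.ht k' := (mul_nonneg_iff_of_pos_left hd).1 h1
    have h3 := mul_lt_mul_of_pos_left hlt hm0
    have h4 := mul_pos hm0 (mul_pos hδ hg)
    nlinarith
  · obtain ⟨F', hF'⟩ := hSTEPF K' N (A.map φ) (ℛ.frame F) k k' ρ hk
    have e1 : F'.ht k = tot fun P => lgm P ((ℛ.frame F).B P k k * ρ + (ℛ.frame F).B P k k')
        ((ℛ.frame F).B P k' k') :=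
      congrArg tot (funext fun P => by rw [lg, lgm, (hF' P).2.1])
    rw [← e1] at h
    have h' : (m : ℝ) * F'.ht k ≤ ℛ.d * tot b + m * (ℛ.d * F.ht k + ℛ.d * F.ht k') := by
      exact_mod_cast h
    refine ⟨K', inferInstance, inferInstance, inferInstance, φ, F', fun j h1 h2 => ?_, ?_, ?_⟩
    · have e2 : F'.ht j = (ℛ.frame F).ht j :=
        congrArg tot (funext fun P => by rw [(hF' P).1 j h1 h2])
      rw [e2, ℛ.frame_ht F hA, hdg]
      push_cast
      rw [mul_div_mul_left _ _ hd.ne']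
    · have e2 : F'.ht k + F'.ht k' = (ℛ.frame F).ht k + (ℛ.frame F).ht k' := by
        rw [stepg_sum F' hA', stepg_sum _ hA']
        exact congrArg tot (funext fun P => by rw [lg, lg, (hF' P).2.2])
      rw [ℛ.frame_ht F hA, ℛ.frame_ht F hA, ← mul_add] at e2
      have e3 : (F'.ht k : ℝ) + F'.ht k' = ℛ.d * (F.ht k + F.ht k') := by exact_mod_cast e2
      rw [e3, hdg, mul_div_mul_left _ _ hd.ne']
    · rw [hdg, div_le_iff₀ (mul_pos hd hg)]
      have e4 : ((F.ht k : ℝ) / dg T - δ / 4) * (ℛ.d * dg T) =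
          ℛ.d * (F.ht k - δ * dg T / 4) := by field_simp
      rw [e4]
      refine le_of_mul_le_mul_left (h'.trans ?_) hm0
      have h3 := mul_lt_mul_of_pos_left hlt hm0
      have h5 : (tot b : ℝ) + m * (F.ht k + F.ht k') ≤ m * (F.ht k - δ * dg T / 4) := by nlinarith
      nlinarith [mul_le_mul_of_nonneg_left h5 hd.le]

end

section

open Finset Matrix WithZero Polynomial Pool.Agent.P.MP_6f117a_ag

/-- The sum of all initial sums. -/
noncomputable def infPhi {N : ℕ} (h : Fin N → ℝ) : ℝ :=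
  ∑ s ∈ range (N + 1), ∑ k : Fin N with k.1 < s, h k

theorem inf_drop {N : ℕ} {h h' : Fin N → ℝ} {k k' : Fin N} {η : ℝ} (hk : (k' : ℕ) = k + 1)
    (h1 : ∀ j, j ≠ k → j ≠ k' → h' j = h j) (h2 : h' k + h' k' = h k + h k')
    (h3 : h' k ≤ h k - η) : infPhi h' ≤ infPhi h - η := by
  have hne : k ≠ k' := fun e => by rw [e] at hk; omega
  have key : ∀ s, ∑ j : Fin N with j.1 < s, h j - ∑ j : Fin N with j.1 < s, h' j =
      if s = k + 1 then h k - h' k else 0 := fun s => by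
    rw [← sum_sub_distrib, sum_filter, Finset.sum_eq_add_of_mem k k' (mem_univ _) (mem_univ _) hne
      fun j _ hj => by rw [h1 j hj.1 hj.2, sub_self, ite_self]]
    split_ifs <;> first | omega | linarith
  have e : infPhi h - infPhi h' = h k - h' k := by
    rw [infPhi, infPhi, ← sum_sub_distrib, sum_congr rfl fun s _ => key s, sum_ite_eq',
      if_pos (mem_range.2 (by omega))]
  linarith

theorem p_INF (hIWA : S_IWA) (hFRLOW : S_FRLOW) (hSTEPG : S_STEPG) :
    S_INF := by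
  intro K _ _ _ N A T δ hA hT hδ
  by_contra hn
  push Not at hn
  obtain ⟨c, hc⟩ := hFRLOW K N A T hA hT
  have low : ∀ (K' : Type) [Field K'] [Algebra ℂ K'] [FF ℂ K'] (φ : K →ₐ[ℂ] K')
      (F : Frame (A.map φ)), -((N + 1) * c) ≤ infPhi fun k => (F.ht k : ℝ) / dg (φ T) := by
    intro K' _ _ _ φ F
    have hd : (0 : ℝ) < dg (φ T) := by exact_mod_cast dg_pos (trans_map φ hT)
    have := card_nsmul_le_sum (range (N + 1))
      (fun s => ∑ k : Fin N with k.1 < s, (F.ht k : ℝ) / dg (φ T)) (-c) fun s _ => by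
        rw [← sum_div, le_div_iff₀ hd]; exact hc K' φ F s
    rw [card_range, nsmul_eq_mul] at this
    push_cast at this
    rw [infPhi]; linarith
  choose κ B h1 h2 h3 using fun P => hIWA K P N (A.loc P)⁻¹ (by
    rw [det_nonsing_inv, Ring.inverse_eq_inv]; exact inv_ne_zero (hA.loc P))
  let F0 : Frame (A.map (AlgHom.id ℂ K)) :=
    { X := 1, κ := κ, B := B, det := by simp, uni := h2, up := h3
      eq := fun P => by
        rw [A.map_id, Matrix.mul_assoc, ← h1,
          Matrix.mul_nonsing_inv _ (isUnit_iff_ne_zero.2 (hA.loc P))] }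
  have step : ∀ m : ℕ, ∃ (K' : Type) (_ : Field K') (_ : Algebra ℂ K') (_ : FF ℂ K')
      (φ : K →ₐ[ℂ] K') (F : Frame (A.map φ)), (infPhi fun k => (F.ht k : ℝ) / dg (φ T)) ≤
        (infPhi fun k => (F0.ht k : ℝ) / dg T) - m * (δ / 4) := by
    intro m
    induction m with
    | zero => exact ⟨K, _, _, ‹_›, AlgHom.id ℂ K, F0, by simp⟩
    | succ m ih =>
      obtain ⟨K', _, _, _, φ, F, hF⟩ := ih
      obtain ⟨k, k', hk, hb⟩ := hn K' _ _ ‹_› φ F
      obtain ⟨K'', _, _, _, ψ, F', a1, a2, a3⟩ :=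
        hSTEPG K' N (A.map φ) (φ T) F k k' δ (hA.map φ) (trans_map φ hT) hk hδ hb
      refine ⟨K'', _, _, ‹_›, ψ.comp φ, F', ?_⟩
      have := inf_drop (h := fun k => (F.ht k : ℝ) / dg (φ T))
        (h' := fun k => (F'.ht k : ℝ) / dg (ψ (φ T))) hk a1 (by simpa only [add_div] using a2) a3
      push_cast
      refine this.trans ?_
      linarith
  obtain ⟨m, hm⟩ := exists_nat_gt
    (((infPhi fun k => (F0.ht k : ℝ) / dg T) + (N + 1) * c) / (δ / 4))
  obtain ⟨K', _, _, _, φ, F, hF⟩ := step m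
  rw [div_lt_iff₀ (by positivity)] at hm
  linarith [low K' φ F]

end

section

open Finset Matrix WithZero Polynomial Pool.Agent.P.MP_6f117a_ag

theorem lead_mul (hS1 : S_S1) {N Z : ℕ} {R : Type} [CommRing R] (g h : Matrix (Fin N) (Fin N) R)
    (c : (Fin N → ℕ) → R) (i : Fin N → ℕ) : act Z (g * h) c i = act Z h (act Z g c) i := by
  unfold act
  simp only [Finset.mul_sum]
  rw [Finset.sum_comm]
  refine Finset.sum_congr rfl fun z hz => ?_
  rw [hS1 N Z R g h i z hz, Finset.sum_mul]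
  exact Finset.sum_congr rfl fun y _ => mul_assoc _ _ _

theorem lead_tri (hS5 : S_S5) {N Z : ℕ} {R : Type} [CommRing R] (B : Matrix (Fin N) (Fin N) R)
    (hB : Up B) (d : (Fin N → ℕ) → R) (y : Fin N → ℕ) (hy : y ∈ Sx N Z)
    (h : ∀ z ∈ Sx N Z, wt z < wt y → d z = 0) : act Z B d y = (∏ k, B k k ^ y k) * d y := by
  unfold act
  rw [Finset.sum_eq_single_of_mem y hy, (hS5 N R B hB y).1]
  intro z hz hne
  by_cases h0 : sym B y z = 0
  · rw [h0, zero_mul]
  · rcases (hS5 N R B hB z).2 y h0 with e | e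
    · exact absurd e.symm hne
    · rw [h z hz e, mul_zero]

theorem p_LEAD (hS1 : S_S1) (hS2 : S_S2) (hS5 : S_S5) (hS9 : S_S9) :
    S_LEAD := by
  intro K _ _ _ N Z A F c b hA hc hb hv
  classical
  have h1 : ∃ z ∈ Sx N Z, act Z F.X c z ≠ 0 := by
    by_contra h0
    push Not at h0
    obtain ⟨z, hz, hz0⟩ := hc
    have e := lead_mul hS1 (Z := Z) F.X F.X⁻¹ c z
    rw [Matrix.mul_nonsing_inv _ (isUnit_iff_ne_zero.2 F.det)] at e
    have e1 : act Z (1 : Matrix (Fin N) (Fin N) K) c z = c z := by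
      unfold act
      rw [Finset.sum_eq_single_of_mem z hz, (hS2 N K (fun _ => 1) 1 z z).2.1, if_pos rfl, one_mul]
      intro y _ hy
      rw [(hS2 N K (fun _ => 1) 1 z y).2.1, if_neg hy.symm, zero_mul]
    have e2 : act Z F.X⁻¹ (act Z F.X c) z = 0 :=
      Finset.sum_eq_zero fun y hy => by rw [h0 y hy, mul_zero]
    exact hz0 (by rw [← e1, e, e2])
  obtain ⟨z, hz, hm⟩ := Finset.exists_min_image ((Sx N Z).filter fun z => act Z F.X c z ≠ 0) wt
    (by obtain ⟨z, h, h'⟩ := h1; exact ⟨z, Finset.mem_filter.2 ⟨h, h'⟩⟩)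
  obtain ⟨hz, hz0⟩ := Finset.mem_filter.1 hz
  refine ⟨z, hz, ?_⟩
  have key : ∀ P, lg P (act Z F.X c z) ≤ b P + ∑ k, (z k : ℤ) * lg P (F.B P k k) := by
    intro P
    set dd := act Z (F.κ P) (act Z (A.loc P) c) with hdd
    have e : ∀ y, act Z F.X c y = act Z (F.B P) dd y := fun y => by
      rw [F.eq P, lead_mul hS1]
      congr 1
      funext x
      exact lead_mul hS1 _ _ c x
    have pne : ∀ y : Fin N → ℕ, ∏ k, F.B P k k ^ y k ≠ 0 := fun y =>
      Finset.prod_ne_zero_iff.2 fun k _ => pow_ne_zero _ (F.ne P k)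
    have low : ∀ m, ∀ y ∈ Sx N Z, wt y = m → wt y < wt z → dd y = 0 := by
      intro m
      induction m using Nat.strong_induction_on with
      | _ m ih =>
        intro y hy hym hyz
        have t := lead_tri hS5 _ (F.up P) dd y hy fun x hx hxy =>
          ih _ (hym ▸ hxy) x hx rfl (hxy.trans hyz)
        have : act Z F.X c y = 0 := by_contra fun h0 =>
          absurd (hm y (Finset.mem_filter.2 ⟨hy, h0⟩)) (not_le.2 hyz)
        rw [← e, this] at t
        exact (mul_eq_zero.1 t.symm).resolve_left (pne y)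
    have t := lead_tri hS5 _ (F.up P) dd z hz fun x hx hxz => low _ x hx rfl hxz
    rw [← e] at t
    have d0 : dd z ≠ 0 := fun h0 => hz0 (by rw [t, h0, mul_zero])
    have dv : P.v (dd z) ≤ exp (b P) := by
      refine P.v.map_sum_le fun y hy => ?_
      have : P.v (sym (F.κ P) z y) ≤ 1 :=
        hS9 N K P.v.integer (F.κ P) (fun k l => (F.uni P).1 k l) z y
      rw [map_mul]
      exact (mul_le_mul' this (hv P y hy)).trans_eq (one_mul _)
    rw [t, lg_mul P (pne z) d0, lg_prod P _ _ fun k _ => pow_ne_zero _ (F.ne P k), add_comm]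
    simp only [lg_pow]
    exact add_le_add_left ((lg_le_iff P d0).2 dv) _
  have fk : ∀ k ∈ (univ : Finset (Fin N)), Fs fun P => (z k : ℤ) * lg P (F.B P k k) :=
    fun k _ => (F.fs hA k).mul fun _ => z k
  have := tot_le (fs_lg _) (hb.add (fs_sum _ _ fk)) key
  rw [tot_lg, tot_add hb (fs_sum _ _ fk), tot_sum _ _ fk] at this
  simpa only [tot_mul _ (F.fs hA _), Frame.ht] using this

end

section

open Finset Matrix WithZero Polynomial Pool.Agent.P.MP_6f117a_ag

theorem p_LAST :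
    S_LAST := by
  intro K _ _ N A F k hk
  have hX : IsUnit F.X.det := isUnit_iff_ne_zero.2 F.det
  refine ⟨Pi.single k 1 ᵥ* F.X⁻¹, fun h => ?_, fun P => ?_⟩
  · have h1 := congrArg (fun v => (v ᵥ* F.X) k) h
    simp only [Matrix.vecMul_vecMul, Matrix.nonsing_inv_mul _ hX, Matrix.vecMul_one,
      Matrix.zero_vecMul] at h1
    simp at h1
  · have hk0 := F.ne P k
    have hB : IsUnit (F.B P).det := isUnit_iff_ne_zero.2 (by
      rw [(F.up P).det]; exact Finset.prod_ne_zero_iff.2 fun i _ => F.ne P i)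
    have hκ : IsUnit (F.κ P).det := isUnit_iff_ne_zero.2 (F.uni P).det_ne
    have h1 : Pi.single k (F.B P k k)⁻¹ ᵥ* F.B P = Pi.single k 1 := by
      ext l
      rw [Matrix.single_vecMul]
      by_cases hl : l = k
      · subst hl; simp [hk0]
      · have : l < k := by
          have h2 := l.2
          have h3 : (l : ℕ) ≠ k := fun e => hl (Fin.ext e)
          exact Fin.lt_def.2 (by omega)
        simp [F.up P k l this, hl]
    have h2 : F.X⁻¹ * A.loc P = (F.B P)⁻¹ * (F.κ P)⁻¹ := by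
      have h3 : A.loc P = F.X * ((F.B P)⁻¹ * (F.κ P)⁻¹) := by
        rw [← Matrix.mul_assoc, F.eq P, Matrix.mul_nonsing_inv_cancel_right _ _ hB,
          Matrix.mul_nonsing_inv_cancel_right _ _ hκ]
      rw [h3, Matrix.nonsing_inv_mul_cancel_left _ _ hX]
    rw [Matrix.vecMul_vecMul, h2, ← h1, Matrix.vecMul_vecMul,
      Matrix.mul_nonsing_inv_cancel_left _ _ hB]
    refine Bd.vecMul (fun i => ?_) (F.uni P).inv.1
    rw [Pi.single_apply]
    split_ifs
    · rw [← lg_inv, exp_lg P (inv_ne_zero hk0)]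
    · simp

end

section

open Finset Matrix WithZero Polynomial Pool.Agent.P.MP_6f117a_ag

theorem tp_chain {N : ℕ} (h : Fin N → ℝ) (ε : ℝ) (hε : 0 ≤ ε) (l : Fin N) (hl : (l : ℕ) + 1 = N)
    (H : ∀ k k' : Fin N, (k' : ℕ) = k + 1 → h k ≤ h k' + ε) (k : Fin N) : h k ≤ h l + N * ε := by
  have key : ∀ (j : ℕ) (k : Fin N), (k : ℕ) + j = l → h k ≤ h l + j * ε := by
    intro j
    induction j with
    | zero => intro k hk; rw [Fin.ext (show (k : ℕ) = l by omega)]; simp
    | succ j ih =>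
      intro k hk
      have h1 := ih ⟨k + 1, by omega⟩ (by simp only; omega)
      have h2 := H k ⟨k + 1, by omega⟩ rfl
      push_cast; linarith
  have h1 := key (l - k) k (by have := k.2; omega)
  have h2 : ((l - k : ℕ) : ℝ) ≤ N := by exact_mod_cast (by omega : (l : ℕ) - k ≤ N)
  exact h1.trans (by have := mul_le_mul_of_nonneg_right h2 hε; linarith)

theorem tp_act (hS3 : S_S3) {K K' : Type} [Field K] [Algebra ℂ K] [Field K'] [Algebra ℂ K']
    (φ : K →ₐ[ℂ] K') {N : ℕ} (Z : ℕ) (g : Matrix (Fin N) (Fin N) K) (c : (Fin N → ℕ) → K)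
    (i : Fin N → ℕ) : act Z (g.map φ) (fun z => φ (c z)) i = φ (act Z g c i) := by
  simp only [act, map_sum, map_mul]
  exact Finset.sum_congr rfl fun z _ => by
    rw [show g.map φ = g.map (φ : K →+* K') from rfl, hS3]; rfl

theorem p_TP (hINF : S_INF) (hLEAD : S_LEAD) (hLAST : S_LAST) (hRES : S_RES) (hS3 : S_S3) :
    S_TP := by
  intro K _ _ _ N Z A T μ c b hN hA hT hL hc hb H
  have hg : (0 : ℝ) < dg T := by exact_mod_cast dg_pos hT
  have main : ∀ δ : ℝ, 0 < δ → Z * μ * dg T ≤ (tot b : ℤ) + Z * (N * δ) * dg T := by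
    intro δ hδ
    obtain ⟨K', _, _, _, φ, F, hF⟩ := hINF K N A T δ hA hT hδ
    obtain ⟨R⟩ := hRES K K' φ T hT
    have hA' := hA.map φ
    let l : Fin N := ⟨N - 1, by omega⟩
    have hl : (l : ℕ) + 1 = N := by simp only [l]; omega
    obtain ⟨lam, h0, h1⟩ := hLAST K' N (A.map φ) F l hl
    have h2 := hL K' φ lam _ h0 (F.fs hA' l).neg h1
    rw [tot_neg] at h2
    have h3 : μ * dg (φ T) ≤ -(F.ht l : ℝ) := by rw [Frame.ht]; exact_mod_cast h2
    have h4 := tp_chain (fun k => (F.ht k : ℝ)) (δ * dg (φ T)) (by positivity) l hl hF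
    obtain ⟨z, hz, h5⟩ := hLEAD K' N Z (A.map φ) F (fun z => φ (c z))
      (fun P => R.e P * b (R.ρ P)) hA'
      (by obtain ⟨z, hz, h⟩ := hc; exact ⟨z, hz, (map_ne_zero φ).2 h⟩) (R.fs hb)
      (fun P i hi => by rw [R.loc_map, tp_act hS3]; exact R.le_exp P (H _ i hi))
    rw [R.sum b hb] at h5
    have h6 : (0 : ℝ) ≤ R.d * (tot b : ℤ) + ∑ k, (z k : ℝ) * F.ht k := by exact_mod_cast h5
    have h7 : ∑ k, (z k : ℝ) * F.ht k ≤ Z * (-(μ * dg (φ T)) + N * (δ * dg (φ T))) := by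
      rw [← mem_Sx.1 hz, Nat.cast_sum, Finset.sum_mul]
      exact Finset.sum_le_sum fun k _ => mul_le_mul_of_nonneg_left
        (by have := h4 k; linarith) (Nat.cast_nonneg _)
    rw [R.deg T hT, Nat.cast_mul] at h7
    have hd : (0 : ℝ) < R.d := by exact_mod_cast R.dpos
    refine le_of_mul_le_mul_left ?_ hd
    linarith
  refine le_of_forall_pos_le_add fun ε hε => ?_
  have hp : (0 : ℝ) < (Z + 1) * N * dg T := by positivity
  refine (main (ε / ((Z + 1) * N * dg T)) (by positivity)).trans ?_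
  have e : (Z : ℝ) * (N * (ε / ((Z + 1) * N * dg T))) * dg T = ε * (Z / (Z + 1)) := by
    have : (N : ℝ) ≠ 0 := by positivity
    field_simp
  rw [e]
  have : (Z : ℝ) / (Z + 1) ≤ 1 := div_le_one_of_le₀ (by linarith) (by positivity)
  nlinarith

end

section

open Finset Matrix WithZero Polynomial Pool.Agent.P.MP_6f117a_ag

theorem p_SPI :
    S_SPI := by
  intro s N μ ν q M hμ hq h
  have key : ∀ x : Fin s → ℂ[X], (q • x) ᵥ* μ = (x ᵥ* M) ᵥ* ν := fun x => by
    rw [Matrix.vecMul_vecMul, ← h, Matrix.vecMul_smul, Matrix.smul_vecMul]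
  have hd : M.det ≠ 0 := fun h0 => by
    obtain ⟨x, hx, hx0⟩ := Matrix.exists_vecMul_eq_zero_iff.2 h0
    have := hμ (q • x) (by rw [key, hx0, Matrix.zero_vecMul])
    exact hx ((smul_eq_zero.1 this).resolve_left hq)
  refine ⟨hd, fun x hx => ?_⟩
  have h1 : (x ᵥ* M.adjugate) ᵥ* M = M.det • x := by
    rw [Matrix.vecMul_vecMul, Matrix.adjugate_mul, Matrix.vecMul_smul, Matrix.vecMul_one]
  have h2 := hμ (q • (x ᵥ* M.adjugate)) (by rw [key, h1, Matrix.smul_vecMul, hx, smul_zero])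
  have h3 := (smul_eq_zero.1 h2).resolve_left hq
  rw [h3, Matrix.zero_vecMul] at h1
  exact (smul_eq_zero.1 h1.symm).resolve_left hd

end

section

open Finset Matrix WithZero Polynomial Pool.Agent.P.MP_6f117a_ag

theorem pk_term {n k d : ℕ} (hn : 0 < n) (p : ℂ[X]) :
    (X ^ d * expand ℂ n p).coeff k =
      if d ≤ k ∧ n ∣ k - d then p.coeff ((k - d) / n) else 0 := by
  rw [coeff_X_pow_mul', coeff_expand hn]
  by_cases h1 : d ≤ k <;> by_cases h2 : n ∣ k - d <;> simp [h1, h2]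

theorem p_PK :
    S_PK := by
  intro N n e hn he hlt
  have c1 : ∀ (w : Fin N → ℂ[X]) i m, (pk n e w).coeff (e i + n * m) = (w i).coeff m := by
    intro w i m
    rw [pk, finsetSum_coeff, Finset.sum_eq_single i _ (by simp), pk_term hn,
      if_pos ⟨Nat.le_add_right _ _, by simp⟩, Nat.add_sub_cancel_left, Nat.mul_div_cancel_left _ hn]
    intro j _ hj
    rw [pk_term hn, if_neg]
    rintro ⟨h1, c, h2⟩
    have h3 : e i + n * m = e j + n * c := by omega
    have h4 := congrArg (· % n) h3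
    simp only [Nat.add_mul_mod_self_left, Nat.mod_eq_of_lt (hlt _)] at h4
    exact hj (he h4).symm
  have c4 : ∀ (q : ℂ[X]) (w : Fin N → ℂ[X]), pk n e (q • w) = expand ℂ n q * pk n e w := by
    intro q w
    simp only [pk, Finset.mul_sum, Pi.smul_apply, smul_eq_mul, map_mul]
    exact Finset.sum_congr rfl fun i _ => by ring
  refine ⟨c1, fun w k hk => ?_, fun w => ⟨fun h => ?_, fun h => by simp [h, pk]⟩, c4,
    fun w w' => ?_, fun s x μ => ?_⟩
  · rw [pk, finsetSum_coeff] at hk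
    obtain ⟨i, -, hi⟩ := Finset.exists_ne_zero_of_sum_ne_zero hk
    rw [pk_term hn] at hi
    obtain ⟨⟨h1, c, h2⟩, -⟩ := ite_ne_right_iff.1 hi
    exact ⟨i, c, by omega⟩
  · funext i
    ext m
    rw [← c1, h]
    simp
  · simp only [pk, Pi.add_apply, map_add, mul_add, Finset.sum_add_distrib]
  · simp only [pk, Matrix.vecMul, dotProduct, map_sum, map_mul, Finset.mul_sum]
    rw [Finset.sum_comm]
    exact Finset.sum_congr rfl fun j _ => Finset.sum_congr rfl fun i _ => by ring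

end

end Pool.Agent.P.MP_09c11a_nt.W
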