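import Pool.Agent.P.MP_09c11a_nt.W.IfaceZ
import Pool.Agent.P.MP_09c11a_nt.W.IfaceS

/-! Proofs of the steps RED1, RED2, RED3, RED, FSGAL. -/

set_option autoImplicit false
set_option linter.unusedSectionVars false
set_option linter.unusedVariables false

namespace Pool.Agent.P.MP_09c11a_nt.W

section

open Finset Matrix WithZero Polynomial Pool.Agent.P.MP_6f117a_ag

theorem red1_sp {s N : ℕ} (μ : Matrix (Fin s) (Fin N) ℂ[X]) {j j' : Fin s} (hj : j ≠ j')
    (a b : ℂ[X]) (ha : a ≠ 0) : Sp μ (μ.updateRow j (a • μ j + (-b) • μ j')) := by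
  classical
  refine ⟨a, Matrix.of fun i k => if i = j then (if k = j then 1 else if k = j' then b else 0)
    else (if k = i then a else 0), ha, ?_⟩
  ext1 i c
  rw [Matrix.mul_apply]
  by_cases hi : i = j
  · subst hi
    rw [Finset.sum_eq_add i j' hj]
    · simp [hj.symm]
    · intro k _ hk
      simp [hk.1, hk.2]
    · simp
    · simp
  · rw [Finset.sum_eq_single i]
    · simp [hi]
    · intro k _ hk
      simp [hi, hk]
    · simp

theorem red1_ne {s N : ℕ} (μ : Matrix (Fin s) (Fin N) ℂ[X]) (hμ : Ind μ) {j j' : Fin s}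
    (hj : j ≠ j') (a b : ℂ[X]) (ha : a ≠ 0) : a • μ j + b • μ j' ≠ 0 := by
  classical
  intro h
  have h1 : (Pi.single j a + Pi.single j' b : Fin s → ℂ[X]) ᵥ* μ = 0 := by
    rw [Matrix.add_vecMul, Matrix.single_vecMul, Matrix.single_vecMul]
    exact h
  have h2 := congrFun (hμ _ h1) j
  simp [Pi.single_eq_of_ne hj] at h2
  exact ha h2

theorem red1_row {s N : ℕ} (μ : Matrix (Fin s) (Fin N) ℂ[X]) (hμ : Ind μ) (j : Fin s) :
    μ j ≠ 0 := by
  classical
  intro h
  have h1 : (Pi.single j 1 : Fin s → ℂ[X]) ᵥ* μ = 0 := by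
    rw [Matrix.single_vecMul]
    simp [Matrix.row, h]
  have h2 := congrFun (hμ _ h1) j
  simp at h2

theorem red1_sum {s N : ℕ} (n : ℕ) (e : Fin N → ℕ) (μ : Matrix (Fin s) (Fin N) ℂ[X]) (j : Fin s)
    (w : Fin N → ℂ[X]) (hw : wd n e w < wd n e (μ j)) :
    ∑ i, wd n e (μ.updateRow j w i) < ∑ i, wd n e (μ i) := by
  classical
  refine Finset.sum_lt_sum (fun i _ => ?_) ⟨j, Finset.mem_univ _, ?_⟩
  · by_cases hi : i = j
    · subst hi
      rw [Matrix.updateRow_self]
      exact hw.le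
    · rw [Matrix.updateRow_ne hi]
  · rw [Matrix.updateRow_self]
    exact hw

theorem red1_main (hPK : S_PK) {s N n : ℕ} {e : Fin N → ℕ} (μ : Matrix (Fin s) (Fin N) ℂ[X])
    (hn : 0 < n) (he : Function.Injective e) (hlt : ∀ i, e i < n) (hμ : Ind μ) {j j' : Fin s}
    (hj : j ≠ j') (m m' : ℕ) (c : ℂ)
    (h : X ^ (n * m) * pk n e (μ j) - C c * (X ^ (n * m') * pk n e (μ j')) ≠ 0 →
      (X ^ (n * m) * pk n e (μ j) - C c * (X ^ (n * m') * pk n e (μ j'))).natDegree -
        (X ^ (n * m) * pk n e (μ j) - C c * (X ^ (n * m') * pk n e (μ j'))).natTrailingDegree <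
      (pk n e (μ j)).natDegree - (pk n e (μ j)).natTrailingDegree) :
    ∃ ν, Sp μ ν ∧ ∑ j, wd n e (ν j) < ∑ j, wd n e (μ j) := by
  obtain ⟨-, -, h0, hs, hadd, -⟩ := hPK N n e hn he hlt
  have ha : (X ^ m : ℂ[X]) ≠ 0 := pow_ne_zero _ X_ne_zero
  refine ⟨_, red1_sp μ hj (X ^ m) (C c * X ^ m') ha, red1_sum n e μ j _ ?_⟩
  have hp : pk n e ((X ^ m : ℂ[X]) • μ j + (-(C c * X ^ m') : ℂ[X]) • μ j') =
      X ^ (n * m) * pk n e (μ j) - C c * (X ^ (n * m') * pk n e (μ j')) := by
    rw [hadd, hs, hs]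
    simp only [map_neg, map_mul, map_pow, expand_X, expand_C, pow_mul]
    ring
  have hne := red1_ne μ hμ hj (X ^ m) (-(C c * X ^ m')) ha
  unfold wd
  rw [hp]
  apply h
  rw [← hp]
  exact fun h' => hne ((h0 _).1 h')

theorem red1_poly (n : ℕ) (f g : ℂ[X]) (hf : f ≠ 0) (hg : g ≠ 0)
    (hr : f.natTrailingDegree % n = g.natTrailingDegree % n)
    (hw : g.natDegree - g.natTrailingDegree ≤ f.natDegree - f.natTrailingDegree) :
    ∃ (m m' : ℕ) (c : ℂ), X ^ (n * m) * f - C c * (X ^ (n * m') * g) ≠ 0 →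
      (X ^ (n * m) * f - C c * (X ^ (n * m') * g)).natDegree -
        (X ^ (n * m) * f - C c * (X ^ (n * m') * g)).natTrailingDegree <
      f.natDegree - f.natTrailingDegree := by
  refine ⟨g.natTrailingDegree / n, f.natTrailingDegree / n, f.trailingCoeff / g.trailingCoeff,
    fun hh => ?_⟩
  have e1 := Nat.div_add_mod f.natTrailingDegree n
  have e2 := Nat.div_add_mod g.natTrailingDegree n
  have hgc : g.trailingCoeff ≠ 0 := mt trailingCoeff_eq_zero.1 hg
  have l1 := natTrailingDegree_le_natDegree f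
  have l2 := natTrailingDegree_le_natDegree g
  generalize n * (g.natTrailingDegree / n) = u at *
  generalize n * (f.natTrailingDegree / n) = v at *
  set h := X ^ u * f - C (f.trailingCoeff / g.trailingCoeff) * (X ^ v * g) with hdef
  have hlo : u + f.natTrailingDegree + 1 ≤ h.natTrailingDegree := by
    refine le_natTrailingDegree hh fun k hk => ?_
    rw [hdef, coeff_sub, coeff_C_mul, coeff_X_pow_mul', coeff_X_pow_mul']
    rcases Nat.lt_succ_iff_lt_or_eq.1 hk with hk | hk
    · have a1 : (if u ≤ k then f.coeff (k - u) else 0) = 0 := by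
        split_ifs with h1
        · exact coeff_eq_zero_of_lt_natTrailingDegree (by omega)
        · rfl
      have a2 : (if v ≤ k then g.coeff (k - v) else 0) = 0 := by
        split_ifs with h1
        · exact coeff_eq_zero_of_lt_natTrailingDegree (by omega)
        · rfl
      rw [a1, a2]
      simp
    · rw [if_pos (by omega), if_pos (by omega), show k - u = f.natTrailingDegree by omega,
        show k - v = g.natTrailingDegree by omega]
      change f.trailingCoeff - _ * g.trailingCoeff = 0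
      field_simp
      ring
  have hhi : h.natDegree ≤ u + f.natDegree := by
    refine natDegree_le_iff_coeff_eq_zero.2 fun k hk => ?_
    rw [hdef, coeff_sub, coeff_C_mul, coeff_X_pow_mul', coeff_X_pow_mul']
    have a1 : (if u ≤ k then f.coeff (k - u) else 0) = 0 := by
      split_ifs with h1
      · exact coeff_eq_zero_of_natDegree_lt (by omega)
      · rfl
    have a2 : (if v ≤ k then g.coeff (k - v) else 0) = 0 := by
      split_ifs with h1
      · exact coeff_eq_zero_of_natDegree_lt (by omega)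
      · rfl
    rw [a1, a2]
    simp
  have l3 := natTrailingDegree_le_natDegree h
  omega

theorem p_RED1 (hPK : S_PK) :
    S_RED1 := by
  intro s N n e μ hn he hlt hμ hni
  obtain ⟨j, j', hr, hj⟩ := Function.not_injective_iff.1 hni
  have h0 := (hPK N n e hn he hlt).2.2.1
  have hf : pk n e (μ j) ≠ 0 := fun h => red1_row μ hμ j ((h0 _).1 h)
  have hg : pk n e (μ j') ≠ 0 := fun h => red1_row μ hμ j' ((h0 _).1 h)
  rcases le_total (wd n e (μ j')) (wd n e (μ j)) with hw | hw
  · obtain ⟨m, m', c, h⟩ := red1_poly n _ _ hf hg hr hw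
    exact red1_main hPK μ hn he hlt hμ hj m m' c h
  · obtain ⟨m, m', c, h⟩ := red1_poly n _ _ hg hf hr.symm hw
    exact red1_main hPK μ hn he hlt hμ (Ne.symm hj) m m' c h

end

section

open Finset Matrix WithZero Polynomial Pool.Agent.P.MP_6f117a_ag

theorem red2_sp {s N : ℕ} (μ : Matrix (Fin s) (Fin N) ℂ[X]) {j j' : Fin s} (hj : j ≠ j')
    (a b : ℂ[X]) (ha : a ≠ 0) : Sp μ (μ.updateRow j (a • μ j + (-b) • μ j')) := by
  classical
  refine ⟨a, Matrix.of fun i k => if i = j then (if k = j then 1 else if k = j' then b else 0)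
    else (if k = i then a else 0), ha, ?_⟩
  ext1 i c
  rw [Matrix.mul_apply]
  by_cases hi : i = j
  · subst hi
    rw [Finset.sum_eq_add i j' hj]
    · simp [hj.symm]
    · intro k _ hk
      simp [hk.1, hk.2]
    · simp
    · simp
  · rw [Finset.sum_eq_single i]
    · simp [hi]
    · intro k _ hk
      simp [hi, hk]
    · simp

theorem red2_ne {s N : ℕ} (μ : Matrix (Fin s) (Fin N) ℂ[X]) (hμ : Ind μ) {j j' : Fin s}
    (hj : j ≠ j') (a b : ℂ[X]) (ha : a ≠ 0) : a • μ j + b • μ j' ≠ 0 := by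
  classical
  intro h
  have h1 : (Pi.single j a + Pi.single j' b : Fin s → ℂ[X]) ᵥ* μ = 0 := by
    rw [Matrix.add_vecMul, Matrix.single_vecMul, Matrix.single_vecMul]
    exact h
  have h2 := congrFun (hμ _ h1) j
  simp [Pi.single_eq_of_ne hj] at h2
  exact ha h2

theorem red2_row {s N : ℕ} (μ : Matrix (Fin s) (Fin N) ℂ[X]) (hμ : Ind μ) (j : Fin s) :
    μ j ≠ 0 := by
  classical
  intro h
  have h1 : (Pi.single j 1 : Fin s → ℂ[X]) ᵥ* μ = 0 := by
    rw [Matrix.single_vecMul]
    simp [Matrix.row, h]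
  have h2 := congrFun (hμ _ h1) j
  simp at h2

theorem red2_sum {s N : ℕ} (n : ℕ) (e : Fin N → ℕ) (μ : Matrix (Fin s) (Fin N) ℂ[X]) (j : Fin s)
    (w : Fin N → ℂ[X]) (hw : wd n e w < wd n e (μ j)) :
    ∑ i, wd n e (μ.updateRow j w i) < ∑ i, wd n e (μ i) := by
  classical
  refine Finset.sum_lt_sum (fun i _ => ?_) ⟨j, Finset.mem_univ _, ?_⟩
  · by_cases hi : i = j
    · subst hi
      rw [Matrix.updateRow_self]
      exact hw.le
    · rw [Matrix.updateRow_ne hi]
  · rw [Matrix.updateRow_self]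
    exact hw

theorem red2_main (hPK : S_PK) {s N n : ℕ} {e : Fin N → ℕ} (μ : Matrix (Fin s) (Fin N) ℂ[X])
    (hn : 0 < n) (he : Function.Injective e) (hlt : ∀ i, e i < n) (hμ : Ind μ) {j j' : Fin s}
    (hj : j ≠ j') (m m' : ℕ) (c : ℂ)
    (h : X ^ (n * m) * pk n e (μ j) - C c * (X ^ (n * m') * pk n e (μ j')) ≠ 0 →
      (X ^ (n * m) * pk n e (μ j) - C c * (X ^ (n * m') * pk n e (μ j'))).natDegree -
        (X ^ (n * m) * pk n e (μ j) - C c * (X ^ (n * m') * pk n e (μ j'))).natTrailingDegree <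
      (pk n e (μ j)).natDegree - (pk n e (μ j)).natTrailingDegree) :
    ∃ ν, Sp μ ν ∧ ∑ j, wd n e (ν j) < ∑ j, wd n e (μ j) := by
  obtain ⟨-, -, h0, hs, hadd, -⟩ := hPK N n e hn he hlt
  have ha : (X ^ m : ℂ[X]) ≠ 0 := pow_ne_zero _ X_ne_zero
  refine ⟨_, red2_sp μ hj (X ^ m) (C c * X ^ m') ha, red2_sum n e μ j _ ?_⟩
  have hp : pk n e ((X ^ m : ℂ[X]) • μ j + (-(C c * X ^ m') : ℂ[X]) • μ j') =
      X ^ (n * m) * pk n e (μ j) - C c * (X ^ (n * m') * pk n e (μ j')) := by
    rw [hadd, hs, hs]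
    simp only [map_neg, map_mul, map_pow, expand_X, expand_C, pow_mul]
    ring
  have hne := red2_ne μ hμ hj (X ^ m) (-(C c * X ^ m')) ha
  unfold wd
  rw [hp]
  apply h
  rw [← hp]
  exact fun h' => hne ((h0 _).1 h')

theorem red2_poly (n : ℕ) (f g : ℂ[X]) (hf : f ≠ 0) (hg : g ≠ 0)
    (hr : f.natDegree % n = g.natDegree % n)
    (hw : g.natDegree - g.natTrailingDegree ≤ f.natDegree - f.natTrailingDegree) :
    ∃ (m m' : ℕ) (c : ℂ), X ^ (n * m) * f - C c * (X ^ (n * m') * g) ≠ 0 →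
      (X ^ (n * m) * f - C c * (X ^ (n * m') * g)).natDegree -
        (X ^ (n * m) * f - C c * (X ^ (n * m') * g)).natTrailingDegree <
      f.natDegree - f.natTrailingDegree := by
  refine ⟨g.natDegree / n, f.natDegree / n, f.leadingCoeff / g.leadingCoeff, fun hh => ?_⟩
  have e1 := Nat.div_add_mod f.natDegree n
  have e2 := Nat.div_add_mod g.natDegree n
  have hgc : g.leadingCoeff ≠ 0 := leadingCoeff_ne_zero.2 hg
  have l1 := natTrailingDegree_le_natDegree f
  have l2 := natTrailingDegree_le_natDegree g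
  generalize n * (g.natDegree / n) = u at *
  generalize n * (f.natDegree / n) = v at *
  set h := X ^ u * f - C (f.leadingCoeff / g.leadingCoeff) * (X ^ v * g) with hdef
  have hlo : u + f.natTrailingDegree ≤ h.natTrailingDegree := by
    refine le_natTrailingDegree hh fun k hk => ?_
    rw [hdef, coeff_sub, coeff_C_mul, coeff_X_pow_mul', coeff_X_pow_mul']
    have a1 : (if u ≤ k then f.coeff (k - u) else 0) = 0 := by
      split_ifs with h1
      · exact coeff_eq_zero_of_lt_natTrailingDegree (by omega)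
      · rfl
    have a2 : (if v ≤ k then g.coeff (k - v) else 0) = 0 := by
      split_ifs with h1
      · exact coeff_eq_zero_of_lt_natTrailingDegree (by omega)
      · rfl
    rw [a1, a2]
    simp
  have hhi : h.natDegree < u + f.natDegree := by
    by_contra hk
    apply leadingCoeff_ne_zero.2 hh
    change h.coeff h.natDegree = 0
    generalize h.natDegree = k at hk
    rw [hdef, coeff_sub, coeff_C_mul, coeff_X_pow_mul', coeff_X_pow_mul']
    rcases (not_lt.1 hk).lt_or_eq with hk | hk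
    · have a1 : (if u ≤ k then f.coeff (k - u) else 0) = 0 := by
        split_ifs with h1
        · exact coeff_eq_zero_of_natDegree_lt (by omega)
        · rfl
      have a2 : (if v ≤ k then g.coeff (k - v) else 0) = 0 := by
        split_ifs with h1
        · exact coeff_eq_zero_of_natDegree_lt (by omega)
        · rfl
      rw [a1, a2]
      simp
    · rw [if_pos (by omega), if_pos (by omega), show k - u = f.natDegree by omega,
        show k - v = g.natDegree by omega]
      change f.leadingCoeff - _ * g.leadingCoeff = 0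
      field_simp
      ring
  have l3 := natTrailingDegree_le_natDegree h
  omega

theorem p_RED2 (hPK : S_PK) :
    S_RED2 := by
  intro s N n e μ hn he hlt hμ hni
  obtain ⟨j, j', hr, hj⟩ := Function.not_injective_iff.1 hni
  have h0 := (hPK N n e hn he hlt).2.2.1
  have hf : pk n e (μ j) ≠ 0 := fun h => red2_row μ hμ j ((h0 _).1 h)
  have hg : pk n e (μ j') ≠ 0 := fun h => red2_row μ hμ j' ((h0 _).1 h)
  rcases le_total (wd n e (μ j')) (wd n e (μ j)) with hw | hw
  · obtain ⟨m, m', c, h⟩ := red2_poly n _ _ hf hg hr hw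
    exact red2_main hPK μ hn he hlt hμ hj m m' c h
  · obtain ⟨m, m', c, h⟩ := red2_poly n _ _ hg hf hr.symm hw
    exact red2_main hPK μ hn he hlt hμ (Ne.symm hj) m m' c h

end

section

open Finset Matrix WithZero Polynomial Pool.Agent.P.MP_6f117a_ag

theorem red3_ceil {n : ℕ} (hn : 0 < n) (d : ℕ) : ∃ m, d ≤ n * m ∧ n * m < d + n := by
  induction d with
  | zero => exact ⟨0, by simp, by simpa using hn⟩
  | succ d ih =>
    obtain ⟨m, h1, h2⟩ := ih
    rcases Nat.lt_or_ge d (n * m) with h | h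
    · exact ⟨m, h, by omega⟩
    · exact ⟨m + 1, by rw [mul_add, mul_one]; omega, by rw [mul_add, mul_one]; omega⟩

theorem red3_sp {s N : ℕ} (μ : Matrix (Fin s) (Fin N) ℂ[X]) (u : Fin s → ℂ[X]) (j : Fin s)
    (hu : u j ≠ 0) (r : ℂ[X]) (w : Fin N → ℂ[X]) (h : r • w = u ᵥ* μ) :
    Sp μ (μ.updateRow j w) := by
  refine ⟨u j, Matrix.of fun i k => if i = j then (if k = j then r else -u k)
    else (if k = i then u j else 0), hu, ?_⟩
  ext1 i l
  rw [Matrix.smul_apply, smul_eq_mul, Matrix.mul_apply]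
  simp only [Matrix.of_apply]
  by_cases hi : i = j
  · subst hi
    have h1 : r * w l = ∑ k, u k * μ k l := by
      have := congrFun h l
      simpa [Matrix.vecMul, dotProduct] using this
    simp only [if_true]
    rw [← Finset.add_sum_erase _ _ (mem_univ i)] at h1 ⊢
    have h2 : ∑ k ∈ univ.erase i, (if k = i then r else -u k) * μ.updateRow i w k l
        = -∑ k ∈ univ.erase i, u k * μ k l := by
      rw [← Finset.sum_neg_distrib]
      refine Finset.sum_congr rfl fun k hk => ?_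
      have hk' := (mem_erase.1 hk).1
      rw [if_neg hk', updateRow_ne hk', neg_mul]
    rw [h2, if_pos rfl, updateRow_self, h1]
    ring
  · simp only [if_neg hi]
    rw [Finset.sum_eq_single i (fun k _ hk => by rw [if_neg hk, zero_mul]) (by simp), if_pos rfl,
      updateRow_ne hi]

theorem p_RED3 (hPK : S_PK) :
    S_RED3 := by
  intro s N n e μ a hn he hlt hI ha hx
  obtain ⟨-, -, h0, hsm, -, hv⟩ := hPK N n e hn he hlt
  simp only [Ind, not_forall] at hx
  obtain ⟨x, hx, hx0⟩ := hx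
  have hp : ∀ i, pk n e (μ i) ≠ 0 := fun i h => by
    have h1 : μ i = 0 := (h0 _).1 h
    have h2 := hI (Pi.single i 1) (by rw [Matrix.single_one_vecMul]; exact h1)
    simpa using congrFun h2 i
  have hne : (univ.filter fun i => x i ≠ 0).Nonempty := by
    obtain ⟨i, hi⟩ := Function.ne_iff.1 hx0
    exact ⟨i, mem_filter.2 ⟨mem_univ _, hi⟩⟩
  obtain ⟨j, hj, hmax⟩ := Finset.exists_max_image _ (fun i => wd n e (μ i)) hne
  have hxj : x j ≠ 0 := (mem_filter.1 hj).2
  set L : ℕ := univ.sup fun i => (pk n e (μ i)).natTrailingDegree with hL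
  have hLi : ∀ i, (pk n e (μ i)).natTrailingDegree ≤ L := fun i =>
    Finset.le_sup (f := fun i => (pk n e (μ i)).natTrailingDegree) (mem_univ i)
  choose m hm1 hm2 using fun i => red3_ceil hn (L - (pk n e (μ i)).natTrailingDegree)
  set u : Fin s → ℂ[X] := fun i => C (x i * a⁻¹ ^ m i) * X ^ m i with hu
  have huj : u j ≠ 0 := mul_ne_zero
    (C_ne_zero.2 (mul_ne_zero hxj (pow_ne_zero _ (inv_ne_zero ha)))) (pow_ne_zero _ X_ne_zero)
  have hev : ∀ i, eval a (u i) = x i := fun i => by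
    simp only [hu, eval_mul, eval_C, eval_pow, eval_X]
    rw [mul_assoc, ← mul_pow, inv_mul_cancel₀ ha, one_pow, mul_one]
  have hroot : ∀ l, IsRoot ((u ᵥ* μ) l) a := fun l => by
    have h1 := congrFun hx l
    simp only [Matrix.vecMul, dotProduct, Matrix.map_apply, Pi.zero_apply] at h1
    simp only [IsRoot, Matrix.vecMul, dotProduct, eval_finsetSum, eval_mul, hev]
    exact h1
  set w : Fin N → ℂ[X] := fun l => (u ᵥ* μ) l /ₘ (X - C a) with hw
  have hww : (X - C a : ℂ[X]) • w = u ᵥ* μ := funext fun l => by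
    rw [Pi.smul_apply, smul_eq_mul]; exact mul_divByMonic_eq_iff_isRoot.2 (hroot l)
  have hw0 : u ᵥ* μ ≠ 0 := fun h => huj (congrFun (hI u h) j)
  have hP0 : pk n e (u ᵥ* μ) ≠ 0 := fun h => hw0 ((h0 _).1 h)
  have hexp : pk n e (u ᵥ* μ) = ∑ i, C (x i * a⁻¹ ^ m i) * (X ^ (n * m i) * pk n e (μ i)) := by
    rw [hv]
    refine Finset.sum_congr rfl fun i _ => ?_
    simp only [hu, map_mul, expand_C, map_pow, expand_X]
    rw [pow_mul]; ring
  have hlo : L ≤ (pk n e (u ᵥ* μ)).natTrailingDegree := by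
    refine le_natTrailingDegree hP0 fun k hk => ?_
    rw [hexp, finsetSum_coeff]
    refine Finset.sum_eq_zero fun i _ => ?_
    rw [coeff_C_mul, coeff_X_pow_mul']
    split_ifs with h
    · rw [coeff_eq_zero_of_lt_natTrailingDegree, mul_zero]
      have := hm1 i
      have := hLi i
      omega
    · rw [mul_zero]
  have hhi : (pk n e (u ᵥ* μ)).natDegree ≤ L + n - 1 + wd n e (μ j) := by
    rw [hexp]
    refine natDegree_sum_le_of_forall_le _ _ fun i _ => ?_
    by_cases hi : x i = 0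
    · simp [hi]
    · refine (natDegree_C_mul_le _ _).trans (natDegree_mul_le.trans ?_)
      rw [natDegree_X_pow]
      have h1 := hmax i (mem_filter.2 ⟨mem_univ _, hi⟩)
      have h2 := hm2 i
      have h3 := hLi i
      have h4 : (pk n e (μ i)).natTrailingDegree ≤ (pk n e (μ i)).natDegree :=
        natTrailingDegree_le_natDegree _
      have h5 : wd n e (μ i) = (pk n e (μ i)).natDegree - (pk n e (μ i)).natTrailingDegree := rfl
      omega
  have hfac : pk n e (u ᵥ* μ) = (X ^ n - C a) * pk n e w := by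
    rw [← hww, hsm]; simp only [map_sub, expand_X, expand_C]
  have hq : (X ^ n - C a : ℂ[X]) ≠ 0 := X_pow_sub_C_ne_zero hn a
  have hPw : pk n e w ≠ 0 := fun h => hP0 (by rw [hfac, h, mul_zero])
  have hq0 : (X ^ n - C a : ℂ[X]).natTrailingDegree = 0 := by
    refine Nat.le_zero.1 (natTrailingDegree_le_of_ne_zero ?_)
    rw [coeff_sub, coeff_X_pow, if_neg hn.ne, coeff_C_zero, zero_sub]
    exact neg_ne_zero.2 ha
  rw [hfac, natTrailingDegree_mul hq hPw, hq0, zero_add] at hlo
  rw [hfac, natDegree_mul hq hPw, natDegree_X_pow_sub_C] at hhi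
  have hlt' : wd n e w < wd n e (μ j) := by
    have h4 : (pk n e w).natTrailingDegree ≤ (pk n e w).natDegree :=
      natTrailingDegree_le_natDegree _
    have h5 : wd n e w = (pk n e w).natDegree - (pk n e w).natTrailingDegree := rfl
    omega
  refine ⟨μ.updateRow j w, red3_sp μ u j huj _ w hww, Finset.sum_lt_sum (fun i _ => ?_)
    ⟨j, mem_univ _, by rw [updateRow_self]; exact hlt'⟩⟩
  by_cases hi : i = j
  · subst hi; rw [updateRow_self]; exact hlt'.le
  · rw [updateRow_ne hi]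

end

section

open Finset Matrix WithZero Polynomial Pool.Agent.P.MP_6f117a_ag

theorem red_trans {s N : ℕ} {μ ν ξ : Matrix (Fin s) (Fin N) ℂ[X]} (h1 : Sp μ ν) (h2 : Sp ν ξ) :
    Sp μ ξ := by
  obtain ⟨q, M, hq, h⟩ := h1
  obtain ⟨q', M', hq', h'⟩ := h2
  refine ⟨q' * q, M * M', mul_ne_zero hq' hq, ?_⟩
  rw [mul_smul, h, Matrix.mul_assoc, ← h', Matrix.mul_smul]

theorem p_RED (hSPI : S_SPI) (hRED1 : S_RED1) (hRED2 : S_RED2) (hRED3 : S_RED3) :
    S_RED := by
  intro s N n e μ hn he hlt hμ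
  induction hk : ∑ j, wd n e (μ j) using Nat.strong_induction_on generalizing μ with
  | _ k ih =>
    have step : (∃ ν, Sp μ ν ∧ ∑ j, wd n e (ν j) < ∑ j, wd n e (μ j)) →
        ∃ ν, Sp μ ν ∧ Red n e ν := by
      rintro ⟨ν, h1, h2⟩
      obtain ⟨q, M, hq, h⟩ := id h1
      obtain ⟨ξ, h3, h4⟩ := ih _ (hk ▸ h2) ν (hSPI s N μ ν q M hμ hq h).2 rfl
      exact ⟨ξ, red_trans h1 h3, h4⟩
    by_cases a1 : Function.Injective fun j => (pk n e (μ j)).natTrailingDegree % n
    · by_cases a2 : Function.Injective fun j => (pk n e (μ j)).natDegree % n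
      · by_cases a3 : ∀ a : ℂ, a ≠ 0 → Ind (μ.map (eval a))
        · exact ⟨μ, ⟨1, 1, one_ne_zero, by simp⟩, hμ, a1, a2, a3⟩
        · push Not at a3
          obtain ⟨a, ha, h⟩ := a3
          exact step (hRED3 s N n e μ a hn he hlt hμ ha h)
      · exact step (hRED2 s N n e μ hn he hlt hμ a2)
    · exact step (hRED1 s N n e μ hn he hlt hμ a1)

end

section

open Finset Matrix WithZero Polynomial Pool.Agent.P.MP_6f117a_ag

/-- A basis of the span of the conjugates of `lam`. -/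
theorem fsgal_basis {K : Type} [Field K] [Algebra ℂ K] {N : ℕ} (τ : K) (lam : Fin N → K) :
    ∃ (s : ℕ) (σ : Fin s → K ≃ₐ[ℂ] K), s ≤ N ∧ (∀ j, σ j τ = τ) ∧
      (∀ c, c ᵥ* (Matrix.of fun j i => σ j (lam i)) = 0 → c = 0) ∧
      ∀ θ : K ≃ₐ[ℂ] K, θ τ = τ →
        ∃ c, c ᵥ* (Matrix.of fun j i => σ j (lam i)) = fun i => θ (lam i) := by
  obtain ⟨f, h1, h2, h3⟩ := Submodule.exists_fun_fin_finrank_span_eq K
    {w : Fin N → K | ∃ θ : K ≃ₐ[ℂ] K, θ τ = τ ∧ (fun i => θ (lam i)) = w}
  choose σ hσ hf using h1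
  obtain rfl : (fun j i => σ j (lam i)) = f := funext hf
  refine ⟨_, σ, (Submodule.finrank_le _).trans_eq (Module.finrank_fin_fun K), hσ,
    fun c hc => funext (Fintype.linearIndependent_iff.1 h3 c ((vecMul_eq_sum _ _).symm.trans hc)),
    fun θ hθ => ?_⟩
  obtain ⟨c, hc⟩ := (Submodule.mem_span_range_iff_exists_fun K).1
    (h2.ge (Submodule.subset_span ⟨θ, hθ, rfl⟩))
  exact ⟨c, (vecMul_eq_sum _ _).trans hc⟩

theorem p_FSGAL (hMINOR : S_MINOR) :
    S_FSGAL := by
  intro K _ _ N τ lam hτ hG h0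
  obtain ⟨s, σ, hs, hσ, hi, hsp⟩ := fsgal_basis τ lam
  set L : Matrix (Fin s) (Fin N) K := Matrix.of fun j i => σ j (lam i) with hL
  have hpos : 0 < s := Nat.pos_of_ne_zero (by
    rintro rfl
    obtain ⟨c, hc⟩ := hsp (AlgEquiv.refl) rfl
    exact h0 (hc.symm.trans (by rw [Subsingleton.elim c 0, zero_vecMul])))
  obtain ⟨J, -, hJ⟩ := hMINOR _ _ K Lᵀ fun c hc => hi c ((mulVec_transpose _ _).symm.trans hc)
  set A := L.submatrix id J with hA
  have hA0 : A.det ≠ 0 := (det_transpose A).symm ▸ hJ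
  have hAm : A * (A⁻¹ * L) = L := mul_nonsing_inv_cancel_left _ _ (isUnit_iff_ne_zero.2 hA0)
  set m := A⁻¹ * L
  have hfix : ∀ θ : K ≃ₐ[ℂ] K, θ τ = τ → m.map θ = m := fun θ hθ => by
    choose C hC using fun j => hsp ((σ j).trans θ) (by simp [hσ, hθ])
    have h1 : L.map θ = Matrix.of C * L := by
      ext j i; exact (congrFun (hC j) i).symm
    have h2 : A.map θ = Matrix.of C * A := by
      ext j i; exact (congrFun (hC j) (J i)).symm
    have h3 : A.map θ * m.map θ = A.map θ * m := by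
      rw [← Matrix.map_mul, hAm, h1, h2, Matrix.mul_assoc, hAm]
    have h4 : IsUnit (A.map θ).det := isUnit_iff_ne_zero.2 (det_map_ne (θ : K →+* K) hA0)
    rw [← nonsing_inv_mul_cancel_left _ (m.map θ) h4, h3, nonsing_inv_mul_cancel_left _ m h4]
  choose p q hq hpq using fun j i => hG (m j i) fun θ hθ => congrFun (congrFun (hfix θ hθ) j) i
  choose r hr using fun j i =>
    Finset.dvd_prod_of_mem (fun x : Fin s × Fin N => q x.1 x.2) (mem_univ (j, i))
  have hQ := aeval_ne hτ (Finset.prod_ne_zero_iff.2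
    fun (x : Fin s × Fin N) (_ : x ∈ univ) => hq x.1 x.2)
  set Q := ∏ x : Fin s × Fin N, q x.1 x.2
  set μ : Matrix (Fin s) (Fin N) ℂ[X] := Matrix.of fun j i => p j i * r j i
  have hμ : μ.map (aeval τ) = aeval τ Q • m := by
    ext j i
    rw [Matrix.smul_apply, hr j i, smul_eq_mul, map_mul, mul_comm, ← mul_assoc, hpq, ← map_mul]
    rfl
  have hM : (aeval τ Q)⁻¹ • A * μ.map (aeval τ) = L := by
    rw [hμ, Matrix.smul_mul, Matrix.mul_smul, hAm, inv_smul_smul₀ hQ]
  have hM0 : ((aeval τ Q)⁻¹ • A).det ≠ 0 := by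
    rw [det_smul]; exact mul_ne_zero (pow_ne_zero _ (inv_ne_zero hQ)) hA0
  refine ⟨s, σ, _, μ, hpos, hs, hσ, hM0, fun x hx => ?_, fun j i => by rw [hM]; rfl⟩
  have h1 : (aeval τ ∘ x) ᵥ* μ.map (aeval τ) = 0 := funext fun i =>
    ((aeval τ : ℂ[X] →ₐ[ℂ] K).toRingHom.map_vecMul μ x i).symm.trans (by rw [hx]; exact map_zero _)
  have h2 := hi ((aeval τ ∘ x) ᵥ* ((aeval τ Q)⁻¹ • A)⁻¹) (by
    rw [← hM, vecMul_vecMul, nonsing_inv_mul_cancel_left _ _ (isUnit_iff_ne_zero.2 hM0), h1])
  have h3 := eq_zero_of_vecMul_eq_zero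
    (isUnit_nonsing_inv_det _ (isUnit_iff_ne_zero.2 hM0)).ne_zero h2
  exact funext fun j => by_contra fun h => aeval_ne hτ h (congrFun h3 j)

end

end Pool.Agent.P.MP_09c11a_nt.W
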