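import Pool.Agent.P.MP_09c11a_nt.W.IfaceZ
import Pool.Agent.P.MP_09c11a_nt.W.IfaceS

/-! Proofs of the steps ZLB, ZL. -/

set_option autoImplicit false
set_option linter.unusedSectionVars false
set_option linter.unusedVariables false

namespace Pool.Agent.P.MP_09c11a_nt.W

section

open Finset Matrix WithZero Polynomial Pool.Agent.P.MP_6f117a_ag

theorem zlb_dvd (F : ℂ[X]) (a : ℂ) (m : ℕ) (h : ∀ j < m, (hasseDeriv j F).eval a = 0) :
    (X - C a) ^ m ∣ F := by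
  obtain ⟨G, hG⟩ : X ^ m ∣ taylor a F := X_pow_dvd_iff.2 fun j hj => by rw [taylor_coeff, h j hj]
  refine ⟨taylor (-a) G, ?_⟩
  have := congrArg (taylor (-a)) hG
  rwa [taylor_taylor, neg_add_cancel, taylor_zero, taylor_mul, taylor_pow, taylor_X, C_neg,
    ← sub_eq_add_neg] at this

theorem zlb_A (hS2 : S_S2) (hS3 : S_S3) {K : Type} [Field K] [Algebra ℂ K] {r Z : ℕ} (z : Zd K r)
    (f : (Fin (r + 2) → ℕ) → ℂ[X]) (A : Fin 2) (i : Fin (r + 2) → ℕ)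
    (h : ∀ j, z.D * j < z.E A * i 0 →
      (hasseDeriv j (∑ y ∈ Sx (r + 2) Z, C (sym (z.g A) i y) * f y)).eval (z.a A) = 0)
    (P : Pl K) (hA : P.v (z.s A) < 1) (c : ℤ) :
    P.v (act Z (z.H A) (fun y => (z.T ^ (z.n * Z))⁻¹ * aeval (z.T ^ z.n) (f y)) i) ≤
      exp (c * max (lg P z.T) 0) := by
  have h1 : P.v (z.T ^ z.n - algebraMap ℂ K (z.a A)) = P.v (z.s A) ^ z.D := by
    rw [← z.hs, map_pow]
  have h2 : P.v (z.T ^ z.n) = 1 := by
    have := P.v.map_add_eq_of_lt_right (x := z.T ^ z.n - algebraMap ℂ K (z.a A))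
      (y := algebraMap ℂ K (z.a A)) (by
        rw [h1, P.v_const (z.ane A)]; exact pow_lt_one₀ zero_le hA z.hD.ne')
    rwa [sub_add_cancel, P.v_const (z.ane A)] at this
  have h3 : lg P z.T = 0 := by
    have := lg_of_v h2
    rw [lg_pow] at this
    exact (mul_eq_zero.1 this).resolve_left (by exact_mod_cast z.hn.ne')
  obtain ⟨G, hG⟩ := zlb_dvd _ _ (cc (z.E A) z.D (i 0)) fun j hj => h j ((lt_cc z.hD).1 hj)
  have h4 : act Z (z.H A) (fun y => (z.T ^ (z.n * Z))⁻¹ * aeval (z.T ^ z.n) (f y)) i =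
      (z.s A ^ (z.E A * i 0))⁻¹ * ((z.T ^ z.n) ^ Z)⁻¹ *
        aeval (z.T ^ z.n) (∑ y ∈ Sx (r + 2) Z, C (sym (z.g A) i y) * f y) := by
    rw [act, map_sum, Finset.mul_sum]
    refine Finset.sum_congr rfl fun y _ => ?_
    rw [Zd.H, (hS2 _ _ _ _ i y).2.2.2, hS3, Finset.prod_eq_single 0
      (fun k _ hk => by simp [hk]) (by simp), if_pos rfl, map_mul, aeval_C, inv_pow, ← pow_mul,
      ← pow_mul]
    ring
  have h5 : P.v (z.s A) ≠ 0 := v_ne P (z.s_ne A)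
  rw [h3, max_self, mul_zero, exp_zero, h4, hG, map_mul (aeval _), map_pow, map_sub, aeval_X,
    aeval_C]
  simp only [map_mul, map_inv₀, map_pow P.v (z.s A), map_pow P.v (z.T ^ z.n), h2, one_pow,
    inv_one, mul_one, map_pow P.v (_ - _), h1]
  rw [← pow_mul, inv_mul_le_iff₀ (pow_pos (zero_lt_iff.2 h5) _), mul_one]
  exact (mul_le_of_le_one_right' (P.v_aeval h2.le G)).trans
    (pow_le_pow_of_le_one zero_le hA.le (le_cc _ _ z.hD))

theorem zlb_pow {K : Type} [Field K] [Algebra ℂ K] (P : Pl K) {T : K} (hT : T ≠ 0) (k : ℕ) (c : ℤ)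
    (h : k ≤ c) : P.v (T ^ k) ≤ exp (c * max (lg P T) 0) := by
  rw [← lg_le_iff P (pow_ne_zero _ hT), lg_pow]
  exact (mul_le_mul_of_nonneg_left (le_max_left _ _) (Int.natCast_nonneg k)).trans
    (mul_le_mul_of_nonneg_right h (le_max_right _ _))

theorem p_ZLB (hS2 : S_S2) (hS3 : S_S3) :
    S_ZLB := by
  intro K _ _ r Z l z f hf hd P i hi
  unfold Ad.loc
  split_ifs with h0 h1
  · exact zlb_A hS2 hS3 z f 0 i (hd 0 i hi) P h0 _
  · exact zlb_A hS2 hS3 z f 1 i (hd 1 i hi) P h1 _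
  show P.v (act Z (diagonal fun i => z.T ^ z.e i) _ i) ≤ _
  rw [act, Finset.sum_eq_single_of_mem i hi fun y _ hy => by
    rw [(hS2 _ _ _ 1 i y).1, if_neg hy.symm, zero_mul], (hS2 _ _ _ 1 i i).1, if_pos rfl,
    aeval_def, eval₂_eq_sum, Polynomial.sum, Finset.mul_sum, Finset.mul_sum]
  refine P.v.map_sum_le fun x hx => ?_
  obtain ⟨h2, h3⟩ := hf i hi x hx
  obtain ⟨k, hk⟩ := Nat.exists_eq_add_of_le h2
  have h4 : (∏ k, (z.T ^ z.e k) ^ i k) * ((z.T ^ (z.n * Z))⁻¹ *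
      (algebraMap ℂ K ((f i).coeff x) * (z.T ^ z.n) ^ x)) =
      algebraMap ℂ K ((f i).coeff x) * z.T ^ k := by
    have h5 : (∏ k, (z.T ^ z.e k) ^ i k) * (z.T ^ z.n) ^ x = z.T ^ (z.n * Z) * z.T ^ k := by
      simp only [← pow_mul, Finset.prod_pow_eq_pow_sum, ← pow_add, hk]
    have h6 := pow_ne_zero (z.n * Z) z.T_ne
    field_simp
    linear_combination algebraMap ℂ K ((f i).coeff x) * h5
  rw [h4, map_mul]
  exact (mul_le_of_le_one_left' (P.triv _)).trans (zlb_pow P z.T_ne k _ (by omega))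

end

section

open Finset Matrix WithZero Polynomial Pool.Agent.P.MP_6f117a_ag

theorem p_ZL (hTP : S_TP) (hFS : S_FS) (hZLB : S_ZLB) :
    S_ZL := by
  intro K _ _ _ r Z l z f hl hf hd y hy
  by_contra h0
  have h1 := hTP K (r + 2) Z z.ad z.T _ (fun y => (z.T ^ (z.n * Z))⁻¹ * aeval (z.T ^ z.n) (f y))
    (fun P => ((z.n * l : ℕ) - 1) * max (lg P z.T) 0) (by omega) z.ok z.hT (hFS K r z)
    ⟨y, hy, mul_ne_zero (inv_ne_zero (pow_ne_zero _ z.T_ne)) fun h =>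
      z.trans_pow ⟨f y, h0, h⟩⟩
    ((fs_pole z.T).mul fun _ => _) (hZLB K r Z l z f hf hd)
  rw [tot_mul _ (fs_pole z.T), tot_pole z.hT] at h1
  push_cast at h1
  have h2 : (0 : ℝ) < dg z.T := by exact_mod_cast dg_pos z.hT
  have h3 := le_of_mul_le_mul_right h1 h2
  have h4 : (l : ℝ) * (z.D * (r + 2)) ≤ Z * (z.E 0 + z.E 1) := by exact_mod_cast hl
  have h5 : (0 : ℝ) < z.D * (r + 2) := by have := z.hD; positivity
  rw [← mul_div_assoc, div_le_iff₀ h5] at h3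
  have h6 : (0 : ℝ) ≤ z.n := by positivity
  nlinarith [mul_le_mul_of_nonneg_left h4 h6]

end

end Pool.Agent.P.MP_09c11a_nt.W
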