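import Pool.Agent.P.MP_09c11a_nt.W.PS1
import Pool.Agent.P.MP_09c11a_nt.W.PS2
import Pool.Agent.P.MP_09c11a_nt.W.PD1
import Pool.Agent.P.MP_09c11a_nt.W.PD2
import Pool.Agent.P.MP_09c11a_nt.W.PD3
import Pool.Agent.P.MP_09c11a_nt.W.PD4
import Pool.Agent.P.MP_09c11a_nt.W.PZ1
import Pool.Agent.P.MP_09c11a_nt.W.PZ2
import Pool.Agent.P.MP_09c11a_nt.W.PZ3
import Pool.Agent.P.MP_09c11a_nt.W.PZ4
import Pool.Agent.P.MP_09c11a_nt.W.PZ5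
import Pool.Agent.P.MP_09c11a_nt.W.PZ6

/-! The steps put together. -/

namespace Pool.Agent.P.MP_09c11a_nt.W

theorem h_S1 : S_S1 := p_S1
theorem h_S2 : S_S2 := p_S2 h_S1
theorem h_S3 : S_S3 := p_S3
theorem h_S5 : S_S5 := p_S5
theorem h_S6 : S_S6 := p_S6
theorem h_S7 : S_S7 := p_S7
theorem h_S8 : S_S8 := p_S8 h_S1 h_S2 h_S7
theorem h_S9 : S_S9 := p_S9 h_S3
theorem h_S10 : S_S10 := p_S10
theorem h_S11 : S_S11 := p_S11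
theorem h_TAY : S_TAY := p_TAY
theorem h_HAT : S_HAT := p_HAT
theorem h_ARB : S_ARB := p_ARB h_HAT
theorem h_DIV : S_DIV := p_DIV h_HAT
theorem h_MINOR : S_MINOR := p_MINOR
theorem h_MINOR2 : S_MINOR2 := p_MINOR2 h_MINOR
theorem h_CNT1 : S_CNT1 := p_CNT1
theorem h_GS : S_GS := p_GS
theorem h_UNIM : S_UNIM := p_UNIM
theorem h_QM1 : S_QM1 := p_QM1 h_S1 h_S6
theorem h_QM2 : S_QM2 := p_QM2 h_S1 h_S2 h_S6
theorem h_QM3 : S_QM3 := p_QM3 h_S5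
theorem h_CNT2 : S_CNT2 := p_CNT2 h_CNT1
theorem h_ROWS : S_ROWS := p_ROWS h_CNT2
theorem h_NORM : S_NORM := p_NORM h_S2
theorem h_VAC : S_VAC := p_VAC h_ROWS
theorem h_VAB : S_VAB := p_VAB h_VAC
theorem h_VXC : S_VXC := p_VXC h_ROWS h_CNT2
theorem h_VXA : S_VXA := p_VXA h_QM1 h_QM2 h_DIV h_S3 h_S11 h_TAY
theorem h_VPC : S_VPC := p_VPC h_ROWS h_CNT2
theorem h_VPA : S_VPA := p_VPA h_DIV h_S1 h_S6 h_TAY
theorem h_ENT : S_ENT := p_ENT h_S8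
theorem h_ARA : S_ARA := p_ARA h_QM1 h_QM3 h_ARB h_GS h_ENT h_S3 h_S10 h_ROWS h_CNT1
theorem h_ARC1 : S_ARC1 := p_ARC1 h_ROWS
theorem h_ARC2 : S_ARC2 := p_ARC2 h_ROWS h_CNT2
theorem h_ARC3 : S_ARC3 := p_ARC3 h_ROWS h_CNT2
theorem h_ARC4 : S_ARC4 := p_ARC4 h_ROWS h_CNT1
theorem h_AR : S_AR := p_AR h_ARA h_ARC1 h_ARC2 h_ARC3 h_ARC4
theorem h_IWA : S_IWA := p_IWA
theorem h_RES1 : S_RES1 := p_RES1
theorem h_DEG : S_DEG := p_DEG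
theorem h_RIE : S_RIE := p_RIE
theorem h_RES : S_RES := p_RES h_RES1 h_DEG h_RIE
theorem h_FRLOW : S_FRLOW := p_FRLOW h_MINOR h_RES
theorem h_TRI1 : S_TRI1 := p_TRI1
theorem h_COUNT : S_COUNT := p_COUNT h_RIE h_TRI1
theorem h_BIN : S_BIN := p_BIN h_COUNT
theorem h_FFFIN : S_FFFIN := p_FFFIN
theorem h_FFEXT : S_FFEXT := p_FFEXT h_FFFIN
theorem h_GAUSS : S_GAUSS := p_GAUSS
theorem h_ROOT : S_ROOT := p_ROOT h_GAUSS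
theorem h_STEPF : S_STEPF := p_STEPF
theorem h_STEPG : S_STEPG := p_STEPG h_BIN h_FFEXT h_RES h_ROOT h_STEPF
theorem h_INF : S_INF := p_INF h_IWA h_FRLOW h_STEPG
theorem h_LEAD : S_LEAD := p_LEAD h_S1 h_S2 h_S5 h_S9
theorem h_LAST : S_LAST := p_LAST
theorem h_TP : S_TP := p_TP h_INF h_LEAD h_LAST h_RES h_S3
theorem h_FSGAL : S_FSGAL := p_FSGAL h_MINOR
theorem h_SPI : S_SPI := p_SPI
theorem h_PK : S_PK := p_PK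
theorem h_RED1 : S_RED1 := p_RED1 h_PK
theorem h_RED2 : S_RED2 := p_RED2 h_PK
theorem h_RED3 : S_RED3 := p_RED3 h_PK
theorem h_RED : S_RED := p_RED h_SPI h_RED1 h_RED2 h_RED3
theorem h_FSL0 : S_FSL0 := p_FSL0 h_PK
theorem h_FSLI : S_FSLI := p_FSLI h_PK
theorem h_FSL1 : S_FSL1 := p_FSL1 h_MINOR2
theorem h_LOC1 : S_LOC1 := p_LOC1 h_PK h_FSL0 h_FSLI h_FSL1
theorem h_LOCG : S_LOCG := p_LOCG h_PK h_LOC1
theorem h_CONJ : S_CONJ := p_CONJ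
theorem h_FS0 : S_FS0 := p_FS0 h_FSGAL h_RED h_SPI h_LOCG h_CONJ
theorem h_GALX : S_GALX := p_GALX h_FFFIN
theorem h_FS : S_FS := p_FS h_FS0 h_GALX h_RES
theorem h_ZLB : S_ZLB := p_ZLB h_S2 h_S3
theorem h_ZL : S_ZL := p_ZL h_TP h_FS h_ZLB
theorem h_BASEF : S_BASEF := p_BASEF h_FFEXT
theorem h_INJ : S_INJ := p_INJ h_ZL h_BASEF h_S2 h_S3
theorem h_LOW : S_LOW := p_LOW h_INJ h_MINOR h_NORM h_VAB h_VXA h_VXC h_VPA h_VPC h_AR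
theorem h_COMB : S_COMB := p_COMB h_LOW h_CNT1
theorem h_KEY : S_KEY := p_KEY h_COMB
theorem h_PIG : S_PIG := p_PIG h_UNIM
theorem h_CORE : S_CORE := p_CORE h_PIG h_KEY
theorem h_FINAL : S_FINAL := p_FINAL h_CORE

end Pool.Agent.P.MP_09c11a_nt.W
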