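import Mathlib

/-! Symmetric powers of a matrix and the interpolation matrix of a Fermat quotient. -/

set_option autoImplicit false
set_option linter.unusedSectionVars false
set_option linter.unusedVariables false

namespace Pool.Agent.P.MP_09c11a_nt.W

open Finset Matrix

section Sym

variable {N : ℕ} {R : Type} [CommRing R]

/-- An exponent vector as a finitely supported function. -/
noncomputable def fs (z : Fin N → ℕ) : Fin N →₀ ℕ := Finsupp.equivFunOnFinite.symm z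

@[simp] theorem fs_apply (z : Fin N → ℕ) (k : Fin N) : fs z k = z k := rfl

/-- Exponent vectors of degree `Z`. -/
def Sx (N Z : ℕ) : Finset (Fin N → ℕ) := Finset.piAntidiag univ Z

theorem mem_Sx {Z : ℕ} {z : Fin N → ℕ} : z ∈ Sx N Z ↔ ∑ k, z k = Z := by simp [Sx]

theorem le_of_mem_Sx {Z : ℕ} {z : Fin N → ℕ} (h : z ∈ Sx N Z) (k : Fin N) : z k ≤ Z :=
  mem_Sx.1 h ▸ Finset.single_le_sum (f := z) (fun _ _ => Nat.zero_le _) (mem_univ k)

/-- The linear form given by row `k` of `g`. -/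
noncomputable def lin (g : Matrix (Fin N) (Fin N) R) (k : Fin N) : MvPolynomial (Fin N) R :=
  ∑ l, MvPolynomial.C (g k l) * MvPolynomial.X l

/-- The coefficient of `X ^ i` in `(g X) ^ z`. -/
noncomputable def sym (g : Matrix (Fin N) (Fin N) R) (i z : Fin N → ℕ) : R :=
  MvPolynomial.coeff (fs i) (∏ k, lin g k ^ z k)

/-- The coefficients of the form `F (g X)`, where `F` has degree `Z` and coefficients `c`. -/
noncomputable def act (Z : ℕ) (g : Matrix (Fin N) (Fin N) R) (c : (Fin N → ℕ) → R)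
    (i : Fin N → ℕ) : R := ∑ z ∈ Sx N Z, sym g i z * c z

/-- The weight of an exponent vector. -/
def wt (z : Fin N → ℕ) : ℕ := ∑ k : Fin N, (k : ℕ) * z k

/-- The product of the factorials of the entries. -/
def fac (z : Fin N → ℕ) : ℕ := ∏ k, (z k).factorial

/-- Upper triangular. -/
def Up (B : Matrix (Fin N) (Fin N) R) : Prop := ∀ k l, l < k → B k l = 0

/-- The rows of `M` are linearly independent. -/
def Ind {s : ℕ} (M : Matrix (Fin s) (Fin N) R) : Prop := ∀ x : Fin s → R, x ᵥ* M = 0 → x = 0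

/-- The square matrix with the columns of `A` at the positions `ι c` and those of `Q` elsewhere. -/
noncomputable def hat {I C : Type} [Fintype C] [DecidableEq I] (ι : C → I) (A : Matrix I C R)
    (Q : Matrix I I R) : Matrix I I R :=
  Matrix.of fun r s => if h : ∃ c, ι c = s then A r h.choose else Q r s

/-- The matrix with first column of ones and otherwise equal to the identity. -/
def G0 (r : ℕ) (R : Type) [CommRing R] : Matrix (Fin (r + 2)) (Fin (r + 2)) R :=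
  Matrix.of fun k l => if l = 0 ∨ k = l then 1 else 0

/-- The inverse of `G0`. -/
def G0i (r : ℕ) (R : Type) [CommRing R] : Matrix (Fin (r + 2)) (Fin (r + 2)) R :=
  Matrix.of fun k l => if k = l then 1 else if l = 0 then -1 else 0

theorem G0_det (r : ℕ) : (G0 r R).det = 1 := by
  rw [Matrix.det_of_isLowerTriangular _ fun k l h => by
    have h' : k < l := h
    simp [G0, h'.ne, (lt_of_le_of_lt (Fin.zero_le k) h').ne']]
  simp [G0]

theorem G0i_mul {m : Type} (r : ℕ) (M : Matrix (Fin (r + 2)) m R) (k : Fin (r + 2)) (l : m) :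
    (G0i r R * M) k l = if k = 0 then M 0 l else M k l - M 0 l := by
  rw [Matrix.mul_apply]
  split_ifs with h
  · subst h
    rw [Finset.sum_eq_single 0 (fun j _ hj => by simp [G0i, hj, hj.symm]) (by simp)]
    simp [G0i]
  · rw [Finset.sum_eq_add_of_mem k 0 (mem_univ _) (mem_univ _) h
      (fun j _ hj => by simp [G0i, hj.1.symm, hj.2])]
    simp [G0i, h, sub_eq_add_neg]

theorem G0i_mul_G0 (r : ℕ) : G0i r R * G0 r R = 1 := by
  ext k l
  rw [G0i_mul, Matrix.one_apply]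
  by_cases hk : k = 0 <;> by_cases hl : l = 0 <;> simp [G0, hk, hl, eq_comm]

theorem G0_mul_G0i (r : ℕ) : G0 r R * G0i r R = 1 := mul_eq_one_comm.1 (G0i_mul_G0 r)

theorem G0_map (r : ℕ) {R' : Type} [CommRing R'] (φ : R →+* R') : (G0 r R).map φ = G0 r R' := by
  ext k l
  simp only [G0, Matrix.map_apply, Matrix.of_apply]
  split_ifs <;> simp

end Sym

/-- The number of `j` with `D * j < E * x`. -/
def cc (E D x : ℕ) : ℕ := (E * x + D - 1) / D

theorem lt_cc {E D x j : ℕ} (hD : 0 < D) : j < cc E D x ↔ D * j < E * x := by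
  rw [cc, Nat.lt_iff_add_one_le, Nat.le_div_iff_mul_le hD, add_mul, one_mul, mul_comm j]; omega

theorem le_cc (E x : ℕ) {D : ℕ} (hD : 0 < D) : E * x ≤ D * cc E D x :=
  not_lt.1 fun h => lt_irrefl _ ((lt_cc hD).2 h)

theorem cc_lt (E x : ℕ) {D : ℕ} (hD : 0 < D) : D * cc E D x < E * x + D := by
  have := Nat.mul_div_le (E * x + D - 1) D
  rw [cc]; omega

/-- The arithmetic data of the construction. -/
structure Dat where
  a : ℕ
  b : ℕ
  p : ℕ
  n : ℕ
  v : ℕ
  D : ℕ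
  r : ℕ
  E : Fin 2 → ℕ
  e : Fin (r + 2) → ℕ
  g : Matrix (Fin (r + 2)) (Fin (r + 2)) ℤ
  hb : 0 < b
  hab : b < a
  cop : a.Coprime b
  hp : p.Prime
  hn : 0 < n
  hv : 0 < v
  hD : 0 < D
  einj : Function.Injective e
  elt : ∀ i, e i < n
  gdet : g.det = 1
  tne : ∀ i, g i 0 ≠ 0
  cong : ∀ i, (p : ℤ) ∣ (a : ℤ) ^ e i * (b : ℤ) ^ (n - e i) * g i 0 -
    (a : ℤ) ^ e 0 * (b : ℤ) ^ (n - e 0) * g 0 0
  yne : (a : ℤ) ^ e 1 * (b : ℤ) ^ (n - e 1) * g 1 0 ≠ (a : ℤ) ^ e 0 * (b : ℤ) ^ (n - e 0) * g 0 0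
  pv : (p : ℤ) ^ v ∣ (a : ℤ) ^ n - (b : ℤ) ^ n
  pv' : ¬(p : ℤ) ^ (v + 1) ∣ (a : ℤ) ^ n - (b : ℤ) ^ n
  hE : n * (E 0 + E 1) ≤ D * (r + 2)
  hW : D ≤ v * (E 0 + E 1)

namespace Dat

variable (d : Dat)

/-- The number of columns over each exponent vector. -/
def ll (Z : ℕ) : ℕ := Z * (d.E 0 + d.E 1) / (d.D * (d.r + 2))

/-- Exponent vectors of degree `Z`, as a type. -/
abbrev Ex (Z : ℕ) : Type := {z // z ∈ Sx (d.r + 2) Z}

/-- Columns: pairs `(z, m)`. -/
abbrev Col (Z : ℕ) : Type := d.Ex Z × Fin (d.ll Z)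

/-- Rows: triples `(A, i, j)` with `D * j < E A * i 0`. -/
abbrev Row (Z : ℕ) : Type := Σ q : Fin 2 × d.Ex Z, Fin (cc (d.E q.1) d.D (q.2.1 0))

variable {d} {Z : ℕ}

/-- The point of a row. -/
abbrev rA (r : d.Row Z) : Fin 2 := r.1.1
/-- The exponent vector of a row. -/
abbrev ri (r : d.Row Z) : Fin (d.r + 2) → ℕ := r.1.2.1
/-- The order of derivation of a row. -/
abbrev rj (r : d.Row Z) : ℕ := r.2.1
/-- The exponent vector of a column. -/
abbrev cz (c : d.Col Z) : Fin (d.r + 2) → ℕ := c.1.1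
/-- The shift of a column. -/
abbrev cm (c : d.Col Z) : ℕ := c.2.1

/-- The scalar product `e · z`. -/
def ez (d : Dat) (z : Fin (d.r + 2) → ℕ) : ℕ := ∑ k, d.e k * z k

/-- The exponent of `τ = T ^ n` of a column. -/
def cx (c : d.Col Z) : ℕ := Z - d.ez (cz c) / d.n + cm c

/-- The exponent of `T` of a column. -/
def ck (c : d.Col Z) : ℕ := d.ez (cz c) % d.n + d.n * cm c

section

variable {R : Type} [CommRing R]

/-- The general shape of the interpolation matrix: bases `h A`, weights `w A j c`. -/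
noncomputable def Jg (h : Fin 2 → Matrix (Fin (d.r + 2)) (Fin (d.r + 2)) R)
    (w : Fin 2 → ℕ → d.Col Z → R) : Matrix (d.Row Z) (d.Col Z) R :=
  Matrix.of fun r c => w (rA r) (rj r) c * sym (h (rA r)) (ri r) (cz c)

/-- The action of a change of bases on the rows. -/
noncomputable def Qm (Z : ℕ) (B : Fin 2 → Matrix (Fin (d.r + 2)) (Fin (d.r + 2)) R) :
    Matrix (d.Row Z) (d.Row Z) R :=
  Matrix.of fun r s => if rA r = rA s ∧ rj r = rj s then sym (B (rA r)) (ri r) (ri s) else 0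

end

variable (d)

/-- The bases in the variable `T`. -/
def gm : Fin 2 → Matrix (Fin (d.r + 2)) (Fin (d.r + 2)) ℤ := ![G0 d.r ℤ, d.g]

/-- The bases in the variable `τ`. -/
def gy : Fin 2 → Matrix (Fin (d.r + 2)) (Fin (d.r + 2)) ℤ :=
  ![G0 d.r ℤ, Matrix.diagonal (fun i => (d.a : ℤ) ^ d.e i * (d.b : ℤ) ^ (d.n - d.e i)) * d.g]

/-- The numerators of the two values of `T`. -/
def bs : Fin 2 → ℕ := ![1, d.a]

/-- The denominators of the two values of `T`. -/
def bt : Fin 2 → ℕ := ![1, d.b]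

/-- The interpolation matrix. -/
noncomputable def J (Z : ℕ) : Matrix (d.Row Z) (d.Col Z) ℤ :=
  Jg d.gm fun A j c =>
    ((cx c).choose j : ℤ) * (d.bs A : ℤ) ^ ck c * (d.bt A : ℤ) ^ (d.n * d.ll Z - ck c)

/-- The interpolation matrix at the points `τ = 1` and `τ = 1 + ξ / b ^ n`. -/
noncomputable def JX (Z : ℕ) {R : Type} [CommRing R] (ξ : R) : Matrix (d.Row Z) (d.Col Z) R :=
  Jg (fun A => (d.gy A).map (Int.castRingHom R)) fun A j c =>
    ((cx c).choose j : R) * ((d.bt A : R) ^ d.n + ((A : ℕ) : R) * ξ) ^ (cx c - j) *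
      ((d.bt A : R) ^ d.n) ^ (2 * Z - cx c)

/-- The minor of `J` on the rows `ι`. -/
noncomputable def Del {Z : ℕ} (ι : d.Col Z → d.Row Z) : ℤ := ((d.J Z).submatrix ι id).det

/-- The minor of `JX` at `ξ = a ^ n - b ^ n` on the rows `ι`. -/
noncomputable def DelX {Z : ℕ} (ι : d.Col Z → d.Row Z) : ℤ :=
  ((d.JX Z ((d.a : ℤ) ^ d.n - (d.b : ℤ) ^ d.n)).submatrix ι id).det

/-- The number of variables, as a real number. -/
def N : ℝ := (d.r : ℝ) + 2

/-- The number of exponent vectors of degree `Z`, as a real number. -/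
def C (Z : ℕ) : ℝ := ((Sx (d.r + 2) Z).card : ℝ)

/-- The density of the rows at the point `A`. -/
noncomputable def ρ (A : Fin 2) : ℝ := d.E A / (d.D * d.N)

/-- The error term. -/
noncomputable def er (Z : ℕ) : ℝ := d.C Z * Z * Real.log (Z + 2)

/-- The main term. -/
noncomputable def mt (Z : ℕ) : ℝ := d.C Z * (Z : ℝ) ^ 2

/-- The coefficient of the `a`-adic and of the `b`-adic estimate. -/
noncomputable def cA : ℝ := d.n * d.ρ 1 ^ 2 / 2

/-- The coefficient of the estimate along `a ^ n - b ^ n`. -/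
noncomputable def cX : ℝ := d.E 0 * d.E 1 / (d.D ^ 2 * (d.N * (d.N + 1)))

/-- The threshold of the `p`-adic estimate. -/
noncomputable def κ : ℝ := d.v * (d.ρ 0 + d.ρ 1) - 1 / d.N

/-- The coefficient of the `p`-adic estimate. -/
noncomputable def cP : ℝ :=
  d.κ * (d.ρ 0 + d.ρ 1) - d.κ ^ 2 / (2 * d.v) - d.κ / (d.v * d.N) - 1 / (d.v * (d.N * (d.N + 1))) +
    ∑ A, (d.E A / d.D - d.v * (d.E A : ℝ) ^ 2 / (2 * d.D ^ 2)) * (2 / (d.N * (d.N + 1)))

/-- The logarithm of the length of the first column of `gm A`. -/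
noncomputable def lt (A : Fin 2) : ℝ := Real.log (∑ k, (d.gm A k 0 : ℝ) ^ 2) / 2

/-- The coefficient of the archimedean estimate. -/
noncomputable def cR : ℝ :=
  d.n * (d.ρ 0 * d.ρ 1 + d.ρ 1 ^ 2 / 2) * Real.log d.a + d.cA * Real.log d.b +
    (d.E 0 * d.lt 0 + d.E 1 * d.lt 1) / (d.D * (d.N * (d.N + 1))) + 2 * (d.ρ 0 + d.ρ 1) / d.N +
    Real.log d.N * (((d.E 0 : ℝ) ^ 2 + (d.E 1 : ℝ) ^ 2) / (d.D ^ 2 * (d.N * (d.N + 1))))

variable {d}

/-- The block of a row in the basis adapted to both points. -/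
def blk (r : d.Row Z) : Fin (d.r + 2) → ℕ :=
  if rA r = 0 then ri r else ri r ∘ Equiv.swap 0 1

/-- The logarithm of the bound for an entry in orthogonal bases with logarithmic lengths `lam`. -/
noncomputable def ent (lam : Fin 2 → Fin (d.r + 2) → ℝ) (r : d.Row Z) (c : d.Col Z) : ℝ :=
  cx c / d.N + rj r * Real.log d.N + ck c * Real.log (d.bs (rA r)) +
    (d.n * d.ll Z - ck c : ℕ) * Real.log (d.bt (rA r)) + ∑ k, ri r k * lam (rA r) k + (Real.log (fac (cz c)) - Real.log (fac (ri r))) / 2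

theorem N_pos (d : Dat) : 0 < d.N := by unfold N; positivity

theorem ll_le (d : Dat) (Z : ℕ) : d.ll Z ≤ Z := by
  have h1 := d.hE
  have h2 : d.E 0 + d.E 1 ≤ d.n * (d.E 0 + d.E 1) := Nat.le_mul_of_pos_left _ d.hn
  exact Nat.div_le_of_le_mul (by rw [mul_comm]; exact Nat.mul_le_mul_right _ (h2.trans h1))

theorem cx_le (c : d.Col Z) : cx c ≤ 2 * Z := by
  have h1 := d.ll_le Z
  have h2 : cm c < d.ll Z := c.2.2
  have h3 : Z - d.ez (cz c) / d.n ≤ Z := Nat.sub_le _ _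
  unfold cx; omega

theorem ez_le {z : Fin (d.r + 2) → ℕ} (hz : z ∈ Sx (d.r + 2) Z) : d.ez z ≤ d.n * Z := by
  rw [← mem_Sx.1 hz, Finset.mul_sum]
  exact Finset.sum_le_sum fun k _ => Nat.mul_le_mul_right _ (d.elt k).le

theorem ck_add (c : d.Col Z) : ck c + d.n * Z = d.ez (cz c) + d.n * cx c := by
  have h1 : d.ez (cz c) / d.n ≤ Z := Nat.div_le_of_le_mul (ez_le c.1.2)
  have h2 := Nat.mod_add_div (d.ez (cz c)) d.n
  obtain ⟨y, hy⟩ := Nat.exists_eq_add_of_le h1
  have h3 : Z - d.ez (cz c) / d.n = y := by omega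
  unfold ck cx
  rw [h3]
  calc _ = d.ez (cz c) % d.n + d.n * cm c + d.n * (d.ez (cz c) / d.n + y) := by rw [← hy]
    _ = (d.ez (cz c) % d.n + d.n * (d.ez (cz c) / d.n)) + d.n * (y + cm c) := by ring
    _ = _ := by rw [h2]

theorem ck_lt (c : d.Col Z) : ck c < d.n * (cm c + 1) := by
  have := Nat.mod_lt (d.ez (cz c)) d.hn
  unfold ck; rw [mul_add]; omega

theorem ck_lt' (c : d.Col Z) : ck c < d.n * d.ll Z :=
  (ck_lt c).trans_le (Nat.mul_le_mul_left _ c.2.2)

theorem row_lt (r : d.Row Z) : d.D * rj r < d.E (rA r) * ri r 0 := (lt_cc d.hD).1 r.2.2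

theorem row_ext {r s : d.Row Z} (h1 : rA r = rA s) (h2 : ri r = ri s) (h3 : rj r = rj s) :
    r = s := by
  obtain ⟨⟨A, i, hi⟩, j⟩ := r
  obtain ⟨⟨A', i', hi'⟩, j'⟩ := s
  simp only [rA, ri, rj] at h1 h2 h3
  subst h1 h2
  rw [Fin.ext h3]

theorem sum_row {M : Type} [AddCommMonoid M] (F : Fin 2 → (Fin (d.r + 2) → ℕ) → ℕ → M) :
    ∑ r : d.Row Z, F (rA r) (ri r) (rj r) =
      ∑ A, ∑ i ∈ Sx (d.r + 2) Z, ∑ j ∈ range (cc (d.E A) d.D (i 0)), F A i j := by
  rw [Fintype.sum_sigma, Fintype.sum_prod_type]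
  refine Finset.sum_congr rfl fun A _ => ?_
  rw [← Finset.sum_coe_sort (Sx (d.r + 2) Z)]
  exact Finset.sum_congr rfl fun i _ => Fin.sum_univ_eq_sum_range (fun j => F A i.1 j) _

theorem sum_col {M : Type} [AddCommMonoid M] (F : (Fin (d.r + 2) → ℕ) → ℕ → M) :
    ∑ c : d.Col Z, F (cz c) (cm c) = ∑ z ∈ Sx (d.r + 2) Z, ∑ m ∈ range (d.ll Z), F z m := by
  rw [Fintype.sum_prod_type, ← Finset.sum_coe_sort (Sx (d.r + 2) Z)]
  exact Finset.sum_congr rfl fun z _ => Fin.sum_univ_eq_sum_range (fun m => F z.1 m) _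

theorem card_col (d : Dat) (Z : ℕ) : (Fintype.card (d.Col Z) : ℝ) = d.C Z * d.ll Z := by
  simp [C, Fintype.card_prod]

theorem ll_le_real (d : Dat) (Z : ℕ) : (d.ll Z : ℝ) ≤ Z * (d.ρ 0 + d.ρ 1) := by
  have h := Nat.cast_div_le (α := ℝ) (m := Z * (d.E 0 + d.E 1)) (n := d.D * (d.r + 2))
  refine h.trans_eq ?_
  unfold ρ N; push_cast; ring

theorem lt_ll_real (d : Dat) (Z : ℕ) : Z * (d.ρ 0 + d.ρ 1) < d.ll Z + 1 := by
  have hD := d.hD
  have h := Nat.lt_floor_add_one (R := ℝ) ((Z * (d.E 0 + d.E 1) : ℕ) / (d.D * (d.r + 2) : ℕ))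
  rw [Nat.floor_div_eq_div] at h
  refine lt_of_eq_of_lt ?_ h
  unfold ρ N; push_cast; ring

end Dat

end Pool.Agent.P.MP_09c11a_nt.W
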