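import Pool.Agent.P.MP_6f117a_ag.RR
import Pool.Agent.P.MP_09c11a_nt.W.Base

/-! Adelic bases, frames and heights over a function field in one variable over `ℂ`. -/

set_option autoImplicit false
set_option linter.unusedSectionVars false
set_option linter.unusedVariables false

namespace Pool.Agent.P.MP_09c11a_nt.W

open Finset Matrix WithZero Polynomial Pool.Agent.P.MP_6f117a_ag
open scoped IntermediateField

/-- Places over `ℂ`. -/
abbrev Pl (K : Type) [Field K] [Algebra ℂ K] : Type := Place ℂ K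

variable {K K' K'' : Type} [Field K] [Algebra ℂ K] [Field K'] [Algebra ℂ K'] [Field K'']
  [Algebra ℂ K''] {N : ℕ}

/-- The order of pole of `x` at `P`. -/
noncomputable def lg (P : Pl K) (x : K) : ℤ := log (P.v x)

/-- The logarithm of the larger of two absolute values. -/
noncomputable def lgm (P : Pl K) (x y : K) : ℤ := log (max (P.v x) (P.v y))

/-- Finite support. -/
def Fs (f : Pl K → ℤ) : Prop := (Function.support f).Finite

/-- The sum over all places. -/
noncomputable def tot (f : Pl K → ℤ) : ℤ := ∑ᶠ P, f P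

/-- The degree of a function. -/
noncomputable def dg (T : K) : ℕ := Module.finrank ℂ⟮T⟯ K

/-- Unimodular at `P`. -/
def Uni {I : Type} [Fintype I] [DecidableEq I] (P : Pl K) (M : Matrix I I K) : Prop :=
  (∀ i j, P.v (M i j) ≤ 1) ∧ P.v M.det = 1

/-- An adelic basis with three values. -/
structure Ad (K : Type) (N : ℕ) where
  f1 : K
  f2 : K
  H1 : Matrix (Fin N) (Fin N) K
  H2 : Matrix (Fin N) (Fin N) K
  H3 : Matrix (Fin N) (Fin N) K

/-- All three matrices are invertible. -/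
def Ad.Ok (A : Ad K N) : Prop := A.H1.det ≠ 0 ∧ A.H2.det ≠ 0 ∧ A.H3.det ≠ 0

/-- The basis at the place `P`. -/
noncomputable def Ad.loc (A : Ad K N) (P : Pl K) : Matrix (Fin N) (Fin N) K :=
  if P.v A.f1 < 1 then A.H1 else if P.v A.f2 < 1 then A.H2 else A.H3

/-- Base change. -/
def Ad.map (A : Ad K N) (φ : K →ₐ[ℂ] K') : Ad K' N :=
  ⟨φ A.f1, φ A.f2, A.H1.map φ, A.H2.map φ, A.H3.map φ⟩

/-- A global basis `X` with its Iwasawa decompositions against the adelic basis. -/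
structure Frame (A : Ad K N) where
  X : Matrix (Fin N) (Fin N) K
  κ : Pl K → Matrix (Fin N) (Fin N) K
  B : Pl K → Matrix (Fin N) (Fin N) K
  det : X.det ≠ 0
  eq : ∀ P, X = A.loc P * κ P * B P
  uni : ∀ P, Uni P (κ P)
  up : ∀ P, Up (B P)

/-- The successive heights of a frame. -/
noncomputable def Frame.ht {A : Ad K N} (F : Frame A) (k : Fin N) : ℤ :=
  tot fun P => lg P (F.B P k k)

/-- Restriction of places along `φ`, with ramification indices and degree. -/
structure Res (φ : K →ₐ[ℂ] K') where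
  ρ : Pl K' → Pl K
  e : Pl K' → ℕ
  d : ℕ
  pos : ∀ P, 0 < e P
  dpos : 0 < d
  val : ∀ P x, P.v (φ x) = (ρ P).v x ^ e P
  fib : ∀ Q, {P | ρ P = Q}.Finite
  sum : ∀ f : Pl K → ℤ, Fs f → tot (fun P => e P * f (ρ P)) = d * tot f
  deg : ∀ x : K, Transcendental ℂ x → dg (φ x) = d * dg x

/-- The vector `c` has all coordinates of absolute value at most `exp β` at `P`. -/
def Bd {I : Type} (P : Pl K) (β : ℤ) (c : I → K) : Prop := ∀ i, P.v (c i) ≤ exp β

/-- Every nonzero linear form over every extension has degree at least `μ`. -/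
def LinB (A : Ad K N) (T : K) (μ : ℝ) : Prop :=
  ∀ (K' : Type) [Field K'] [Algebra ℂ K'] [FF ℂ K'] (φ : K →ₐ[ℂ] K') (lam : Fin N → K')
    (b : Pl K' → ℤ), lam ≠ 0 → Fs b → (∀ P, Bd P (b P) (lam ᵥ* (A.map φ).loc P)) →
    μ * dg (φ T) ≤ (tot b : ℤ)

/-- Elements fixed by all automorphisms fixing `τ` are rational functions of `τ`. -/
def Gal (τ : K) : Prop :=
  ∀ x : K, (∀ σ : K ≃ₐ[ℂ] K, σ τ = τ → σ x = x) →
    ∃ p q : ℂ[X], q ≠ 0 ∧ x * aeval τ q = aeval τ p

/-- Packing of a vector of polynomials in `T ^ n` into one polynomial in `T`. -/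
noncomputable def pk (n : ℕ) (e : Fin N → ℕ) (w : Fin N → ℂ[X]) : ℂ[X] :=
  ∑ i, X ^ e i * expand ℂ n (w i)

/-- The width of a packed vector. -/
noncomputable def wd (n : ℕ) (e : Fin N → ℕ) (w : Fin N → ℂ[X]) : ℕ :=
  (pk n e w).natDegree - (pk n e w).natTrailingDegree

/-- The rows of `μ` lie in the span of the rows of `ν` over the field of rational functions. -/
def Sp {s : ℕ} (μ ν : Matrix (Fin s) (Fin N) ℂ[X]) : Prop :=
  ∃ (q : ℂ[X]) (M : Matrix (Fin s) (Fin s) ℂ[X]), q ≠ 0 ∧ q • μ = M * ν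

/-- A reduced basis. -/
structure Red {s : ℕ} (n : ℕ) (e : Fin N → ℕ) (μ : Matrix (Fin s) (Fin N) ℂ[X]) : Prop where
  ind : Ind μ
  lo : Function.Injective fun j => (pk n e (μ j)).natTrailingDegree % n
  hi : Function.Injective fun j => (pk n e (μ j)).natDegree % n
  rk : ∀ a : ℂ, a ≠ 0 → Ind (μ.map (eval a))

/-- The data of the zero lemma over `K`. -/
structure Zd (K : Type) [Field K] [Algebra ℂ K] (r : ℕ) where
  n : ℕ
  D : ℕ
  E : Fin 2 → ℕ
  e : Fin (r + 2) → ℕ
  a : Fin 2 → ℂ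
  g : Fin 2 → Matrix (Fin (r + 2)) (Fin (r + 2)) ℂ
  T : K
  s : Fin 2 → K
  hn : 0 < n
  hD : 0 < D
  einj : Function.Injective e
  elt : ∀ i, e i < n
  ane : ∀ A, a A ≠ 0
  a01 : a 0 ≠ a 1
  gdet : ∀ A, (g A).det ≠ 0
  gne : ∀ A i, g A i 0 ≠ 0
  hE : n * (E 0 + E 1) ≤ D * (r + 2)
  hT : Transcendental ℂ T
  hs : ∀ A, s A ^ D = T ^ n - algebraMap ℂ K (a A)

/-- The basis at the zeros of `s A`. -/
noncomputable def Zd.H {r : ℕ} (z : Zd K r) (A : Fin 2) : Matrix (Fin (r + 2)) (Fin (r + 2)) K :=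
  (z.g A).map (algebraMap ℂ K) * diagonal fun i => if i = 0 then (z.s A ^ z.E A)⁻¹ else 1

/-- The adelic basis of the zero lemma. -/
noncomputable def Zd.ad {r : ℕ} (z : Zd K r) : Ad K (r + 2) :=
  ⟨z.s 0, z.s 1, z.H 0, z.H 1, diagonal fun i => z.T ^ z.e i⟩

theorem trans_map (φ : K →ₐ[ℂ] K') {x : K} (h : Transcendental ℂ x) : Transcendental ℂ (φ x) :=
  fun h' => h ((isAlgebraic_algHom_iff φ φ.toRingHom.injective).1 h')

/-- Base change of the data of the zero lemma. -/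
def Zd.map {r : ℕ} (z : Zd K r) (φ : K →ₐ[ℂ] K') : Zd K' r :=
  { n := z.n, D := z.D, E := z.E, e := z.e, a := z.a, g := z.g, T := φ z.T, s := fun A => φ (z.s A)
    hn := z.hn, hD := z.hD, einj := z.einj, elt := z.elt, ane := z.ane, a01 := z.a01
    gdet := z.gdet, gne := z.gne, hE := z.hE, hT := trans_map φ z.hT
    hs := fun A => by rw [← map_pow, z.hs, map_sub, map_pow, AlgHom.commutes] }

theorem Zd.H_map {r : ℕ} (z : Zd K r) (φ : K →ₐ[ℂ] K') (A : Fin 2) :
    (z.map φ).H A = (z.H A).map φ := by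
  ext i j
  simp only [Zd.H, Zd.map, Matrix.mul_diagonal, Matrix.map_apply, map_mul, AlgHom.commutes]
  split_ifs <;> simp

theorem Zd.ad_map {r : ℕ} (z : Zd K r) (φ : K →ₐ[ℂ] K') : (z.map φ).ad = z.ad.map φ := by
  simp only [Zd.ad, Ad.map, Zd.H_map]
  congr 1
  rw [Matrix.diagonal_map (map_zero φ)]
  simp [Zd.map]

theorem Zd.T_ne {r : ℕ} (z : Zd K r) : z.T ≠ 0 := trans_ne z.hT

theorem Zd.trans_pow {r : ℕ} (z : Zd K r) : Transcendental ℂ (z.T ^ z.n) := z.hT.pow z.hn

theorem Zd.s_ne {r : ℕ} (z : Zd K r) (A : Fin 2) : z.s A ≠ 0 := fun h =>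
  trans_ne (trans_sub z.trans_pow (z.a A)) (by rw [← z.hs, h, zero_pow z.hD.ne'])

theorem det_map_ne {I : Type} [Fintype I] [DecidableEq I] {F F' : Type} [Field F] [Field F']
    (φ : F →+* F') {M : Matrix I I F} (h : M.det ≠ 0) : (M.map φ).det ≠ 0 := by
  rw [← RingHom.mapMatrix_apply, ← RingHom.map_det]; exact (map_ne_zero φ).2 h

theorem Zd.ok {r : ℕ} (z : Zd K r) : z.ad.Ok := by
  have h : ∀ A, (z.H A).det ≠ 0 := fun A => by
    rw [Zd.H, det_mul, det_diagonal]
    refine mul_ne_zero (det_map_ne _ (z.gdet A)) (Finset.prod_ne_zero_iff.2 fun i _ => ?_)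
    split_ifs
    · exact inv_ne_zero (pow_ne_zero _ (z.s_ne A))
    · exact one_ne_zero
  exact ⟨h 0, h 1, by
    rw [Zd.ad, det_diagonal]; exact Finset.prod_ne_zero_iff.2 fun i _ => pow_ne_zero _ z.T_ne⟩

/-! ### Logarithms -/

theorem v_ne (P : Pl K) {x : K} (h : x ≠ 0) : P.v x ≠ 0 := by simpa using h

theorem exp_lg (P : Pl K) {x : K} (h : x ≠ 0) : exp (lg P x) = P.v x := exp_log (v_ne P h)

theorem lg_le_iff (P : Pl K) {x : K} (h : x ≠ 0) {β : ℤ} : lg P x ≤ β ↔ P.v x ≤ exp β :=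
  log_le_iff_le_exp (v_ne P h)

theorem lg_one (P : Pl K) : lg P 1 = 0 := by simp [lg]

theorem lg_of_v {P : Pl K} {x : K} (h : P.v x = 1) : lg P x = 0 := by simp [lg, h]

theorem lg_mul (P : Pl K) {x y : K} (hx : x ≠ 0) (hy : y ≠ 0) : lg P (x * y) = lg P x + lg P y := by
  rw [lg, map_mul, log_mul (v_ne P hx) (v_ne P hy)]; rfl

theorem lg_pow (P : Pl K) (x : K) (n : ℕ) : lg P (x ^ n) = n * lg P x := by
  rw [lg, map_pow, log_pow, nsmul_eq_mul]; rfl

theorem lg_inv (P : Pl K) (x : K) : lg P x⁻¹ = -lg P x := by rw [lg, map_inv₀, log_inv]; rfl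

theorem lg_prod (P : Pl K) {I : Type} (s : Finset I) (x : I → K) (h : ∀ i ∈ s, x i ≠ 0) :
    lg P (∏ i ∈ s, x i) = ∑ i ∈ s, lg P (x i) := by
  classical
  induction s using Finset.induction_on with
  | empty => simp [lg_one]
  | insert a s ha ih =>
    rw [prod_insert ha, sum_insert ha, lg_mul P (h a (mem_insert_self _ _))
      (prod_ne_zero_iff.2 fun i hi => h i (mem_insert_of_mem hi)),
      ih fun i hi => h i (mem_insert_of_mem hi)]

theorem lg_neg_iff (P : Pl K) {x : K} (h : x ≠ 0) : lg P x < 0 ↔ P.v x < 1 :=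
  log_lt_iff_lt_exp (v_ne P h)

theorem lg_pos_iff (P : Pl K) {x : K} (h : x ≠ 0) : 0 < lg P x ↔ 1 < P.v x := by
  rw [← not_le, lg_le_iff P h, exp_zero, not_le]

/-! ### Sums over all places -/

theorem Fs.subset {f g : Pl K → ℤ} (hg : Fs g) (h : ∀ P, g P = 0 → f P = 0) : Fs f :=
  Set.Finite.subset hg fun P hP h' => hP (h P h')

theorem fs_of_finite {f : Pl K → ℤ} {S : Set (Pl K)} (hS : S.Finite) (h : ∀ P, P ∉ S → f P = 0) :
    Fs f := hS.subset fun P hP => by_contra fun h' => hP (h P h')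

theorem fs_zero : Fs (fun _ : Pl K => 0) := fs_of_finite Set.finite_empty fun _ _ => rfl

theorem Fs.add {f g : Pl K → ℤ} (hf : Fs f) (hg : Fs g) : Fs fun P => f P + g P :=
  (Set.Finite.union hf hg).subset (Function.support_add f g)

theorem Fs.mul {f : Pl K → ℤ} (hf : Fs f) (c : Pl K → ℤ) : Fs fun P => c P * f P :=
  hf.subset fun P h => by rw [h, mul_zero]

theorem Fs.neg {f : Pl K → ℤ} (hf : Fs f) : Fs fun P => -f P :=
  hf.subset fun P h => by rw [h, neg_zero]

theorem Fs.sub {f g : Pl K → ℤ} (hf : Fs f) (hg : Fs g) : Fs fun P => f P - g P := by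
  simpa only [sub_eq_add_neg] using hf.add hg.neg

theorem fs_sum {I : Type} (s : Finset I) (f : I → Pl K → ℤ) (h : ∀ i ∈ s, Fs (f i)) :
    Fs fun P => ∑ i ∈ s, f i P :=
  fs_of_finite (s.finite_toSet.biUnion h) fun P hP => Finset.sum_eq_zero fun i hi =>
    by_contra fun h' => hP (Set.mem_biUnion (Finset.mem_coe.2 hi) h')

theorem tot_eq_sum {f : Pl K → ℤ} (S : Finset (Pl K)) (h : ∀ P, P ∉ S → f P = 0) :
    tot f = ∑ P ∈ S, f P :=
  finsum_eq_sum_of_support_subset f fun P hP => by_contra fun h' => hP (h P h')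

theorem tot_zero : tot (fun _ : Pl K => 0) = 0 := finsum_zero

theorem tot_add {f g : Pl K → ℤ} (hf : Fs f) (hg : Fs g) :
    tot (fun P => f P + g P) = tot f + tot g := finsum_add_distrib hf hg

theorem tot_mul (c : ℤ) {f : Pl K → ℤ} (hf : Fs f) : tot (fun P => c * f P) = c * tot f :=
  (mul_finsum' f c hf).symm

theorem tot_neg (f : Pl K → ℤ) : tot (fun P => -f P) = -tot f := finsum_neg_distrib f

theorem tot_sub {f g : Pl K → ℤ} (hf : Fs f) (hg : Fs g) :
    tot (fun P => f P - g P) = tot f - tot g := finsum_sub_distrib hf hg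

theorem tot_le {f g : Pl K → ℤ} (hf : Fs f) (hg : Fs g) (h : ∀ P, f P ≤ g P) : tot f ≤ tot g :=
  finsum_le_finsum' hf hg h

theorem tot_sum {I : Type} (s : Finset I) (f : I → Pl K → ℤ) (h : ∀ i ∈ s, Fs (f i)) :
    tot (fun P => ∑ i ∈ s, f i P) = ∑ i ∈ s, tot (f i) := by
  classical
  induction s using Finset.induction_on with
  | empty => simp [tot_zero]
  | insert a s ha ih =>
    simp only [sum_insert ha]
    rw [tot_add (h a (mem_insert_self _ _)) (fs_sum s f fun i hi => h i (mem_insert_of_mem hi)),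
      ih fun i hi => h i (mem_insert_of_mem hi)]

/-! ### Unimodular matrices -/

section

variable {I : Type} [Fintype I] [DecidableEq I] {P : Pl K}

theorem v_det_le (P : Pl K) (M : Matrix I I K) (β : I → ℤ) (h : ∀ i j, P.v (M i j) ≤ exp (β i)) :
    P.v M.det ≤ exp (∑ i, β i) := by
  rw [← det_transpose, det_apply']
  refine P.v.map_sum_le fun σ _ => ?_
  have h1 : P.v ((Equiv.Perm.sign σ : ℤ) : K) = 1 := by
    rcases Int.units_eq_one_or (Equiv.Perm.sign σ) with e | e <;> simp [e]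
  have h2 : exp (∑ i, β i) = ∏ i, exp (β i) := by
    induction (univ : Finset I) using Finset.induction_on with
    | empty => simp
    | insert a s ha ih => rw [sum_insert ha, prod_insert ha, exp_add, ih]
  rw [map_mul, h1, one_mul, map_prod, h2]
  exact Finset.prod_le_prod' fun i _ => h _ _

theorem v_det_le_one (P : Pl K) (M : Matrix I I K) (h : ∀ i j, P.v (M i j) ≤ 1) : P.v M.det ≤ 1 := by
  simpa using v_det_le P M (fun _ => 0) (by simpa using h)

theorem v_mul_le {J L : Type} [Fintype J] (P : Pl K) (M : Matrix I J K) (M' : Matrix J L K)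
    {x y : ℤᵐ⁰} (h : ∀ i j, P.v (M i j) ≤ x) (h' : ∀ i j, P.v (M' i j) ≤ y) (i : I) (l : L) :
    P.v ((M * M') i l) ≤ x * y := by
  rw [Matrix.mul_apply]
  exact P.v.map_sum_le fun j _ => by rw [map_mul]; exact mul_le_mul' (h _ _) (h' _ _)

theorem Uni.det_ne {M : Matrix I I K} (h : Uni P M) : M.det ≠ 0 := fun e => by
  simpa [e] using h.2

theorem uni_one (P : Pl K) : Uni P (1 : Matrix I I K) :=
  ⟨fun i j => by rw [Matrix.one_apply]; split_ifs <;> simp, by simp⟩

theorem Uni.mul {M M' : Matrix I I K} (h : Uni P M) (h' : Uni P M') : Uni P (M * M') :=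
  ⟨fun i j => by simpa using v_mul_le P M M' h.1 h'.1 i j, by rw [det_mul, map_mul, h.2, h'.2, one_mul]⟩

theorem Uni.inv {M : Matrix I I K} (h : Uni P M) : Uni P M⁻¹ := by
  refine ⟨fun i j => ?_, by rw [det_nonsing_inv, Ring.inverse_eq_inv, map_inv₀, h.2, inv_one]⟩
  rw [Matrix.inv_def, Matrix.smul_apply, smul_eq_mul, map_mul, Ring.inverse_eq_inv, map_inv₀, h.2,
    inv_one, one_mul, adjugate_apply]
  refine v_det_le_one P _ fun k l => ?_
  rw [updateRow_apply]
  split_ifs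
  · rw [Pi.single_apply]; split_ifs <;> simp
  · exact h.1 _ _

theorem Bd.vecMul {β : ℤ} {c : I → K} (hc : Bd P β c) {J : Type} {M : Matrix I J K}
    (h : ∀ i j, P.v (M i j) ≤ 1) : Bd P β (c ᵥ* M) := fun j => by
  rw [Matrix.vecMul, dotProduct]
  exact P.v.map_sum_le fun i _ => by
    rw [map_mul]; exact (mul_le_mul' (hc i) (h i j)).trans_eq (mul_one _)

theorem Bd.mulVec {β : ℤ} {c : I → K} (hc : Bd P β c) {J : Type} {M : Matrix J I K}
    (h : ∀ i j, P.v (M i j) ≤ 1) : Bd P β (M *ᵥ c) := fun j => by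
  rw [Matrix.mulVec, dotProduct]
  exact P.v.map_sum_le fun i _ => by
    rw [map_mul]; exact (mul_le_mul' (h j i) (hc i)).trans_eq (one_mul _)

end

theorem Up.det {R : Type} [CommRing R] {B : Matrix (Fin N) (Fin N) R} (h : Up B) :
    B.det = ∏ k, B k k := det_of_isUpperTriangular fun _ _ hl => h _ _ hl

theorem Uni.diag {P : Pl K} {B : Matrix (Fin N) (Fin N) K} (h : Uni P B) (hB : Up B) (k : Fin N) :
    P.v (B k k) = 1 := by
  have h2 := h.2
  rw [hB.det, map_prod] at h2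
  exact (Finset.prod_eq_one_iff_of_le_one' fun i _ => h.1 i i).1 h2 k (mem_univ k)

theorem Ad.Ok.loc {A : Ad K N} (h : A.Ok) (P : Pl K) : (A.loc P).det ≠ 0 := by
  unfold Ad.loc; split_ifs; exacts [h.1, h.2.1, h.2.2]

theorem Ad.Ok.map {A : Ad K N} (h : A.Ok) (φ : K →ₐ[ℂ] K') : (A.map φ).Ok :=
  ⟨det_map_ne φ.toRingHom h.1, det_map_ne φ.toRingHom h.2.1, det_map_ne φ.toRingHom h.2.2⟩

theorem Ad.map_map (A : Ad K N) (φ : K →ₐ[ℂ] K') (ψ : K' →ₐ[ℂ] K'') :
    (A.map φ).map ψ = A.map (ψ.comp φ) := rfl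

theorem Ad.map_id (A : Ad K N) : A.map (AlgHom.id ℂ K) = A := rfl

theorem Frame.ne {A : Ad K N} (F : Frame A) (P : Pl K) (k : Fin N) : F.B P k k ≠ 0 := by
  have h := F.det
  rw [F.eq P, det_mul, (F.up P).det] at h
  exact Finset.prod_ne_zero_iff.1 (right_ne_zero_of_mul h) k (mem_univ k)

/-! ### Restriction of places -/

namespace Res

variable {φ : K →ₐ[ℂ] K'} (ℛ : Res φ)

theorem lg_map (P : Pl K') (x : K) : lg P (φ x) = ℛ.e P * lg (ℛ.ρ P) x := by
  rw [lg, ℛ.val, log_pow, nsmul_eq_mul]; rfl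

theorem lt_one (P : Pl K') (x : K) : P.v (φ x) < 1 ↔ (ℛ.ρ P).v x < 1 := by
  rw [ℛ.val, pow_lt_one_iff (ℛ.pos P).ne']

theorem le_exp (P : Pl K') {x : K} {β : ℤ} (h : (ℛ.ρ P).v x ≤ exp β) :
    P.v (φ x) ≤ exp (ℛ.e P * β) := by
  rw [ℛ.val, ← nsmul_eq_mul, WithZero.exp_nsmul]; exact pow_le_pow_left' h _

theorem loc_map (A : Ad K N) (P : Pl K') : (A.map φ).loc P = (A.loc (ℛ.ρ P)).map φ := by
  simp only [Ad.loc, Ad.map, ℛ.lt_one]; split_ifs <;> rfl

theorem finite {S : Set (Pl K)} (h : S.Finite) : (ℛ.ρ ⁻¹' S).Finite :=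
  h.preimage' fun Q _ => ℛ.fib Q

theorem fs {f : Pl K → ℤ} (h : Fs f) : Fs fun P => ℛ.e P * f (ℛ.ρ P) :=
  fs_of_finite (ℛ.finite h) fun P hP => by
    rw [show f (ℛ.ρ P) = 0 from by_contra fun h' => hP h', mul_zero]

theorem uni {I : Type} [Fintype I] [DecidableEq I] (P : Pl K') {M : Matrix I I K}
    (h : Uni (ℛ.ρ P) M) : Uni P (M.map φ) :=
  ⟨fun i j => by rw [Matrix.map_apply, ℛ.val]; exact pow_le_one' (h.1 i j) _, by
    rw [← AlgHom.mapMatrix_apply, ← AlgHom.map_det, ℛ.val, h.2, one_pow]⟩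

/-- Base change of a frame. -/
noncomputable def frame {A : Ad K N} (F : Frame A) : Frame (A.map φ) where
  X := F.X.map φ
  κ P := (F.κ (ℛ.ρ P)).map φ
  B P := (F.B (ℛ.ρ P)).map φ
  det := det_map_ne φ.toRingHom F.det
  eq P := by
    rw [ℛ.loc_map, ← Matrix.map_mul, ← Matrix.map_mul, ← F.eq]
  uni P := ℛ.uni P (F.uni _)
  up P k l h := by rw [Matrix.map_apply, F.up _ k l h, map_zero]

theorem frame_B {A : Ad K N} (F : Frame A) (P : Pl K') (k l : Fin N) :
    (ℛ.frame F).B P k l = φ (F.B (ℛ.ρ P) k l) := rfl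

end Res

/-! ### The product formula -/

variable [FF ℂ K]

theorem fs_lg (x : K) : Fs fun P : Pl K => lg P x := by
  rcases eq_or_ne x 0 with rfl | h
  · simpa [lg] using fs_zero
  · exact fs_of_finite (finite_supp (L := ℂ) h) fun P hP => lg_of_v (not_not.1 hP)

theorem tot_lg (x : K) : tot (fun P : Pl K => lg P x) = 0 := by
  rcases eq_or_ne x 0 with rfl | h
  · simpa [lg] using tot_zero
  · rw [tot_eq_sum (finite_supp (L := ℂ) h).toFinset fun P hP => lg_of_v (by simpa using hP)]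
    exact prod_formula h _ (by simp)

theorem tot_pole {T : K} (hT : Transcendental ℂ T) :
    tot (fun P : Pl K => max (lg P T) 0) = dg T := by
  obtain ⟨Z, h1, h2⟩ := exists_poles hT
  rw [tot_eq_sum Z fun P hP => max_eq_right
    (not_lt.1 fun h => hP ((h1 P).2 ((lg_pos_iff P (trans_ne hT)).1 h))), dg, ← h2]
  exact Finset.sum_congr rfl fun P hP =>
    max_eq_left ((lg_pos_iff P (trans_ne hT)).2 ((h1 P).1 hP)).le

theorem tot_zeros {T : K} (hT : Transcendental ℂ T) :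
    tot (fun P : Pl K => max (-lg P T) 0) = dg T := by
  have h := tot_pole (trans_inv hT)
  rw [dg, adjoin_inv] at h
  simpa only [lg_inv, dg] using h

theorem fs_pole (T : K) : Fs fun P : Pl K => max (lg P T) 0 :=
  (fs_lg T).subset fun P h => by rw [h, max_self]

theorem fs_zeros (T : K) : Fs fun P : Pl K => max (-lg P T) 0 :=
  (fs_lg T).subset fun P h => by rw [h, neg_zero, max_self]

theorem dg_pos {T : K} (hT : Transcendental ℂ T) : 0 < dg T :=
  have := FF.fin T hT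
  Module.finrank_pos

theorem dg_pow {T : K} (hT : Transcendental ℂ T) {n : ℕ} (hn : 0 < n) : dg (T ^ n) = n * dg T := by
  have h := tot_pole (hT.pow hn)
  have e : (fun P : Pl K => max (lg P (T ^ n)) 0) = fun P => n * max (lg P T) 0 := funext fun P => by
    rw [lg_pow, mul_max_of_nonneg _ _ (Int.natCast_nonneg n), mul_zero]
  rw [e, tot_mul _ (fs_pole T), tot_pole hT] at h
  exact_mod_cast h.symm

theorem dg_sub (T : K) (a : ℂ) : dg (T - algebraMap ℂ K a) = dg T := by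
  rw [dg, adjoin_sub, dg]

theorem finite_gt (x : K) : {P : Pl K | ¬P.v x ≤ 1}.Finite := by
  rcases eq_or_ne x 0 with rfl | h
  · simp
  · exact (finite_supp (L := ℂ) h).subset fun P hP h' => hP h'.le

theorem finite_uni {I : Type} [Fintype I] [DecidableEq I] {M : Matrix I I K} (h : M.det ≠ 0) :
    {P : Pl K | ¬Uni P M}.Finite :=
  ((Set.finite_iUnion fun q : I × I => finite_gt (M q.1 q.2)).union
    (finite_supp (L := ℂ) h)).subset fun P hP => by_contra fun h' => by
      simp only [Set.mem_union, Set.mem_iUnion, not_or, not_exists, Set.mem_ofPred_eq, not_not] at h'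
      exact hP ⟨fun i j => h'.1 (i, j), h'.2⟩

theorem Ad.Ok.finite {A : Ad K N} (h : A.Ok) : {P : Pl K | ¬Uni P (A.loc P)}.Finite :=
  (((finite_uni h.1).union (finite_uni h.2.1)).union (finite_uni h.2.2)).subset fun P hP => by
    simp only [Set.mem_ofPred_eq, Ad.loc] at hP
    split_ifs at hP
    exacts [Or.inl (Or.inl hP), Or.inl (Or.inr hP), Or.inr hP]

theorem Frame.finite {A : Ad K N} (F : Frame A) (h : A.Ok) : {P : Pl K | ¬Uni P (F.B P)}.Finite :=
  (h.finite.union (finite_uni F.det)).subset fun P hP => by_contra fun h' => by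
    simp only [Set.mem_union, not_or, Set.mem_ofPred_eq, not_not] at h'
    have u := h'.1.mul (F.uni P)
    have e : F.B P = (A.loc P * F.κ P)⁻¹ * F.X := by
      rw [F.eq P, Matrix.nonsing_inv_mul_cancel_left _ _ (isUnit_iff_ne_zero.2 u.det_ne)]
    exact hP (e ▸ u.inv.mul h'.2)

theorem Frame.fs {A : Ad K N} (F : Frame A) (h : A.Ok) (k : Fin N) :
    Fs fun P => lg P (F.B P k k) :=
  fs_of_finite (F.finite h) fun P hP => lg_of_v ((not_not.1 hP : Uni P _).diag (F.up P) k)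

theorem Res.frame_ht {φ : K →ₐ[ℂ] K'} (ℛ : Res φ) {A : Ad K N} (F : Frame A) (h : A.Ok)
    (k : Fin N) : (ℛ.frame F).ht k = ℛ.d * F.ht k := by
  simp only [Frame.ht, Res.frame_B, ℛ.lg_map]
  exact ℛ.sum _ (F.fs h k)

end Pool.Agent.P.MP_09c11a_nt.W
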