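import Pool.Agent.P.MP_09c11a_nt.W.IfaceS

/-! Statements on the interpolation determinant. -/

set_option autoImplicit false
set_option linter.unusedVariables false

namespace Pool.Agent.P.MP_09c11a_nt.W

open Finset Matrix Dat

/-- The final inequality of the determinant method. -/
def Ineq (a p n v N τ w0 w1 : ℝ) : Prop :=
  (w0 + w1 - 1 / 2 - (w0 ^ 2 + w1 ^ 2) / 2) * Real.log p ≤
    w0 * w1 * (n / (v * N) + 1 / v) * Real.log a + (w0 + w1) / 2 * Real.log N + w1 * Real.log τ +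
      3 * (w0 + w1) + (w0 ^ 2 + w1 ^ 2) * Real.log N / v

-- deps: S1 S6
def S_QM1 : Prop :=
  ∀ (d : Dat) (Z : ℕ) (R : Type) [CommRing R]
    (B h : Fin 2 → Matrix (Fin (d.r + 2)) (Fin (d.r + 2)) R) (w : Fin 2 → ℕ → d.Col Z → R),
    (∀ A k, k ≠ 0 → B A k 0 = 0) → Qm Z B * Jg h w = Jg (fun A => h A * B A) w

-- deps: S1 S2 S6
def S_QM2 : Prop :=
  ∀ (d : Dat) (Z : ℕ) (R : Type) [CommRing R]
    (B B' : Fin 2 → Matrix (Fin (d.r + 2)) (Fin (d.r + 2)) R),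
    (∀ A k, k ≠ 0 → B A k 0 = 0) → (∀ A, B' A * B A = 1) → Qm Z B * Qm Z B' = 1

-- deps: S5
def S_QM3 : Prop :=
  ∀ (d : Dat) (Z : ℕ) (R : Type) [CommRing R]
    (B : Fin 2 → Matrix (Fin (d.r + 2)) (Fin (d.r + 2)) R),
    (∀ A, Up (B A)) → (∀ A k, B A k k = 1) → (Qm Z B).det = 1

-- deps: CNT1
def S_CNT2 : Prop :=
  ∀ (d : Dat) (Z : ℕ), (∀ k, ∑ z ∈ Sx (d.r + 2) Z, (z k : ℝ) = Z * d.C Z / d.N) ∧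
    (∀ k l, k ≠ l → ∑ z ∈ Sx (d.r + 2) Z, (z k : ℝ) * z l =
      Z * (Z - 1) * d.C Z / (d.N * (d.N + 1))) ∧
    ∀ k, ∑ z ∈ Sx (d.r + 2) Z, (z k : ℝ) ^ 2 =
      2 * (Z * (Z - 1) * d.C Z / (d.N * (d.N + 1))) + Z * d.C Z / d.N

-- deps: CNT2
def S_ROWS : Prop :=
  ∀ (d : Dat) (Z : ℕ), (Fintype.card (d.Row Z) : ℝ) ≤ Fintype.card (d.Col Z) + 3 * d.C Z ∧
    (∀ A, d.ρ A * Z * d.C Z ≤ (#{r : d.Row Z | rA r = A} : ℝ) ∧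
      (#{r : d.Row Z | rA r = A} : ℝ) ≤ d.ρ A * Z * d.C Z + d.C Z) ∧
    (1 ≤ Z → d.C Z ≤ d.C Z * Z ∧ d.C Z * Z ≤ d.er Z) ∧
    ∀ (σ : d.Col Z → d.Row Z) (ψ : d.Row Z → ℝ) (M : ℝ), Function.Injective σ → 0 ≤ M →
      (∀ r, |ψ r| ≤ M) → |∑ c, ψ (σ c) - ∑ r, ψ r| ≤ 3 * d.C Z * M

-- deps: S2
def S_NORM : Prop :=
  ∀ (d : Dat) (Z : ℕ) (ι : d.Col Z → d.Row Z), ∃ s t u : ℕ,
    (d.a : ℤ) ^ s * d.DelX ι = (d.a : ℤ) ^ t * (d.b : ℤ) ^ u * d.Del ι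

-- deps: ROWS
def S_VAC : Prop :=
  ∀ d : Dat, ∃ K : ℝ, ∀ Z, 1 ≤ Z → ∀ (σ : d.Col Z → d.Row Z) (m : d.Col Z → ℕ),
    Function.Injective σ → Function.Injective (fun c => (cz c, m c)) →
    d.cA * d.mt Z - K * d.er Z ≤ ∑ c, if rA (σ c) = 1 then (d.n * m c : ℝ) else 0

-- deps: VAC
def S_VAB : Prop :=
  ∀ d : Dat, ∃ K : ℝ, ∀ Z, 1 ≤ Z → ∀ ι : d.Col Z → d.Row Z, Function.Injective ι →
    ∃ E : ℕ, (d.a : ℤ) ^ E ∣ d.Del ι ∧ (d.b : ℤ) ^ E ∣ d.Del ι ∧ d.cA * d.mt Z - K * d.er Z ≤ E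

-- deps: ROWS CNT2
def S_VXC : Prop :=
  ∀ d : Dat, ∃ K : ℝ, ∀ Z, 1 ≤ Z → ∀ (σ : d.Col Z → d.Row Z) (f : d.Col Z → ℕ),
    Function.Injective σ → Function.Injective (fun c => (blk (σ c), f c)) →
    d.cX * d.mt Z - K * d.er Z ≤ ∑ c, ((f c : ℝ) - rj (σ c))

-- deps: QM1 QM2 DIV S3 S11 TAY
def S_VXA : Prop :=
  ∀ (d : Dat) (Z : ℕ) (ι : d.Col Z → d.Row Z) (y : ℝ), Function.Injective ι →
    (∀ (σ : d.Col Z → d.Row Z) (f : d.Col Z → ℕ), Function.Injective σ →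
      Function.Injective (fun c => (blk (σ c), f c)) → y ≤ ∑ c, ((f c : ℝ) - rj (σ c))) →
    ((d.a : ℤ) ^ d.n - (d.b : ℤ) ^ d.n) ^ ⌈y⌉₊ ∣ d.DelX ι

-- deps: ROWS CNT2
def S_VPC : Prop :=
  ∀ d : Dat, ∃ K : ℝ, ∀ Z, 1 ≤ Z → ∀ (σ : d.Col Z → d.Row Z) (f : d.Col Z → d.Ex Z × ℕ),
    Function.Injective σ → Function.Injective f →
    d.cP * d.mt Z - K * d.er Z ≤
      ∑ c, ((d.v * (f c).2 - (f c).1.1 0 : ℝ) - (d.v * rj (σ c) - ri (σ c) 0))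

-- deps: DIV S1 S6 TAY
def S_VPA : Prop :=
  ∀ (d : Dat) (Z : ℕ) (ι : d.Col Z → d.Row Z) (y : ℝ), Function.Injective ι →
    (∀ (σ : d.Col Z → d.Row Z) (f : d.Col Z → d.Ex Z × ℕ), Function.Injective σ →
      Function.Injective f →
      y ≤ ∑ c, ((d.v * (f c).2 - (f c).1.1 0 : ℝ) - (d.v * rj (σ c) - ri (σ c) 0))) →
    (d.p : ℤ) ^ ⌈y⌉₊ ∣ d.DelX ι

-- deps: S8
def S_ENT : Prop :=
  ∀ (d : Dat) (Z : ℕ) (h : Fin 2 → Matrix (Fin (d.r + 2)) (Fin (d.r + 2)) ℝ)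
    (lam : Fin 2 → Fin (d.r + 2) → ℝ),
    (∀ A, (h A)ᵀ * h A = diagonal (fun k => Real.exp (lam A k) ^ 2)) →
    ∀ (r : d.Row Z) (c : d.Col Z),
      |Jg h (fun A j c => ((cx c).choose j : ℝ) * (d.bs A : ℝ) ^ ck c *
        (d.bt A : ℝ) ^ (d.n * d.ll Z - ck c)) r c| ≤ Real.exp (ent lam r c)

-- deps: QM1 QM3 ARB GS ENT S3 S10 ROWS CNT1
def S_ARA : Prop :=
  ∀ d : Dat, ∃ (K : ℝ) (lam : Fin 2 → Fin (d.r + 2) → ℝ), (∀ A, ∑ k, lam A k = 0) ∧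
    (∀ A, lam A 0 = d.lt A) ∧ ∀ Z, 1 ≤ Z → ∀ (ι : d.Col Z → d.Row Z) (Γ : ℝ),
      Function.Injective ι → d.Del ι ≠ 0 →
      (∀ σ : d.Col Z → d.Row Z, Function.Injective σ → ∑ c, ent lam (σ c) c ≤ Γ) →
      Real.log |(d.Del ι : ℝ)| ≤ Γ + K * d.er Z

-- deps: ROWS
def S_ARC1 : Prop :=
  ∀ d : Dat, ∃ K : ℝ, ∀ Z, 1 ≤ Z → ∀ σ : d.Col Z → d.Row Z, Function.Injective σ →
    ∑ c, (ck c * Real.log (d.bs (rA (σ c))) +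
        (d.n * d.ll Z - ck c : ℕ) * Real.log (d.bt (rA (σ c)))) ≤
      (d.n * (d.ρ 0 * d.ρ 1 + d.ρ 1 ^ 2 / 2) * Real.log d.a + d.cA * Real.log d.b) * d.mt Z +
        K * d.er Z

-- deps: ROWS CNT2
def S_ARC2 : Prop :=
  ∀ d : Dat, ∃ K : ℝ, ∀ Z, 1 ≤ Z → ∀ σ : d.Col Z → d.Row Z, Function.Injective σ →
    ∑ c, (cx c / d.N + rj (σ c) * Real.log d.N) ≤
      (2 * (d.ρ 0 + d.ρ 1) / d.N + Real.log d.N *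
        (((d.E 0 : ℝ) ^ 2 + (d.E 1 : ℝ) ^ 2) / (d.D ^ 2 * (d.N * (d.N + 1))))) * d.mt Z + K * d.er Z

-- deps: ROWS CNT2
def S_ARC3 : Prop :=
  ∀ (d : Dat) (lam : Fin 2 → Fin (d.r + 2) → ℝ), (∀ A, ∑ k, lam A k = 0) →
    ∃ K : ℝ, ∀ Z, 1 ≤ Z → ∀ σ : d.Col Z → d.Row Z, Function.Injective σ →
      ∑ c, ∑ k, ri (σ c) k * lam (rA (σ c)) k ≤
        (d.E 0 * lam 0 0 + d.E 1 * lam 1 0) / (d.D * (d.N * (d.N + 1))) * d.mt Z + K * d.er Z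

-- deps: ROWS CNT1
def S_ARC4 : Prop :=
  ∀ (d : Dat) (Z : ℕ), 1 ≤ Z → ∀ σ : d.Col Z → d.Row Z, Function.Injective σ →
    ∑ c, (Real.log (fac (cz c)) - Real.log (fac (ri (σ c)))) ≤ 3 * d.er Z

-- deps: ARA ARC1 ARC2 ARC3 ARC4
def S_AR : Prop :=
  ∀ d : Dat, ∃ K : ℝ, ∀ Z, 1 ≤ Z → ∀ ι : d.Col Z → d.Row Z, Function.Injective ι → d.Del ι ≠ 0 →
    Real.log |(d.Del ι : ℝ)| ≤ d.cR * d.mt Z + K * d.er Z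

-- deps: ZL BASEF S2 S3
def S_INJ : Prop :=
  ∀ (d : Dat) (Z : ℕ) (c : d.Col Z → ℂ), (d.J Z).map (Int.castRingHom ℂ) *ᵥ c = 0 → c = 0

-- deps: INJ MINOR NORM VAB VXA VXC VPA VPC AR
def S_LOW : Prop :=
  ∀ d : Dat, ∃ K : ℝ, ∀ Z, 1 ≤ Z →
    (d.cA * (Real.log d.a + Real.log d.b) + d.cX * ((d.n - 1) * Real.log d.a - d.v * Real.log d.p) +
      d.cP * Real.log d.p) * d.mt Z ≤ d.cR * d.mt Z + K * d.er Z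

-- deps: LOW CNT1
def S_COMB : Prop :=
  ∀ d : Dat, d.cA * (Real.log d.a + Real.log d.b) +
    d.cX * ((d.n - 1) * Real.log d.a - d.v * Real.log d.p) + d.cP * Real.log d.p ≤ d.cR

-- deps: COMB
def S_KEY : Prop :=
  ∀ (d : Dat) (τ : ℕ), (∀ i, |d.g i 0| ≤ τ) →
    Ineq d.a d.p d.n d.v d.N τ (d.v * d.E 0 / d.D) (d.v * d.E 1 / d.D)

-- deps: UNIM
def S_PIG : Prop :=
  ∀ a b p n r τ : ℕ, 0 < b → b < a → a.Coprime b → p.Prime → ¬p ∣ a → ¬p ∣ b → τ < p →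
    (r + 2) * (p - 1) ≤ n * τ → τ < a ^ (r + 1) →
    ∃ (e : Fin (r + 2) → ℕ) (g : Matrix (Fin (r + 2)) (Fin (r + 2)) ℤ), Function.Injective e ∧
      (∀ i, e i < n) ∧ g.det = 1 ∧ (∀ i, g i 0 ≠ 0) ∧ (∀ i, |g i 0| ≤ τ) ∧
      (∀ i, (p : ℤ) ∣ (a : ℤ) ^ e i * (b : ℤ) ^ (n - e i) * g i 0 -
        (a : ℤ) ^ e 0 * (b : ℤ) ^ (n - e 0) * g 0 0) ∧
      (a : ℤ) ^ e 1 * (b : ℤ) ^ (n - e 1) * g 1 0 ≠ (a : ℤ) ^ e 0 * (b : ℤ) ^ (n - e 0) * g 0 0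

-- deps: PIG KEY
def S_CORE : Prop :=
  ∀ a b p n v r τ D E0 E1 : ℕ, 0 < b → b < a → a.Coprime b → p.Prime → 0 < n → 0 < v →
    (p : ℤ) ^ v ∣ (a : ℤ) ^ n - (b : ℤ) ^ n → ¬(p : ℤ) ^ (v + 1) ∣ (a : ℤ) ^ n - (b : ℤ) ^ n →
    0 < D → n * (E0 + E1) ≤ D * (r + 2) → D ≤ v * (E0 + E1) → τ < p →
    (r + 2) * (p - 1) ≤ n * τ → τ < a ^ (r + 1) →
    Ineq a p n v (r + 2) τ (v * E0 / D) (v * E1 / D)

-- deps: CORE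
def S_FINAL : Prop :=
  ∀ a b : ℕ, 0 < b → b < a → a.Coprime b → ∃ P₀ : ℕ, ∀ p : ℕ, p.Prime → P₀ < p →
    (padicValNat p (a ^ (p - 1) - b ^ (p - 1)) : ℝ) ≤ (p : ℝ) ^ (0.69 : ℝ)

end Pool.Agent.P.MP_09c11a_nt.W
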