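import Pool.Agent.P.MP_09c11a_nt.W.IfaceS

/-! Proofs of the steps S1, S2, S3, S5, S6, S7, S8, S9, S10, S11, TAY, HAT. -/

set_option autoImplicit false
set_option linter.unusedSectionVars false
set_option linter.unusedVariables false

namespace Pool.Agent.P.MP_09c11a_nt.W

section

open Finset Matrix

open MvPolynomial in
theorem s1_hom {N : ℕ} {R : Type} [CommRing R] (g : Matrix (Fin N) (Fin N) R) (z : Fin N → ℕ) :
    (∏ k, lin g k ^ z k).IsHomogeneous (∑ k, z k) :=
  IsHomogeneous.prod _ _ _ fun k _ => by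
    simpa [lin] using (IsHomogeneous.sum univ (fun l => C (g k l) * X l) 1
      fun l _ => isHomogeneous_C_mul_X (g k l) l).pow (z k)

open MvPolynomial in
theorem s1_exp {N Z : ℕ} {R : Type} [CommRing R] (g : Matrix (Fin N) (Fin N) R) {z : Fin N → ℕ}
    (hz : z ∈ Sx N Z) : ∏ k, lin g k ^ z k = ∑ y ∈ Sx N Z, monomial (fs y) (sym g y z) := by
  ext m
  have hm : fs m = m := by ext; rfl
  have e : ∀ y, fs y = m ↔ y = m := fun y =>
    ⟨fun h => by rw [← h]; rfl, fun h => by rw [h, hm]⟩
  simp only [coeff_sum, coeff_monomial, e, Finset.sum_ite_eq']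
  split_ifs with h
  · rw [sym, hm]
  · refine (s1_hom g z).coeff_eq_zero fun h' => h (mem_Sx.2 ?_)
    rw [← mem_Sx.1 hz, ← h', Finsupp.degree_eq_sum]

open MvPolynomial in
theorem p_S1 :
    S_S1 := by
  intro N Z R _ g h i z hz
  have e : ∀ k, lin (g * h) k = aeval (lin h) (lin g k) := fun k => by
    simp only [lin, Matrix.mul_apply, map_sum, map_mul, aeval_C, aeval_X, algebraMap_eq,
      Finset.sum_mul, Finset.mul_sum, mul_assoc]
    exact Finset.sum_comm
  have e2 : ∏ k, lin (g * h) k ^ z k = aeval (lin h) (∏ k, lin g k ^ z k) := by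
    simp only [e, map_prod, map_pow]
  rw [sym, e2, s1_exp g hz, map_sum, coeff_sum]
  refine Finset.sum_congr rfl fun y _ => ?_
  rw [aeval_monomial, algebraMap_eq, coeff_C_mul, Finsupp.prod_fintype _ _ (by simp), mul_comm]
  rfl

end

section

open Finset Matrix

open MvPolynomial in
theorem s2_diag {N : ℕ} {R : Type} [CommRing R] (c : Fin N → R) (i z : Fin N → ℕ) :
    sym (diagonal c) i z = if i = z then ∏ k, c k ^ z k else 0 := by
  have e : ∀ k, lin (diagonal c) k = C (c k) * X k := fun k => by
    rw [lin, Finset.sum_eq_single k (fun l _ hl => by simp [diagonal_apply_ne' _ hl]) (by simp)]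
    simp
  have e2 : ∏ k, lin (diagonal c) k ^ z k = monomial (fs z) (∏ k, c k ^ z k) := by
    simp only [e, mul_pow, Finset.prod_mul_distrib, monomial_eq, map_prod, map_pow]
    rw [Finsupp.prod_fintype _ _ (by simp)]
    rfl
  have e3 : fs z = fs i ↔ i = z :=
    ⟨fun h => funext fun k => (DFunLike.congr_fun h k).symm, fun h => by rw [h]⟩
  rw [sym, e2, coeff_monomial]
  simp only [e3]

open MvPolynomial in
theorem p_S2 (hS1 : S_S1) :
    S_S2 := by
  intro N R _ c g i z
  have hz : z ∈ Sx N (∑ k, z k) := mem_Sx.2 rfl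
  have h1 : ∀ i z : Fin N → ℕ, sym (1 : Matrix (Fin N) (Fin N) R) i z = if i = z then 1 else 0 :=
    fun i z => by simpa using s2_diag (fun _ => (1 : R)) i z
  refine ⟨s2_diag c i z, h1 i z, ?_, ?_⟩
  · rw [hS1 N _ R _ _ i z hz]
    simp only [s2_diag, mul_ite, mul_zero, Finset.sum_ite_eq', hz, if_true]
    exact mul_comm _ _
  · have h2 := hS1 N _ R g 1 i z hz
    rw [Matrix.mul_one] at h2
    rw [hS1 N _ R _ _ i z hz, h2, Finset.mul_sum]
    refine Finset.sum_congr rfl fun y _ => ?_
    rw [s2_diag, h1]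
    split_ifs with h
    · rw [h, one_mul]
    · simp

end

section

open Finset Matrix

open MvPolynomial in
theorem p_S3 :
    S_S3 := by
  intro N R R' _ _ φ g i z
  rw [sym, sym, ← coeff_map]
  simp [lin]

end

section

open Finset Matrix

theorem s5_ind {N : ℕ} (P : (Fin N → ℕ) → Prop) (h0 : P 0)
    (hs : ∀ z k, P z → P (z + Pi.single k 1)) (z : Fin N → ℕ) : P z := by
  obtain ⟨n, hn⟩ : ∃ n, ∑ k, z k = n := ⟨_, rfl⟩
  induction n generalizing z with
  | zero =>
    have : z = 0 := funext fun k => Finset.sum_eq_zero_iff.1 hn k (mem_univ k)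
    exact this ▸ h0
  | succ n ih =>
    obtain ⟨k, -, hk⟩ := Finset.exists_ne_zero_of_sum_ne_zero (s := univ) (f := z) (by omega)
    have e : z - Pi.single k 1 + Pi.single k 1 = z := funext fun j => by
      by_cases c : j = k
      · subst c; simp; omega
      · simp [c]
    rw [← e] at hn ⊢
    refine hs _ k (ih _ ?_)
    simp only [Pi.add_apply, Finset.sum_add_distrib, Finset.sum_pi_single', mem_univ,
      if_true] at hn
    omega

theorem s5_zero {N : ℕ} {R : Type} [CommRing R] (g : Matrix (Fin N) (Fin N) R)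
    (i : Fin N → ℕ) : sym g i 0 = if i = 0 then 1 else 0 := by
  classical
  have : (0 = fs i) ↔ i = 0 :=
    ⟨fun h => funext fun k => by simpa using (DFunLike.congr_fun h k).symm,
      fun h => Finsupp.ext fun k => by simp [h]⟩
  simp [sym, MvPolynomial.coeff_one, this]

theorem s5_rec {N : ℕ} {R : Type} [CommRing R] (g : Matrix (Fin N) (Fin N) R)
    (i z : Fin N → ℕ) (k : Fin N) : sym g i (z + Pi.single k 1) =
      ∑ l, if 0 < i l then g k l * sym g (i - Pi.single l 1) z else 0 := by
  have h : ∏ j, lin g j ^ (z + Pi.single k 1 : Fin N → ℕ) j = lin g k * ∏ j, lin g j ^ z j := by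
    simp only [Pi.add_apply, pow_add, Finset.prod_mul_distrib]
    rw [mul_comm, Finset.prod_eq_single k (fun j _ hj => by simp [hj]) (by simp)]
    simp
  rw [sym, h, lin, Finset.sum_mul, MvPolynomial.coeff_sum]
  refine Finset.sum_congr rfl fun l _ => ?_
  have e : fs i - Finsupp.single l 1 = fs (i - Pi.single l 1) := by
    ext j; simp [Finsupp.single_apply, Pi.single_apply, eq_comm]
  rw [mul_assoc, MvPolynomial.coeff_C_mul, MvPolynomial.coeff_X_mul', e]
  simp [sym, Nat.pos_iff_ne_zero]

theorem s5_wt {N : ℕ} (z : Fin N → ℕ) (k : Fin N) : wt (z + Pi.single k 1) = wt z + k := by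
  simp [wt, mul_add, Finset.sum_add_distrib, Pi.single_apply]

theorem s5_sub {N : ℕ} {i : Fin N → ℕ} {l : Fin N} (h : 0 < i l) :
    i - Pi.single l 1 + Pi.single l 1 = i := funext fun j => by
  by_cases c : j = l
  · subst c; simp; omega
  · simp [c]

theorem p_S5 :
    S_S5 := by
  intro N R _ g hg z
  induction z using s5_ind with
  | h0 => exact ⟨by simp [s5_zero], fun i hi => Or.inl (by simpa [s5_zero] using
      (by_contra fun h => hi (by simp [s5_zero, h]) : i = 0))⟩
  | hs z k ih =>
    have key : ∀ (i : Fin N → ℕ) (l : Fin N),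
        (if 0 < i l then g k l * sym g (i - Pi.single l 1) z else 0) ≠ 0 →
        (l = k ∧ i = z + Pi.single k 1) ∨ wt (z + Pi.single k 1) < wt i := by
      intro i l h
      have hl : 0 < i l := by_contra fun c => h (if_neg c)
      rw [if_pos hl] at h
      have hk : (k : ℕ) ≤ l := not_lt.1 fun c => h (by rw [hg k l c, zero_mul])
      have hw := s5_wt (i - Pi.single l 1) l
      rw [s5_sub hl] at hw
      rw [s5_wt]
      rcases ih.2 _ (right_ne_zero_of_mul h) with e | e
      · rcases hk.eq_or_lt with c | c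
        · obtain rfl : k = l := Fin.ext c
          exact Or.inl ⟨rfl, by rw [← e, s5_sub hl]⟩
        · rw [e] at hw; exact Or.inr (by omega)
      · exact Or.inr (by omega)
    refine ⟨?_, fun i hi => ?_⟩
    · rw [s5_rec, Finset.sum_eq_single k (fun l _ hl => by_contra fun c =>
        (key _ l c).elim (fun h => hl h.1) (lt_irrefl _)) (by simp), if_pos (by simp),
        add_tsub_cancel_right, ih.1]
      simp only [Pi.add_apply, pow_add, Finset.prod_mul_distrib]
      rw [mul_comm, Finset.prod_eq_single (s := univ)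
        (f := fun j => g j j ^ (Pi.single k 1 : Fin N → ℕ) j) k
        (fun j _ hj => by simp [hj]) (by simp)]
      simp
    · rw [s5_rec] at hi
      obtain ⟨l, -, hl⟩ := Finset.exists_ne_zero_of_sum_ne_zero hi
      exact (key i l hl).imp_left And.right

end

section

open Finset Matrix

theorem s6_ind {N : ℕ} (P : (Fin N → ℕ) → Prop) (h0 : P 0)
    (hs : ∀ z k, P z → P (z + Pi.single k 1)) (z : Fin N → ℕ) : P z := by
  obtain ⟨n, hn⟩ : ∃ n, ∑ k, z k = n := ⟨_, rfl⟩
  induction n generalizing z with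
  | zero =>
    have : z = 0 := funext fun k => Finset.sum_eq_zero_iff.1 hn k (mem_univ k)
    exact this ▸ h0
  | succ n ih =>
    obtain ⟨k, -, hk⟩ := Finset.exists_ne_zero_of_sum_ne_zero (s := univ) (f := z) (by omega)
    have e : z - Pi.single k 1 + Pi.single k 1 = z := funext fun j => by
      by_cases c : j = k
      · subst c; simp; omega
      · simp [c]
    rw [← e] at hn ⊢
    refine hs _ k (ih _ ?_)
    simp only [Pi.add_apply, Finset.sum_add_distrib, Finset.sum_pi_single', mem_univ,
      if_true] at hn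
    omega

theorem s6_zero {N : ℕ} {R : Type} [CommRing R] (g : Matrix (Fin N) (Fin N) R)
    (i : Fin N → ℕ) : sym g i 0 = if i = 0 then 1 else 0 := by
  classical
  have : (0 = fs i) ↔ i = 0 :=
    ⟨fun h => funext fun k => by simpa using (DFunLike.congr_fun h k).symm,
      fun h => Finsupp.ext fun k => by simp [h]⟩
  simp [sym, MvPolynomial.coeff_one, this]

theorem s6_rec {N : ℕ} {R : Type} [CommRing R] (g : Matrix (Fin N) (Fin N) R)
    (i z : Fin N → ℕ) (k : Fin N) : sym g i (z + Pi.single k 1) =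
      ∑ l, if 0 < i l then g k l * sym g (i - Pi.single l 1) z else 0 := by
  have h : ∏ j, lin g j ^ (z + Pi.single k 1 : Fin N → ℕ) j = lin g k * ∏ j, lin g j ^ z j := by
    simp only [Pi.add_apply, pow_add, Finset.prod_mul_distrib]
    rw [mul_comm, Finset.prod_eq_single k (fun j _ hj => by simp [hj]) (by simp)]
    simp
  rw [sym, h, lin, Finset.sum_mul, MvPolynomial.coeff_sum]
  refine Finset.sum_congr rfl fun l _ => ?_
  have e : fs i - Finsupp.single l 1 = fs (i - Pi.single l 1) := by
    ext j; simp [Finsupp.single_apply, Pi.single_apply, eq_comm]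
  rw [mul_assoc, MvPolynomial.coeff_C_mul, MvPolynomial.coeff_X_mul', e]
  simp [sym, Nat.pos_iff_ne_zero]

theorem p_S6 :
    S_S6 := by
  intro N R _ g π k0 l0 h i z
  induction z using s6_ind generalizing i with
  | h0 =>
    rw [s6_zero]
    split_ifs with c
    · simp [c]
    · exact dvd_zero _
  | hs z k ih =>
    rw [s6_rec]
    refine Finset.dvd_sum fun l _ => ?_
    split_ifs with hl
    · have h1 := ih (i - Pi.single l 1)
      by_cases hk : k = k0
      · refine ((pow_dvd_pow _ ?_).trans h1).mul_left _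
        subst hk
        by_cases e : l0 = l <;> simp [e] <;> omega
      · by_cases e : l0 = l
        · subst e
          refine (pow_dvd_pow _ ?_).trans
            (pow_succ' π _ ▸ mul_dvd_mul (h k hk) h1)
          simp [Ne.symm hk]; omega
        · refine ((pow_dvd_pow _ ?_).trans h1).mul_left _
          simp [Ne.symm hk, e]
    · exact dvd_zero _

end

section

open Finset Matrix MvPolynomial

theorem s7_ind {N : ℕ} {P : (Fin N → ℕ) → Prop} (h0 : P 0)
    (h1 : ∀ z k, P z → P (z + Pi.single k 1)) (z : Fin N → ℕ) : P z := by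
  induction h : ∑ k, z k generalizing z with
  | zero =>
    obtain rfl : z = 0 := funext fun k => sum_eq_zero_iff.1 h k (mem_univ k)
    exact h0
  | succ n ih =>
    obtain ⟨k, -, hk⟩ := exists_ne_zero_of_sum_ne_zero (h ▸ n.succ_ne_zero : ∑ k, z k ≠ 0)
    have e : z = z - Pi.single k 1 + Pi.single k 1 := funext fun l => by
      simp only [Pi.add_apply, Pi.sub_apply, Pi.single_apply]
      split_ifs with h2
      · subst h2; omega
      · omega
    rw [e]
    refine h1 _ k (ih _ ?_)
    rw [e] at h
    simpa [sum_add_distrib] using h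

section

variable {N : ℕ} {R : Type} [CommRing R] (g : Matrix (Fin N) (Fin N) R)

theorem s7_sub {i : Fin N → ℕ} {l : Fin N} (h : i l ≠ 0) :
    i - Pi.single l 1 + Pi.single l 1 = i := funext fun m => by
  simp only [Pi.add_apply, Pi.sub_apply, Pi.single_apply]
  split_ifs with h2
  · subst h2; omega
  · omega

theorem s7_Q (z : Fin N → ℕ) (k : Fin N) :
    ∏ l, lin g l ^ (z + Pi.single k 1 : Fin N → ℕ) l = lin g k * ∏ l, lin g l ^ z l := by
  simp only [Pi.add_apply, pow_add, prod_mul_distrib, Pi.single_apply, pow_ite, pow_one, pow_zero,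
    prod_ite_eq', mem_univ, if_true, mul_comm]

theorem s7_fac (z : Fin N → ℕ) (k : Fin N) : fac (z + Pi.single k 1) = (z k + 1) * fac z := by
  rw [fac, fac, ← mul_prod_erase _ _ (mem_univ k), ← mul_prod_erase univ _ (mem_univ k),
    ← mul_assoc, Pi.add_apply, Pi.single_eq_same, Nat.factorial_succ]
  congr 1
  exact prod_congr rfl fun l hl => by
    rw [Pi.add_apply, Pi.single_eq_of_ne (ne_of_mem_erase hl), add_zero]

theorem s7_der (k : Fin N) (i : Fin N → ℕ) : pderiv k (∏ l, lin g l ^ i l) =
    ∑ l, C (g l k * i l) * ∏ m, lin g m ^ (i - Pi.single l 1 : Fin N → ℕ) m := by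
  induction i using s7_ind with
  | h0 => simp
  | h1 i m ih =>
    have h1 : pderiv k (lin g m) = C (g m k) := by
      simp [lin, pderiv_X, Pi.single_apply]
    have h2 : ∀ l, C (g l k * ((i + Pi.single m 1 : Fin N → ℕ) l : ℕ)) *
        ∏ t, lin g t ^ (i + Pi.single m 1 - Pi.single l 1 : Fin N → ℕ) t =
        (if l = m then C (g m k) * ∏ t, lin g t ^ i t else 0) +
          lin g m * (C (g l k * i l) * ∏ t, lin g t ^ (i - Pi.single l 1 : Fin N → ℕ) t) := by
      intro l
      have h3 : C (g l k * i l) *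
          ∏ t, lin g t ^ (i + Pi.single m 1 - Pi.single l 1 : Fin N → ℕ) t =
          lin g m * (C (g l k * i l) * ∏ t, lin g t ^ (i - Pi.single l 1 : Fin N → ℕ) t) := by
        by_cases h : i l = 0
        · simp [h]
        · rw [mul_left_comm, ← s7_Q]
          conv_lhs => rw [← s7_sub h, add_right_comm, add_tsub_cancel_right]
          rw [s7_sub h]
      rw [← h3, Pi.add_apply, Pi.single_apply]
      split_ifs with h
      · subst h
        rw [add_tsub_cancel_right, Nat.cast_add, mul_add, map_add, add_mul, Nat.cast_one, mul_one,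
          add_comm]
      · rw [add_zero, zero_add]
    rw [s7_Q, pderiv_mul, h1, ih]
    simp only [h2, sum_add_distrib, sum_ite_eq', mem_univ, if_true, mul_sum]

theorem s7_fs (z : Fin N → ℕ) (k : Fin N) : fs (z + Pi.single k 1) = fs z + Finsupp.single k 1 :=
  Finsupp.ext fun l => by simp [Pi.single_apply, Finsupp.single_apply, eq_comm]

end

theorem p_S7 :
    S_S7 := by
  intro N R _ g i z
  induction z using s7_ind generalizing i with
  | h0 =>
    have h0 : fs (0 : Fin N → ℕ) = 0 := Finsupp.ext fun _ => rfl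
    have h1 : sym gᵀ 0 i = ∏ k, (0 : R) ^ i k := by
      rw [sym, h0, ← constantCoeff_eq, map_prod]
      simp [lin]
    rw [h1, sym]
    by_cases h : i = 0
    · subst h
      simp [fac, h0]
    · obtain ⟨k, hk⟩ := Function.ne_iff.1 h
      rw [prod_eq_zero (f := fun k => (0 : R) ^ i k) (mem_univ k) (zero_pow hk), mul_zero]
      simp only [Pi.zero_apply, pow_zero, prod_const_one, coeff_one]
      rw [if_neg fun h1 => hk (congrArg (fun f : Fin N →₀ ℕ => f k) h1).symm, mul_zero]
  | h1 z k ih =>
    have h1 : (fac (z + Pi.single k 1) : R) * sym gᵀ (z + Pi.single k 1) i =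
        fac z * coeff (fs z) (pderiv k (∏ l, lin gᵀ l ^ i l)) := by
      rw [coeff_pderiv, s7_fac, sym, s7_fs, fs_apply]
      push_cast
      ring
    rw [h1, s7_der, sym, s7_Q, lin, sum_mul, coeff_sum, coeff_sum, mul_sum, mul_sum]
    refine sum_congr rfl fun l _ => ?_
    rw [mul_assoc, coeff_C_mul, coeff_C_mul, coeff_X_mul', transpose_apply]
    by_cases h : i l = 0
    · simp [h]
    · have h2 := ih (i - Pi.single l 1)
      have h3 := s7_fac (i - Pi.single l 1) l
      have h4 := s7_fs (i - Pi.single l 1) l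
      have h5 := congrFun (s7_sub h) l
      rw [s7_sub h] at h3 h4
      rw [Pi.add_apply, Pi.single_eq_same] at h5
      rw [if_pos (Finsupp.mem_support_iff.2 h), h4, add_tsub_cancel_right, h3, h5, mul_left_comm,
        mul_left_comm (fac z : R), ← sym, ← sym, ← h2]
      push_cast
      ring

end

section

open Finset Matrix

theorem p_S8 (hS1 : S_S1) (hS2 : S_S2) (hS7 : S_S7) :
    S_S8 := by
  intro N Z g ρ h i hi z hz
  have hf : ∀ y : Fin N → ℕ, (0 : ℝ) < fac y := fun y =>
    Nat.cast_pos.2 (prod_pos fun k _ => Nat.factorial_pos _)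
  have h1 := hS1 N Z ℝ gᵀ g i i hi
  rw [h, (hS2 N ℝ _ g i i).1, if_pos rfl] at h1
  have h2 : ∀ y, sym g i y * sym gᵀ y i = sym g i y ^ 2 * fac i / fac y := fun y => by
    rw [eq_div_iff (hf y).ne', mul_assoc, mul_comm _ (fac y : ℝ), ← hS7 N ℝ g i y]
    ring
  have h3 : (∏ k, ρ k ^ i k) ^ 2 = ∏ k, (ρ k ^ 2) ^ i k := by
    rw [← prod_pow]
    exact prod_congr rfl fun k _ => pow_right_comm _ _ _
  rw [h3, h1, ← div_le_iff₀ (hf z)]
  simp only [h2]
  exact single_le_sum (f := fun y => sym g i y ^ 2 * fac i / fac y)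
    (fun y _ => div_nonneg (mul_nonneg (sq_nonneg _) (hf i).le) (hf y).le) hz

end

section

open Finset Matrix

theorem p_S9 (hS3 : S_S3) :
    S_S9 := by
  intro N R _ S g hg i z
  have e : g = (Matrix.of fun k l => (⟨g k l, hg k l⟩ : S)).map S.subtype := by
    ext k l; rfl
  rw [e, hS3 N S R S.subtype]
  exact SetLike.coe_mem _

end

section

open Finset Matrix

theorem s10_lin {N : ℕ} (g : Matrix (Fin N) (Fin N) ℝ) (M : ℝ) (hM : 0 ≤ M)
    (hg : ∀ k l, |g k l| ≤ M) (k : Fin N) (f : MvPolynomial (Fin N) ℝ) (B : ℝ)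
    (hf : ∀ m, |MvPolynomial.coeff m f| ≤ B) (m : Fin N →₀ ℕ) :
    |MvPolynomial.coeff m (lin g k * f)| ≤ (N * M) * B := by
  have hB : 0 ≤ B := (abs_nonneg _).trans (hf 0)
  rw [lin, Finset.sum_mul, MvPolynomial.coeff_sum]
  refine (Finset.abs_sum_le_sum_abs _ _).trans ?_
  have : ∀ l ∈ (univ : Finset (Fin N)),
      |MvPolynomial.coeff m (MvPolynomial.C (g k l) * MvPolynomial.X l * f)| ≤ M * B := by
    intro l _
    rw [mul_assoc, MvPolynomial.coeff_C_mul, abs_mul, MvPolynomial.coeff_X_mul']
    refine mul_le_mul (hg k l) ?_ (abs_nonneg _) hM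
    split_ifs
    · exact hf _
    · simpa using hB
  refine (Finset.sum_le_sum this).trans_eq ?_
  simp [mul_assoc]

theorem s10_pow {N : ℕ} (g : Matrix (Fin N) (Fin N) ℝ) (M : ℝ) (hM : 0 ≤ M)
    (hg : ∀ k l, |g k l| ≤ M) (k : Fin N) (f : MvPolynomial (Fin N) ℝ) (B : ℝ)
    (hf : ∀ m, |MvPolynomial.coeff m f| ≤ B) (n : ℕ) (m : Fin N →₀ ℕ) :
    |MvPolynomial.coeff m (lin g k ^ n * f)| ≤ (N * M) ^ n * B := by
  induction n generalizing m with
  | zero => simpa using hf m
  | succ n ih =>
    rw [pow_succ', pow_succ', mul_assoc, mul_assoc ((N : ℝ) * M)]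
    exact s10_lin g M hM hg k _ _ ih m

theorem p_S10 :
    S_S10 := by
  intro N Z g M hM hg i z hz
  have key : ∀ s : Finset (Fin N), ∀ m,
      |MvPolynomial.coeff m (∏ k ∈ s, lin g k ^ z k)| ≤ ((N : ℝ) * M) ^ (∑ k ∈ s, z k) := by
    intro s
    induction s using Finset.induction_on with
    | empty =>
      intro m
      rw [Finset.prod_empty, Finset.sum_empty, pow_zero, MvPolynomial.coeff_one]
      split_ifs <;> simp
    | insert k s hk ih =>
      rw [Finset.prod_insert hk, Finset.sum_insert hk, pow_add]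
      exact s10_pow g M hM hg k _ _ ih _
  have := key univ (fs i)
  rwa [mem_Sx.1 hz] at this

end

section

open Finset Matrix

open MvPolynomial in
theorem p_S11 :
    S_S11 := by
  intro N R _ g σ i z
  have e : ∀ k, lin g k = rename σ (lin (g.submatrix id σ) k) := fun k => by
    simp only [lin, map_sum, map_mul, rename_C, rename_X, submatrix_apply, id]
    exact (Equiv.sum_comp σ fun l => C (g k l) * X l).symm
  have e2 : fs (i ∘ σ.symm) = (fs i).mapDomain σ := by
    ext k
    simp [Finsupp.mapDomain_equiv_apply]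
  rw [sym, sym, e2, ← coeff_rename_mapDomain σ σ.injective]
  simp only [e, map_prod, map_pow]

end

section

open Finset Matrix

theorem p_TAY :
    S_TAY := by
  intro R _ β η x M j hx
  by_cases hj : j ≤ x
  · obtain ⟨y, rfl⟩ := Nat.exists_eq_add_of_le hj
    obtain ⟨w, rfl⟩ := Nat.exists_eq_add_of_le hx
    have e1 : j + y - j = y := by omega
    have e2 : j + y + w - (j + y) = w := by omega
    have e3 : j + y + w + 1 = j + (y + 1) + w := by omega
    rw [e1, e2, e3, Finset.sum_range_add, Finset.sum_range_add, Finset.sum_eq_zero (s := range j),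
      Finset.sum_eq_zero (s := range w), zero_add, add_zero, add_comm β η, add_pow,
      Finset.mul_sum, Finset.sum_mul]
    · refine Finset.sum_congr rfl fun k hk => ?_
      have hk' : k ≤ y := Nat.lt_succ_iff.1 (Finset.mem_range.1 hk)
      have c := Nat.choose_mul (n := j + y) (k := j + k) (s := j) (by omega)
      have e4 : j + k - j = k := by omega
      have e5 : j + (y + 1) + w - 1 - (j + k) = (y - k) + w := by omega
      have e6 : j + y + w - (j + k) = (y - k) + w := by omega
      rw [e1, e4] at c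
      have c' : ((j + y).choose (j + k) : R) * ((j + k).choose j : R) =
          ((j + y).choose j : R) * (y.choose k : R) := by exact_mod_cast congrArg (Nat.cast : ℕ → R) c
      rw [e4, e6, pow_add]
      linear_combination (-(η ^ k * β ^ (y - k) * β ^ w)) * c'
    · intro k _
      rw [Nat.choose_eq_zero_of_lt (n := j + y) (by omega)]
      simp
    · intro k hk
      rw [Nat.choose_eq_zero_of_lt (Finset.mem_range.1 hk)]
      simp
  · have hj' : x < j := not_le.1 hj
    rw [Nat.choose_eq_zero_of_lt hj', Finset.sum_eq_zero]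
    · simp
    · intro k _
      by_cases hk : k < j
      · by_cases hk2 : k ≤ x
        · rw [Nat.choose_eq_zero_of_lt hk]; simp
        · rw [Nat.choose_eq_zero_of_lt hk]; simp
      · rw [Nat.choose_eq_zero_of_lt (n := x) (by omega)]; simp

end

section

open Finset Matrix

theorem hat_in {I C R : Type} [Fintype C] [DecidableEq I] [CommRing R] {ι : C → I}
    (hι : Function.Injective ι) (A : Matrix I C R) (Q : Matrix I I R) (r : I) (c : C) :
    hat ι A Q r (ι c) = A r c := by
  have h : ∃ d, ι d = ι c := ⟨c, rfl⟩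
  simp only [hat, of_apply, dif_pos h, hι h.choose_spec]

theorem hat_out {I C R : Type} [Fintype C] [DecidableEq I] [CommRing R] {ι : C → I}
    (A : Matrix I C R) (Q : Matrix I I R) (r : I) {s : I} (h : ¬∃ c, ι c = s) :
    hat ι A Q r s = Q r s := by
  simp only [hat, of_apply, dif_neg h]

theorem p_HAT :
    S_HAT := by
  intro I C R _ _ _ _ _ ι Q J hι
  classical
  have h1 : hat ι (Q * J) Q = Q * hat ι J 1 := by
    ext r s
    by_cases h : ∃ c, ι c = s
    · obtain ⟨c, rfl⟩ := h
      simp only [hat_in hι, mul_apply]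
    · rw [hat_out _ _ _ h, mul_apply]
      simp only [hat_out _ _ _ h]
      rw [← mul_apply, Matrix.mul_one]
  rw [h1, det_mul]
  congr 1
  let e : C ⊕ {s // s ∉ Set.range ι} ≃ I :=
    (Equiv.sumCongr (Equiv.ofInjective ι hι) (Equiv.refl _)).trans (Equiv.sumCompl _)
  have e1 : ∀ c, e (Sum.inl c) = ι c := fun _ => rfl
  have e2 : ∀ s, e (Sum.inr s) = s.1 := fun _ => rfl
  have h2 : (hat ι J 1).submatrix e e =
      fromBlocks (J.submatrix ι id) 0 (Matrix.of fun s c => J s.1 c) 1 := by
    ext (a | a) (b | b)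
    · simp [e1, hat_in hι]
    · have : ι a ≠ b.1 := fun h => b.2 ⟨a, h⟩
      simp [e1, e2, hat_out _ _ _ b.2, one_apply_ne this]
    · simp [e1, e2, hat_in hι]
    · simp [e2, hat_out _ _ _ b.2, one_apply, Subtype.ext_iff]
  rw [← det_submatrix_equiv_self e, h2, det_fromBlocks_zero₁₂, det_one, mul_one]

end

end Pool.Agent.P.MP_09c11a_nt.W
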