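import Pool.Agent.P.MP_09c11a_nt.W.IfaceZ
import Pool.Agent.P.MP_09c11a_nt.W.IfaceS

/-! Proofs of the steps FSL0, FSLI, FSL1, LOC1, LOCG, CONJ, FS0, FS. -/

set_option autoImplicit false
set_option linter.unusedSectionVars false
set_option linter.unusedVariables false

namespace Pool.Agent.P.MP_09c11a_nt.W

section

open Finset Matrix WithZero Polynomial Pool.Agent.P.MP_6f117a_ag

theorem fsl0_det {K : Type} [Field K] (v : Valuation K ℤᵐ⁰) {I : Type} [Fintype I] [DecidableEq I]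
    (M : Matrix I I K) (r : I → ℤᵐ⁰) (h0 : ∀ i, r i ≠ 0) (h1 : ∀ i, v (M i i) = r i)
    (h2 : ∀ i j, j ≠ i → v (M i j) < r i) : v M.det = ∏ i, r i := by
  have hle : ∀ i j, v (M i j) ≤ r i := fun i j => by
    rcases eq_or_ne j i with rfl | h
    · exact (h1 _).le
    · exact (h2 i j h).le
  have hs : ∀ σ : Equiv.Perm I, v ((Equiv.Perm.sign σ : ℤ) : K) = 1 := fun σ => by
    rcases Int.units_eq_one_or (Equiv.Perm.sign σ) with e | e <;> simp [e]
  have hp : (∏ i, r i) ≠ 0 := Finset.prod_ne_zero_iff.2 fun i _ => h0 i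
  have hm : v (((Equiv.Perm.sign (1 : Equiv.Perm I) : ℤ) : K) * ∏ i, Mᵀ ((1 : Equiv.Perm I) i) i) =
      ∏ i, r i := by
    rw [map_mul, hs, one_mul, map_prod]
    exact Finset.prod_congr rfl fun i _ => h1 i
  rw [← det_transpose, det_apply', ← Finset.add_sum_erase _ _ (mem_univ (1 : Equiv.Perm I)),
    Valuation.map_add_eq_of_lt_left, hm]
  rw [hm]
  refine v.map_sum_lt hp fun σ hσ => ?_
  obtain ⟨i, hi⟩ : ∃ i, σ i ≠ i := by
    by_contra h
    push Not at h
    exact (Finset.mem_erase.1 hσ).1 (Equiv.ext h)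
  rw [map_mul, hs, one_mul, map_prod, ← Finset.mul_prod_erase _ _ (mem_univ i),
    ← Finset.mul_prod_erase _ r (mem_univ i)]
  have h3 : ∏ j ∈ univ.erase i, v (Mᵀ (σ j) j) ≤ ∏ j ∈ univ.erase i, r j :=
    Finset.prod_le_prod' fun j _ => hle j _
  have h4 : 0 < ∏ j ∈ univ.erase i, r j :=
    zero_lt_iff.2 (Finset.prod_ne_zero_iff.2 fun j _ => h0 j)
  exact (mul_le_mul_right h3 _).trans_lt (mul_lt_mul_of_pos_right (h2 i _ hi) h4)

theorem fsl0_joint (hPK : S_PK) {K : Type} [Field K] [Algebra ℂ K] (P : Pl K) {T : K} {s N n : ℕ}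
    {e : Fin N → ℕ} (μ : Matrix (Fin s) (Fin N) ℂ[X]) (hn : 0 < n) (he : Function.Injective e)
    (hl : ∀ i, e i < n) (hT : T ≠ 0) (k : Fin s → ℕ) (hk : ∀ j, (pk n e (μ j)).coeff (k j) ≠ 0)
    (hi : Function.Injective fun j => k j % n)
    (hx : ∀ j x, (pk n e (μ j)).coeff x ≠ 0 → x ≠ k j → P.v T ^ x < P.v T ^ k j) :
    ∃ J : Fin s → Fin N,
      P.v ((μ.map (aeval (T ^ n)) * diagonal fun i => T ^ e i).submatrix id J).det =
        P.v T ^ ∑ j, k j := by
  obtain ⟨p1, p2, -⟩ := hPK N n e hn he hl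
  choose J m hJ using fun j => p2 (μ j) (k j) (hk j)
  have hmod : ∀ i a, (e i + n * a) % n = e i := fun i a => by
    rw [Nat.add_mul_mod_self_left, Nat.mod_eq_of_lt (hl i)]
  have h0 : ∀ a : ℕ, P.v T ^ a ≠ 0 := fun a => pow_ne_zero _ (v_ne P hT)
  have ent : ∀ j i, (μ.map (aeval (T ^ n)) * diagonal fun i => T ^ e i) j i =
      ∑ a ∈ (μ j i).support, algebraMap ℂ K ((μ j i).coeff a) * T ^ (e i + n * a) := fun j i => by
    rw [Matrix.mul_diagonal, Matrix.map_apply, aeval_def, eval₂_eq_sum, Polynomial.sum,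
      Finset.sum_mul]
    exact Finset.sum_congr rfl fun a _ => by rw [pow_add, pow_mul]; ring
  have vt : ∀ j i a, a ∈ (μ j i).support →
      P.v (algebraMap ℂ K ((μ j i).coeff a) * T ^ (e i + n * a)) = P.v T ^ (e i + n * a) :=
    fun j i a ha => by rw [map_mul, P.v_const (mem_support_iff.1 ha), one_mul, map_pow]
  have lt : ∀ j i a, a ∈ (μ j i).support → e i + n * a ≠ k j →
      P.v (algebraMap ℂ K ((μ j i).coeff a) * T ^ (e i + n * a)) < P.v T ^ k j :=
    fun j i a ha h => by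
      rw [vt j i a ha]
      exact hx j _ (by rw [p1]; exact mem_support_iff.1 ha) h
  refine ⟨J, ?_⟩
  rw [← Finset.prod_pow_eq_pow_sum]
  refine fsl0_det P.v _ _ (fun j => h0 _) (fun j => ?_) fun j j' hj => ?_
  · have hm : m j ∈ (μ j (J j)).support := mem_support_iff.2 (by rw [← p1, ← hJ]; exact hk j)
    rw [submatrix_apply, id, ent, ← Finset.add_sum_erase _ _ hm, Valuation.map_add_eq_of_lt_left,
      vt _ _ _ hm, ← hJ]
    rw [vt _ _ _ hm, ← hJ]
    refine P.v.map_sum_lt (h0 _) fun a ha => lt _ _ _ (Finset.mem_erase.1 ha).2 fun h => ?_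
    rw [hJ j] at h
    exact (Finset.mem_erase.1 ha).1 (Nat.eq_of_mul_eq_mul_left hn (Nat.add_left_cancel h))
  · rw [submatrix_apply, id, ent]
    refine P.v.map_sum_lt (h0 _) fun a ha => lt _ _ _ ha fun h => hj (hi ?_)
    show k j' % n = k j % n
    rw [← h, hJ j', hmod, hmod]

theorem fsl0_ne (hPK : S_PK) {s N n : ℕ} {e : Fin N → ℕ} {μ : Matrix (Fin s) (Fin N) ℂ[X]}
    (hn : 0 < n) (he : Function.Injective e) (hl : ∀ i, e i < n) (h : Ind μ) (j : Fin s) :
    pk n e (μ j) ≠ 0 := fun h0 => by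
  have h1 : μ j = 0 := ((hPK N n e hn he hl).2.2.1 _).1 h0
  have h2 := congrFun (h (Pi.single j 1) (by rw [Matrix.single_one_vecMul]; exact h1)) j
  simp at h2

theorem p_FSL0 (hPK : S_PK) :
    S_FSL0 := by
  intro K _ _ P T s N n e μ hn he hl hR hT hv
  refine fsl0_joint hPK P μ hn he hl hT _ (fun j => ?_) hR.lo fun j x h1 h2 => ?_
  · exact trailingCoeff_nonzero_iff_nonzero.2 (fsl0_ne hPK hn he hl hR.ind j)
  · exact pow_lt_pow_right_of_lt_one₀ (zero_lt_iff.2 (v_ne P hT)) hv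
      (lt_of_le_of_ne (natTrailingDegree_le_of_ne_zero h1) h2.symm)

end

section

open Finset Matrix WithZero Polynomial Pool.Agent.P.MP_6f117a_ag

theorem p_FSLI (hPK : S_PK) :
    S_FSLI := by
  intro K _ _ P T s N n e μ hn he hl hR hv
  have hT : T ≠ 0 := fun h => by simp [h] at hv
  refine fsl0_joint hPK P μ hn he hl hT _ (fun j => ?_) hR.hi fun j x h1 h2 => ?_
  · exact leadingCoeff_ne_zero.2 (fsl0_ne hPK hn he hl hR.ind j)
  · exact pow_lt_pow_right₀ hv (lt_of_le_of_ne (le_natDegree_of_ne_zero h1) h2)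

end

section

open Finset Matrix WithZero Polynomial Pool.Agent.P.MP_6f117a_ag

theorem p_FSL1 (hMINOR2 : S_MINOR2) :
    S_FSL1 := by
  intro K _ _ P τ a s N μ g i0 hτ hI hg
  have hI' : Ind (μ.map (eval a) * g) := fun x hx => hI x (by
    rw [← vecMul_vecMul] at hx
    exact Matrix.eq_zero_of_vecMul_eq_zero hg hx)
  obtain ⟨J, hJ, hd, h0⟩ := hMINOR2 s N ℂ _ i0 hI'
  refine ⟨J, hJ, ?_, h0⟩
  have e1 : aeval τ ((μ * g.map C).submatrix id J).det =
      ((μ.map (aeval τ) * g.map (algebraMap ℂ K)).submatrix id J).det := by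
    rw [AlgHom.map_det]
    congr 1
    ext i j
    simp [Matrix.mul_apply, map_sum]
  have e2 : eval a ((μ * g.map C).submatrix id J).det =
      ((μ.map (eval a) * g).submatrix id J).det := by
    rw [← coe_evalRingHom, RingHom.map_det]
    congr 1
    ext i j
    simp [Matrix.mul_apply, eval_finsetSum]
  have h := P.v_aeval_sub hτ ((μ * g.map C).submatrix id J).det
  rw [e1, e2, ← P.v_const hd] at h
  exact (P.v.map_eq_of_sub_lt h).trans (P.v_const hd)

end

section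

open Finset Matrix WithZero Polynomial Pool.Agent.P.MP_6f117a_ag

section

variable {K : Type} [Field K] [Algebra ℂ K] {r s : ℕ}

theorem loc1_det {N : ℕ} (P : Pl K) (M : Matrix (Fin s) (Fin N) K) (d : Fin N → K)
    (J : Fin s → Fin N) (h : P.v (M.submatrix id J).det = 1) :
    P.v ((M * diagonal d).submatrix id J).det = ∏ j, P.v (d (J j)) := by
  have e : (M * diagonal d).submatrix id J = M.submatrix id J * diagonal fun j => d (J j) := by
    ext i j
    simp [Matrix.mul_diagonal]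
  rw [e, det_mul, map_mul, h, one_mul, det_diagonal, map_prod]

theorem loc1_tau (z : Zd K r) (P : Pl K) {A : Fin 2} (h : P.v (z.s A) < 1) :
    P.v (z.T ^ z.n - algebraMap ℂ K (z.a A)) < 1 := by
  rw [← z.hs, map_pow]
  exact pow_lt_one₀ zero_le h z.hD.ne'

theorem loc1_T (z : Zd K r) (P : Pl K) {A : Fin 2} (h : P.v (z.s A) < 1) : lg P z.T = 0 := by
  have h1 := loc1_tau z P h
  rw [← P.v_const (z.ane A)] at h1
  have h2 := (P.v.map_eq_of_sub_lt h1).trans (P.v_const (z.ane A))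
  rw [map_pow] at h2
  exact lg_of_v ((pow_eq_one_iff_of_nonneg zero_le z.hn.ne').1 h2)

theorem loc1_s (z : Zd K r) (P : Pl K) {A B : Fin 2} (h : P.v (z.s A) < 1) (hB : z.a A ≠ z.a B) :
    lg P (z.s B) = 0 := by
  have h0 := P.v_const (sub_ne_zero.2 hB)
  have h1 : P.v (z.s B ^ z.D - algebraMap ℂ K (z.a A - z.a B)) <
      P.v (algebraMap ℂ K (z.a A - z.a B)) := by
    rw [h0, z.hs, map_sub (algebraMap ℂ K), sub_sub_sub_cancel_right]
    exact loc1_tau z P h
  have h2 := (P.v.map_eq_of_sub_lt h1).trans h0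
  rw [map_pow] at h2
  exact lg_of_v ((pow_eq_one_iff_of_nonneg zero_le z.hD.ne').1 h2)

theorem loc1_H (hFSL1 : S_FSL1) (z : Zd K r) (μ : Matrix (Fin s) (Fin (r + 2)) ℂ[X])
    (hμ : Red z.n z.e μ) (P : Pl K) {A : Fin 2} (h : P.v (z.s A) < 1) {ε : ℤ}
    (hε : ε = 0 ∨ (ε = 1 ∧ ∃ j, (μ.map (eval (z.a A)) * z.g A) j 0 ≠ 0)) :
    ∃ J : Fin s → Fin (r + 2), exp (ε * z.E A * max (-lg P (z.s A)) 0) ≤
      P.v ((μ.map (aeval (z.T ^ z.n)) * z.H A).submatrix id J).det := by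
  obtain ⟨J, -, h1, h2⟩ := hFSL1 K P _ _ s _ μ (z.g A) 0 (loc1_tau z P h) (hμ.rk _ (z.ane A))
    (z.gdet A)
  refine ⟨J, ?_⟩
  have hl := (lg_neg_iff P (z.s_ne A)).2 h
  have e : P.v (z.s A ^ z.E A)⁻¹ = exp (z.E A * -lg P (z.s A)) := by
    rw [← exp_lg P (inv_ne_zero (pow_ne_zero _ (z.s_ne A))), lg_inv, lg_pow, mul_neg]
  have h3 : ∀ j ∈ (univ : Finset (Fin s)),
      1 ≤ P.v (if J j = 0 then (z.s A ^ z.E A)⁻¹ else 1) := fun j _ => by
    split_ifs
    · rw [e, ← exp_zero, exp_le_exp]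
      exact mul_nonneg (Int.natCast_nonneg _) (by omega)
    · rw [map_one]
  rw [Zd.H, ← Matrix.mul_assoc, loc1_det P _ _ J h1]
  rcases hε with rfl | ⟨rfl, h4⟩
  · rw [zero_mul, zero_mul, exp_zero]
    exact Finset.one_le_prod' h3
  · obtain ⟨j, hj⟩ := h2 h4
    refine le_trans ?_ (Finset.single_le_prod' h3 (mem_univ j))
    rw [if_pos hj, e, one_mul, max_eq_left (by omega)]

end

theorem p_LOC1 (hPK : S_PK) (hFSL0 : S_FSL0) (hFSLI : S_FSLI) (hFSL1 : S_FSL1) :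
    S_LOC1 := by
  intro K _ _ _ r s z μ ε hμ hε P
  rw [Fin.sum_univ_two]
  by_cases h0 : P.v (z.s 0) < 1
  · have e : z.ad.loc P = z.H 0 := if_pos h0
    rw [e, loc1_T z P h0, loc1_s z P h0 z.a01]
    simpa using loc1_H hFSL1 z μ hμ P h0 (hε 0)
  by_cases h1 : P.v (z.s 1) < 1
  · have e : z.ad.loc P = z.H 1 := (if_neg h0).trans (if_pos h1)
    rw [e, loc1_T z P h1, loc1_s z P h1 z.a01.symm]
    simpa using loc1_H hFSL1 z μ hμ P h1 (hε 1)
  have e : z.ad.loc P = diagonal fun i => z.T ^ z.e i := (if_neg h0).trans (if_neg h1)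
  have m : ∀ A, ¬P.v (z.s A) < 1 → max (-lg P (z.s A)) 0 = 0 := fun A h => by
    rw [← lg_neg_iff P (z.s_ne A)] at h
    exact max_eq_right (by omega)
  have ep : ∀ k : ℕ, exp (k * lg P z.T) = P.v z.T ^ k := fun k => by
    rw [← lg_pow, exp_lg P (pow_ne_zero _ z.T_ne), map_pow]
  rw [e, m 0 h0, m 1 h1, mul_zero, mul_zero, add_zero, add_zero]
  rcases lt_trichotomy (P.v z.T) 1 with h | h | h
  · obtain ⟨J, hJ⟩ := hFSL0 K P z.T s _ z.n z.e μ z.hn z.einj z.elt hμ z.T_ne h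
    have hl := (lg_neg_iff P z.T_ne).2 h
    refine ⟨J, le_of_eq ?_⟩
    rw [hJ, ← ep, max_eq_right hl.le, max_eq_left (by omega), mul_zero, mul_neg, zero_sub, neg_neg]
  · have hn : P.v (z.T ^ z.n) = 1 := by rw [map_pow, h, one_pow]
    obtain ⟨c, hc⟩ := P.res hn.le
    have c0 : c ≠ 0 := fun e => by
      rw [e, map_zero, sub_zero, hn] at hc
      exact hc.false
    obtain ⟨J, -, h2, -⟩ := hFSL1 K P _ _ s _ μ 1 0 hc (hμ.rk _ c0) (by simp)
    rw [Matrix.map_one _ (map_zero _) (map_one _), Matrix.mul_one] at h2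
    refine ⟨J, le_of_eq ?_⟩
    rw [loc1_det P _ _ J h2, lg_of_v h]
    simp [h]
  · obtain ⟨J, hJ⟩ := hFSLI K P z.T s _ z.n z.e μ z.hn z.einj z.elt hμ h
    have hl := (lg_pos_iff P z.T_ne).2 h
    refine ⟨J, le_of_eq ?_⟩
    rw [hJ, ← ep, max_eq_left hl.le, max_eq_right (by omega), mul_zero, sub_zero]

end

section

open Finset Matrix WithZero Polynomial Pool.Agent.P.MP_6f117a_ag

/-- A packed vector of width zero does not vanish against a vector with nonzero entries. -/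
theorem locg_lt (hPK : S_PK) {N n : ℕ} {e : Fin N → ℕ} (hn : 0 < n) (he : Function.Injective e)
    (hlt : ∀ i, e i < n) {w : Fin N → ℂ[X]} (hw : w ≠ 0) {a : ℂ} (ha : a ≠ 0) {g : Fin N → ℂ}
    (hg : ∀ i, g i ≠ 0) (h0 : ∑ i, (w i).eval a * g i = 0) :
    (pk n e w).natTrailingDegree < (pk n e w).natDegree := by
  obtain ⟨h1, h2, h3, -⟩ := hPK N n e hn he hlt
  by_contra hc
  have hp : pk n e w ≠ 0 := fun h => hw ((h3 w).1 h)
  have hk : (pk n e w).coeff (pk n e w).natDegree ≠ 0 := mt leadingCoeff_eq_zero.1 hp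
  obtain ⟨i, m, him⟩ := h2 w _ hk
  have key : ∀ i' m', (w i').coeff m' ≠ 0 → i' = i ∧ m' = m := fun i' m' h => by
    rw [← h1] at h
    have a1 := le_natDegree_of_ne_zero h
    have a2 := natTrailingDegree_le_of_ne_zero h
    have a3 : e i' + n * m' = e i + n * m := by omega
    have a4 : e i' = e i := by
      have := congrArg (· % n) a3
      simpa [Nat.mod_eq_of_lt (hlt i'), Nat.mod_eq_of_lt (hlt i)] using this
    refine ⟨he a4, Nat.eq_of_mul_eq_mul_left hn (by omega)⟩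
  have hc0 : (w i).coeff m ≠ 0 := by rw [← h1, ← him]; exact hk
  have hi : w i = monomial m ((w i).coeff m) := by
    ext m'
    rw [coeff_monomial]
    split_ifs with h
    · rw [h]
    · exact by_contra fun h' => h (key i m' h').2.symm
  rw [Finset.sum_eq_single i (fun i' _ hi' => by
    have : w i' = 0 := by
      ext m'
      exact by_contra fun h' => hi' (key i' m' (by simpa using h')).1
    rw [this, eval_zero, zero_mul]) (by simp), hi, eval_monomial] at h0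
  exact mul_ne_zero (mul_ne_zero hc0 (pow_ne_zero _ ha)) (hg i) h0

theorem locg_row {s N : ℕ} {μ : Matrix (Fin s) (Fin N) ℂ[X]} (h : Ind μ) (j : Fin s) :
    μ j ≠ 0 := fun h0 => by
  have := congrFun (h (Pi.single j 1) (by rw [Matrix.single_one_vecMul]; exact h0)) j
  simp at this

theorem p_LOCG (hPK : S_PK) (hLOC1 : S_LOC1) :
    S_LOCG := by
  classical
  intro K _ _ _ r s z μ hs hred
  set ε : Fin 2 → ℤ := fun A =>
    if ∃ j, (μ.map (eval (z.a A)) * z.g A) j 0 ≠ 0 then 1 else 0 with hε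
  have hε0 : ∀ A, 0 ≤ ε A := fun A => by simp only [hε]; split_ifs <;> norm_num
  have hloc := hLOC1 K r s z μ ε hred fun A => by
    simp only [hε]
    split_ifs with h
    · exact Or.inr ⟨rfl, h⟩
    · exact Or.inl rfl
  set Hi : ℕ := ∑ j, (pk z.n z.e (μ j)).natDegree with hHi
  set Lo : ℕ := ∑ j, (pk z.n z.e (μ j)).natTrailingDegree with hLo
  have hsT : ∀ A, Transcendental ℂ (z.s A) := fun A h =>
    trans_sub z.trans_pow (z.a A) (by rw [← z.hs]; exact h.pow _)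
  have hdg : ∀ A, (z.D : ℤ) * dg (z.s A) = z.n * dg z.T := fun A => by
    have h := dg_pow (hsT A) z.hD
    rw [z.hs, dg_sub, dg_pow z.hT z.hn] at h
    exact_mod_cast h.symm
  have f1 : Fs fun P : Pl K => (Hi : ℤ) * max (lg P z.T) 0 := (fs_pole z.T).mul fun _ => _
  have f2 : Fs fun P : Pl K => (Lo : ℤ) * max (-lg P z.T) 0 := (fs_zeros z.T).mul fun _ => _
  have f3 : ∀ A ∈ (univ : Finset (Fin 2)),
      Fs fun P : Pl K => ε A * z.E A * max (-lg P (z.s A)) 0 :=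
    fun A _ => (fs_zeros (z.s A)).mul fun _ => _
  refine ⟨_, (f1.sub f2).add (fs_sum _ _ f3), hloc, ?_⟩
  rw [tot_add (f1.sub f2) (fs_sum _ _ f3), tot_sub f1 f2, tot_sum _ _ f3, tot_mul _ (fs_pole z.T),
    tot_mul _ (fs_zeros z.T), tot_pole z.hT, tot_zeros z.hT, Fin.sum_univ_two,
    tot_mul _ (fs_zeros _), tot_mul _ (fs_zeros _), tot_zeros (hsT 0), tot_zeros (hsT 1)]
  have hd : (0 : ℤ) ≤ dg z.T := Int.natCast_nonneg _
  have hD : (0 : ℤ) ≤ z.D := Int.natCast_nonneg _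
  have hr : (0 : ℤ) ≤ (r : ℤ) + 2 := by positivity
  by_cases hgood : ∀ A, ∃ j, (μ.map (eval (z.a A)) * z.g A) j 0 ≠ 0
  · have e0 : ε 0 = 1 := if_pos (hgood 0)
    have e1 : ε 1 = 1 := if_pos (hgood 1)
    have hle : (Lo : ℤ) ≤ Hi := by
      exact_mod_cast Finset.sum_le_sum fun j _ => natTrailingDegree_le_natDegree _
    have hs' : (s : ℤ) ≤ r + 2 := by exact_mod_cast hs
    have a1 : (0 : ℤ) ≤ (z.E 0 + z.E 1) * z.n * dg z.T := by positivity
    have a2 : (0 : ℤ) ≤ z.D * (r + 2) * ((Hi - Lo) * dg z.T) :=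
      mul_nonneg (mul_nonneg hD hr) (mul_nonneg (sub_nonneg.2 hle) hd)
    have a3 := mul_le_mul_of_nonneg_right hs' a1
    rw [e0, e1]
    have a4 : (z.D : ℤ) * (r + 2) * (Hi * dg z.T - Lo * dg z.T +
        (1 * z.E 0 * dg (z.s 0) + 1 * z.E 1 * dg (z.s 1))) =
        z.D * (r + 2) * ((Hi - Lo) * dg z.T) +
          (r + 2) * (z.E 0 * (z.D * dg (z.s 0)) + z.E 1 * (z.D * dg (z.s 1))) := by ring
    rw [a4, hdg, hdg]
    nlinarith
  · push Not at hgood
    obtain ⟨A, hA⟩ := hgood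
    have hlt : ∀ j, (pk z.n z.e (μ j)).natTrailingDegree + 1 ≤ (pk z.n z.e (μ j)).natDegree :=
      fun j => locg_lt hPK z.hn z.einj z.elt (locg_row hred.ind j) (z.ane A) (z.gne A)
        (by simpa [Matrix.mul_apply] using hA j)
    have hle : Lo + s ≤ Hi := by
      simpa [Finset.sum_add_distrib] using
        Finset.sum_le_sum fun j (_ : j ∈ (univ : Finset (Fin s))) => hlt j
    have hle' : (s : ℤ) ≤ Hi - Lo := by omega
    have hE : (z.n : ℤ) * (z.E 0 + z.E 1) ≤ z.D * (r + 2) := by exact_mod_cast z.hE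
    have b0 : (0 : ℤ) ≤ ε 0 * z.E 0 * dg (z.s 0) := by have := hε0 0; positivity
    have b1 : (0 : ℤ) ≤ ε 1 * z.E 1 * dg (z.s 1) := by have := hε0 1; positivity
    have b2 : (s : ℤ) * dg z.T ≤ Hi * dg z.T - Lo * dg z.T +
        (ε 0 * z.E 0 * dg (z.s 0) + ε 1 * z.E 1 * dg (z.s 1)) := by
      have := mul_le_mul_of_nonneg_right hle' hd
      linarith
    have b3 : (0 : ℤ) ≤ s * dg z.T := by positivity
    calc (s : ℤ) * ((z.E 0 + z.E 1) * z.n * dg z.T) = z.n * (z.E 0 + z.E 1) * (s * dg z.T) := by ring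
      _ ≤ z.D * (r + 2) * (s * dg z.T) := mul_le_mul_of_nonneg_right hE b3
      _ ≤ _ := mul_le_mul_of_nonneg_left b2 (mul_nonneg hD hr)

end

section

open Finset Matrix WithZero Polynomial Pool.Agent.P.MP_6f117a_ag

section

variable {K : Type} [Field K] [Algebra ℂ K]

/-- The conjugate place. -/
noncomputable def conjP (σ : K ≃ₐ[ℂ] K) (P : Pl K) : Pl K where
  v := P.v.comap (σ : K →+* K)
  surj y := by
    obtain ⟨x, hx⟩ := P.surj y
    exact ⟨σ.symm x, by simpa using hx⟩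
  triv c := by simp [P.triv c]

theorem conjP_v (σ : K ≃ₐ[ℂ] K) (P : Pl K) (x : K) : (conjP σ P).v x = P.v (σ x) := rfl

/-- Conjugation as a permutation of the places. -/
noncomputable def conjE (σ : K ≃ₐ[ℂ] K) : Pl K ≃ Pl K where
  toFun := conjP σ
  invFun := conjP σ.symm
  left_inv P := Place.ext' (Valuation.ext fun x => by simp [conjP_v])
  right_inv P := Place.ext' (Valuation.ext fun x => by simp [conjP_v])

theorem conj_pow (σ : K ≃ₐ[ℂ] K) (P : Pl K) {x : K} {n : ℕ} (hn : 0 < n) (h : σ (x ^ n) = x ^ n) :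
    P.v (σ x) = P.v x :=
  (pow_left_inj₀ zero_le zero_le hn.ne').1 (by rw [← map_pow, ← map_pow, h, map_pow])

theorem conj_bd {N : ℕ} (σ : K ≃ₐ[ℂ] K) (P : Pl K) (β : ℤ) (lam dd : Fin N → K)
    (g : Matrix (Fin N) (Fin N) ℂ) (hd : ∀ i, P.v (σ (dd i)) = P.v (dd i))
    (h : Bd (conjP σ P) β (lam ᵥ* (g.map (algebraMap ℂ K) * diagonal dd))) :
    Bd P β ((fun i => σ (lam i)) ᵥ* (g.map (algebraMap ℂ K) * diagonal dd)) := fun i => by
  have h1 := h i
  have e : ((fun i => σ (lam i)) ᵥ* g.map (algebraMap ℂ K)) i =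
      σ ((lam ᵥ* g.map (algebraMap ℂ K)) i) := by
    simp [Matrix.vecMul, dotProduct]
  rw [← vecMul_vecMul, vecMul_diagonal] at h1 ⊢
  rw [conjP_v, map_mul, map_mul, hd] at h1
  rwa [e, map_mul]

end

theorem p_CONJ :
    S_CONJ := by
  intro K _ _ r z σ lam b hσ hb h
  refine ⟨fun P => b (conjE σ P), ?_, finsum_comp_equiv (conjE σ), fun P => ?_⟩
  · exact Set.Finite.preimage (conjE σ).injective.injOn hb
  have hT : P.v (σ z.T) = P.v z.T := conj_pow σ P z.hn hσ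
  have hs : ∀ A, P.v (σ (z.s A)) = P.v (z.s A) := fun A =>
    conj_pow σ P z.hD (by rw [z.hs, map_sub, hσ, AlgEquiv.commutes])
  have hH : ∀ A β, Bd (conjP σ P) β (lam ᵥ* z.H A) → Bd P β ((fun i => σ (lam i)) ᵥ* z.H A) :=
    fun A β => conj_bd σ P β lam _ _ fun i => by
      split_ifs
      · rw [map_inv₀, map_inv₀, map_inv₀, map_pow, map_pow, map_pow, hs]
      · rw [map_one]
  have h1 := h (conjP σ P)
  have e0 : (conjP σ P).v z.ad.f1 = P.v z.ad.f1 := hs 0
  have e1 : (conjP σ P).v z.ad.f2 = P.v z.ad.f2 := hs 1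
  change Bd P (b (conjP σ P)) _
  unfold Ad.loc at h1 ⊢
  rw [e0, e1] at h1
  split_ifs at h1 ⊢
  · exact hH 0 _ h1
  · exact hH 1 _ h1
  have := conj_bd σ P (b (conjP σ P)) lam (fun i => z.T ^ z.e i) 1
    (fun i => by rw [map_pow, map_pow, map_pow, hT])
  rw [Matrix.map_one _ (map_zero _) (map_one _), one_mul] at this
  exact this h1

end

section

open Finset Matrix WithZero Polynomial Pool.Agent.P.MP_6f117a_ag

theorem p_FS0 (hFSGAL : S_FSGAL) (hRED : S_RED) (hSPI : S_SPI) (hLOCG : S_LOCG) (hCONJ : S_CONJ) :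
    S_FS0 := by
  intro K _ _ _ r z lam b hG hl hb hB
  obtain ⟨s, σ, M, μ, hs, hsN, hσ, hM, hμ, hlam⟩ :=
    hFSGAL K (r + 2) (z.T ^ z.n) lam z.trans_pow hG hl
  obtain ⟨ν, ⟨q, M', hq, hqM⟩, hν⟩ := hRED s (r + 2) z.n z.e μ z.hn z.einj z.elt hμ
  have hM' := (hSPI s (r + 2) μ ν q M' hμ hq hqM).1
  choose b' hb' ht' hB' using fun j => hCONJ K r z (σ j) lam b (hσ j) hb hB
  obtain ⟨γ, hγ, hJ, hle⟩ := hLOCG K r s z ν hsN hν
  have hτ := z.trans_pow
  generalize z.T ^ z.n = τ at hlam hJ hτ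
  have q0 : aeval τ q ≠ 0 := aeval_ne hτ hq
  obtain ⟨C', hC'⟩ : ∃ C' : Matrix (Fin s) (Fin s) K,
    C' = M * ((aeval τ q)⁻¹ • M'.map (aeval τ)) := ⟨_, rfl⟩
  have hC : C'.det ≠ 0 := by
    rw [hC', det_mul, det_smul]
    refine mul_ne_zero hM (mul_ne_zero (pow_ne_zero _ (inv_ne_zero q0)) ?_)
    rw [← AlgHom.mapMatrix_apply, ← AlgHom.map_det]
    exact aeval_ne hτ hM'
  have hμν : M * μ.map (aeval τ) = C' * ν.map (aeval τ) := by
    rw [hC', Matrix.mul_assoc, Matrix.smul_mul, ← Matrix.map_mul, ← hqM]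
    congr 1
    ext j i
    simp only [Matrix.map_apply, Matrix.smul_apply, smul_eq_mul, map_mul]
    rw [inv_mul_cancel_left₀ q0]
  have key : ∀ P, lg P C'.det + γ P ≤ ∑ j, b' j P := by
    intro P
    obtain ⟨J, hJ⟩ := hJ P
    have h1 := v_det_le P (C' * (ν.map (aeval τ) * z.ad.loc P).submatrix id J) (fun j => b' j P)
      fun j i => by
        have h2 := hB' j P (J i)
        have h3 : (fun i => σ j (lam i)) = (C' * ν.map (aeval τ)) j := by
          funext i; rw [hlam, hμν]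
        rw [h3] at h2
        have h4 : C' * (ν.map (aeval τ) * z.ad.loc P).submatrix id J =
            (C' * ν.map (aeval τ) * z.ad.loc P).submatrix id J := by
          rw [Matrix.mul_assoc]; rfl
        rw [h4]
        exact h2
    rw [det_mul, map_mul, ← exp_lg P hC] at h1
    have h5 := (mul_le_mul_right hJ _).trans h1
    rwa [← exp_add, exp_le_exp] at h5
  have h6 := tot_le ((fs_lg C'.det).add hγ) (fs_sum _ _ fun j _ => hb' j) key
  rw [tot_add (fs_lg _) hγ, tot_lg, zero_add, tot_sum _ _ fun j _ => hb' j] at h6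
  simp only [ht', Finset.sum_const, Finset.card_univ, Fintype.card_fin, nsmul_eq_mul] at h6
  have h7 : (0 : ℤ) ≤ z.D * (r + 2) := by positivity
  have h8 := hle.trans (mul_le_mul_of_nonneg_left h6 h7)
  rw [mul_left_comm ((z.D : ℤ) * (r + 2))] at h8
  exact le_of_mul_le_mul_left h8 (by exact_mod_cast hs)

end

section

open Finset Matrix WithZero Polynomial Pool.Agent.P.MP_6f117a_ag

theorem p_FS (hFS0 : S_FS0) (hGALX : S_GALX) (hRES : S_RES) :
    S_FS := by
  intro K _ _ _ r z K' _ _ _ φ lam b hl hb hB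
  obtain ⟨K'', _, _, _, ψ, hG⟩ := hGALX K' ((z.map φ).T ^ (z.map φ).n) (z.map φ).trans_pow
  obtain ⟨ℛ⟩ := hRES K' K'' ψ (φ z.T) (trans_map φ z.hT)
  rw [map_pow] at hG
  have h1 := hFS0 K'' r ((z.map φ).map ψ) (fun i => ψ (lam i))
    (fun P => ℛ.e P * b (ℛ.ρ P)) hG
    (fun h => hl (funext fun i => (map_eq_zero ψ).1 (congrFun h i))) (ℛ.fs hb) fun P j => by
      rw [Zd.ad_map, Zd.ad_map, ℛ.loc_map]
      have h2 := ℛ.le_exp P (hB (ℛ.ρ P) j)
      refine le_of_eq_of_le (congrArg _ ?_) h2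
      simp only [Matrix.vecMul, dotProduct, map_sum, map_mul, Matrix.map_apply]
  rw [ℛ.sum b hb] at h1
  have h3 : dg ((z.map φ).map ψ).T = ℛ.d * dg (φ z.T) := ℛ.deg _ (trans_map φ z.hT)
  rw [h3] at h1
  have h4 : ((z.E 0 + z.E 1) * z.n * dg (φ z.T) : ℤ) ≤ z.D * (r + 2) * tot b := by
    refine le_of_mul_le_mul_left (a := (ℛ.d : ℤ)) ?_ (by exact_mod_cast ℛ.dpos)
    simp only [Zd.map, Nat.cast_mul] at h1
    linarith
  have hD := z.hD
  rw [div_mul_eq_mul_div, div_le_iff₀ (by positivity), mul_comm ((tot b : ℤ) : ℝ)]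
  exact_mod_cast h4

end

end Pool.Agent.P.MP_09c11a_nt.W
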